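import Pool.Agent.N636.SF.Std

/-!
# SF/A: no standard trigger for the current state (helper79)
-/

set_option autoImplicit false

namespace Pool.Agent.N636.SF

namespace P_A

section order
variable {M : Type} [Arith M]

theorem lt_num (halg : S_alg) (hM : IsPA M) {x : M} {k : ℕ} (h : Lt x (num M k)) :
    ∃ m < k, x = num M m := by
  obtain ⟨_, _, _, _, h0, hs, ha, hm, hlt, hd, hn, hb⟩ := halg M hM
  rw [hlt, hn] at h
  obtain ⟨m, hm, hx⟩ := hb x k h
  exact ⟨m, hm, by rw [hn]; exact hx⟩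

theorem num_lt (halg : S_alg) (hM : IsPA M) {m k : ℕ} (h : m < k) :
    Lt (num M m) (num M k) := by
  obtain ⟨_, _, _, _, h0, hs, ha, hm, hlt, hd, hn, hb⟩ := halg M hM
  rw [hlt, hn, hn]
  exact_mod_cast h

theorem lt_of_not (halg : S_alg) (hM : IsPA M) {x y : M} (h : ¬ Lt x (Arith.succ y)) :
    Lt y x := by
  obtain ⟨_, _, _, _, h0, hs, ha, hm, hlt, hd, hn, hb⟩ := halg M hM
  rw [hlt, hs, not_lt] at h
  rw [hlt]
  exact lt_of_lt_of_le (lt_add_one y) h

end order

section scheme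
variable (N0 : ℕ) {M : Type} [Arith M] (d : M) (J : ℕ → ℕ)

theorem vec_succ (p : ℕ) : vec N0 d J (p + 1) = state N0 d J p :: vec N0 d J p := rfl

theorem vec_length (p : ℕ) : (vec N0 d J p).length = p := by
  induction p with
  | zero => rfl
  | succ p ih => rw [vec_succ, List.length_cons, ih]

theorem reach_zero (s : List ℕ) : Reach N0 d 0 s := by
  intro j' h1 h2
  omega

theorem reach_state (p : ℕ) : Reach N0 d (state N0 d J p) (vec N0 d J p) := by
  classical
  unfold state
  exact Nat.findGreatest_spec (P := fun j => Reach N0 d j (vec N0 d J p)) (Nat.zero_le (J p))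
    (reach_zero N0 d _)

theorem le_state {p j : ℕ} (hj : j ≤ J p) (h : Reach N0 d j (vec N0 d J p)) :
    j ≤ state N0 d J p := by
  classical
  unfold state
  exact Nat.le_findGreatest hj h

theorem state_le (p : ℕ) : state N0 d J p ≤ J p := by
  classical
  unfold state
  exact Nat.findGreatest_le _

theorem bdS_vec {p m : ℕ} (h : p ≤ m) {k : M} (hk : BdS N0 d (vec N0 d J m) k) :
    BdS N0 d (vec N0 d J p) k := by
  induction m, h using Nat.le_induction with
  | base => exact hk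
  | succ m _ ih => exact ih hk.1

end scheme

section bits
variable {D : Fm} {N0 : ℕ} {J : ℕ → ℕ}

theorem rset_tab (i c l b : ℕ) :
    prN 0 (prN (prN (prN i c) l) b) ∈ rset D N0 J ↔ TabP i c l b := by
  constructor
  · rintro (⟨i', c', l', b', h, ht⟩ | ⟨j, s, k, i', h, _⟩)
    · obtain ⟨_, h1⟩ := prN_inj h
      obtain ⟨h2, h3⟩ := prN_inj h1
      obtain ⟨h4, h5⟩ := prN_inj h2
      obtain ⟨h6, h7⟩ := prN_inj h4
      subst h3 h5 h6 h7
      exact ht
    · exact absurd (prN_inj h).1 (by norm_num)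
  · intro h
    exact Or.inl ⟨i, c, l, b, rfl, h⟩

theorem rset_trig (j : ℕ) (s : List ℕ) (k i : ℕ) :
    prN 1 (prN (prN (cdN j s) k) i) ∈ rset D N0 J ↔ RR D N0 J j s k i := by
  constructor
  · rintro (⟨i', c', l', b', h, ht⟩ | ⟨j', s', k', i', h, hr⟩)
    · exact absurd (prN_inj h).1 (by norm_num)
    · obtain ⟨_, h1⟩ := prN_inj h
      obtain ⟨h2, h3⟩ := prN_inj h1
      obtain ⟨h4, h5⟩ := prN_inj h2
      unfold cdN at h4
      have h6 := Encodable.encode_injective h4
      rw [Prod.mk.injEq] at h6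
      obtain ⟨h7, h8⟩ := h6
      subst h3 h5 h7 h8
      exact hr
  · intro h
    exact Or.inr ⟨j, s, k, i, rfl, h⟩

variable {M : Type} [Arith M]

/-- The truth predicates are correct at the distinguished element. -/
theorem tb_iff (hU2 : S_U2) (hM : IsPA M) {d : M} (hB : Base D N0 J d) (n i : ℕ) :
    Tb n d (num M i) [] ↔ Vb n i (fun _ => (Arith.zero : M)) :=
  hU2 M hM d (fun i c l b => (hB.2 _).trans (rset_tab i c l b)) n i

theorem bit_iff (hM : IsPA M) {d : M} (hB : Base D N0 J d) (j : ℕ) (s : List ℕ) (k i : ℕ) :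
    Bit d (pr (Arith.succ Arith.zero) (pr (pr (num M (cdN j s)) (num M k)) (num M i))) ↔
      RR D N0 J j s k i := by
  rw [← rset_trig, ← hB.2, num_pr hM, num_pr hM, num_pr hM]
  rfl

end bits

end P_A

open P_A in
theorem prf_A (halg : S_alg) (hU2 : S_U2) : S_A := by
  intro D N0 J M _ hM d hB k
  induction k using Nat.strong_induction_on with
  | _ k ih =>
  intro p hp hT
  obtain ⟨i, hi, hbit, htb⟩ := hT.2
  obtain ⟨i', hi', rfl⟩ := lt_num halg hM hi
  rw [bit_iff hM hB] at hbit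
  rw [tb_iff hU2 hM hB] at htb
  have hr := hbit M hM d hB.1 htb
  rw [vec_length] at hr
  push Not at hr
  obtain ⟨m, hpm, hmk, hm⟩ := hr rfl rfl
  obtain ⟨k'', hk''⟩ := reach_state N0 d J m (state N0 d J m) (Nat.one_le_iff_ne_zero.2 hm) le_rfl
  have h1 : BdS N0 d (vec N0 d J (p + 1)) k'' := bdS_vec N0 d J hpm hk''.1
  rw [vec_succ] at h1
  have h2 : ¬ Lt (num M k) (Arith.succ k'') := fun h => h1.2 hp _ h hT
  obtain ⟨k0, hk0, rfl⟩ := lt_num halg hM (lt_of_not halg hM h2)
  exact ih k0 hk0 m (Nat.one_le_iff_ne_zero.2 hm) hk''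

end Pool.Agent.N636.SF
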