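import Pool.Agent.N636.SF.Stm

/-!
# Algebra in models of PA
-/

set_option autoImplicit false

namespace Pool.Agent.N636.SF

namespace P_ALG

section laws

variable {M : Type} [Arith M]


theorem zero_add' (hM : IsPA M) (x : M) : Arith.add Arith.zero x = x := by
  refine hM.ind (.eq (.add .zero (.var 0)) (.var 0)) (fun _ => Arith.zero) ?_ ?_ x
  · exact hM.add_zero _
  · intro a (h : Arith.add Arith.zero a = a)
    change Arith.add Arith.zero (Arith.succ a) = Arith.succ a
    rw [hM.add_succ, h]

theorem succ_add' (hM : IsPA M) (x y : M) :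
    Arith.add (Arith.succ x) y = Arith.succ (Arith.add x y) := by
  refine hM.ind (.eq (.add (.succ (.var 1)) (.var 0)) (.succ (.add (.var 1) (.var 0))))
    (cons x fun _ => Arith.zero) ?_ ?_ y
  · change Arith.add (Arith.succ x) Arith.zero = Arith.succ (Arith.add x Arith.zero)
    rw [hM.add_zero, hM.add_zero]
  · intro a (h : Arith.add (Arith.succ x) a = Arith.succ (Arith.add x a))
    change Arith.add (Arith.succ x) (Arith.succ a) = Arith.succ (Arith.add x (Arith.succ a))
    rw [hM.add_succ, hM.add_succ, h]

theorem add_comm' (hM : IsPA M) (x y : M) : Arith.add x y = Arith.add y x := by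
  refine hM.ind (.eq (.add (.var 0) (.var 1)) (.add (.var 1) (.var 0)))
    (cons y fun _ => Arith.zero) ?_ ?_ x
  · change Arith.add Arith.zero y = Arith.add y Arith.zero
    rw [zero_add' hM, hM.add_zero]
  · intro a (h : Arith.add a y = Arith.add y a)
    change Arith.add (Arith.succ a) y = Arith.add y (Arith.succ a)
    rw [succ_add' hM, hM.add_succ, h]

theorem add_assoc' (hM : IsPA M) (x y w : M) :
    Arith.add (Arith.add x y) w = Arith.add x (Arith.add y w) := by
  refine hM.ind (.eq (.add (.add (.var 1) (.var 2)) (.var 0))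
    (.add (.var 1) (.add (.var 2) (.var 0)))) (cons x (cons y fun _ => Arith.zero)) ?_ ?_ w
  · change Arith.add (Arith.add x y) Arith.zero = Arith.add x (Arith.add y Arith.zero)
    rw [hM.add_zero, hM.add_zero]
  · intro a (h : Arith.add (Arith.add x y) a = Arith.add x (Arith.add y a))
    change Arith.add (Arith.add x y) (Arith.succ a) = Arith.add x (Arith.add y (Arith.succ a))
    rw [hM.add_succ, hM.add_succ, hM.add_succ, h]

theorem zero_mul' (hM : IsPA M) (x : M) : Arith.mul Arith.zero x = Arith.zero := by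
  refine hM.ind (.eq (.mul .zero (.var 0)) .zero) (fun _ => Arith.zero) ?_ ?_ x
  · exact hM.mul_zero _
  · intro a (h : Arith.mul Arith.zero a = Arith.zero)
    change Arith.mul Arith.zero (Arith.succ a) = Arith.zero
    rw [hM.mul_succ, h, hM.add_zero]

theorem succ_mul' (hM : IsPA M) (x y : M) :
    Arith.mul (Arith.succ x) y = Arith.add (Arith.mul x y) y := by
  refine hM.ind (.eq (.mul (.succ (.var 1)) (.var 0)) (.add (.mul (.var 1) (.var 0)) (.var 0)))
    (cons x fun _ => Arith.zero) ?_ ?_ y
  · change Arith.mul (Arith.succ x) Arith.zero = Arith.add (Arith.mul x Arith.zero) Arith.zero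
    rw [hM.mul_zero, hM.mul_zero, hM.add_zero]
  · intro a (h : Arith.mul (Arith.succ x) a = Arith.add (Arith.mul x a) a)
    change Arith.mul (Arith.succ x) (Arith.succ a) =
      Arith.add (Arith.mul x (Arith.succ a)) (Arith.succ a)
    rw [hM.mul_succ, hM.mul_succ, h, hM.add_succ, hM.add_succ, add_assoc' hM, add_assoc' hM,
      add_comm' hM a x]

theorem mul_comm' (hM : IsPA M) (x y : M) : Arith.mul x y = Arith.mul y x := by
  refine hM.ind (.eq (.mul (.var 0) (.var 1)) (.mul (.var 1) (.var 0)))
    (cons y fun _ => Arith.zero) ?_ ?_ x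
  · change Arith.mul Arith.zero y = Arith.mul y Arith.zero
    rw [zero_mul' hM, hM.mul_zero]
  · intro a (h : Arith.mul a y = Arith.mul y a)
    change Arith.mul (Arith.succ a) y = Arith.mul y (Arith.succ a)
    rw [succ_mul' hM, hM.mul_succ, h]

theorem mul_add' (hM : IsPA M) (x y w : M) :
    Arith.mul x (Arith.add y w) = Arith.add (Arith.mul x y) (Arith.mul x w) := by
  refine hM.ind (.eq (.mul (.var 1) (.add (.var 2) (.var 0)))
    (.add (.mul (.var 1) (.var 2)) (.mul (.var 1) (.var 0))))
    (cons x (cons y fun _ => Arith.zero)) ?_ ?_ w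
  · change Arith.mul x (Arith.add y Arith.zero) = Arith.add (Arith.mul x y)
      (Arith.mul x Arith.zero)
    rw [hM.add_zero, hM.mul_zero, hM.add_zero]
  · intro a (h : Arith.mul x (Arith.add y a) = Arith.add (Arith.mul x y) (Arith.mul x a))
    change Arith.mul x (Arith.add y (Arith.succ a)) = Arith.add (Arith.mul x y)
      (Arith.mul x (Arith.succ a))
    rw [hM.add_succ, hM.mul_succ, hM.mul_succ, h, add_assoc' hM]

theorem mul_assoc' (hM : IsPA M) (x y w : M) :
    Arith.mul (Arith.mul x y) w = Arith.mul x (Arith.mul y w) := by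
  refine hM.ind (.eq (.mul (.mul (.var 1) (.var 2)) (.var 0))
    (.mul (.var 1) (.mul (.var 2) (.var 0)))) (cons x (cons y fun _ => Arith.zero)) ?_ ?_ w
  · change Arith.mul (Arith.mul x y) Arith.zero = Arith.mul x (Arith.mul y Arith.zero)
    rw [hM.mul_zero, hM.mul_zero, hM.mul_zero]
  · intro a (h : Arith.mul (Arith.mul x y) a = Arith.mul x (Arith.mul y a))
    change Arith.mul (Arith.mul x y) (Arith.succ a) = Arith.mul x (Arith.mul y (Arith.succ a))
    rw [hM.mul_succ, hM.mul_succ, h, mul_add' hM]

theorem cases' (hM : IsPA M) (x : M) : x = Arith.zero ∨ ∃ y, x = Arith.succ y := by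
  have h := hM.ind (.neg (.and (.neg (.eq (.var 0) .zero))
    (.all (.neg (.eq (.var 1) (.succ (.var 0))))))) (fun _ => Arith.zero) ?_ ?_ x
  · have h' : ¬ (¬ x = Arith.zero ∧ ∀ y : M, ¬ x = Arith.succ y) := h
    by_contra hc
    push Not at hc
    exact h' ⟨hc.1, fun y hy => hc.2 y hy⟩
  · change ¬ (¬ (Arith.zero : M) = Arith.zero ∧ ∀ y : M, ¬ (Arith.zero : M) = Arith.succ y)
    exact fun h => h.1 rfl
  · intro a _
    change ¬ (¬ (Arith.succ a : M) = Arith.zero ∧ ∀ y : M, ¬ (Arith.succ a : M) = Arith.succ y)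
    exact fun h => h.2 a rfl

theorem cancel' (hM : IsPA M) {x y w : M} (h : Arith.add x w = Arith.add y w) : x = y := by
  by_contra hxy
  have h1 := hM.ind (.neg (.eq (.add (.var 1) (.var 0)) (.add (.var 2) (.var 0))))
    (cons x (cons y fun _ => Arith.zero)) ?_ ?_ w
  · exact h1 h
  · change ¬ Arith.add x Arith.zero = Arith.add y Arith.zero
    rw [hM.add_zero, hM.add_zero]
    exact hxy
  · intro a (ha : ¬ Arith.add x a = Arith.add y a)
    change ¬ Arith.add x (Arith.succ a) = Arith.add y (Arith.succ a)
    rw [hM.add_succ, hM.add_succ]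
    exact fun h2 => ha (hM.succ_inj _ _ h2)

theorem cancelL (hM : IsPA M) {x y w : M} (h : Arith.add w x = Arith.add w y) : x = y := by
  rw [add_comm' hM w x, add_comm' hM w y] at h
  exact cancel' hM h

theorem tricho (hM : IsPA M) (x y : M) :
    (∃ w, Arith.add x w = y) ∨ (∃ w, Arith.add y w = x) := by
  have h := hM.ind (.neg (.and (.all (.neg (.eq (.add (.var 1) (.var 0)) (.var 2))))
    (.all (.neg (.eq (.add (.var 2) (.var 0)) (.var 1)))))) (cons y fun _ => Arith.zero) ?_ ?_ x
  · have h' : ¬ ((∀ w : M, ¬ Arith.add x w = y) ∧ (∀ w : M, ¬ Arith.add y w = x)) := h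
    by_contra hc
    push Not at hc
    exact h' ⟨fun w hw => hc.1 w hw, fun w hw => hc.2 w hw⟩
  · change ¬ ((∀ w : M, ¬ Arith.add Arith.zero w = y) ∧ (∀ w : M, ¬ Arith.add y w = Arith.zero))
    exact fun h => h.1 y (zero_add' hM y)
  · intro a (ha : ¬ ((∀ w : M, ¬ Arith.add a w = y) ∧ (∀ w : M, ¬ Arith.add y w = a)))
    change ¬ ((∀ w : M, ¬ Arith.add (Arith.succ a) w = y) ∧
      (∀ w : M, ¬ Arith.add y w = Arith.succ a))
    rintro ⟨h1, h2⟩
    refine ha ⟨fun w hw => ?_, fun w hw => ?_⟩
    · rcases cases' hM w with rfl | ⟨w', rfl⟩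
      · rw [hM.add_zero] at hw
        apply h2 (Arith.succ Arith.zero)
        rw [hM.add_succ, hM.add_zero, hw]
      · apply h1 w'
        rw [succ_add' hM, ← hM.add_succ, hw]
    · apply h2 (Arith.succ w)
      rw [hM.add_succ, hw]

end laws

/-- the laws of a discretely ordered semiring -/
structure Ax (M : Type) (z o : M) (ad mu : M → M → M) (lt : M → M → Prop) : Prop where
  aa : ∀ x y w, ad (ad x y) w = ad x (ad y w)
  ac : ∀ x y, ad x y = ad y x
  ma : ∀ x y w, mu (mu x y) w = mu x (mu y w)
  mc : ∀ x y, mu x y = mu y x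
  di : ∀ x y w, mu x (ad y w) = ad (mu x y) (mu x w)
  az : ∀ x, ad x z = x
  mz : ∀ x, mu x z = z
  mo : ∀ x, mu x o = x
  tr : ∀ x y w, lt x y → lt y w → lt x w
  ir : ∀ x, ¬ lt x x
  tot : ∀ x y, lt x y ∨ x = y ∨ lt y x
  la : ∀ x y w, lt x y → lt (ad x w) (ad y w)
  lm : ∀ x y w, lt z w → lt x y → lt (mu x w) (mu y w)
  df : ∀ x y, lt x y → ∃ w, ad x w = y
  zo : lt z o
  ds : ∀ x, lt z x → lt o x ∨ o = x
  nn : ∀ x, lt z x ∨ z = x

theorem ax (M : Type) [Arith M] (hM : IsPA M) :
    Ax M Arith.zero (Arith.succ Arith.zero) Arith.add Arith.mul Lt where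
  aa := add_assoc' hM
  ac := add_comm' hM
  ma := mul_assoc' hM
  mc := mul_comm' hM
  di := mul_add' hM
  az := hM.add_zero
  mz := hM.mul_zero
  mo := fun x => by rw [hM.mul_succ, hM.mul_zero, zero_add' hM]
  tr := by
    rintro x y w ⟨a, rfl⟩ ⟨b, rfl⟩
    exact ⟨Arith.add (Arith.succ a) b, by rw [← hM.add_succ, ← add_assoc' hM]⟩
  ir := by
    rintro x ⟨a, ha⟩
    have h : Arith.add x (Arith.succ a) = Arith.add x Arith.zero := by rw [ha, hM.add_zero]
    exact hM.succ_ne_zero a (cancelL hM h)
  tot := by
    intro x y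
    rcases tricho hM x y with ⟨w, hw⟩ | ⟨w, hw⟩
    · rcases cases' hM w with rfl | ⟨w', rfl⟩
      · right; left; rw [← hw, hM.add_zero]
      · left; exact ⟨w', hw⟩
    · rcases cases' hM w with rfl | ⟨w', rfl⟩
      · right; left; rw [← hw, hM.add_zero]
      · right; right; exact ⟨w', hw⟩
  la := by
    rintro x y w ⟨a, rfl⟩
    refine ⟨a, ?_⟩
    rw [add_assoc' hM, add_assoc' hM, add_comm' hM w]
  lm := by
    rintro x y w ⟨b, rfl⟩ ⟨a, rfl⟩
    rw [zero_add' hM]
    refine ⟨Arith.add (Arith.mul (Arith.succ a) b) a, ?_⟩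
    rw [← hM.add_succ, ← hM.mul_succ, mul_comm' hM x, mul_comm' hM (Arith.succ a),
      ← mul_add' hM, mul_comm' hM]
  df := by
    rintro x y ⟨a, ha⟩
    exact ⟨_, ha⟩
  zo := ⟨Arith.zero, zero_add' hM _⟩
  ds := by
    rintro x ⟨a, rfl⟩
    rw [zero_add' hM]
    rcases cases' hM a with rfl | ⟨a', rfl⟩
    · right; rfl
    · left
      exact ⟨a', by rw [hM.add_succ, succ_add' hM, zero_add' hM]⟩
  nn := by
    intro x
    rcases cases' hM x with rfl | ⟨a, rfl⟩
    · right; rfl
    · left; exact ⟨a, zero_add' hM _⟩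

end P_ALG

open P_ALG in
theorem prf_alg : S_alg := by
  intro M _ hM
  classical
  have H := ax M hM
  let z : M := Arith.zero
  let o : M := Arith.succ Arith.zero
  let ad : M → M → M := Arith.add
  let mu : M → M → M := Arith.mul
  let lt : M → M → Prop := Lt
  have H' : Ax M z o ad mu lt := H
  let iS : CommSemiring M :=
    { add := ad
      mul := mu
      zero := z
      one := o
      nsmul := fun n x => Nat.rec z (fun _ y => ad y x) n
      nsmul_zero := fun x => rfl
      nsmul_succ := fun n x => rfl
      npow := fun n x => Nat.rec o (fun _ y => mu y x) n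
      npow_zero := fun x => rfl
      npow_succ := fun n x => rfl
      natCast := fun n => Nat.rec z (fun _ y => ad y o) n
      natCast_zero := rfl
      natCast_succ := fun n => rfl
      add_assoc := H'.aa
      zero_add := fun x => (H'.ac z x).trans (H'.az x)
      add_zero := H'.az
      add_comm := H'.ac
      mul_assoc := H'.ma
      one_mul := fun x => (H'.mc o x).trans (H'.mo x)
      mul_one := H'.mo
      mul_comm := H'.mc
      zero_mul := fun x => (H'.mc z x).trans (H'.mz x)
      mul_zero := H'.mz
      left_distrib := H'.di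
      right_distrib := fun x y w => by
        change mu (ad x y) w = ad (mu x w) (mu y w)
        rw [H'.mc, H'.di, H'.mc w x, H'.mc w y] }
  let iL : LinearOrder M :=
    { le := fun x y => lt x y ∨ x = y
      lt := lt
      le_refl := fun x => Or.inr rfl
      le_trans := by
        rintro x y w (h1 | h1) (h2 | h2)
        · exact Or.inl (H'.tr x y w h1 h2)
        · exact Or.inl (h2 ▸ h1)
        · exact Or.inl (h1 ▸ h2)
        · exact Or.inr (h1.trans h2)
      lt_iff_le_not_ge := by
        intro x y
        constructor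
        · intro h1
          refine ⟨Or.inl h1, ?_⟩
          rintro (h2 | h2)
          · exact H'.ir x (H'.tr x y x h1 h2)
          · exact H'.ir x (by rw [h2] at h1; rw [h2] at *; exact h1)
        · rintro ⟨h1 | h1, h2⟩
          · exact h1
          · exact absurd (Or.inr h1.symm) h2
      le_antisymm := by
        rintro x y (h1 | h1) (h2 | h2)
        · exact absurd (H'.tr x y x h1 h2) (H'.ir x)
        · exact h2.symm
        · exact h1
        · exact h1
      le_total := by
        intro x y
        rcases H'.tot x y with h1 | h1 | h1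
        · exact Or.inl (Or.inl h1)
        · exact Or.inl (Or.inr h1)
        · exact Or.inr (Or.inl h1)
      toDecidableLE := Classical.decRel _ }
  have hlt : ∀ x y : M, x < y ↔ lt x y := fun x y => Iff.rfl
  have hle : ∀ x y : M, x ≤ y ↔ lt x y ∨ x = y := fun x y => Iff.rfl
  have h0 : ∀ x : M, 0 ≤ x := by
    intro x
    exact H'.nn x
  have hzo : (0 : M) < 1 := H'.zo
  have haddr : ∀ x y w : M, x < y → x + w < y + w := fun x y w h => H'.la x y w h
  have haddr' : ∀ x y : M, x ≤ y → ∀ w, x + w ≤ y + w := by
    intro x y hxy w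
    rcases hxy with h | h
    · exact (haddr x y w h).le
    · rw [h]
  have hmulr : ∀ x y w : M, 0 < w → x < y → x * w < y * w := fun x y w hw h => H'.lm x y w hw h
  have iO : IsStrictOrderedRing M := by
    exact
      { add_le_add_left := haddr'
        le_of_add_le_add_left := by
          intro x y w hxy
          rcases H'.tot y w with h1 | h1 | h1
          · exact Or.inl h1
          · exact Or.inr h1
          · exfalso
            have h2 := haddr w y x h1
            rw [add_comm w x, add_comm y x] at h2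
            exact absurd h2 (not_lt.mpr hxy)
        zero_le_one := hzo.le
        exists_pair_ne := ⟨0, 1, hzo.ne⟩
        mul_lt_mul_of_pos_left := by
          intro w hw x y hxy
          change w * x < w * y
          rw [mul_comm w x, mul_comm w y]
          exact hmulr x y w hw hxy
        mul_lt_mul_of_pos_right := by
          intro w hw x y hxy
          exact hmulr x y w hw hxy }
  have iC : CanonicallyOrderedAdd M :=
    { exists_add_of_le := by
        intro x y hxy
        rcases hxy with h | h
        · obtain ⟨w, hw⟩ := H'.df x y h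
          exact ⟨w, hw.symm⟩
        · exact ⟨0, by rw [h, add_zero]⟩
      le_self_add := by
        intro x y
        have h2 := haddr' 0 y (h0 y) x
        rw [zero_add, add_comm y x] at h2
        exact h2
      le_add_self := by
        intro x y
        have h2 := haddr' 0 y (h0 y) x
        rw [zero_add] at h2
        exact h2 }
  have hsucc : ∀ x : M, Arith.succ x = x + 1 := by
    intro x
    change Arith.succ x = Arith.add x (Arith.succ Arith.zero)
    rw [hM.add_succ, hM.add_zero]
  refine ⟨iS, iL, iO, iC, rfl, hsucc, fun x y => rfl, fun x y => rfl, fun x y => Iff.rfl,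
    fun x hx => ?_, fun n => ?_, fun x n => ?_⟩
  · by_contra hne
    have h1 : (0:M) < x := lt_of_le_of_ne (h0 x) (Ne.symm hne)
    rcases H'.ds x h1 with h2 | h2
    · exact absurd h2 (not_lt.mpr hx.le)
    · exact absurd h2 hx.ne'
  · induction n with
    | zero => rfl
    | succ n ih =>
      change Arith.succ (num M n) = _
      rw [ih, hsucc, Nat.cast_succ]
  · induction n with
    | zero =>
      intro hx
      rw [Nat.cast_zero] at hx
      exact absurd hx (not_lt.mpr (h0 x))
    | succ n ih =>
      rintro ⟨w, hw⟩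
      have h1 : Arith.succ (Arith.add x w) = Arith.succ (n : M) := by
        rw [← hM.add_succ, hw, hsucc, Nat.cast_succ]
      have h2 := hM.succ_inj _ _ h1
      rcases cases' hM w with h3 | ⟨w', h3⟩
      · refine ⟨n, Nat.lt_succ_self n, ?_⟩
        rw [← h2, h3, hM.add_zero]
      · obtain ⟨m, hm, h4⟩ := ih ⟨w', by rw [← h3, h2]⟩
        exact ⟨m, hm.trans (Nat.lt_succ_self n), h4⟩

end Pool.Agent.N636.SF
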