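import Pool.Agent.N636.SF.Std

/-!
# The attack at level `p`
-/

set_option autoImplicit false

namespace Pool.Agent.N636.SF

namespace P_ATTACK

theorem gam_mono {m n : ℕ} (h : m ≤ n) {φ : Fm} (hφ : Gam m φ) : Gam n φ := by
  induction h with
  | refl => exact hφ
  | step _ ih => exact ih.up

theorem le_mono {m n : ℕ} (h : m ≤ n) {p q : Cond} (hpq : Le n p q) : Le m p q :=
  ⟨hpq.1, fun φ h1 h2 => hpq.2 φ (gam_mono h h1) h2⟩

theorem le_trans' {n : ℕ} {p q r : Cond} (h1 : Le n p q) (h2 : Le n q r) : Le n p r :=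
  ⟨h1.1.trans h2.1, fun φ g b s => h2.2 φ g (b.mono h1.1) (h1.2 φ g b s)⟩

theorem le_of_ext {n : ℕ} {p q : Cond} (h : Ext p q) : Le n p q :=
  ⟨h.1, fun φ _ b s => (h.2 φ b).1 s⟩

theorem ext_refl (p : Cond) : Ext p p := ⟨le_rfl, fun _ _ => Iff.rfl⟩

theorem sent {M : Type} [Arith M] {φ : Fm} (h : φ.Bd 0) (v w : ℕ → M) : Sat φ v ↔ Sat φ w :=
  Sat_congr h fun i hi => absurd hi (Nat.not_lt_zero i)

theorem ext_sent {p q : Cond} (h : Ext p q) {φ : Fm} (hφ : φ.Bd 0) :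
    Sat φ (fun _ => (Arith.zero : p.M)) ↔ Sat φ (fun _ => (Arith.zero : q.M)) :=
  (sent hφ _ p.a).trans ((h.2 φ (hφ.mono (Nat.zero_le _))).trans (sent hφ q.a _))

section
variable {N0 : ℕ} {J : ℕ → ℕ} {Gd : (M : Type) → [Arith M] → Prop}
  {st : (M : Type) → [Arith M] → ℕ → ℕ} {stF : ℕ → ℕ → Fm}

/-- models with the same sentences have the same states -/
theorem same_st (hS : Side N0 J Gd st stF) {M M' : Type} [Arith M] [Arith M'] (h : Gd M)
    (h' : Gd M') (hs : ∀ φ : Fm, φ.Bd 0 → (Sat φ (fun _ => (Arith.zero : M)) ↔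
      Sat φ (fun _ => (Arith.zero : M')))) (m : ℕ) : st M m = st M' m := by
  have key : ∀ j, 1 ≤ j → j ≤ J m → (j ≤ st M m ↔ j ≤ st M' m) := by
    intro j h1 h2
    rw [← hS.stF m j h1 h2 M h (fun _ => Arith.zero), ← hS.stF m j h1 h2 M' h' (fun _ => Arith.zero)]
    exact hs _ (hS.sig m j h1 h2).2
  apply le_antisymm
  · rcases Nat.eq_zero_or_pos (st M m) with h0 | h0
    · rw [h0]; exact Nat.zero_le _
    · exact (key _ h0 (hS.le M m)).1 le_rfl
  · rcases Nat.eq_zero_or_pos (st M' m) with h0 | h0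
    · rw [h0]; exact Nat.zero_le _
    · exact (key _ h0 (hS.le M' m)).2 le_rfl

theorem ext_gd (hS : Side N0 J Gd st stF) {p q : Cond} (h : Ext p q) (hp : Gd p.M) : Gd q.M :=
  hS.pres p.M q.M hp q.pa fun _ _ hb hs => (ext_sent h hb).1 hs

theorem ext_st (hS : Side N0 J Gd st stF) {p q : Cond} (h : Ext p q) (hp : Gd p.M) (m : ℕ) :
    st p.M m = st q.M m :=
  same_st hS hp (ext_gd hS h hp) (fun _ hb => ext_sent h hb) m

variable {cd : ℕ → ℕ → ℕ → ℕ → BC}

theorem patt_pres (hpres : S_pres) (hcd : ∀ n e s y, Lev (n + 1) (cd n e s y)) {n p j c : ℕ}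
    (hn : 1 ≤ n) {q q' : Cond} (h : Le n q q') (hp : Patt stF cd p j c q) :
    Patt stF cd p j c q' :=
  ⟨fun l h1 h2 => hpres 1 _ (hcd 0 _ _ _) q q' (le_mono hn h) (hp.1 l h1 h2),
    hpres 1 _ (hcd 0 _ _ _) q q' (le_mono hn h) hp.2⟩

/-- the loop -/
theorem loop (hmove : S_move) (hpres : S_pres) (hN : 1 ≤ N0) (hS : Side N0 J Gd st stF)
    (hcd : ∀ n e s y, Lev (n + 1) (cd n e s y)) (f : ℕ → ℕ) {p : ℕ} (hp : 1 ≤ p) (q : Cond) :
    ∀ (d j : ℕ), j + d = J p → ∀ q1 : Cond, Gd q1.M → Le (N0 + p) q q1 → st q1.M p = j →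
      (∀ m > p, st q1.M m = 0) → (∀ m < p, st q1.M m = st q.M m) →
      (∃ c : ℕ → ℕ, ∀ i < j, (∃ s, Forces (cd (N0 + p - 1) (f (N0 + p)) s (c i)) q1) ∧
        Patt stF cd p i (c i) q1) →
      ∃ q' : Cond, Gd q'.M ∧ (∀ m ≥ p + 1, st q'.M m = 0) ∧ (∀ m < p, st q'.M m = st q.M m) ∧
        Le (N0 + p) q q' ∧ Done N0 J stF cd f p (st q'.M p) q' := by
  have hcd' : ∀ s c, Lev (N0 + p) (cd (N0 + p - 1) (f (N0 + p)) s c) := by
    intro s c
    have := hcd (N0 + p - 1) (f (N0 + p)) s c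
    rwa [Nat.sub_add_cancel (by omega)] at this
  intro d
  induction d with
  | zero =>
    intro j hj q1 hG hL hst hhi hlo hc
    exact ⟨q1, hG, fun m hm => hhi m hm, hlo, hL, by
      rw [hst]
      exact ⟨hc, Or.inl (by omega)⟩⟩
  | succ d ih =>
    intro j hj q1 hG hL hst hhi hlo hc
    by_cases hex : ∃ q2, Ext q1 q2 ∧ ∃ s c, Forces (cd (N0 + p - 1) (f (N0 + p)) s c) q2 ∧
      Patt stF cd p j c q2
    · obtain ⟨q2, hE, s, c', hF, hP⟩ := hex
      have hG2 := ext_gd hS hE hG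
      have hst2 := fun m => ext_st hS hE hG m
      obtain ⟨M', aM', hG', hgam, hlo', hp', hhi'⟩ := hS.step p hp q2.M hG2
        (by rw [← hst2 p, hst]; omega) (fun m hm => by rw [← hst2 m]; exact hhi m hm)
      obtain ⟨q3, -, hL3, hs3⟩ := hmove (N0 + p) q2 M' (by omega) (hS.pa M' hG') hgam
      have hG3 : Gd q3.M := hS.pres M' q3.M hG' q3.pa fun φ _ hb hs => (hs3 φ hb).2 hs
      have hst3 : ∀ m, st q3.M m = st M' m := same_st hS hG3 hG' hs3
      have hL13 : Le (N0 + p) q1 q3 := le_trans' (le_of_ext hE) hL3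
      refine ih (j + 1) (by omega) q3 hG3 (le_trans' hL hL13) ?_ ?_ ?_ ?_
      · rw [hst3, hp', ← hst2, hst]
      · intro m hm
        rw [hst3]
        exact hhi' m hm
      · intro m hm
        rw [hst3, hlo' m hm, ← hst2, hlo m hm]
      · obtain ⟨c, hc⟩ := hc
        refine ⟨fun i => if i < j then c i else c', fun i hi => ?_⟩
        by_cases hij : i < j
        · simp only [hij, if_true]
          obtain ⟨⟨s', hs'⟩, hP'⟩ := hc i hij
          exact ⟨⟨s', hpres (N0 + p) _ (hcd' _ _) q1 q3 hL13 hs'⟩,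
            patt_pres hpres hcd (by omega) hL13 hP'⟩
        · have hij' : i = j := by omega
          subst hij'
          simp only [lt_irrefl, if_false]
          exact ⟨⟨s, hpres (N0 + p) _ (hcd' _ _) q2 q3 hL3 hF⟩,
            patt_pres hpres hcd (by omega) hL3 hP⟩
    · push Not at hex
      refine ⟨q1, hG, fun m hm => hhi m hm, hlo, hL, ?_⟩
      rw [hst]
      exact ⟨hc, Or.inr fun q' hq' s c h => hex q' hq' s c h.1 h.2⟩

end

end P_ATTACK

open P_ATTACK in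
theorem prf_attack (hmove : S_move) (hpres : S_pres) (_h1 : S_gam1) : S_attack := by
  intro N0 J Gd st stF cd hN hS hcd f p hp q hG hst
  exact loop hmove hpres hN hS hcd f hp q (J p) 0 (Nat.zero_add _) q hG
    (le_of_ext (ext_refl q)) (hst p le_rfl) (fun m hm => hst m (le_of_lt hm))
    (fun _ _ => rfl) ⟨fun _ => 0, fun i hi => absurd hi (Nat.not_lt_zero i)⟩

end Pool.Agent.N636.SF
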