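import Pool.Agent.N636.SF.Std

/-!
# (B) and (Start): the next state is possible (helper644 for helper636)
-/

set_option autoImplicit false

namespace Pool.Agent.N636.SF

namespace P_B

theorem gam_mono {n m : ℕ} {φ : Fm} (h : Gam n φ) (hnm : n ≤ m) : Gam m φ := by
  induction hnm with
  | refl => exact h
  | step _ ih => exact ih.up

/-- finite conjunctions of sentences -/
theorem conj (n : ℕ) (hn : 1 ≤ n) (F : Finset Fm) (hF : ∀ φ ∈ F, Gam n φ) :
    ∃ ψ, Gam n ψ ∧ ∀ (M : Type) [Arith M], IsPA M →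
      (Sat ψ (fun _ => (Arith.zero : M)) ↔ ∀ φ ∈ F, Sat φ (fun _ => (Arith.zero : M))) := by
  classical
  obtain ⟨n, rfl⟩ : ∃ m, n = m + 1 := ⟨n - 1, by omega⟩
  induction F using Finset.induction_on with
  | empty =>
    refine ⟨.neg (.eq (.var 0) (.succ .zero)), gam_mono ((Gam.atom1 0).neg) (by omega), ?_⟩
    intro M _ hM
    constructor
    · intro _ φ hφ; simp at hφ
    · intro _ h
      exact hM.succ_ne_zero _ h.symm
  | insert a s _ ih =>
    obtain ⟨ψ, h1, h2⟩ := ih fun φ hφ => hF φ (Finset.mem_insert_of_mem hφ)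
    refine ⟨.and a ψ, (hF a (Finset.mem_insert_self _ _)).and h1, ?_⟩
    intro M _ hM
    constructor
    · intro h φ hφ
      rcases Finset.mem_insert.1 hφ with h' | h'
      · rw [h']; exact h.1
      · exact (h2 M hM).1 h.2 φ h'
    · intro h
      exact ⟨h a (Finset.mem_insert_self _ _),
        (h2 M hM).2 fun φ hφ => h φ (Finset.mem_insert_of_mem hφ)⟩

theorem vec_length (N0 : ℕ) {M : Type} [Arith M] (d : M) (J : ℕ → ℕ) (p : ℕ) :
    (vec N0 d J p).length = p := by
  induction p with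
  | zero => rfl
  | succ p ih => simp only [vec, List.length_cons]; rw [ih]

theorem vec_succ (N0 : ℕ) {M : Type} [Arith M] (d : M) (J : ℕ → ℕ) (p : ℕ) :
    vec N0 d J (p + 1) = state N0 d J p :: vec N0 d J p := rfl

theorem std_below (halg : S_alg) {M : Type} [Arith M] (hM : IsPA M) (k : ℕ) (x : M)
    (hx : Lt x (Arith.succ (num M k))) : ∃ m : ℕ, x = num M m := by
  obtain ⟨_, _, _, _, _, hs, _, _, hlt, _, hn, hb⟩ := halg M hM
  rw [hlt, hs, hn] at hx
  obtain ⟨m, _, hm⟩ := hb x (k + 1) (by push_cast; exact hx)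
  exact ⟨m, by rw [hn]; exact hm⟩

theorem lt_num (halg : S_alg) {M : Type} [Arith M] (hM : IsPA M) {i k : ℕ} (h : i < k) :
    Lt (num M i) (num M k) := by
  obtain ⟨_, _, _, _, _, _, _, _, hlt, _, hn, _⟩ := halg M hM
  rw [hlt, hn, hn]
  exact_mod_cast h

/-- the standard elements are admissible bounds -/
theorem bdS (halg : S_alg) (hA : S_A) {D : Fm} {N0 : ℕ} {J : ℕ → ℕ} {M : Type} [Arith M]
    (hM : IsPA M) {d : M} (hd : Base D N0 J d) (k : ℕ) (p : ℕ) :
    BdS N0 d (vec N0 d J p) (num M k) := by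
  induction p with
  | zero => trivial
  | succ p ih =>
    rw [vec_succ]
    refine ⟨ih, ?_⟩
    intro h1 k' hk'
    obtain ⟨m, rfl⟩ := std_below halg hM k k' hk'
    exact hA D N0 J M hM d hd m p h1

/-- the truth predicate at the distinguished element -/
theorem tab (hU2 : S_U2) {D : Fm} {N0 : ℕ} {J : ℕ → ℕ} {M : Type} [Arith M]
    (hM : IsPA M) {d : M} (hd : Base D N0 J d) (n i : ℕ) :
    Tb n d (num M i) [] ↔ Vb n i (fun _ => (Arith.zero : M)) := by
  apply hU2 M hM d
  intro i c l b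
  rw [hd.2]
  constructor
  · rintro (⟨i', c', l', b', h, hT⟩ | ⟨j, s, k, i', h, -⟩)
    · have h1 := prN_inj h
      have h2 := prN_inj h1.2
      have h3 := prN_inj h2.1
      have h4 := prN_inj h3.1
      rw [h4.1, h4.2, h3.2, h2.2]
      exact hT
    · have h1 := prN_inj h
      exact absurd h1.1 (by norm_num)
  · intro hT
    exact Or.inl ⟨i, c, l, b, rfl, hT⟩

/-- a true relation `RR` gives a trigger -/
theorem trig (halg : S_alg) (hU2 : S_U2) (hA : S_A) {D : Fm} {N0 : ℕ} {J : ℕ → ℕ} {M : Type}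
    [Arith M] (hM : IsPA M) {d : M} (hd : Base D N0 J d) (p j k i : ℕ) (hik : i < k)
    (hV : Vb (N0 + p) i (fun _ => (Arith.zero : M)))
    (hR : RR D N0 J j (vec N0 d J p) k i) : TgS N0 d j (vec N0 d J p) (num M k) := by
  refine ⟨bdS halg hA hM hd k p, num M i, lt_num halg hM hik, ?_, ?_⟩
  · have h1 : (prN 1 (prN (prN (cdN j (vec N0 d J p)) k) i)) ∈ rset D N0 J :=
      Or.inr ⟨j, vec N0 d J p, k, i, rfl, hR⟩
    have h2 := (hd.2 _).2 h1
    rw [num_pr hM, num_pr hM, num_pr hM] at h2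
    exact h2
  · rw [tab hU2 hM hd, vec_length]
    exact hV

theorem reach_state (N0 : ℕ) {M : Type} [Arith M] (d : M) (J : ℕ → ℕ) (p : ℕ) :
    Reach N0 d (state N0 d J p) (vec N0 d J p) := by
  classical
  unfold state
  exact Nat.findGreatest_spec (P := fun j => Reach N0 d j (vec N0 d J p)) (Nat.zero_le _)
    (fun j' h1 h2 => absurd h1 (by omega))

theorem le_state (N0 : ℕ) {M : Type} [Arith M] (d : M) (J : ℕ → ℕ) (p j : ℕ) (hj : j ≤ J p)
    (h : Reach N0 d j (vec N0 d J p)) : j ≤ state N0 d J p := by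
  classical
  unfold state
  exact Nat.le_findGreatest hj h

theorem state_le (N0 : ℕ) {M : Type} [Arith M] (d : M) (J : ℕ → ℕ) (p : ℕ) :
    state N0 d J p ≤ J p := by
  classical
  unfold state
  exact Nat.findGreatest_le _

end P_B

open P_B

theorem prf_B (halg : S_alg) (hU1 : S_U1) (hU2 : S_U2) (hA : S_A) : S_B := by
  intro D N0 J M _ hN0 hM d hd p hj hm F hF N
  by_contra hcon
  obtain ⟨φ, hφ, hφF⟩ := conj (N0 + p) (by omega) F fun φ h => (hF φ h).1
  obtain ⟨i, hi⟩ := hU1 (N0 + p) φ hφ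
  have hV : Vb (N0 + p) i (fun _ => (Arith.zero : M)) :=
    (hi M _).1 ((hφF M hM).2 fun φ h => (hF φ h).2.2)
  have hR : RR D N0 J (state N0 d J p + 1) (vec N0 d J p) (max N (i + 1)) i := by
    intro M' _ hM' d' hd' hV'
    rw [vec_length] at hV' ⊢
    rintro ⟨h1, h2, h3⟩
    apply hcon
    refine ⟨M', _, hM', d', hd', ?_, h1, h2, ?_⟩
    · exact (hφF M' hM').1 ((hi M' _).2 hV')
    · intro m hm1 hm2
      exact h3 m hm1 (hm2.trans_le (le_max_left _ _))
  have hT := trig halg hU2 hA hM hd p _ _ i (by omega) hV hR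
  have hRe : Reach N0 d (state N0 d J p + 1) (vec N0 d J p) := by
    intro j' h1 h2
    rcases Nat.lt_or_ge j' (state N0 d J p + 1) with h3 | h3
    · exact reach_state N0 d J p j' h1 (by omega)
    · have : j' = state N0 d J p + 1 := by omega
      rw [this]
      exact ⟨_, hT⟩
  have := le_state N0 d J p _ hj hRe
  omega

theorem prf_Start (halg : S_alg) (hU1 : S_U1) (hU2 : S_U2) (hA : S_A) : S_Start := by
  intro D N0 J M _ hN0 hJ hM d hd F hF N
  by_contra hcon
  obtain ⟨φ, hφ, hφF⟩ := conj N0 hN0 F fun φ h => (hF φ h).1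
  obtain ⟨i, hi⟩ := hU1 N0 φ hφ
  have hV : Vb (N0 + 0) i (fun _ => (Arith.zero : M)) :=
    (hi M _).1 ((hφF M hM).2 fun φ h => (hF φ h).2.2)
  have hR : RR D N0 J 1 (vec N0 d J 0) (max N (i + 1)) i := by
    intro M' _ hM' d' hd' hV'
    rw [vec_length] at hV' ⊢
    rintro ⟨h1, h2, h3⟩
    apply hcon
    refine ⟨M', _, hM', d', hd', ?_, h2, ?_⟩
    · exact (hφF M' hM').1 ((hi M' _).2 hV')
    · intro m hm1 hm2
      exact h3 m hm1 (hm2.trans_le (le_max_left _ _))
  have hT := trig halg hU2 hA hM hd 0 _ _ i (by omega) hV hR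
  have hRe : Reach N0 d 1 (vec N0 d J 0) := by
    intro j' h1 h2
    have : j' = 1 := by omega
    rw [this]
    exact ⟨_, hT⟩
  have h1 := le_state N0 d J 0 1 (by omega) hRe
  have h2 := state_le N0 d J 0
  have h3 : state N0 d J 0 = 1 := by omega
  have h4 := hA D N0 J M hM d hd (max N (i + 1)) 0 h1
  rw [h3] at h4
  exact h4 hT

end Pool.Agent.N636.SF
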