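import Pool.Agent.N636.SF.Stm

/-!
# The beta function in models of PA (`S_beta`)

The algebra is adapted from `Pool/Agent/Helper227/ENJ/P_beta_exists.lean`, `P_beta_unique.lean`.
-/

set_option autoImplicit false

namespace Pool.Agent.N636.SF

namespace P_BETA

def Beta {M : Type} [CommSemiring M] [LinearOrder M] (a c i v : M) : Prop :=
  v < 1 + (i + 1) * c ∧ ∃ q, a = q * (1 + (i + 1) * c) + v

section beta_exists_aux
variable {M : Type} [CommSemiring M]

/-- congruence modulo `m` -/
def bCg (m a b : M) : Prop := ∃ d e, a + m * d = b + m * e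

theorem bCg_refl (m a : M) : bCg m a a := ⟨0, 0, rfl⟩

theorem bCg_trans {m a b c : M} (h1 : bCg m a b) (h2 : bCg m b c) : bCg m a c := by
  obtain ⟨d, e, h1⟩ := h1
  obtain ⟨f, g, h2⟩ := h2
  refine ⟨d + f, g + e, ?_⟩
  calc a + m * (d + f) = (a + m * d) + m * f := by ring
    _ = (b + m * f) + m * e := by rw [h1]; ring
    _ = c + m * (g + e) := by rw [h2]; ring

theorem bCg_add {m a b a' b' : M} (h1 : bCg m a a') (h2 : bCg m b b') :
    bCg m (a + b) (a' + b') := by
  obtain ⟨d, e, h1⟩ := h1
  obtain ⟨f, g, h2⟩ := h2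
  refine ⟨d + f, e + g, ?_⟩
  calc a + b + m * (d + f) = (a + m * d) + (b + m * f) := by ring
    _ = a' + b' + m * (e + g) := by rw [h1, h2]; ring

theorem bCg_mul_left {m a b : M} (c : M) (h : bCg m a b) : bCg m (c * a) (c * b) := by
  obtain ⟨d, e, h⟩ := h
  refine ⟨c * d, c * e, ?_⟩
  calc c * a + m * (c * d) = c * (a + m * d) := by ring
    _ = c * b + m * (c * e) := by rw [h]; ring

theorem bCg_mul {m a b a' b' : M} (h1 : bCg m a a') (h2 : bCg m b b') :
    bCg m (a * b) (a' * b') := by
  have h3 := bCg_mul_left b h1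
  have h4 := bCg_mul_left a' h2
  rw [mul_comm b a, mul_comm b a'] at h3
  exact bCg_trans h3 h4

/-- the moduli -/
def bmd (c : M) (i : ℕ) : M := 1 + ((i : M) + 1) * c

theorem bmd_inv (t : M) (k i j : ℕ) (hij : i < j) (hj : j ≤ k) :
    ∃ u, bCg (bmd ((k.factorial : M) * t) j) (bmd ((k.factorial : M) * t) i * u) 1 := by
  obtain ⟨d, rfl⟩ := Nat.exists_eq_add_of_lt hij
  obtain ⟨s, hs⟩ := Nat.dvd_factorial (Nat.succ_pos d) (show d + 1 ≤ k by omega)
  have hs' : ((k.factorial : ℕ) : M) = ((d : M) + 1) * (s : M) := by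
    rw [hs]; push_cast; ring
  rw [hs']
  set r : M := (s : M) * t with hr
  have ec : ((d : M) + 1) * (s : M) * t = ((d : M) + 1) * r := by rw [hr]; ring
  rw [ec]
  set I : M := (i : M) + 1 with hI
  set D : M := (d : M) + 1 with hD
  have e1 : bmd (D * r) i = 1 + I * (D * r) := rfl
  have e2 : bmd (D * r) (i + d + 1) = 1 + (I + D) * (D * r) := by
    unfold bmd
    push_cast
    rw [hI, hD]
    ring
  rw [e1, e2]
  set m : M := 1 + (I + D) * (D * r) with hm
  have h1 : bCg m ((I + D) ^ 2 * r * (1 + I * (D * r))) ((I + D) * (D * r)) := by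
    refine ⟨0, (I + D) * r * I, ?_⟩
    rw [hm]
    ring
  have h2 := bCg_mul h1 h1
  have h3 : bCg m (((I + D) * (D * r)) * ((I + D) * (D * r))) 1 := by
    refine ⟨1, (I + D) * (D * r), ?_⟩
    rw [hm]
    ring
  refine ⟨(I + D) ^ 4 * r ^ 2 * (1 + I * (D * r)), ?_⟩
  have h4 := bCg_trans h2 h3
  have e3 : (I + D) ^ 2 * r * (1 + I * (D * r)) * ((I + D) ^ 2 * r * (1 + I * (D * r)))
      = (1 + I * (D * r)) * ((I + D) ^ 4 * r ^ 2 * (1 + I * (D * r))) := by ring
  rw [e3] at h4
  exact h4

theorem bmd_prod_inv (t : M) (k j : ℕ) (hj : j ≤ k) (n : ℕ) (hn : n ≤ j) :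
    ∃ v, bCg (bmd ((k.factorial : M) * t) j)
      ((∏ i ∈ Finset.range n, bmd ((k.factorial : M) * t) i) * v) 1 := by
  induction n with
  | zero => exact ⟨1, by simpa using bCg_refl _ (1 : M)⟩
  | succ n ih =>
    obtain ⟨v, hv⟩ := ih (by omega)
    obtain ⟨u, hu⟩ := bmd_inv t k n j (by omega) hj
    refine ⟨v * u, ?_⟩
    have h := bCg_mul hv hu
    rw [mul_one] at h
    rw [Finset.prod_range_succ]
    have e : (∏ i ∈ Finset.range n, bmd ((k.factorial : M) * t) i) *
        bmd ((k.factorial : M) * t) n * (v * u)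
        = (∏ i ∈ Finset.range n, bmd ((k.factorial : M) * t) i) * v *
          (bmd ((k.factorial : M) * t) n * u) := by ring
    rw [e]
    exact h

theorem bmd_crt (t : M) (k : ℕ) (x : ℕ → M) (l : ℕ) (hl : l ≤ k) :
    ∃ a, ∀ i < l, bCg (bmd ((k.factorial : M) * t) i) a (x i) := by
  induction l with
  | zero => exact ⟨0, fun i hi => absurd hi (Nat.not_lt_zero i)⟩
  | succ l ih =>
    obtain ⟨a, ha⟩ := ih (by omega)
    obtain ⟨v, hv⟩ := bmd_prod_inv t k l (by omega) l le_rfl
    set c : M := (k.factorial : M) * t with hc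
    set P : M := ∏ i ∈ Finset.range l, bmd c i with hP
    set W : M := ((l : M) + 1) * c with hW
    refine ⟨a + (x l + W * a) * (P * v), ?_⟩
    intro i hi
    rcases Nat.lt_succ_iff_lt_or_eq.1 hi with h | rfl
    · obtain ⟨P', hP'⟩ : bmd c i ∣ P := Finset.dvd_prod_of_mem _ (Finset.mem_range.2 h)
      refine bCg_trans ?_ (ha i h)
      refine ⟨0, (x l + W * a) * (P' * v), ?_⟩
      rw [hP']
      ring
    · have h1 := bCg_add (bCg_refl (bmd c i) a) (bCg_mul_left (x i + W * a) hv)
      refine bCg_trans h1 ?_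
      refine ⟨0, a, ?_⟩
      unfold bmd
      rw [hW]
      ring

end beta_exists_aux

/-- every finite (standard length) sequence of elements is coded by the beta function. Proof: take
`c` a common multiple of `1, ..., k` (e.g. `k!` times something) larger than all `x i`; the moduli
`m i = 1 + (i+1) c` are pairwise invertible modulo each other: with `c = (j - i) r` one has
`(j+1) m i = (i+1) m j + (j - i)` and `m j = 1 + (j+1)(j-i) r`, so `m i * ((j+1)^2 r)` is `-1`
modulo `m j` and its square gives the inverse. Then Chinese remainder by induction on `k`. -/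
theorem beta_exists {M : Type} [CommSemiring M] [LinearOrder M] [IsStrictOrderedRing M]
    [CanonicallyOrderedAdd M] (hd : ∀ x : M, x < 1 → x = 0) (k : ℕ) (x : ℕ → M) :
    ∃ a c : M, ∀ i < k, Beta a c (i : M) (x i) := by
  set t : M := ∑ i ∈ Finset.range k, x i with ht
  obtain ⟨a, ha⟩ := bmd_crt t k x k le_rfl
  refine ⟨a, (k.factorial : M) * t, ?_⟩
  intro i hi
  have hxt : x i ≤ t := by
    rw [ht, ← Finset.add_sum_erase _ _ (Finset.mem_range.2 hi)]
    exact le_self_add
  have hk1 : (1 : M) ≤ (k.factorial : M) := by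
    have : ((1 : ℕ) : M) ≤ ((k.factorial : ℕ) : M) := Nat.cast_le.2 (Nat.factorial_pos k)
    simpa using this
  have htc : t ≤ (k.factorial : M) * t := le_mul_of_one_le_left zero_le hk1
  have hlt : x i < 1 + ((i : M) + 1) * ((k.factorial : M) * t) := by
    calc x i ≤ (k.factorial : M) * t := hxt.trans htc
      _ < 1 + (k.factorial : M) * t := lt_add_of_pos_left _ one_pos
      _ ≤ 1 + ((i : M) + 1) * ((k.factorial : M) * t) := by
        apply add_le_add_right
        exact le_mul_of_one_le_left zero_le (le_add_self)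
  refine ⟨hlt, ?_⟩
  obtain ⟨d, e, h⟩ := ha i hi
  have hm : bmd ((k.factorial : M) * t) i = 1 + ((i : M) + 1) * ((k.factorial : M) * t) := rfl
  rw [hm] at h
  set m : M := 1 + ((i : M) + 1) * ((k.factorial : M) * t) with hmdef
  rcases le_total d e with hde | hde
  · obtain ⟨r, rfl⟩ := exists_add_of_le hde
    refine ⟨r, ?_⟩
    have h2 : a + m * d = (r * m + x i) + m * d := by
      rw [h]; ring
    exact add_right_cancel h2
  · obtain ⟨r, rfl⟩ := exists_add_of_le hde
    have h2 : (a + m * r) + m * e = x i + m * e := by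
      rw [← h]; ring
    have h3 := add_right_cancel h2
    by_cases hr : r = 0
    · refine ⟨0, ?_⟩
      rw [hr, mul_zero, add_zero] at h3
      rw [h3, zero_mul, zero_add]
    · exfalso
      have h4 : 1 ≤ r := by
        by_contra hcon
        exact hr (hd r (not_le.1 hcon))
      have h5 : m ≤ x i := by
        calc m ≤ m * r := le_mul_of_one_le_right zero_le h4
          _ ≤ a + m * r := le_add_self
          _ = x i := h3
      exact absurd hlt (not_lt.2 h5)

theorem beta_unique {M : Type} [CommSemiring M] [LinearOrder M] [IsStrictOrderedRing M]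
    [CanonicallyOrderedAdd M] (hd : ∀ x : M, x < 1 → x = 0) (a c i v w : M) (h1 : Beta a c i v) (h2 : Beta a c i w) : v = w := by
  obtain ⟨hv, q, hq⟩ := h1
  obtain ⟨hw, q', hq'⟩ := h2
  set m : M := 1 + (i + 1) * c with hm
  have aux : ∀ q q' v w : M, v < m → q * m + v = q' * m + w → ¬ q < q' := by
    intro q q' v w hv he hlt
    obtain ⟨d, rfl⟩ := le_iff_exists_add.mp hlt.le
    have hd1 : 1 ≤ d := by
      by_contra h
      have h0 := hd d (not_le.mp h)
      rw [h0, add_zero] at hlt
      exact lt_irrefl _ hlt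
    have e1 : v = d * m + w := by
      have : q * m + v = q * m + (d * m + w) := by rw [he]; ring
      exact add_left_cancel this
    have e2 : m ≤ d * m + w := by
      calc m = 1 * m := (one_mul m).symm
        _ ≤ d * m := mul_le_mul_of_nonneg_right hd1 zero_le
        _ ≤ d * m + w := le_self_add
    exact absurd (e1 ▸ hv) (not_lt.mpr e2)
  have e : q * m + v = q' * m + w := by rw [← hq, ← hq']
  have e3 : q = q' := le_antisymm (not_lt.mp (aux q' q w v hw e.symm)) (not_lt.mp (aux q q' v w hv e))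
  subst e3
  exact add_left_cancel e


/-- The induction formula for the division with remainder. -/
def divFm : Fm :=
  .ex (.ex (.and (.lt (.var 0) (.succ (.mul (.succ (.var 4)) (.var 3))))
    (.eq (.add (.mul (.var 1) (.succ (.mul (.succ (.var 4)) (.var 3)))) (.var 0)) (.var 2))))

theorem sat_divFm {M : Type} [Arith M] (u w j : M) (v : ℕ → M) :
    Sat divFm (cons u (cons w (cons j v))) ↔
      ∃ q z, Lt z (md w j) ∧ Arith.add (Arith.mul q (md w j)) z = u := by
  simp only [divFm, Sat_ex, Sat, Tm.val, cons, md]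

end P_BETA

open P_BETA in
theorem prf_beta (halg : S_alg) : S_beta := by
  intro M iA hM
  obtain ⟨iC, iL, iS, iO, h0, hs, ha, hm, hlt, hd, hn, hb⟩ := halg M hM
  have hmd : ∀ w j : M, md w j = 1 + (j + 1) * w := by
    intro w j
    unfold md
    rw [hs, hs, hm, add_comm]
  have hdisc : ∀ a b : M, a < b → a + 1 ≤ b := by
    intro a b hab
    obtain ⟨d, rfl⟩ := le_iff_exists_add.mp hab.le
    have hd1 : 1 ≤ d := by
      by_contra h
      have h0' := hd d (not_le.mp h)
      rw [h0', add_zero] at hab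
      exact lt_irrefl _ hab
    gcongr
  have hpos : ∀ w j : M, 1 ≤ 1 + (j + 1) * w := fun w j => le_self_add
  have hBet : ∀ u w j z : M, Bet u w j z ↔ Beta u w j z := by
    intro u w j z
    unfold Bet Beta
    rw [hlt, hmd]
    refine and_congr_right fun _ => ⟨?_, ?_⟩
    · rintro ⟨q, _, hq⟩
      rw [ha, hm] at hq
      exact ⟨q, hq.symm⟩
    · rintro ⟨q, hq⟩
      refine ⟨q, ?_, ?_⟩
      · rw [hlt, hs]
        have h1 : q ≤ u := by
          calc q = q * 1 := (mul_one q).symm
            _ ≤ q * (1 + (j + 1) * w) := mul_le_mul_of_nonneg_left (hpos w j) zero_le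
            _ ≤ q * (1 + (j + 1) * w) + z := le_self_add
            _ = u := hq.symm
        exact lt_of_le_of_lt h1 (lt_add_of_pos_right _ one_pos)
      · rw [ha, hm]; exact hq.symm
  refine ⟨?_, ?_⟩
  · intro u w j
    have hdiv : ∀ u : M, Sat divFm (cons u (cons w (cons j fun _ => (Arith.zero : M)))) := by
      refine hM.ind divFm _ ?_ ?_
      · rw [sat_divFm]
        refine ⟨0, 0, ?_, ?_⟩
        · rw [hlt, hmd]
          exact lt_of_lt_of_le one_pos (hpos w j)
        · rw [ha, hm, h0, zero_mul, zero_add]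
      · intro a
        rw [sat_divFm, sat_divFm]
        rintro ⟨q, z, hz, hq⟩
        rw [hlt, hmd] at hz
        rw [ha, hm, hmd] at hq
        rcases (hdisc _ _ hz).lt_or_eq with h | h
        · refine ⟨q, z + 1, ?_, ?_⟩
          · rw [hlt, hmd]; exact h
          · rw [ha, hm, hmd, hs, ← hq, add_assoc]
        · refine ⟨q + 1, 0, ?_, ?_⟩
          · rw [hlt, hmd]
            exact lt_of_lt_of_le one_pos (hpos w j)
          · rw [ha, hm, hmd, hs, ← hq, ← h]
            ring
    obtain ⟨q, z, hz, hq⟩ := (sat_divFm _ _ _ _).1 (hdiv u)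
    rw [hlt, hmd] at hz
    rw [ha, hm, hmd] at hq
    refine ⟨z, (hBet _ _ _ _).2 ⟨hz, q, hq.symm⟩, ?_⟩
    intro z' hz'
    exact beta_unique hd u w j z' z ((hBet _ _ _ _).1 hz') ⟨hz, q, hq.symm⟩
  · intro N y
    obtain ⟨u, w, h⟩ := beta_exists hd N y
    refine ⟨u, w, fun j hj => ?_⟩
    rw [hBet, hn]
    exact h j hj

end Pool.Agent.N636.SF
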