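import Pool.Agent.N636.SF.Stm

/-!
# Borel codes for oracle computations relative to iterated jumps
-/

set_option autoImplicit false

namespace Pool.Agent.N636.SF

namespace P_BS

/-- The list `l` is an initial segment of `X`. -/
def Ini (l : List Bool) (X : Set ℕ) : Prop := ∀ z < l.length, (l[z]? = some true ↔ z ∈ X)

/-- The set is given by a code of level `n + 1`. -/
def G (n : ℕ) (S : Set ℕ → Prop) : Prop := ∃ C : BC, Lev (n + 1) C ∧ ∀ X, C.holds X ↔ S X

theorem G_congr {n : ℕ} {S S' : Set ℕ → Prop} (h : G n S) (e : ∀ X, S X ↔ S' X) : G n S' := by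
  obtain ⟨C, h1, h2⟩ := h
  exact ⟨C, h1, fun X => (h2 X).trans (e X)⟩

theorem Lev_up {n : ℕ} {C : BC} (h : Lev n C) : Lev (n + 1) C := by
  induction h with
  | op n P => exact Lev.op (n + 1) P
  | ex h ih => exact Lev.ex ih

theorem G_up {n : ℕ} {S : Set ℕ → Prop} (h : G n S) : G (n + 1) S := by
  obtain ⟨C, h1, h2⟩ := h
  exact ⟨C, Lev_up h1, h2⟩

theorem G_op (n : ℕ) (P : List Bool → Prop) : G n (fun X => ∃ l, P l ∧ Ini l X) :=
  ⟨.op P, Lev.op n P, fun X => by simp only [BC.holds, Ini]⟩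

theorem G_not {n : ℕ} {S : Set ℕ → Prop} (h : G n S) : G (n + 1) (fun X => ¬ S X) := by
  obtain ⟨C, h1, h2⟩ := h
  refine ⟨.ex fun _ => C, Lev.ex fun _ => h1, fun X => ?_⟩
  simp only [BC.holds, h2, exists_const]

theorem Ini_nil (X : Set ℕ) : Ini [] X := by
  intro z hz
  simp at hz

theorem G_true (n : ℕ) : G n (fun _ => True) :=
  G_congr (G_op n fun _ => True) fun X => ⟨fun _ => trivial, fun _ => ⟨[], trivial, Ini_nil X⟩⟩

theorem G_false (n : ℕ) : G n (fun _ => False) :=
  G_congr (G_op n fun _ => False) fun X => ⟨fun ⟨_, h, _⟩ => h, fun h => h.elim⟩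

theorem Ini_unique {l l' : List Bool} {X : Set ℕ} (h : Ini l X) (h' : Ini l' X)
    (hl : l.length = l'.length) : l = l' := by
  apply List.ext_getElem hl
  intro i h1 h2
  have e1 := h i h1
  have e2 := h' i h2
  rw [List.getElem?_eq_getElem h1] at e1
  rw [List.getElem?_eq_getElem h2] at e2
  simp only [Option.some.injEq] at e1 e2
  have e3 : l[i] = true ↔ l'[i] = true := e1.trans e2.symm
  cases h3 : l[i] <;> cases h4 : l'[i] <;> simp_all

open Classical in
theorem Ini_exists (X : Set ℕ) (m : ℕ) : ∃ l : List Bool, l.length = m ∧ Ini l X := by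
  refine ⟨(List.range m).map fun i => decide (i ∈ X), by simp, ?_⟩
  intro z hz
  simp only [List.length_map, List.length_range] at hz
  rw [List.getElem?_map, List.getElem?_range hz]
  simp

/-- Codes of level at least two are countable unions of complements. -/
theorem norm {n : ℕ} {S : Set ℕ → Prop} (h : G (n + 1) S) :
    ∃ c : ℕ → BC, (∀ i, Lev (n + 1) (c i)) ∧ ∀ X, S X ↔ ∃ i, ¬ (c i).holds X := by
  obtain ⟨C, h1, h2⟩ := h
  cases h1 with
  | op n P =>
    let f : ℕ → List Bool := fun k => (Encodable.decode (α := List Bool) k).getD []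
    have hf : ∀ l, f (Encodable.encode l) = l := fun l => by simp [f]
    refine ⟨fun i => .op fun l' => ¬ P (f i) ∨ (l'.length = (f i).length ∧ l' ≠ f i),
      fun i => Lev.op _ _, fun X => ?_⟩
    rw [← h2]
    simp only [BC.holds]
    constructor
    · rintro ⟨l, hl, hX⟩
      refine ⟨Encodable.encode l, ?_⟩
      rw [hf l]
      rintro ⟨l', h3 | h3, h4⟩
      · exact h3 hl
      · exact h3.2 (Ini_unique h4 hX h3.1)
    · rintro ⟨i, hi⟩
      have h3 : P (f i) := by
        by_contra h3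
        exact hi ⟨[], Or.inl h3, Ini_nil X⟩
      refine ⟨f i, h3, ?_⟩
      obtain ⟨l, h4, h5⟩ := Ini_exists X (f i).length
      have h6 : l = f i := by
        by_contra h6
        exact hi ⟨l, Or.inr ⟨h4, h6⟩, h5⟩
      rw [← h6]
      exact h5
  | @ex n c h3 => exact ⟨c, h3, fun X => by rw [← h2]; simp only [BC.holds]⟩

theorem G_iUnion {n : ℕ} {S : ℕ → Set ℕ → Prop} (h : ∀ i, G n (S i)) :
    G n (fun X => ∃ i, S i X) := by
  rcases n with _ | n
  · have h' : ∀ i, ∃ P : List Bool → Prop, ∀ X, (∃ l, P l ∧ Ini l X) ↔ S i X := by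
      intro i
      obtain ⟨C, h1, h2⟩ := h i
      cases h1 with
      | op n P => exact ⟨P, fun X => by rw [← h2]; simp only [BC.holds, Ini]⟩
    choose P hP using h'
    refine G_congr (G_op 0 fun l => ∃ i, P i l) fun X => ?_
    constructor
    · rintro ⟨l, ⟨i, hi⟩, hl⟩
      exact ⟨i, (hP i X).1 ⟨l, hi, hl⟩⟩
    · rintro ⟨i, hi⟩
      obtain ⟨l, h1, h2⟩ := (hP i X).2 hi
      exact ⟨l, ⟨i, h1⟩, h2⟩
  · choose c hc1 hc2 using fun i => norm (h i)
    refine ⟨.ex fun k => c k.unpair.1 k.unpair.2, Lev.ex fun k => hc1 _ _, fun X => ?_⟩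
    simp only [BC.holds]
    constructor
    · rintro ⟨k, hk⟩
      exact ⟨k.unpair.1, (hc2 _ X).2 ⟨k.unpair.2, hk⟩⟩
    · rintro ⟨i, hi⟩
      obtain ⟨j, hj⟩ := (hc2 i X).1 hi
      refine ⟨Nat.pair i j, ?_⟩
      simpa using hj

theorem G_or {n : ℕ} {S S' : Set ℕ → Prop} (h : G n S) (h' : G n S') :
    G n (fun X => S X ∨ S' X) := by
  have h1 : ∀ i : ℕ, G n (if i = 0 then S else S') := by
    intro i
    split_ifs
    · exact h
    · exact h'
  refine G_congr (G_iUnion h1) fun X => ?_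
  constructor
  · rintro ⟨i, hi⟩
    by_cases h0 : i = 0
    · rw [if_pos h0] at hi
      exact Or.inl hi
    · rw [if_neg h0] at hi
      exact Or.inr hi
  · rintro (h2 | h2)
    · exact ⟨0, by simpa using h2⟩
    · exact ⟨1, by simpa using h2⟩

theorem G_and {n : ℕ} {S S' : Set ℕ → Prop} (h : G (n + 1) S) (h' : G (n + 1) S') :
    G (n + 1) (fun X => S X ∧ S' X) := by
  obtain ⟨c, hc1, hc2⟩ := norm h
  obtain ⟨c', hc1', hc2'⟩ := norm h'
  have h1 : ∀ k : ℕ, G (n + 1) (fun X =>
      ¬ ((c k.unpair.1).holds X ∨ (c' k.unpair.2).holds X)) := fun k =>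
    G_not (G_or ⟨_, hc1 _, fun X => Iff.rfl⟩ ⟨_, hc1' _, fun X => Iff.rfl⟩)
  refine G_congr (G_iUnion h1) fun X => ?_
  rw [hc2, hc2']
  constructor
  · rintro ⟨k, hk⟩
    push Not at hk
    exact ⟨⟨_, hk.1⟩, ⟨_, hk.2⟩⟩
  · rintro ⟨⟨i, hi⟩, ⟨j, hj⟩⟩
    refine ⟨Nat.pair i j, ?_⟩
    simp only [Nat.unpair_pair]
    rintro (h2 | h2)
    · exact hi h2
    · exact hj h2

theorem G_ball {n : ℕ} {S : ℕ → Set ℕ → Prop} (h : ∀ i, G (n + 1) (S i)) (m : ℕ) :
    G (n + 1) (fun X => ∀ i < m, S i X) := by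
  induction m with
  | zero => exact G_congr (G_true _) fun X => by simp
  | succ m ih =>
    refine G_congr (G_and ih (h m)) fun X => ?_
    constructor
    · rintro ⟨h1, h2⟩ i hi
      rcases Nat.lt_succ_iff_lt_or_eq.1 hi with h3 | h3
      · exact h1 i h3
      · rw [h3]; exact h2
    · intro h1
      exact ⟨fun i hi => h1 i (by omega), h1 m (by omega)⟩

/-- The use principle. -/
theorem use (e s y : ℕ) : ∃ R : List Bool → Prop, ∀ Y : Set ℕ,
    Phi Y e s y ↔ ∃ l, R l ∧ Ini l Y := by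
  refine ⟨fun l => ∀ Y', Ini l Y' → Phi Y' e s y, fun Y => ?_⟩
  constructor
  · rintro ⟨u, h1, h2⟩
    obtain ⟨l, hl, hY⟩ := Ini_exists Y (u + 1)
    refine ⟨l, fun Y' hY' => ?_, hY⟩
    have h3 : ∀ z ≤ u, (z ∈ Y' ↔ z ∈ Y) := fun z hz =>
      (hY' z (by omega)).symm.trans (hY z (by omega))
    have h4 : ∀ m ≤ u, seg Y' m = seg Y m := by
      intro m hm
      unfold seg
      congr 1
      apply List.map_congr_left
      intro z hz
      rw [List.mem_range] at hz
      exact decide_eq_decide.2 (h3 z (by omega))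
    have h5 : ∀ u' ≤ u, attempt Y' e s u' = attempt Y e s u' := by
      intro u' hu'
      unfold attempt
      rw [h4 _ ((Nat.unpair_right_le u').trans hu')]
    refine ⟨u, ?_, fun u' hu' => ?_⟩
    · rw [h5 u le_rfl]; exact h1
    · rw [h5 u' hu'.le]; exact h2 u' hu'
  · rintro ⟨l, h1, h2⟩
    exact h1 Y h2

theorem main (n : ℕ) : ∀ e s y : ℕ, G n (fun X => Phi (jump^[n] X) e s y) := by
  induction n with
  | zero =>
    intro e s y
    obtain ⟨R, hR⟩ := use e s y
    exact G_congr (G_op 0 R) fun X => (hR X).symm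
  | succ n ih =>
    intro e s y
    obtain ⟨R, hR⟩ := use e s y
    have h1 : ∀ z : ℕ, G n (fun X => z ∈ jump^[n + 1] X) := by
      intro z
      refine G_congr (G_iUnion fun y => ih z z y) fun X => ?_
      rw [Function.iterate_succ']
      rfl
    have h2 : ∀ l : List Bool, G (n + 1) (fun X => Ini l (jump^[n + 1] X)) := by
      intro l
      refine G_ball (S := fun z X => l[z]? = some true ↔ z ∈ jump^[n + 1] X) (fun z => ?_) l.length
      by_cases hz : l[z]? = some true
      · exact G_congr (G_up (h1 z)) fun X => by simp [hz]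
      · exact G_congr (G_not (h1 z)) fun X => by simp [hz]
    let f : ℕ → List Bool := fun k => (Encodable.decode (α := List Bool) k).getD []
    have hf : ∀ l, f (Encodable.encode l) = l := fun l => by simp [f]
    have h3 : ∀ k : ℕ, G (n + 1) (fun X => R (f k) ∧ Ini (f k) (jump^[n + 1] X)) := by
      intro k
      by_cases hk : R (f k)
      · exact G_congr (h2 (f k)) fun X => by simp [hk]
      · exact G_congr (G_false _) fun X => by simp [hk]
    refine G_congr (G_iUnion h3) fun X => ?_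
    rw [hR]
    constructor
    · rintro ⟨k, hk⟩
      exact ⟨f k, hk⟩
    · rintro ⟨l, hl⟩
      exact ⟨Encodable.encode l, by rw [hf]; exact hl⟩

end P_BS

theorem prf_bs : S_bs := fun n e s y => P_BS.main n e s y

end Pool.Agent.N636.SF
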