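import Pool.Agent.N636.SF.Basic

/-!
# Statements of the parts of the proof, as propositions

Part I : a formula which defines an element with arbitrary bits in suitable models of PA.
Part II : sentences of all levels which can be made true one after the other.
Part III : the construction of the model by forcing.
-/

set_option autoImplicit false

namespace Pool.Agent.N636.SF

/-! ## Part 0: general -/

/-- Algebra in models of PA. -/
def S_alg : Prop :=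
  ∀ (M : Type) [Arith M], IsPA M →
    ∃ (_ : CommSemiring M) (_ : LinearOrder M) (_ : IsStrictOrderedRing M)
      (_ : CanonicallyOrderedAdd M),
      (Arith.zero : M) = 0 ∧ (∀ x : M, Arith.succ x = x + 1) ∧
      (∀ x y : M, Arith.add x y = x + y) ∧ (∀ x y : M, Arith.mul x y = x * y) ∧
      (∀ x y : M, Lt x y ↔ x < y) ∧ (∀ x : M, x < 1 → x = 0) ∧
      (∀ n : ℕ, num M n = (n : M)) ∧
      (∀ (x : M) (n : ℕ), x < (n : M) → ∃ m < n, x = (m : M))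

/-- Compactness (for models of PA). -/
def S_cpt : Prop :=
  ∀ Θ : Set Fm, (∀ F : Finset Fm, (↑F : Set Fm) ⊆ Θ →
      ∃ (M : Type) (_ : Arith M), IsPA M ∧ ∃ v : ℕ → M, ∀ φ ∈ F, Sat φ v) →
    ∃ (M : Type) (_ : Arith M), IsPA M ∧ ∃ v : ℕ → M, ∀ φ ∈ Θ, Sat φ v

section codes
variable {M : Type} [Arith M]

/-- The moduli of the beta function. -/
def md (w j : M) : M := Arith.succ (Arith.mul (Arith.succ j) w)

/-- The beta function: `z` is the remainder of `u` modulo `1 + (j + 1) w`. -/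
def Bet (u w j z : M) : Prop :=
  Lt z (md w j) ∧ ∃ q, Lt q (Arith.succ u) ∧ Arith.add (Arith.mul q (md w j)) z = u

/-- A pairing function (injective, not surjective). -/
def pr (a b : M) : M := Arith.add (Arith.mul (Arith.add a b) (Arith.add a b)) a

/-- The `l`-th bit of `d` is one. -/
def Bit (d l : M) : Prop :=
  ∃ u, Lt u (Arith.succ d) ∧ ∃ w, Lt w (Arith.succ d) ∧ ∃ q, Lt q (Arith.succ u) ∧
    pr u w = d ∧ Arith.mul q (md w l) = u

/-- `z` is the value of the variable `j` given by the codes in the list (newest first): the odd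
variables belong to the first code, the even ones to the rest of the list. -/
def Vl : List (M × M) → M → M → Prop
  | [], _, z => z = Arith.zero
  | p :: s, j, z =>
    (∃ j', Lt j' (Arith.succ j) ∧ Arith.succ (Arith.add j' j') = j ∧ Bet p.1 p.2 j' z) ∨
    (∃ j', Lt j' (Arith.succ j) ∧ Arith.add j' j' = j ∧ Vl s j' z)

/-- A bound for the values. -/
def Bs : List (M × M) → M
  | [] => Arith.zero
  | p :: s => Arith.add (Bs s) p.1

/-- The atomic formula with number `l` is true for the values of the variables given by `s`. -/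
def AtomL (s : List (M × M)) (l : M) : Prop :=
  ∃ ty, Lt ty (Arith.succ l) ∧ ∃ a, Lt a (Arith.succ l) ∧ ∃ b, Lt b (Arith.succ l) ∧
  ∃ c, Lt c (Arith.succ l) ∧ ∃ e, Lt e (Arith.succ l) ∧ pr (pr (pr (pr ty a) b) c) e = l ∧
  ∃ xa, Lt xa (Arith.succ (Bs s)) ∧ ∃ xb, Lt xb (Arith.succ (Bs s)) ∧
  ∃ xc, Lt xc (Arith.succ (Bs s)) ∧ ∃ xe, Lt xe (Arith.succ (Bs s)) ∧
    Vl s a xa ∧ Vl s b xb ∧ Vl s c xc ∧ Vl s e xe ∧
    ((ty = Arith.zero ∧ Arith.add (Arith.mul xa xb) xc = xe) ∨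
      (ty = Arith.succ Arith.zero ∧ xa = Arith.succ Arith.zero))

/-- The truth table with number `i` (given by bits of `d`) is true. -/
def T0 (d i : M) (s : List (M × M)) : Prop :=
  ∃ c, Lt c i ∧ ∀ l, Lt l i →
    (Bit d (pr Arith.zero (pr (pr (pr i c) l) Arith.zero)) → AtomL s l) ∧
    (Bit d (pr Arith.zero (pr (pr (pr i c) l) (Arith.succ Arith.zero))) → ¬ AtomL s l)

/-- The truth predicates. -/
def Tb : ℕ → M → M → List (M × M) → Prop
  | 0, d, i, s => T0 d i s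
  | n + 1, d, i, s => ∃ u w, ¬ Tb n d i ((u, w) :: s)

/-- Merge two sequences. -/
def mrg (x y : ℕ → M) : ℕ → M := fun j => if j % 2 = 0 then x (j / 2) else y (j / 2)

/-- The pairing function on `ℕ`. -/
def prN (a b : ℕ) : ℕ := (a + b) * (a + b) + a

/-- The atomic formula number `l` is true. -/
def atomX (x : ℕ → M) (l : ℕ) : Prop :=
  ∃ ty a b c e, prN (prN (prN (prN ty a) b) c) e = l ∧
    ((ty = 0 ∧ Arith.add (Arith.mul (x a) (x b)) (x c) = x e) ∨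
      (ty = 1 ∧ x a = Arith.succ Arith.zero))

/-- The `i`-th truth table: a number `N` and a list of subsets of `{0, ..., N - 1}`. -/
def tt (i : ℕ) : ℕ × List (List ℕ) :=
  match (Encodable.decode i : Option (ℕ × ℕ × List (List ℕ))) with
  | some (_, N, F) => if N ≤ i ∧ F.length ≤ i then (N, F) else (0, [])
  | none => (0, [])

/-- The `i`-th truth table is true at `x`. -/
def PT (i : ℕ) (x : ℕ → M) : Prop := ∃ S ∈ (tt i).2, ∀ l < (tt i).1, (l ∈ S ↔ atomX x l)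

/-- Formulas with `n` alternating blocks in front of a truth table. -/
def Vb : ℕ → ℕ → (ℕ → M) → Prop
  | 0, i, x => PT i x
  | n + 1, i, x => ∃ y : ℕ → M, ¬ Vb n i (mrg x y)

end codes

/-- The bits which describe the truth tables. -/
def TabP (i c l b : ℕ) : Prop :=
  (∃ S, (tt i).2[c]? = some S ∧ l < (tt i).1 ∧ ((b = 0 ∧ l ∈ S) ∨ (b = 1 ∧ l ∉ S))) ∨
  ((tt i).2[c]? = none ∧ l = 0 ∧ (b = 0 ∨ b = 1))

/-- The beta function in models of PA. -/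
def S_beta : Prop :=
  ∀ (M : Type) [Arith M], IsPA M → (∀ u w j : M, ∃! z, Bet u w j z) ∧
    ∀ (N : ℕ) (y : ℕ → M), ∃ u w : M, ∀ j < N, Bet u w (num M j) (y j)

/-- The classes `Gam n` of formulas. -/
inductive Gam : ℕ → Fm → Prop
  | atom0 (a b c e : ℕ) : Gam 0 (.eq (.add (.mul (.var a) (.var b)) (.var c)) (.var e))
  | atom1 (a : ℕ) : Gam 0 (.eq (.var a) (.succ .zero))
  | up {n : ℕ} {φ : Fm} : Gam n φ → Gam (n + 1) φ
  | neg {n : ℕ} {φ : Fm} : Gam n φ → Gam (n + 1) (.neg φ)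
  | and {n : ℕ} {φ ψ : Fm} : Gam (n + 1) φ → Gam (n + 1) ψ → Gam (n + 1) (.and φ ψ)
  | ex {n : ℕ} {φ : Fm} : Gam (n + 1) φ → Gam (n + 1) φ.ex

/-- `φ` is equivalent in PA to a formula in `Gam n` with free variables below `k`. -/
def InGam (n k : ℕ) (φ : Fm) : Prop :=
  ∃ ψ, Gam n ψ ∧ ψ.Bd k ∧ ∀ (M : Type) [Arith M], IsPA M → ∀ v : ℕ → M, Sat φ v ↔ Sat ψ v

/-- Equations and inequations are in `Gam 1`. -/
def S_gam1 : Prop := ∀ (s t : Tm) (k : ℕ), s.Bd k → t.Bd k →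
  InGam 1 k (.eq s t) ∧ InGam 1 k (.neg (.eq s t))

/-- Every formula is in some `Gam n`. -/
def S_gamall : Prop := ∀ (φ : Fm) (k : ℕ), φ.Bd k → ∃ n, InGam n k φ

/-- The members of `Gam n` are given by truth tables. -/
def S_U1 : Prop := ∀ (n : ℕ) (φ : Fm), Gam n φ →
  ∃ i, ∀ (M : Type) [Arith M] (v : ℕ → M), Sat φ v ↔ Vb n i v

/-- The truth predicates are correct. -/
def S_U2 : Prop := ∀ (M : Type) [Arith M], IsPA M → ∀ d : M,
  (∀ i c l b : ℕ, Bit d (num M (prN 0 (prN (prN (prN i c) l) b))) ↔ TabP i c l b) →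
  ∀ n i : ℕ, Tb n d (num M i) [] ↔ Vb n i (fun _ => (Arith.zero : M))

/-- Relations on all structures. -/
abbrev URel := (M : Type) → [Arith M] → (ℕ → M) → Prop

/-- `R` is a `Σ_n` (for `b = true`) or `Π_n` (for `b = false`) relation of the first `k` values,
in all models of PA. -/
def IsDef (b : Bool) (n k : ℕ) (R : URel) : Prop :=
  ∃ φ : Fm, Hier b n φ ∧ φ.Bd k ∧ ∀ (M : Type) [Arith M], IsPA M → ∀ v : ℕ → M, Sat φ v ↔ R M v

/-- Closure properties of the arithmetical hierarchy. -/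
structure Calc : Prop where
  congr : ∀ (b : Bool) (n k : ℕ) (R R' : URel),
    (∀ (M : Type) [Arith M], IsPA M → ∀ v : ℕ → M, R M v ↔ R' M v) →
    IsDef b n k R → IsDef b n k R'
  eq : ∀ (b : Bool) (k : ℕ) (s t : Tm), s.Bd k → t.Bd k →
    IsDef b 0 k (fun _ _ v => s.val v = t.val v)
  lt : ∀ (b : Bool) (k : ℕ) (s t : Tm), s.Bd k → t.Bd k →
    IsDef b 0 k (fun _ _ v => Lt (s.val v) (t.val v))
  not : ∀ (b : Bool) (n k : ℕ) (R : URel), IsDef b n k R → IsDef (!b) n k (fun M _ v => ¬ R M v)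
  and : ∀ (b : Bool) (n k : ℕ) (R R' : URel), IsDef b n k R → IsDef b n k R' →
    IsDef b n k (fun M _ v => R M v ∧ R' M v)
  or : ∀ (b : Bool) (n k : ℕ) (R R' : URel), IsDef b n k R → IsDef b n k R' →
    IsDef b n k (fun M _ v => R M v ∨ R' M v)
  bex : ∀ (b : Bool) (k : ℕ) (R : URel) (t : Tm), t.Bd k → IsDef b 0 (k + 1) R →
    IsDef b 0 k (fun M _ v => ∃ a, Lt a (t.val v) ∧ R M (cons a v))
  ball : ∀ (b : Bool) (k : ℕ) (R : URel) (t : Tm), t.Bd k → IsDef b 0 (k + 1) R →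
    IsDef b 0 k (fun M _ v => ∀ a, Lt a (t.val v) → R M (cons a v))
  ex : ∀ (n k : ℕ) (R : URel), IsDef true (n + 1) (k + 1) R →
    IsDef true (n + 1) k (fun M _ v => ∃ a, R M (cons a v))
  all : ∀ (n k : ℕ) (R : URel), IsDef false (n + 1) (k + 1) R →
    IsDef false (n + 1) k (fun M _ v => ∀ a, R M (cons a v))
  up : ∀ (b b' : Bool) (n m k : ℕ) (R : URel), n < m → IsDef b n k R → IsDef b' m k R
  zero : ∀ (b b' : Bool) (k : ℕ) (R : URel), IsDef b 0 k R → IsDef b' 0 k R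
  mono : ∀ (b : Bool) (n k l : ℕ) (R : URel), k ≤ l → IsDef b n k R → IsDef b n l R
  subst : ∀ (b : Bool) (n k l : ℕ) (R : URel) (τ : ℕ → Tm), (∀ i < k, (τ i).Bd l) →
    IsDef b n k R → IsDef b n l (fun M _ v => R M fun i => (τ i).val v)

/-- The truth predicates are `Σ_n`. -/
def S_cxT : Prop := ∀ n : ℕ,
  IsDef true (n + 1) 2 (fun _ _ v => Tb (n + 1) (v 0) (v 1) [])

/-- The bits are `Δ_0`. -/
def S_cxBit : Prop := ∀ b : Bool, IsDef b 0 2 (fun _ _ v => Bit (v 0) (v 1))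

/-! ## Part II: the sentences -/

/-- `d` is the only element satisfying `D`. -/
def Uq (D : Fm) {M : Type} [Arith M] (d : M) : Prop := ∀ x : M, Sat D (fun _ => x) ↔ x = d

/-- There is a formula which defines in suitable models of PA an element with prescribed bits. -/
def S_flexD : Prop :=
  ∃ D : Fm, D.Bd 1 ∧ ∀ r : Set ℕ, ∃ (M : Type) (_ : Arith M), IsPA M ∧
    ∃ d : M, Uq D d ∧ ∀ l : ℕ, Bit d (num M l) ↔ l ∈ r

/-- code of a list of states -/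
def cdN (j : ℕ) (s : List ℕ) : ℕ := Encodable.encode (j, s)

section scheme
variable (N0 : ℕ) {M : Type} [Arith M] (d : M)

/-- The trigger for the state `j` after the states `s` of the lower levels, with bound `B`. -/
def Core (B : M → Prop) (j : ℕ) (s : List ℕ) (k : M) : Prop :=
  B k ∧ ∃ i, Lt i k ∧
    Bit d (pr (Arith.succ Arith.zero) (pr (pr (num M (cdN j s)) k) i)) ∧
    Tb (N0 + s.length) d i []

/-- `k` is an admissible bound after the states `s` (newest first). -/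
def BdS : List ℕ → M → Prop
  | [], _ => True
  | j :: s, k => BdS s k ∧ (1 ≤ j → ∀ k', Lt k' (Arith.succ k) → ¬ Core N0 d (BdS s) j s k')

/-- The trigger. -/
def TgS (j : ℕ) (s : List ℕ) (k : M) : Prop := Core N0 d (BdS N0 d s) j s k

/-- The state of the level `s.length` is at least `j`. -/
def Reach (j : ℕ) (s : List ℕ) : Prop := ∀ j', 1 ≤ j' → j' ≤ j → ∃ k, TgS N0 d j' s k

open Classical in
/-- The list of the states of the levels `p - 1, ..., 0`. -/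
noncomputable def vec (J : ℕ → ℕ) : ℕ → List ℕ
  | 0 => []
  | p + 1 => Nat.findGreatest (fun j => Reach N0 d j (vec J p)) (J p) :: vec J p

open Classical in
/-- The state of the level `p`. -/
noncomputable def state (J : ℕ → ℕ) (p : ℕ) : ℕ :=
  Nat.findGreatest (fun j => Reach N0 d j (vec N0 d J p)) (J p)

end scheme

/-- The state `j` at level `s.length`, after the states `s` of the lower levels and with the
states of the levels up to `k` equal to `0`, is refuted by the sentence number `i`. -/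
def RR (D : Fm) (N0 : ℕ) (J : ℕ → ℕ) (j : ℕ) (s : List ℕ) (k i : ℕ) : Prop :=
  ∀ (M : Type) [Arith M], IsPA M → ∀ d : M, Uq D d → Vb (N0 + s.length) i (fun _ => (Arith.zero : M)) →
    ¬ (vec N0 d J s.length = s ∧ state N0 d J s.length = j ∧
      ∀ m, s.length < m → m < k → state N0 d J m = 0)

/-- The bits of the distinguished element. -/
def rset (D : Fm) (N0 : ℕ) (J : ℕ → ℕ) : Set ℕ :=
  {l | (∃ i c l' b, l = prN 0 (prN (prN (prN i c) l') b) ∧ TabP i c l' b) ∨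
    ∃ j s k i, l = prN 1 (prN (prN (cdN j s) k) i) ∧ RR D N0 J j s k i}

/-- `d` is the distinguished element, with the right bits. -/
def Base (D : Fm) (N0 : ℕ) (J : ℕ → ℕ) {M : Type} [Arith M] (d : M) : Prop :=
  Uq D d ∧ ∀ l : ℕ, Bit d (num M l) ↔ l ∈ rset D N0 J

/-- (A): no standard trigger for the current state. -/
def S_A : Prop := ∀ (D : Fm) (N0 : ℕ) (J : ℕ → ℕ) (M : Type) [Arith M], IsPA M → ∀ d : M,
  Base D N0 J d → ∀ k p : ℕ, 1 ≤ state N0 d J p →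
    ¬ TgS N0 d (state N0 d J p) (vec N0 d J p) (num M k)

/-- (B): the next state is possible. -/
def S_B : Prop := ∀ (D : Fm) (N0 : ℕ) (J : ℕ → ℕ) (M : Type) [Arith M], 1 ≤ N0 → IsPA M →
  ∀ d : M, Base D N0 J d → ∀ p : ℕ, state N0 d J p < J p → (∀ m > p, state N0 d J m = 0) →
  ∀ (F : Finset Fm), (∀ φ ∈ F, Gam (N0 + p) φ ∧ φ.Bd 0 ∧ Sat φ (fun _ => (Arith.zero : M))) →
  ∀ N : ℕ, ∃ (M' : Type) (_ : Arith M'), IsPA M' ∧ ∃ d' : M', Uq D d' ∧
    (∀ φ ∈ F, Sat φ (fun _ => (Arith.zero : M'))) ∧ vec N0 d' J p = vec N0 d J p ∧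
    state N0 d' J p = state N0 d J p + 1 ∧ ∀ m, p < m → m < N → state N0 d' J m = 0

/-- (Start): the state `1` at level `0` and the states `0` at the higher levels are possible. -/
def S_Start : Prop := ∀ (D : Fm) (N0 : ℕ) (J : ℕ → ℕ) (M : Type) [Arith M], 1 ≤ N0 → J 0 = 1 →
  IsPA M → ∀ d : M, Base D N0 J d →
  ∀ (F : Finset Fm), (∀ φ ∈ F, Gam N0 φ ∧ φ.Bd 0 ∧ Sat φ (fun _ => (Arith.zero : M))) →
  ∀ N : ℕ, ∃ (M' : Type) (_ : Arith M'), IsPA M' ∧ ∃ d' : M', Uq D d' ∧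
    (∀ φ ∈ F, Sat φ (fun _ => (Arith.zero : M'))) ∧
    state N0 d' J 0 = 1 ∧ ∀ m, 0 < m → m < N → state N0 d' J m = 0

/-- The levels of the basic facts. -/
def S_lev : Prop := ∀ D : Fm, D.Bd 1 → ∃ N0, 1 ≤ N0 ∧ IsDef true N0 1 (fun _ _ v => Sat D v) ∧
  (∃ ψ, Gam N0 ψ ∧ ψ.Bd 0 ∧ ∀ (M : Type) [Arith M], IsPA M → ∀ v : ℕ → M,
    (Sat ψ v ↔ ∃ d : M, Uq D d)) ∧
  ∀ (l : ℕ) (b : Bool), ∃ ψ, Gam N0 ψ ∧ ψ.Bd 0 ∧ ∀ (M : Type) [Arith M], IsPA M →
    ∀ d : M, Uq D d → ∀ v : ℕ → M, (Sat ψ v ↔ (Bit d (num M l) ↔ b = true))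

/-- The sentences `state p ≥ j` are `Σ_{N0+p}`. -/
def S_cx : Prop := ∀ (D : Fm) (N0 : ℕ) (J : ℕ → ℕ), 1 ≤ N0 → D.Bd 1 →
  IsDef true N0 1 (fun _ _ v => Sat D v) → ∀ p j : ℕ, 1 ≤ j → j ≤ J p →
  ∃ φ, Hier true (N0 + p) φ ∧ φ.Bd 0 ∧ ∀ (M : Type) [Arith M], IsPA M → ∀ d : M, Uq D d →
    ∀ v : ℕ → M, (Sat φ v ↔ j ≤ state N0 d J p)

/-- Summary of part II. -/
structure Side (N0 : ℕ) (J : ℕ → ℕ) (Gd : (M : Type) → [Arith M] → Prop)
    (st : (M : Type) → [Arith M] → ℕ → ℕ) (stF : ℕ → ℕ → Fm) : Prop where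
  pa : ∀ (M : Type) [Arith M], Gd M → IsPA M
  sig : ∀ p j : ℕ, 1 ≤ j → j ≤ J p → Hier true (N0 + p) (stF p j) ∧ (stF p j).Bd 0
  stF : ∀ p j : ℕ, 1 ≤ j → j ≤ J p → ∀ (M : Type) [Arith M], Gd M → ∀ v : ℕ → M,
    (Sat (stF p j) v ↔ j ≤ st M p)
  le : ∀ (M : Type) [Arith M] (p : ℕ), st M p ≤ J p
  pres : ∀ (M M' : Type) [Arith M] [Arith M'], Gd M → IsPA M' →
    (∀ φ, Gam N0 φ → φ.Bd 0 → Sat φ (fun _ => (Arith.zero : M)) →
      Sat φ (fun _ => (Arith.zero : M'))) → Gd M'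
  start : ∃ (M : Type) (_ : Arith M), Gd M ∧ ∀ p ≥ 1, st M p = 0
  step : ∀ p ≥ 1, ∀ (M : Type) [Arith M], Gd M → st M p < J p → (∀ m > p, st M m = 0) →
    ∃ (M' : Type) (_ : Arith M'), Gd M' ∧
      (∀ φ, Gam (N0 + p) φ → φ.Bd 0 → Sat φ (fun _ => (Arith.zero : M)) →
        Sat φ (fun _ => (Arith.zero : M'))) ∧
      (∀ m < p, st M' m = st M m) ∧ st M' p = st M p + 1 ∧ ∀ m > p, st M' m = 0

def S_side : Prop := ∃ N0 ≥ 1, ∀ J : ℕ → ℕ, J 0 = 1 →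
  ∃ (Gd : (M : Type) → [Arith M] → Prop) (st : (M : Type) → [Arith M] → ℕ → ℕ)
    (stF : ℕ → ℕ → Fm), Side N0 J Gd st stF

/-! ## Part III: the forcing -/

/-- Conditions: finite sequences of distinct elements of models of PA. -/
structure Cond where
  M : Type
  ar : Arith M
  pa : IsPA M
  a : ℕ → M
  k : ℕ
  inj : ∀ i < k, ∀ j < k, a i = a j → i = j

attribute [instance] Cond.ar

/-- The `Gam n` facts of `p` are true in `q`. -/
def Le (n : ℕ) (p q : Cond) : Prop :=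
  p.k ≤ q.k ∧ ∀ φ, Gam n φ → φ.Bd p.k → Sat φ p.a → Sat φ q.a

/-- `q` extends `p`: all the facts of `p` are true in `q`. -/
def Ext (p q : Cond) : Prop := p.k ≤ q.k ∧ ∀ φ : Fm, φ.Bd p.k → (Sat φ p.a ↔ Sat φ q.a)

/-- Borel codes (of finite rank). -/
inductive BC : Type
  | op (P : List Bool → Prop)
  | ex (c : ℕ → BC)

/-- `X` is in the set with the given code. -/
def BC.holds (X : Set ℕ) : BC → Prop
  | .op P => ∃ l : List Bool, P l ∧ ∀ z < l.length, (l[z]? = some true ↔ z ∈ X)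
  | .ex c => ∃ i, ¬ (c i).holds X

/-- The set is `Σ^0_n` (`n ≥ 1`). -/
inductive Lev : ℕ → BC → Prop
  | op (n : ℕ) (P : List Bool → Prop) : Lev (n + 1) (.op P)
  | ex {n : ℕ} {c : ℕ → BC} : (∀ i, Lev (n + 1) (c i)) → Lev (n + 2) (.ex c)

/-- The bit `z` of the diagram is decided by `p` to be `b`. -/
def Dec (p : Cond) (z : ℕ) (b : Prop) : Prop :=
  (∃ s t : Tm, z = Nat.pair s.code t.code ∧ s.Bd p.k ∧ t.Bd p.k ∧ (b ↔ Sat (.eq s t) p.a)) ∨
  ((¬ ∃ s t : Tm, z = Nat.pair s.code t.code) ∧ ¬ b)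

/-- Forcing. -/
def Forces : BC → Cond → Prop
  | .op P, p => ∃ l : List Bool, P l ∧ ∀ z < l.length, Dec p z (l[z]? = some true)
  | .ex c, p => ∃ i, ∀ q, Ext p q → ¬ Forces (c i) q

/-- Computations relative to iterated jumps have codes. -/
def S_bs : Prop := ∀ n e s y : ℕ, ∃ C : BC, Lev (n + 1) C ∧
  ∀ X : Set ℕ, C.holds X ↔ Phi (jump^[n] X) e s y

/-- Back and forth. -/
def S_T2 : Prop := ∀ (n : ℕ) (p q q' : Cond), 1 ≤ n → Le (n + 1) p q → Ext q q' →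
  ∃ p', Ext p p' ∧ Le n q' p'

/-- Preservation of forced statements. -/
def S_pres : Prop := ∀ (n : ℕ) (C : BC), Lev n C → ∀ p q : Cond, Le n p q →
  Forces C p → Forces C q

/-- A new model with given theory and `Gam n` facts. -/
def S_move : Prop := ∀ (n : ℕ) (p : Cond) (M' : Type) [Arith M'], 1 ≤ n → IsPA M' →
  (∀ φ, Gam n φ → φ.Bd 0 → Sat φ (fun _ => (Arith.zero : p.M)) →
    Sat φ (fun _ => (Arith.zero : M'))) →
  ∃ q : Cond, q.k = p.k ∧ Le n p q ∧ ∀ φ : Fm, φ.Bd 0 →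
    (Sat φ (fun _ => (Arith.zero : q.M)) ↔ Sat φ (fun _ => (Arith.zero : M')))

/-- Adding elements to a condition. -/
def S_wit : Prop := (∀ (p : Cond) (b : p.M), ∃ q : Cond, Ext p q ∧
    ∃ i < q.k, ∀ φ : Fm, φ.Bd (p.k + 1) →
      (Sat φ (cons b p.a) ↔ Sat (φ.subst (cons (.var i) Tm.var)) q.a)) ∧
  ∀ p : Cond, ∃ q : Cond, Ext p q ∧ q.k = p.k + 1

/-- Henkin's construction. -/
def S_henkin : Prop := ∀ Tr : Fm → Prop,
  (∀ φ, Tr (.neg φ) ↔ ¬ Tr φ) → (∀ φ ψ, Tr (.and φ ψ) ↔ Tr φ ∧ Tr ψ) →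
  (∀ φ, Tr (.all φ) ↔ ∀ i, Tr (φ.subst (cons (.var i) Tm.var))) →
  (∀ φ, (∀ (M : Type) [Arith M], IsPA M → ∀ v : ℕ → M, Sat φ v) → Tr φ) →
  (∀ i j, i ≠ j → ¬ Tr (.eq (.var i) (.var j))) →
  ∃ _A : Arith ℕ, IsPA ℕ ∧ ∀ (φ : Fm) (v : ℕ → ℕ), Sat φ v ↔ Tr (φ.subst fun j => .var (v j))

section attack
variable (N0 : ℕ) (J : ℕ → ℕ) (stF : ℕ → ℕ → Fm) (cd : ℕ → ℕ → ℕ → ℕ → BC)

/-- `q` forces that the index `c` gives the right answers for the state `j` at level `p`. -/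
def Patt (p j c : ℕ) (q : Cond) : Prop :=
  (∀ l, 1 ≤ l → l ≤ j → Forces (cd 0 c (stF p l).code 1) q) ∧
  Forces (cd 0 c (stF p (j + 1)).code 0) q

/-- The attack on the family `f` at level `p` is finished at `q`, with state `j`. -/
def Done (f : ℕ → ℕ) (p j : ℕ) (q : Cond) : Prop :=
  (∃ c : ℕ → ℕ, ∀ i < j, (∃ s, Forces (cd (N0 + p - 1) (f (N0 + p)) s (c i)) q) ∧
    Patt stF cd p i (c i) q) ∧
  (j = J p ∨ ∀ q', Ext q q' → ∀ s c, ¬ (Forces (cd (N0 + p - 1) (f (N0 + p)) s c) q' ∧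
    Patt stF cd p j c q'))

end attack

/-- The attack at level `p`. -/
def S_attack : Prop := ∀ (N0 : ℕ) (J : ℕ → ℕ) (Gd : (M : Type) → [Arith M] → Prop)
  (st : (M : Type) → [Arith M] → ℕ → ℕ) (stF : ℕ → ℕ → Fm) (cd : ℕ → ℕ → ℕ → ℕ → BC),
  1 ≤ N0 → Side N0 J Gd st stF → (∀ n e s y, Lev (n + 1) (cd n e s y)) →
  ∀ (f : ℕ → ℕ) (p : ℕ), 1 ≤ p → ∀ q : Cond, Gd q.M → (∀ m ≥ p, st q.M m = 0) →
    ∃ q' : Cond, Gd q'.M ∧ (∀ m ≥ p + 1, st q'.M m = 0) ∧ (∀ m < p, st q'.M m = st q.M m) ∧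
      Le (N0 + p) q q' ∧ Done N0 J stF cd f p (st q'.M p) q'

/-- Subcodes. -/
def BC.sub : BC → List ℕ → BC
  | C, [] => C
  | .op P, _ :: _ => .op P
  | .ex c, i :: l => (c i).sub l

/-- The generic sequence: `f` lists the families, `tk` the codes to be decided and `hk` the
formulas for which witnesses have to be added. -/
structure GenSeq (N0 : ℕ) (J : ℕ → ℕ) (Gd : (M : Type) → [Arith M] → Prop)
    (st : (M : Type) → [Arith M] → ℕ → ℕ) (stF : ℕ → ℕ → Fm) (cd : ℕ → ℕ → ℕ → ℕ → BC)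
    (f : ℕ → ℕ → ℕ) (tk : ℕ → BC) (hk : ℕ → Fm) (q : ℕ → Cond) : Prop where
  gd : ∀ t, Gd (q t).M
  le : ∀ t, Le (N0 + t + 1) (q t) (q (t + 1))
  stay : ∀ t m, t + 1 ≤ m → st (q m).M (t + 1) = st (q (t + 1)).M (t + 1)
  done : ∀ t, Done N0 J stF cd (f t) (t + 1) (st (q (t + 1)).M (t + 1)) (q (t + 1))
  dec : ∀ t, Forces (tk t) (q (t + 1)) ∨ ∀ q', Ext (q (t + 1)) q' → ¬ Forces (tk t) q'
  wit : ∀ t, (hk t).Bd ((q t).k + 1) → Sat (hk t).ex (q (t + 1)).a →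
    ∃ i < (q (t + 1)).k, Sat ((hk t).subst (cons (.var i) Tm.var)) (q (t + 1)).a
  grow : ∀ t, t + 1 ≤ (q t).k
  nonstd : ∀ n, ¬ Sat (.eq (.var 0) (numT n)) (q 0).a

/-- Existence of generic sequences. -/
def S_seq : Prop := ∀ (N0 : ℕ) (J : ℕ → ℕ) (Gd : (M : Type) → [Arith M] → Prop)
  (st : (M : Type) → [Arith M] → ℕ → ℕ) (stF : ℕ → ℕ → Fm) (cd : ℕ → ℕ → ℕ → ℕ → BC),
  1 ≤ N0 → Side N0 J Gd st stF → (∀ n e s y, Lev (n + 1) (cd n e s y)) →
  ∀ (f : ℕ → ℕ → ℕ) (tk : ℕ → BC) (hk : ℕ → Fm), ∃ q : ℕ → Cond,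
    GenSeq N0 J Gd st stF cd f tk hk q

/-- Many values imply many changes. -/
def S_changes : Prop := ∀ (t : ℕ → ℕ) (m : ℕ) (c : ℕ → ℕ),
  (∀ i ≤ m, ∀ j ≤ m, c i = c j → i = j) → (∀ i ≤ m, ∃ s, t s = c i) →
  (m : ℕ∞) ≤ (changes t).encard

/-- The model given by a generic sequence. -/
def S_fin : Prop := ∀ (N0 : ℕ) (J : ℕ → ℕ) (Gd : (M : Type) → [Arith M] → Prop)
  (st : (M : Type) → [Arith M] → ℕ → ℕ) (stF : ℕ → ℕ → Fm) (cd : ℕ → ℕ → ℕ → ℕ → BC),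
  1 ≤ N0 → Side N0 J Gd st stF → (∀ n e s y, Lev (n + 1) (cd n e s y)) →
  (∀ n e s y (X : Set ℕ), (cd n e s y).holds X ↔ Phi (jump^[n] X) e s y) →
  ∀ (f : ℕ → ℕ → ℕ) (tk : ℕ → BC) (hk : ℕ → Fm) (q : ℕ → Cond),
    GenSeq N0 J Gd st stF cd f tk hk q →
    (∀ n e s y l t₀, ∃ t ≥ t₀, tk t = (cd n e s y).sub l) → (∀ φ t₀, ∃ t ≥ t₀, hk t = φ) →
    (∀ g : ℕ → ℕ, Computable g → ∃ t, f t = g) →
    ∃ A : Arith ℕ, IsPA ℕ ∧ (∃ x : ℕ, ∀ n, num ℕ n ≠ x) ∧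
      ∀ t, SolovayFamily A t → ∃ p ≥ 1, (J p : ℕ∞) ≤ (changes (t (N0 + p))).encard

end Pool.Agent.N636.SF
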