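import Mathlib
import Pool.Agent.N636.SF.Stm

/-!
# Closure properties of the arithmetical hierarchy (helper457, for helper636)
-/

set_option autoImplicit false

namespace Pool.Agent.N636.SF

namespace P_CALC

/-! ### Substitution -/

theorem shift_subst (t : Tm) (τ : ℕ → Tm) : t.shift.subst (upS τ) = (t.subst τ).shift := by
  induction t with
  | var i => rfl
  | zero => rfl
  | succ t ih => simp only [Tm.shift, Tm.subst]; rw [ih]
  | add s t ihs iht => simp only [Tm.shift, Tm.subst]; rw [ihs, iht]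
  | mul s t ihs iht => simp only [Tm.shift, Tm.subst]; rw [ihs, iht]

theorem delta_subst {φ : Fm} (h : Delta0 φ) : ∀ τ : ℕ → Tm, Delta0 (φ.subst τ) := by
  induction h with
  | eq s t => exact fun τ => Delta0.eq _ _
  | lt s t => exact fun τ => Delta0.lt _ _
  | neg _ ih => exact fun τ => Delta0.neg (ih τ)
  | and _ _ ih1 ih2 => exact fun τ => Delta0.and (ih1 τ) (ih2 τ)
  | ball t _ ih =>
    intro τ
    have h1 := Delta0.ball (t.subst τ) (ih (upS τ))
    rw [← shift_subst] at h1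
    exact h1

theorem hier_subst {b : Bool} {n : ℕ} {φ : Fm} (h : Hier b n φ) :
    ∀ τ : ℕ → Tm, Hier b n (φ.subst τ) := by
  induction h with
  | delta h => exact fun τ => Hier.delta (delta_subst h τ)
  | up _ ih => exact fun τ => Hier.up (ih τ)
  | ex _ ih => exact fun τ => Hier.ex (ih (upS τ))
  | all _ ih => exact fun τ => Hier.all (ih (upS τ))

/-! ### Negation, higher levels -/

theorem hier_neg {b : Bool} {n : ℕ} {φ : Fm} (h : Hier b n φ) :
    ∃ ψ : Fm, Hier (!b) n ψ ∧ (∀ k, φ.Bd k → ψ.Bd k) ∧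
      ∀ (M : Type) [Arith M] (v : ℕ → M), Sat ψ v ↔ ¬ Sat φ v := by
  induction h with
  | @delta b φ h => exact ⟨φ.neg, Hier.delta (Delta0.neg h), fun _ h => h, fun _ _ _ => Iff.rfl⟩
  | @up b n φ _ ih =>
    obtain ⟨ψ, h1, h2, h3⟩ := ih
    exact ⟨ψ, Hier.up h1, h2, h3⟩
  | @ex n φ _ ih =>
    obtain ⟨ψ, h1, h2, h3⟩ := ih
    refine ⟨ψ.all, Hier.all h1, fun k hk => h2 (k + 1) hk, fun M _ v => ?_⟩
    rw [Sat_ex]
    simp only [Sat, h3, not_exists]
  | @all n φ _ ih =>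
    obtain ⟨ψ, h1, h2, h3⟩ := ih
    refine ⟨ψ.ex, Hier.ex h1, fun k hk => h2 (k + 1) hk, fun M _ v => ?_⟩
    rw [Sat_ex]
    simp only [Sat, h3, not_forall]

theorem hier_lift {b : Bool} {n : ℕ} {φ : Fm} (h : Hier b n φ) : Hier b (n + 1) φ := by
  induction h with
  | delta h => exact Hier.up (Hier.delta h)
  | up _ ih => exact Hier.up ih
  | ex _ ih => exact Hier.ex ih
  | all _ ih => exact Hier.all ih

theorem hier_le {b : Bool} {n m : ℕ} {φ : Fm} (h : Hier b n φ) (hnm : n ≤ m) : Hier b m φ := by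
  induction m, hnm using Nat.le_induction with
  | base => exact h
  | succ m _ ih => exact hier_lift ih

theorem hier_up {b b' : Bool} {n m : ℕ} {φ : Fm} (h : Hier b n φ) (hnm : n < m) :
    Hier b' m φ := by
  obtain ⟨m', rfl⟩ : ∃ m', m = m' + 1 := ⟨m - 1, by omega⟩
  have h1 : Hier b m' φ := hier_le h (by omega)
  by_cases hb : b' = b
  · subst hb
    exact hier_lift h1
  · have hb' : (!b') = b := by
      cases b <;> cases b' <;> simp_all
    exact Hier.up (by rw [hb']; exact h1)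

theorem delta_of {b : Bool} {φ : Fm} (h : Hier b 0 φ) : Delta0 φ := by
  cases h with
  | delta h => exact h

/-! ### Conjunctions and disjunctions -/

/-- conjunction for `true`, disjunction for `false` -/
def op (o : Bool) (p q : Prop) : Prop := if o = true then p ∧ q else p ∨ q

theorem op_true (p q : Prop) : op true p q ↔ p ∧ q := by simp [op]

theorem op_false (p q : Prop) : op false p q ↔ p ∨ q := by simp [op]

theorem op_ex_left {A : Type} [Nonempty A] (o : Bool) (p : A → Prop) (q : Prop) :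
    (∃ a, op o (p a) q) ↔ op o (∃ a, p a) q := by
  cases o
  · simp only [op_false]
    constructor
    · rintro ⟨a, h | h⟩
      · exact Or.inl ⟨a, h⟩
      · exact Or.inr h
    · rintro (⟨a, h⟩ | h)
      · exact ⟨a, Or.inl h⟩
      · exact ⟨Classical.arbitrary A, Or.inr h⟩
  · simp only [op_true]
    constructor
    · rintro ⟨a, h, h'⟩
      exact ⟨⟨a, h⟩, h'⟩
    · rintro ⟨⟨a, h⟩, h'⟩
      exact ⟨a, h, h'⟩

theorem op_comm (o : Bool) (p q : Prop) : op o p q ↔ op o q p := by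
  cases o
  · simp only [op_false]
    exact or_comm
  · simp only [op_true]
    exact and_comm

theorem op_neg (o : Bool) (p q : Prop) : ¬ op (!o) (¬ p) (¬ q) ↔ op o p q := by
  cases o
  · simp only [Bool.not_false, op_true, op_false]
    tauto
  · simp only [Bool.not_true, op_true, op_false]
    tauto

/-- there is a formula of the same class -/
def Con (b : Bool) (n : ℕ) (o : Bool) (φ ψ : Fm) : Prop :=
  ∃ χ : Fm, Hier b n χ ∧ (∀ k, φ.Bd k → ψ.Bd k → χ.Bd k) ∧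
    ∀ (M : Type) [Arith M] (v : ℕ → M), Sat χ v ↔ op o (Sat φ v) (Sat ψ v)

theorem Con.symm {b : Bool} {n : ℕ} {o : Bool} {φ ψ : Fm} (h : Con b n o φ ψ) :
    Con b n o ψ φ := by
  obtain ⟨χ, h1, h2, h3⟩ := h
  exact ⟨χ, h1, fun k hk hk' => h2 k hk' hk, fun M _ v => (h3 M v).trans (op_comm _ _ _)⟩

/-- raise all variables -/
def sh (φ : Fm) : Fm := φ.subst fun i => .var (i + 1)

theorem Sat_sh (φ : Fm) {M : Type} [Arith M] (a : M) (v : ℕ → M) :
    Sat (sh φ) (cons a v) ↔ Sat φ v := by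
  unfold sh
  rw [Sat_subst]
  rfl

theorem sh_bd {φ : Fm} {k : ℕ} (h : φ.Bd k) : (sh φ).Bd (k + 1) :=
  Fm.Bd.subst h fun _ hi => Nat.succ_lt_succ hi

theorem con_ex {n : ℕ} {o : Bool} {φ ψ : Fm} (h : Con true (n + 1) o φ (sh ψ)) :
    Con true (n + 1) o φ.ex ψ := by
  obtain ⟨χ, h1, h2, h3⟩ := h
  refine ⟨χ.ex, Hier.ex h1, fun k hk hk' => h2 (k + 1) hk (sh_bd hk'), fun M _ v => ?_⟩
  have : Nonempty M := ⟨Arith.zero⟩
  rw [Sat_ex, Sat_ex, ← op_ex_left]
  refine exists_congr fun a => ?_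
  rw [h3, Sat_sh]

theorem con_delta {b o : Bool} {φ ψ : Fm} (h1 : Delta0 φ) (h2 : Delta0 ψ) : Con b 0 o φ ψ := by
  cases o
  · refine ⟨.neg (.and (.neg φ) (.neg ψ)), Hier.delta (Delta0.neg (Delta0.and (Delta0.neg h1)
      (Delta0.neg h2))), fun k hk hk' => ⟨hk, hk'⟩, fun M _ v => ?_⟩
    rw [op_false]
    simp only [Sat]
    tauto
  · refine ⟨.and φ ψ, Hier.delta (Delta0.and h1 h2), fun k hk hk' => ⟨hk, hk'⟩,
      fun M _ v => ?_⟩
    rw [op_true]
    rfl

theorem con_true_aux {n : ℕ} {o : Bool} (ih : ∀ φ ψ, Hier false n φ → Hier false n ψ →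
    Con false n o φ ψ) {b : Bool} {m : ℕ} {ψ : Fm} (h : Hier b m ψ) :
    b = true → m = n + 1 → ∀ φ, Hier false n φ → Con true (n + 1) o φ ψ := by
  induction h with
  | delta _ =>
    intro _ hm
    omega
  | @up b' n' ψ h _ =>
    intro hb hm φ hφ
    subst hb
    have e : n' = n := by omega
    subst e
    obtain ⟨χ, h1, h2, h3⟩ := ih φ ψ hφ h
    exact ⟨χ, Hier.up h1, h2, h3⟩
  | @ex n' ψ h ih2 =>
    intro _ hm φ hφ
    exact (con_ex (ih2 rfl hm (sh φ) (hier_subst hφ _)).symm).symm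
  | all _ _ =>
    intro hb
    exact absurd hb (by simp)

theorem con_true {n : ℕ} {o : Bool} (ih : ∀ φ ψ, Hier false n φ → Hier false n ψ →
    Con false n o φ ψ) {b : Bool} {m : ℕ} {φ : Fm} (h : Hier b m φ) :
    b = true → m = n + 1 → ∀ ψ, Hier true (n + 1) ψ → Con true (n + 1) o φ ψ := by
  induction h with
  | delta _ =>
    intro _ hm
    omega
  | @up b' n' φ h _ =>
    intro hb hm ψ hψ
    subst hb
    have e : n' = n := by omega
    subst e
    exact con_true_aux ih hψ rfl rfl φ h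
  | @ex n' φ h ih2 =>
    intro _ hm ψ hψ
    exact con_ex (ih2 rfl hm (sh ψ) (hier_subst hψ _))
  | all _ _ =>
    intro hb
    exact absurd hb (by simp)

theorem con_neg {b : Bool} {n : ℕ} {o : Bool}
    (h : ∀ φ ψ, Hier (!b) n φ → Hier (!b) n ψ → Con (!b) n (!o) φ ψ) {φ ψ : Fm}
    (hφ : Hier b n φ) (hψ : Hier b n ψ) : Con b n o φ ψ := by
  obtain ⟨φ', a1, a2, a3⟩ := hier_neg hφ
  obtain ⟨ψ', b1, b2, b3⟩ := hier_neg hψ
  obtain ⟨χ, c1, c2, c3⟩ := h φ' ψ' a1 b1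
  obtain ⟨χ', d1, d2, d3⟩ := hier_neg c1
  rw [Bool.not_not] at d1
  refine ⟨χ', d1, fun k hk hk' => d2 k (c2 k (a2 k hk) (b2 k hk')), fun M _ v => ?_⟩
  rw [d3, c3, a3, b3]
  exact op_neg o _ _

theorem con (n : ℕ) : ∀ (b o : Bool) (φ ψ : Fm), Hier b n φ → Hier b n ψ → Con b n o φ ψ := by
  induction n with
  | zero => exact fun b o φ ψ h1 h2 => con_delta (delta_of h1) (delta_of h2)
  | succ n ih =>
    have ht : ∀ (o : Bool) (φ ψ : Fm), Hier true (n + 1) φ → Hier true (n + 1) ψ →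
        Con true (n + 1) o φ ψ := fun o φ ψ h1 h2 => con_true (ih false o) h1 rfl rfl ψ h2
    intro b
    cases b
    · intro o φ ψ h1 h2
      exact con_neg (b := false) (n := n + 1) (o := o) (ht (!o)) h1 h2
    · exact ht

end P_CALC

open P_CALC in
theorem prf_calc : Calc where
  congr b n k R R' h hR := by
    obtain ⟨φ, h1, h2, h3⟩ := hR
    exact ⟨φ, h1, h2, fun M _ hM v => (h3 M hM v).trans (h M hM v)⟩
  eq b k s t hs ht := ⟨.eq s t, Hier.delta (Delta0.eq s t), ⟨hs, ht⟩, fun _ _ _ _ => Iff.rfl⟩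
  lt b k s t hs ht := ⟨.lt s t, Hier.delta (Delta0.lt s t), ⟨hs, ht⟩, fun _ _ _ _ => Iff.rfl⟩
  not b n k R hR := by
    obtain ⟨φ, h1, h2, h3⟩ := hR
    obtain ⟨ψ, a1, a2, a3⟩ := hier_neg h1
    exact ⟨ψ, a1, a2 k h2, fun M _ hM v => (a3 M v).trans (not_congr (h3 M hM v))⟩
  and b n k R R' hR hR' := by
    obtain ⟨φ, h1, h2, h3⟩ := hR
    obtain ⟨ψ, g1, g2, g3⟩ := hR'
    obtain ⟨χ, a1, a2, a3⟩ := con n b true φ ψ h1 g1
    refine ⟨χ, a1, a2 k h2 g2, fun M _ hM v => ?_⟩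
    rw [a3, op_true, h3 M hM, g3 M hM]
  or b n k R R' hR hR' := by
    obtain ⟨φ, h1, h2, h3⟩ := hR
    obtain ⟨ψ, g1, g2, g3⟩ := hR'
    obtain ⟨χ, a1, a2, a3⟩ := con n b false φ ψ h1 g1
    refine ⟨χ, a1, a2 k h2 g2, fun M _ hM v => ?_⟩
    rw [a3, op_false, h3 M hM, g3 M hM]
  bex b k R t ht hR := by
    obtain ⟨φ, h1, h2, h3⟩ := hR
    refine ⟨.neg (.all (.imp (.lt (.var 0) t.shift) (.neg φ))),
      Hier.delta (Delta0.neg (Delta0.ball t (Delta0.neg (delta_of h1)))),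
      ⟨⟨Nat.succ_pos k, ht.shift⟩, h2⟩, fun M _ hM v => ?_⟩
    show (¬ ∀ a : M, Sat (.imp (.lt (.var 0) t.shift) (.neg φ)) (cons a v)) ↔ _
    rw [not_forall]
    refine exists_congr fun a => ?_
    rw [Sat_imp, ← h3 M hM]
    show ¬ (Lt a (t.shift.val (cons a v)) → ¬ Sat φ (cons a v)) ↔ _
    rw [Tm.val_shift]
    tauto
  ball b k R t ht hR := by
    obtain ⟨φ, h1, h2, h3⟩ := hR
    refine ⟨.all (.imp (.lt (.var 0) t.shift) φ),
      Hier.delta (Delta0.ball t (delta_of h1)),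
      ⟨⟨Nat.succ_pos k, ht.shift⟩, h2⟩, fun M _ hM v => ?_⟩
    show (∀ a : M, Sat (.imp (.lt (.var 0) t.shift) φ) (cons a v)) ↔ _
    refine forall_congr' fun a => ?_
    rw [Sat_imp, ← h3 M hM]
    show (Lt a (t.shift.val (cons a v)) → Sat φ (cons a v)) ↔ _
    rw [Tm.val_shift]
  ex n k R hR := by
    obtain ⟨φ, h1, h2, h3⟩ := hR
    refine ⟨φ.ex, Hier.ex h1, h2, fun M _ hM v => ?_⟩
    rw [Sat_ex]
    exact exists_congr fun a => h3 M hM _
  all n k R hR := by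
    obtain ⟨φ, h1, h2, h3⟩ := hR
    exact ⟨φ.all, Hier.all h1, h2, fun M _ hM v => forall_congr' fun a => h3 M hM _⟩
  up b b' n m k R hnm hR := by
    obtain ⟨φ, h1, h2, h3⟩ := hR
    exact ⟨φ, hier_up h1 hnm, h2, h3⟩
  zero b b' k R hR := by
    obtain ⟨φ, h1, h2, h3⟩ := hR
    exact ⟨φ, Hier.delta (delta_of h1), h2, h3⟩
  mono b n k l R hkl hR := by
    obtain ⟨φ, h1, h2, h3⟩ := hR
    exact ⟨φ, h1, h2.mono hkl, h3⟩
  subst b n k l R τ hτ hR := by
    obtain ⟨φ, h1, h2, h3⟩ := hR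
    exact ⟨φ.subst τ, hier_subst h1 τ, h2.subst hτ, fun M _ hM v =>
      (Sat_subst φ τ v).trans (h3 M hM _)⟩

end Pool.Agent.N636.SF
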