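import Mathlib
import Pool.Agent.N636.SF.Stm

/-!
# Compactness for models of Peano arithmetic, by ultraproducts
-/

set_option autoImplicit false

namespace Pool.Agent.N636.SF

namespace P_CPT

open Filter

variable {I : Type} (U : Ultrafilter I) (Mf : I → Type) [inst : ∀ F, Arith (Mf F)]

/-- the ultraproduct -/
def UP : Type := (U : Filter I).Product Mf

variable {U Mf}

/-- the class of a family -/
def mk (x : ∀ F, Mf F) : UP U Mf := Quotient.mk'' x

omit inst in
theorem mk_eq {x y : ∀ F, Mf F} : (mk x : UP U Mf) = mk y ↔ ∀ᶠ F in (U : Filter I), x F = y F := by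
  unfold mk
  exact Quotient.eq''

omit inst in
theorem exists_mk (a : UP U Mf) : ∃ x : ∀ F, Mf F, a = mk x := by
  obtain ⟨x, hx⟩ := Quotient.exists_rep a
  exact ⟨x, hx.symm⟩

noncomputable def rep (a : UP U Mf) : ∀ F, Mf F := (exists_mk a).choose

omit inst in
theorem mk_rep (a : UP U Mf) : mk (rep a) = a := (exists_mk a).choose_spec.symm

noncomputable instance : Arith (UP U Mf) where
  zero := mk fun _ => Arith.zero
  succ a := mk fun F => Arith.succ (rep a F)
  add a b := mk fun F => Arith.add (rep a F) (rep b F)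
  mul a b := mk fun F => Arith.mul (rep a F) (rep b F)

omit inst in
theorem rep_ev (x : ∀ F, Mf F) : ∀ᶠ F in (U : Filter I), rep (mk x : UP U Mf) F = x F :=
  mk_eq.mp (mk_rep _)

theorem zero_mk : (Arith.zero : UP U Mf) = mk fun _ => Arith.zero := rfl

theorem succ_mk (x : ∀ F, Mf F) :
    (Arith.succ (mk x : UP U Mf)) = mk fun F => Arith.succ (x F) := by
  show mk _ = mk _
  rw [mk_eq]
  filter_upwards [rep_ev (U := U) x] with F h
  rw [h]

theorem add_mk (x y : ∀ F, Mf F) :
    (Arith.add (mk x : UP U Mf) (mk y)) = mk fun F => Arith.add (x F) (y F) := by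
  show mk _ = mk _
  rw [mk_eq]
  filter_upwards [rep_ev (U := U) x, rep_ev (U := U) y] with F h h'
  rw [h, h']

theorem mul_mk (x y : ∀ F, Mf F) :
    (Arith.mul (mk x : UP U Mf) (mk y)) = mk fun F => Arith.mul (x F) (y F) := by
  show mk _ = mk _
  rw [mk_eq]
  filter_upwards [rep_ev (U := U) x, rep_ev (U := U) y] with F h h'
  rw [h, h']

theorem val_mk (t : Tm) (v : ℕ → ∀ F, Mf F) :
    t.val (fun i => (mk (v i) : UP U Mf)) = mk fun F => t.val (fun i => v i F) := by
  induction t with
  | var i => rfl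
  | zero => rfl
  | succ t ih =>
    show Arith.succ _ = _
    rw [ih, succ_mk]
    rfl
  | add s t ihs iht =>
    show Arith.add _ _ = _
    rw [ihs, iht, add_mk]
    rfl
  | mul s t ihs iht =>
    show Arith.mul _ _ = _
    rw [ihs, iht, mul_mk]
    rfl

theorem lt_mk (x y : ∀ F, Mf F) :
    Lt (mk x : UP U Mf) (mk y) ↔ ∀ᶠ F in (U : Filter I), Lt (x F) (y F) := by
  classical
  constructor
  · rintro ⟨z, hz⟩
    obtain ⟨w, rfl⟩ := exists_mk z
    rw [succ_mk, add_mk, mk_eq] at hz
    filter_upwards [hz] with F h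
    exact ⟨w F, h⟩
  · intro h
    refine ⟨mk fun F => if h : Lt (x F) (y F) then h.choose else x F, ?_⟩
    rw [succ_mk, add_mk, mk_eq]
    filter_upwards [h] with F hF
    rw [dif_pos hF]
    exact hF.choose_spec

omit inst in
theorem cons_mk (w : ∀ F, Mf F) (v : ℕ → ∀ F, Mf F) :
    cons (mk w : UP U Mf) (fun i => mk (v i)) = fun i => mk (cons w v i) := by
  funext i
  cases i <;> rfl

omit inst in
theorem cons_at (w : ∀ F, Mf F) (v : ℕ → ∀ F, Mf F) (F : I) :
    (fun i => cons w v i F) = cons (w F) (fun i => v i F) := by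
  funext i
  cases i <;> rfl

theorem los (φ : Fm) : ∀ v : ℕ → ∀ F, Mf F, Sat φ (fun i => (mk (v i) : UP U Mf)) ↔
    ∀ᶠ F in (U : Filter I), Sat φ (fun i => v i F) := by
  classical
  induction φ with
  | eq s t =>
    intro v
    show s.val _ = t.val _ ↔ _
    rw [val_mk, val_mk, mk_eq]
    rfl
  | lt s t =>
    intro v
    show Lt (s.val _) (t.val _) ↔ _
    rw [val_mk, val_mk, lt_mk]
    rfl
  | neg φ ih =>
    intro v
    show ¬ _ ↔ _
    rw [ih v]
    exact Ultrafilter.eventually_not.symm
  | and φ ψ ihφ ihψ =>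
    intro v
    show _ ∧ _ ↔ _
    rw [ihφ v, ihψ v, ← Filter.eventually_and]
    rfl
  | all φ ih =>
    intro v
    have key : Sat (Fm.all φ) (fun i => (mk (v i) : UP U Mf)) ↔
        ∀ w : ∀ F, Mf F, ∀ᶠ F in (U : Filter I), Sat φ (cons (w F) (fun i => v i F)) := by
      constructor
      · intro h w
        have h1 := h (mk w)
        rw [cons_mk, ih] at h1
        filter_upwards [h1] with F h2
        rwa [cons_at] at h2
      · intro h a
        obtain ⟨w, rfl⟩ := exists_mk a
        rw [cons_mk, ih]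
        filter_upwards [h w] with F h2
        rwa [cons_at]
    rw [key]
    constructor
    · intro h
      by_contra hcon
      have h1 : ∀ᶠ F in (U : Filter I), ¬ Sat (Fm.all φ) (fun i => v i F) :=
        Ultrafilter.eventually_not.mpr hcon
      have h2 := h fun F => if h : ∃ a, ¬ Sat φ (cons a (fun i => v i F)) then h.choose
        else Arith.zero
      obtain ⟨F, h3, h4⟩ := (h1.and h2).exists
      have h5 : ∃ a, ¬ Sat φ (cons a (fun i => v i F)) := by
        by_contra h6
        push Not at h6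
        exact h3 h6
      rw [dif_pos h5] at h4
      exact h5.choose_spec h4
    · intro h w
      filter_upwards [h] with F hF
      exact hF (w F)

theorem isPA (h : ∀ F, IsPA (Mf F)) : IsPA (UP U Mf) where
  succ_ne_zero a := by
    obtain ⟨x, rfl⟩ := exists_mk a
    rw [succ_mk, zero_mk, Ne, mk_eq]
    intro h1
    obtain ⟨F, h2⟩ := h1.exists
    exact (h F).succ_ne_zero _ h2
  succ_inj a b hab := by
    obtain ⟨x, rfl⟩ := exists_mk a
    obtain ⟨y, rfl⟩ := exists_mk b
    rw [succ_mk, succ_mk, mk_eq] at hab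
    rw [mk_eq]
    filter_upwards [hab] with F h1
    exact (h F).succ_inj _ _ h1
  add_zero a := by
    obtain ⟨x, rfl⟩ := exists_mk a
    rw [zero_mk, add_mk, mk_eq]
    exact Eventually.of_forall fun F => (h F).add_zero _
  add_succ a b := by
    obtain ⟨x, rfl⟩ := exists_mk a
    obtain ⟨y, rfl⟩ := exists_mk b
    rw [succ_mk, add_mk, add_mk, succ_mk, mk_eq]
    exact Eventually.of_forall fun F => (h F).add_succ _ _
  mul_zero a := by
    obtain ⟨x, rfl⟩ := exists_mk a
    rw [zero_mk, mul_mk, mk_eq]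
    exact Eventually.of_forall fun F => (h F).mul_zero _
  mul_succ a b := by
    obtain ⟨x, rfl⟩ := exists_mk a
    obtain ⟨y, rfl⟩ := exists_mk b
    rw [succ_mk, mul_mk, mul_mk, add_mk, mk_eq]
    exact Eventually.of_forall fun F => (h F).mul_succ _ _
  ind φ v h0 h1 := by
    classical
    obtain ⟨v', hv'⟩ : ∃ v' : ℕ → ∀ F, Mf F, v = fun i => mk (v' i) :=
      ⟨fun i => rep (v i), funext fun i => (mk_rep _).symm⟩
    subst hv'
    have key : ∀ w : ∀ F, Mf F, Sat φ (cons (mk w : UP U Mf) (fun i => mk (v' i))) ↔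
        ∀ᶠ F in (U : Filter I), Sat φ (cons (w F) (fun i => v' i F)) := by
      intro w
      rw [cons_mk, los]
      simp only [cons_at]
    rw [zero_mk, key] at h0
    intro a
    by_contra hcon
    obtain ⟨x, rfl⟩ := exists_mk a
    rw [key] at hcon
    have h2 := Ultrafilter.eventually_not.mpr hcon
    have h3 : ∀ᶠ F in (U : Filter I), ∃ b, Sat φ (cons b (fun i => v' i F)) ∧
        ¬ Sat φ (cons (Arith.succ b) (fun i => v' i F)) := by
      filter_upwards [h0, h2] with F e0 e2
      by_contra e3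
      push Not at e3
      exact e2 ((h F).ind φ _ e0 e3 _)
    set y : ∀ F, Mf F := fun F => if hb : ∃ b, Sat φ (cons b (fun i => v' i F)) ∧
        ¬ Sat φ (cons (Arith.succ b) (fun i => v' i F)) then hb.choose else Arith.zero with hy
    have h4 : ∀ᶠ F in (U : Filter I), Sat φ (cons (y F) (fun i => v' i F)) ∧
        ¬ Sat φ (cons (Arith.succ (y F)) (fun i => v' i F)) := by
      filter_upwards [h3] with F hF
      have : y F = hF.choose := by
        rw [hy]
        simp only
        rw [dif_pos hF]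
      rw [this]
      exact hF.choose_spec
    have h5 := h1 (mk y) ((key y).mpr (h4.mono fun _ h => h.1))
    rw [succ_mk, key] at h5
    obtain ⟨F, h6, h7⟩ := (h4.and h5).exists
    exact h6.2 h7

end P_CPT

open P_CPT in
theorem prf_cpt : S_cpt := by
  classical
  intro Θ h
  let I : Type := {F : Finset Fm // (↑F : Set Fm) ⊆ Θ}
  haveI : Nonempty I := ⟨⟨∅, by simp⟩⟩
  haveI : IsDirected I (· ≤ ·) := ⟨fun a b =>
    ⟨⟨a.1 ∪ b.1, by
      rw [Finset.coe_union]
      exact Set.union_subset a.2 b.2⟩,
      Finset.subset_union_left, Finset.subset_union_right⟩⟩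
  choose Mf ar hPA v hv using fun F : I => h F.1 F.2
  let U : Ultrafilter I := Ultrafilter.of Filter.atTop
  have hU : (U : Filter I) ≤ Filter.atTop := Ultrafilter.of_le _
  letI : ∀ F, Arith (Mf F) := ar
  refine ⟨UP U Mf, inferInstance, isPA hPA, fun i => mk fun F => v F i, ?_⟩
  intro φ hφ
  rw [los φ (fun i F => v F i)]
  have h1 : ∀ᶠ F : I in Filter.atTop, (⟨{φ}, by simpa using hφ⟩ : I) ≤ F :=
    Filter.eventually_ge_atTop _
  filter_upwards [hU h1] with F hF
  exact hv F φ (hF (Finset.mem_singleton_self φ))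

end Pool.Agent.N636.SF
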