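import Pool.Agent.N636.SF.Std

/-!
# Models of Peano arithmetic from good lists

Part of project SF (helper56): the theorem `prf_cut`.
-/

set_option autoImplicit false

namespace Pool.Agent.N636.SF
namespace P_CUT

open Filter

/-- Quantifier depth. -/
def qd : Fm → ℕ
  | .eq _ _ => 0
  | .lt _ _ => 0
  | .neg φ => qd φ
  | .and φ ψ => max (qd φ) (qd ψ)
  | .all φ => qd φ + 1

/-- The ultrafilter. -/
noncomputable def uf : Ultrafilter ℕ := hyperfilter ℕ

theorem uf_ge (m : ℕ) : ∀ᶠ N in (uf : Filter ℕ), m ≤ N := by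
  have h : (uf : Filter ℕ) ≤ atTop := by
    rw [← Nat.cofinite_eq_atTop]; exact hyperfilter_le_cofinite
  exact h (eventually_ge_atTop m)

/-- The properties of the array of indiscernibles. -/
structure Good (c : ℕ → ℕ → ℕ) : Prop where
  growth : ∀ i, ∀ᶠ N in (uf : Filter ℕ), (c i N + 2) * (c i N + 2) < c (i + 1) N
  indisc : ∀ (φ : Fm) (p : ℕ → ℕ) (i0 : ℕ), (∀ᶠ N in (uf : Filter ℕ), p N < c i0 N) →
    ∀ l l' : List ℕ, l.Pairwise (· < ·) → l'.Pairwise (· < ·) → (∀ i ∈ l, i0 < i) →
      (∀ i ∈ l', i0 < i) → l.length = l'.length →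
      ∀ᶠ N in (uf : Filter ℕ), (ev φ (l.map fun i => c i N) (asg (p N)) ↔
        ev φ (l'.map fun i => c i N) (asg (p N)))

/-- Functions in the cut. -/
def Mem (c : ℕ → ℕ → ℕ) (x : ℕ → ℕ) : Prop := ∃ i, ∀ᶠ N in (uf : Filter ℕ), x N < c i N

variable {c : ℕ → ℕ → ℕ}

theorem Good.mono (hc : Good c) {i j : ℕ} (hij : i ≤ j) :
    ∀ᶠ N in (uf : Filter ℕ), c i N ≤ c j N := by
  induction hij with
  | refl => exact Eventually.of_forall fun N => le_rfl
  | @step m h ih =>
    filter_upwards [ih, hc.growth m] with N h1 h2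
    have h3 : c (m + 1) N = c m.succ N := rfl
    nlinarith

theorem Mem.of_le {x y : ℕ → ℕ} (hx : Mem c x) (h : ∀ᶠ N in (uf : Filter ℕ), y N ≤ x N) :
    Mem c y := by
  obtain ⟨i, hi⟩ := hx
  exact ⟨i, by filter_upwards [hi, h] with N h1 h2; omega⟩

theorem Mem.two (hc : Good c) {x y : ℕ → ℕ} (hx : Mem c x) (hy : Mem c y) (m : ℕ) :
    ∃ i, m ≤ i ∧ ∀ᶠ N in (uf : Filter ℕ), x N < c i N ∧ y N < c i N := by
  obtain ⟨i, hi⟩ := hx
  obtain ⟨j, hj⟩ := hy
  refine ⟨max m (max i j), le_max_left _ _, ?_⟩
  filter_upwards [hi, hj, hc.mono (show i ≤ max m (max i j) by omega),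
    hc.mono (show j ≤ max m (max i j) by omega)] with N h1 h2 h3 h4
  exact ⟨by omega, by omega⟩

theorem pair_lt {a b m : ℕ} (ha : a < m) (hb : b < m) : Nat.pair a b < (m + 2) * (m + 2) := by
  have h := Nat.pair_lt_max_add_one_sq a b
  have h1 : max a b + 1 ≤ m := by omega
  have h2 : (max a b + 1) ^ 2 ≤ m ^ 2 := Nat.pow_le_pow_left h1 2
  nlinarith

theorem mem_zero (hc : Good c) : Mem c (fun _ => 0) :=
  ⟨1, by filter_upwards [hc.growth 0] with N h; exact lt_of_le_of_lt (Nat.zero_le _) h⟩

theorem Mem.succ (hc : Good c) {x : ℕ → ℕ} (hx : Mem c x) : Mem c (fun N => x N + 1) := by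
  obtain ⟨i, hi⟩ := hx
  exact ⟨i + 1, by filter_upwards [hi, hc.growth i] with N h1 h2; nlinarith⟩

theorem Mem.add (hc : Good c) {x y : ℕ → ℕ} (hx : Mem c x) (hy : Mem c y) :
    Mem c (fun N => x N + y N) := by
  obtain ⟨i, -, hi⟩ := hx.two hc hy 0
  exact ⟨i + 1, by filter_upwards [hi, hc.growth i] with N h1 h2; nlinarith [h1.1, h1.2]⟩

theorem Mem.mul (hc : Good c) {x y : ℕ → ℕ} (hx : Mem c x) (hy : Mem c y) :
    Mem c (fun N => x N * y N) := by
  obtain ⟨i, -, hi⟩ := hx.two hc hy 0
  exact ⟨i + 1, by
    filter_upwards [hi, hc.growth i] with N h1 h2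
    have := Nat.mul_le_mul h1.1.le h1.2.le
    nlinarith⟩

theorem Mem.pair (hc : Good c) {x y : ℕ → ℕ} (hx : Mem c x) (hy : Mem c y) :
    Mem c (fun N => Nat.pair (x N) (y N)) := by
  obtain ⟨i, -, hi⟩ := hx.two hc hy 0
  exact ⟨i + 1, by
    filter_upwards [hi, hc.growth i] with N h1 h2
    exact (pair_lt h1.1 h1.2).trans h2⟩

/-! ### The model -/

/-- Almost everywhere equality. -/
def stI (c : ℕ → ℕ → ℕ) : Setoid {x : ℕ → ℕ // Mem c x} where
  r x y := ∀ᶠ N in (uf : Filter ℕ), x.1 N = y.1 N
  iseqv := {
    refl := fun x => Eventually.of_forall fun N => rfl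
    symm := fun h => h.mono fun N h => h.symm
    trans := fun h h' => by filter_upwards [h, h'] with N h1 h2; exact h1.trans h2 }

/-- The cut in the ultrapower. -/
def I (c : ℕ → ℕ → ℕ) : Type := Quotient (stI c)

/-- A representative. -/
noncomputable def rep (a : I c) : ℕ → ℕ := (Quotient.out a).1

/-- The class of a function. -/
def mk (x : ℕ → ℕ) (h : Mem c x) : I c := Quotient.mk (stI c) ⟨x, h⟩

theorem rep_mem (a : I c) : Mem c (rep a) := (Quotient.out a).2

theorem rep_mk (x : ℕ → ℕ) (h : Mem c x) : ∀ᶠ N in (uf : Filter ℕ), rep (mk x h) N = x N :=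
  Quotient.mk_out (s := stI c) ⟨x, h⟩

theorem ext_iff (a b : I c) : a = b ↔ ∀ᶠ N in (uf : Filter ℕ), rep a N = rep b N := by
  constructor
  · rintro rfl; exact Eventually.of_forall fun N => rfl
  · intro h
    have := Quotient.sound (s := stI c) (a := Quotient.out a) (b := Quotient.out b) h
    have e1 : Quotient.mk (stI c) (Quotient.out a) = a := Quotient.out_eq a
    have e2 : Quotient.mk (stI c) (Quotient.out b) = b := Quotient.out_eq b
    rwa [e1, e2] at this

/-- The operations of the model. -/
@[instance_reducible] noncomputable def ar (hc : Good c) : Arith (I c) where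
  zero := mk (fun _ => 0) (mem_zero hc)
  succ a := mk (fun N => rep a N + 1) ((rep_mem a).succ hc)
  add a b := mk (fun N => rep a N + rep b N) ((rep_mem a).add hc (rep_mem b))
  mul a b := mk (fun N => rep a N * rep b N) ((rep_mem a).mul hc (rep_mem b))

theorem rep_zero (hc : Good c) : ∀ᶠ N in (uf : Filter ℕ), rep (ar hc).zero N = 0 :=
  rep_mk _ _

theorem rep_succ (hc : Good c) (a : I c) :
    ∀ᶠ N in (uf : Filter ℕ), rep ((ar hc).succ a) N = rep a N + 1 :=
  rep_mk _ _

theorem rep_add (hc : Good c) (a b : I c) :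
    ∀ᶠ N in (uf : Filter ℕ), rep ((ar hc).add a b) N = rep a N + rep b N :=
  rep_mk _ _

theorem rep_mul (hc : Good c) (a b : I c) :
    ∀ᶠ N in (uf : Filter ℕ), rep ((ar hc).mul a b) N = rep a N * rep b N :=
  rep_mk _ _

theorem rep_val (hc : Good c) (v : ℕ → I c) (t : Tm) :
    ∀ᶠ N in (uf : Filter ℕ), rep (@Tm.val _ (ar hc) v t) N =
      @Tm.val ℕ stdA (fun i => rep (v i) N) t := by
  let _ := ar hc
  induction t with
  | var i => exact Eventually.of_forall fun N => rfl
  | zero => exact rep_zero hc
  | succ t ih =>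
    filter_upwards [ih, rep_succ hc (@Tm.val _ (ar hc) v t)] with N h1 h2
    show rep ((ar hc).succ (@Tm.val _ (ar hc) v t)) N = @Tm.val ℕ stdA _ t + 1
    rw [h2, h1]
  | add s t ihs iht =>
    filter_upwards [ihs, iht, rep_add hc (@Tm.val _ (ar hc) v s) (@Tm.val _ (ar hc) v t)]
      with N h1 h2 h3
    show rep ((ar hc).add (@Tm.val _ (ar hc) v s) (@Tm.val _ (ar hc) v t)) N =
      @Tm.val ℕ stdA _ s + @Tm.val ℕ stdA _ t
    rw [h3, h1, h2]
  | mul s t ihs iht =>
    filter_upwards [ihs, iht, rep_mul hc (@Tm.val _ (ar hc) v s) (@Tm.val _ (ar hc) v t)]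
      with N h1 h2 h3
    show rep ((ar hc).mul (@Tm.val _ (ar hc) v s) (@Tm.val _ (ar hc) v t)) N =
      @Tm.val ℕ stdA _ s * @Tm.val ℕ stdA _ t
    rw [h3, h1, h2]

theorem lt_iff (hc : Good c) (x y : I c) :
    @Lt _ (ar hc) x y ↔ ∀ᶠ N in (uf : Filter ℕ), rep x N < rep y N := by
  constructor
  · rintro ⟨z, hz⟩
    have h1 := rep_add hc x ((ar hc).succ z)
    have h2 := rep_succ hc z
    have h3 := (ext_iff _ _).1 hz
    filter_upwards [h1, h2, h3] with N h1 h2 h3
    have h4 : rep ((ar hc).add x ((ar hc).succ z)) N = rep y N := h3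
    omega
  · intro h
    refine ⟨mk (fun N => rep y N - rep x N - 1) ((rep_mem y).of_le
      (Eventually.of_forall fun N => by omega)), ?_⟩
    rw [ext_iff]
    set z : I c := mk (fun N => rep y N - rep x N - 1) ((rep_mem y).of_le
      (Eventually.of_forall fun N => by omega)) with hz
    have h1 := rep_add hc x ((ar hc).succ z)
    have h2 := rep_succ hc z
    have h3 : ∀ᶠ N in (uf : Filter ℕ), rep z N = rep y N - rep x N - 1 := rep_mk _ _
    filter_upwards [h, h1, h2, h3] with N h h1 h2 h3
    show rep ((ar hc).add x ((ar hc).succ z)) N = rep y N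
    omega

/-! ### Truth in the model -/

theorem asg_pair (a p : ℕ) : asg (Nat.pair a p) = cons a (asg p) := by
  funext i
  cases i with
  | zero => simp [asg, cons]
  | succ i => simp [asg, cons, Function.iterate_succ, Nat.unpair_pair]

theorem stdval_congr {t : Tm} {k : ℕ} (ht : t.Bd k) {v w : ℕ → ℕ} (h : ∀ i < k, v i = w i) :
    @Tm.val ℕ stdA v t = @Tm.val ℕ stdA w t := by
  let _ := stdA
  exact Tm.val_congr ht h

theorem key (hc : Good c) (φ : Fm) : ∀ (k : ℕ), φ.Bd k → ∀ (v : ℕ → I c) (p : ℕ → ℕ) (i0 : ℕ),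
    (∀ᶠ N in (uf : Filter ℕ), ∀ i < k, asg (p N) i = rep (v i) N) →
    (∀ᶠ N in (uf : Filter ℕ), p N < c i0 N) → ∀ l : List ℕ, l.Pairwise (· < ·) →
    (∀ i ∈ l, i0 < i) → qd φ ≤ l.length →
    (@Sat _ (ar hc) φ v ↔
      ∀ᶠ N in (uf : Filter ℕ), ev φ (l.map fun i => c i N) (asg (p N))) := by
  let _ := ar hc
  induction φ with
  | eq s t =>
    intro k hb v p i0 hp hpc l hl hil hq
    show @Tm.val _ (ar hc) v s = @Tm.val _ (ar hc) v t ↔ _
    rw [ext_iff]
    have h1 := rep_val hc v s
    have h2 := rep_val hc v t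
    refine Filter.eventually_congr ?_
    filter_upwards [h1, h2, hp] with N h1 h2 hp
    rw [h1, h2]
    show _ ↔ @Tm.val ℕ stdA _ s = @Tm.val ℕ stdA _ t
    rw [stdval_congr hb.1 hp, stdval_congr hb.2 hp]
  | lt s t =>
    intro k hb v p i0 hp hpc l hl hil hq
    show @Lt _ (ar hc) (@Tm.val _ (ar hc) v s) (@Tm.val _ (ar hc) v t) ↔ _
    rw [lt_iff]
    have h1 := rep_val hc v s
    have h2 := rep_val hc v t
    refine Filter.eventually_congr ?_
    filter_upwards [h1, h2, hp] with N h1 h2 hp
    rw [h1, h2]
    show _ ↔ @Tm.val ℕ stdA _ s < @Tm.val ℕ stdA _ t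
    rw [stdval_congr hb.1 hp, stdval_congr hb.2 hp]
  | neg φ ih =>
    intro k hb v p i0 hp hpc l hl hil hq
    show ¬ @Sat _ (ar hc) φ v ↔ _
    rw [ih k hb v p i0 hp hpc l hl hil hq, ← Ultrafilter.eventually_not]
    rfl
  | and φ ψ ih1 ih2 =>
    intro k hb v p i0 hp hpc l hl hil hq
    show @Sat _ (ar hc) φ v ∧ @Sat _ (ar hc) ψ v ↔ _
    have hq1 : qd φ ≤ l.length := le_trans (le_max_left _ _) hq
    have hq2 : qd ψ ≤ l.length := le_trans (le_max_right _ _) hq
    rw [ih1 k hb.1 v p i0 hp hpc l hl hil hq1, ih2 k hb.2 v p i0 hp hpc l hl hil hq2,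
      ← Filter.eventually_and]
    rfl
  | all φ ih =>
    intro k hb v p i0 hp hpc l hl hil hq
    cases l with
    | nil => simp [qd] at hq
    | cons i1 l1 =>
      have hq' : qd φ ≤ l1.length := by simpa [qd] using hq
      have hi1 : i0 < i1 := hil i1 (by simp)
      -- auxiliary lists
      have aux : ∀ m : ℕ, i0 < m →
          (∀ᶠ N in (uf : Filter ℕ), (ev (.all φ) ((i1 :: l1).map fun i => c i N) (asg (p N)) ↔
            ∀ a < c m N, ev φ ((List.range' (m + 2) l1.length).map fun i => c i N)
              (cons a (asg (p N))))) ∧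
          (∀ b : I c, (∀ᶠ N in (uf : Filter ℕ), rep b N < c m N) →
            (@Sat _ (ar hc) φ (cons b v) ↔ ∀ᶠ N in (uf : Filter ℕ),
              ev φ ((List.range' (m + 2) l1.length).map fun i => c i N)
                (cons (rep b N) (asg (p N))))) := by
        intro m hm
        have hpw : (List.range' (m + 2) l1.length).Pairwise (· < ·) :=
          List.pairwise_lt_range'
        constructor
        · have h := hc.indisc (.all φ) p i0 hpc (i1 :: l1)
            (m :: List.range' (m + 2) l1.length) hl
            (List.pairwise_cons.2 ⟨fun j hj => by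
              have := (List.mem_range'_1.1 hj).1; omega, hpw⟩) hil
            (by
              intro j hj
              rcases List.mem_cons.1 hj with rfl | hj
              · exact hm
              · have := (List.mem_range'_1.1 hj).1; omega)
            (by simp)
          exact h
        · intro b hbm
          have hpm : ∀ᶠ N in (uf : Filter ℕ), Nat.pair (rep b N) (p N) < c (m + 1) N := by
            filter_upwards [hbm, hpc, hc.mono hm.le, hc.growth m] with N h1 h2 h3 h4
            exact (pair_lt h1 (lt_of_lt_of_le h2 h3)).trans h4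
          have h := ih (k + 1) hb (cons b v) (fun N => Nat.pair (rep b N) (p N)) (m + 1)
            (by
              filter_upwards [hp] with N hN
              intro i hi
              rw [asg_pair]
              cases i with
              | zero => rfl
              | succ i => exact hN i (by omega))
            hpm (List.range' (m + 2) l1.length) hpw
            (by intro j hj; have := (List.mem_range'_1.1 hj).1; omega) (by simpa using hq')
          rw [h]
          simp only [asg_pair]
      constructor
      · intro hs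
        by_contra hcon
        rw [← Ultrafilter.eventually_not] at hcon
        obtain ⟨h1, h2⟩ := aux i1 hi1
        have h3 : ∀ᶠ N in (uf : Filter ℕ), ∃ a < c i1 N,
            ¬ ev φ ((List.range' (i1 + 2) l1.length).map fun i => c i N)
              (cons a (asg (p N))) := by
          filter_upwards [hcon, h1] with N hN h1
          rw [h1] at hN
          push Not at hN
          exact hN
        classical
        let a : ℕ → ℕ := fun N => if h : ∃ a < c i1 N,
            ¬ ev φ ((List.range' (i1 + 2) l1.length).map fun i => c i N)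
              (cons a (asg (p N))) then h.choose else 0
        have ha : ∀ᶠ N in (uf : Filter ℕ), a N < c i1 N ∧
            ¬ ev φ ((List.range' (i1 + 2) l1.length).map fun i => c i N)
              (cons (a N) (asg (p N))) := by
          filter_upwards [h3] with N hN
          have : a N = hN.choose := dif_pos hN
          rw [this]
          exact hN.choose_spec
        have hmem : Mem c a := ⟨i1, ha.mono fun N h => h.1⟩
        have hrep := rep_mk a hmem
        have h4 := (h2 (mk a hmem) (by
          filter_upwards [hrep, ha] with N h h'; rw [h]; exact h'.1)).1 (hs (mk a hmem))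
        have h5 : ∀ᶠ N in (uf : Filter ℕ), False := by
          filter_upwards [h4, ha, hrep] with N h4 ha hr
          rw [hr] at h4
          exact ha.2 h4
        exact h5.exists.elim fun _ h => h
      · intro he b
        obtain ⟨j, hj⟩ := rep_mem b
        set m := max j (i0 + 1) with hm
        obtain ⟨h1, h2⟩ := aux m (by omega)
        have hbm : ∀ᶠ N in (uf : Filter ℕ), rep b N < c m N := by
          filter_upwards [hj, hc.mono (show j ≤ m by omega)] with N h1 h2
          omega
        rw [h2 b hbm]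
        filter_upwards [he, h1, hbm] with N he h1 hbm
        exact (h1.1 he) _ hbm

/-- The code of the first values of an assignment. -/
def enc : ℕ → (ℕ → ℕ) → ℕ
  | 0, _ => 0
  | k + 1, w => Nat.pair (w 0) (enc k fun i => w (i + 1))

theorem asg_enc (k : ℕ) : ∀ (w : ℕ → ℕ), ∀ i < k, asg (enc k w) i = w i := by
  induction k with
  | zero => intro w i hi; omega
  | succ k ih =>
    intro w i hi
    rw [enc, asg_pair]
    cases i with
    | zero => rfl
    | succ i => exact ih _ i (by omega)

theorem mem_enc (hc : Good c) (k : ℕ) : ∀ v : ℕ → I c,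
    Mem c (fun N => enc k fun i => rep (v i) N) := by
  induction k with
  | zero => intro v; exact mem_zero hc
  | succ k ih =>
    intro v
    exact (rep_mem (v 0)).pair hc (ih fun i => v (i + 1))

theorem isPA (hc : Good c) : @IsPA (I c) (ar hc) := by
  let _ := ar hc
  refine ⟨?_, ?_, ?_, ?_, ?_, ?_, ?_⟩
  · intro x h
    have h1 := rep_succ hc x
    have h2 := rep_zero hc
    have h3 := (ext_iff _ _).1 h
    have h5 : ∀ᶠ N in (uf : Filter ℕ), False := by
      filter_upwards [h1, h2, h3] with N h1 h2 h3
      have h4 : rep ((ar hc).succ x) N = rep (ar hc).zero N := h3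
      omega
    exact h5.exists.elim fun _ h => h
  · intro x y h
    rw [ext_iff]
    filter_upwards [rep_succ hc x, rep_succ hc y, (ext_iff _ _).1 h] with N h1 h2 h3
    have h4 : rep ((ar hc).succ x) N = rep ((ar hc).succ y) N := h3
    omega
  · intro x
    rw [ext_iff]
    filter_upwards [rep_add hc x (ar hc).zero, rep_zero hc] with N h1 h2
    show rep ((ar hc).add x (ar hc).zero) N = rep x N
    omega
  · intro x y
    rw [ext_iff]
    filter_upwards [rep_add hc x ((ar hc).succ y), rep_succ hc y,
      rep_succ hc ((ar hc).add x y), rep_add hc x y] with N h1 h2 h3 h4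
    show rep ((ar hc).add x ((ar hc).succ y)) N = rep ((ar hc).succ ((ar hc).add x y)) N
    omega
  · intro x
    rw [ext_iff]
    filter_upwards [rep_mul hc x (ar hc).zero, rep_zero hc] with N h1 h2
    show rep ((ar hc).mul x (ar hc).zero) N = rep (ar hc).zero N
    rw [h1, h2, Nat.mul_zero]
  · intro x y
    rw [ext_iff]
    filter_upwards [rep_mul hc x ((ar hc).succ y), rep_succ hc y,
      rep_add hc ((ar hc).mul x y) x, rep_mul hc x y] with N h1 h2 h3 h4
    show rep ((ar hc).mul x ((ar hc).succ y)) N = rep ((ar hc).add ((ar hc).mul x y) x) N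
    rw [h1, h2, h3, h4, Nat.mul_succ]
  · intro φ v h0 hs a
    by_contra hcon
    obtain ⟨k, hk⟩ := φ.exists_bd
    have hk1 : φ.Bd (k + 1) := hk.mono (by omega)
    set p : ℕ → ℕ := fun N => enc k fun i => rep (v i) N with hp
    obtain ⟨l, -, hl⟩ := (rep_mem a).two hc (mem_enc hc k v) 0
    have main : ∀ b : I c, (∀ᶠ N in (uf : Filter ℕ), rep b N < c l N) →
        (@Sat _ (ar hc) φ (cons b v) ↔ ∀ᶠ N in (uf : Filter ℕ),
          ev φ ((List.range' (l + 2) (qd φ)).map fun i => c i N)
            (cons (rep b N) (asg (p N)))) := by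
      intro b hb
      have hpm : ∀ᶠ N in (uf : Filter ℕ), Nat.pair (rep b N) (p N) < c (l + 1) N := by
        filter_upwards [hb, hl, hc.growth l] with N h1 h2 h4
        exact (pair_lt h1 h2.2).trans h4
      have h := key hc φ (k + 1) hk1 (cons b v) (fun N => Nat.pair (rep b N) (p N)) (l + 1)
        (by
          refine Eventually.of_forall fun N => ?_
          intro i hi
          rw [asg_pair]
          cases i with
          | zero => rfl
          | succ i => exact asg_enc k _ i (by omega))
        hpm (List.range' (l + 2) (qd φ)) (List.pairwise_lt_range')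
        (by intro j hj; have := (List.mem_range'_1.1 hj).1; omega) (by simp)
      rw [h]
      simp only [asg_pair]
    have hbad : ∀ᶠ N in (uf : Filter ℕ), ¬ ev φ
        ((List.range' (l + 2) (qd φ)).map fun i => c i N) (cons (rep a N) (asg (p N))) := by
      rw [Ultrafilter.eventually_not]
      rwa [main a (hl.mono fun N h => h.1)] at hcon
    classical
    let b : ℕ → ℕ := fun N => if h : ∃ b, ¬ ev φ
        ((List.range' (l + 2) (qd φ)).map fun i => c i N) (cons b (asg (p N)))
        then Nat.find h else 0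
    have hb : ∀ᶠ N in (uf : Filter ℕ), b N ≤ rep a N ∧ (¬ ev φ
        ((List.range' (l + 2) (qd φ)).map fun i => c i N) (cons (b N) (asg (p N)))) ∧
        ∀ b' < b N, ev φ
          ((List.range' (l + 2) (qd φ)).map fun i => c i N) (cons b' (asg (p N))) := by
      filter_upwards [hbad] with N hN
      have hex : ∃ b, ¬ ev φ
        ((List.range' (l + 2) (qd φ)).map fun i => c i N) (cons b (asg (p N))) := ⟨_, hN⟩
      have hbN : b N = Nat.find hex := dif_pos hex
      rw [hbN]
      refine ⟨Nat.find_min' hex hN, Nat.find_spec hex, fun b' hb' => ?_⟩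
      have := Nat.find_min hex hb'
      exact not_not.1 this
    have hmem : Mem c b := (rep_mem a).of_le (hb.mono fun N h => h.1)
    have hB : ∀ᶠ N in (uf : Filter ℕ), rep (mk b hmem) N = b N := rep_mk b hmem
    have hBl : ∀ᶠ N in (uf : Filter ℕ), rep (mk b hmem) N < c l N := by
      filter_upwards [hB, hb, hl] with N h1 h2 h3
      have := h2.1; have := h3.1; omega
    have hBn : ¬ @Sat _ (ar hc) φ (cons (mk b hmem) v) := by
      rw [main _ hBl, ← Ultrafilter.eventually_not]
      filter_upwards [hB, hb] with N h1 h2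
      rw [h1]; exact h2.2.1
    by_cases hz : ∀ᶠ N in (uf : Filter ℕ), b N = 0
    · have : mk b hmem = (ar hc).zero := by
        rw [ext_iff]
        filter_upwards [hB, rep_zero hc, hz] with N h1 h2 h3
        rw [h1, h2, h3]
      rw [this] at hBn
      exact hBn h0
    · rw [← Ultrafilter.eventually_not] at hz
      have hmem' : Mem c (fun N => b N - 1) :=
        hmem.of_le (Eventually.of_forall fun N => by omega)
      have hB' : ∀ᶠ N in (uf : Filter ℕ), rep (mk (fun N => b N - 1) hmem') N = b N - 1 :=
        rep_mk _ hmem'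
      have hsucc : mk b hmem = (ar hc).succ (mk (fun N => b N - 1) hmem') := by
        rw [ext_iff]
        filter_upwards [hB, hB', rep_succ hc (mk (fun N => b N - 1) hmem'), hz]
          with N h1 h2 h3 h4
        omega
      have hB'l : ∀ᶠ N in (uf : Filter ℕ), rep (mk (fun N => b N - 1) hmem') N < c l N := by
        filter_upwards [hB', hb, hl] with N h1 h2 h3
        have := h2.1; have := h3.1; omega
      apply hBn
      rw [hsucc]
      apply hs
      rw [main _ hB'l]
      filter_upwards [hB', hb, hz] with N h1 h2 h3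
      rw [h1]
      exact h2.2.2 _ (by omega)

/-- Bounded formulas are absolute. -/
theorem abs (hc : Good c) {θ : Fm} (hθ : Delta0 θ) : ∀ v : ℕ → I c,
    (@Sat _ (ar hc) θ v ↔ ∀ᶠ N in (uf : Filter ℕ), SatN θ fun j => rep (v j) N) := by
  let _ := ar hc
  induction hθ with
  | eq s t =>
    intro v
    show @Tm.val _ (ar hc) v s = @Tm.val _ (ar hc) v t ↔ _
    rw [ext_iff]
    refine Filter.eventually_congr ?_
    filter_upwards [rep_val hc v s, rep_val hc v t] with N h1 h2
    rw [h1, h2]
    rfl
  | lt s t =>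
    intro v
    show @Lt _ (ar hc) (@Tm.val _ (ar hc) v s) (@Tm.val _ (ar hc) v t) ↔ _
    rw [lt_iff]
    refine Filter.eventually_congr ?_
    filter_upwards [rep_val hc v s, rep_val hc v t] with N h1 h2
    rw [h1, h2]
    exact (Lt_std _ _).symm
  | neg h ih =>
    intro v
    show ¬ @Sat _ (ar hc) _ v ↔ _
    rw [ih v, ← Ultrafilter.eventually_not]
    rfl
  | and h1 h2 ih1 ih2 =>
    intro v
    show @Sat _ (ar hc) _ v ∧ @Sat _ (ar hc) _ v ↔ _
    rw [ih1 v, ih2 v, ← Filter.eventually_and]
    rfl
  | @ball t φ h ih =>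
    intro v
    have e1 : @Sat _ (ar hc) (.all (.imp (.lt (.var 0) t.shift) φ)) v ↔
        ∀ a : I c, @Lt _ (ar hc) a (@Tm.val _ (ar hc) v t) → @Sat _ (ar hc) φ (cons a v) := by
      show (∀ a : I c, @Sat _ (ar hc) (.imp (.lt (.var 0) t.shift) φ) (cons a v)) ↔ _
      refine forall_congr' fun a => ?_
      rw [Sat_imp]
      show (@Lt _ (ar hc) a (@Tm.val _ (ar hc) (cons a v) t.shift) → _) ↔ _
      rw [Tm.val_shift]
    have e2 : ∀ w : ℕ → ℕ, SatN (.all (.imp (.lt (.var 0) t.shift) φ)) w ↔
        ∀ a < @Tm.val ℕ stdA w t, SatN φ (cons a w) := by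
      intro w
      let _ := stdA
      show (∀ a : ℕ, @Sat ℕ stdA (.imp (.lt (.var 0) t.shift) φ) (cons a w)) ↔ _
      refine forall_congr' fun a => ?_
      rw [Sat_imp]
      show (@Lt ℕ stdA a (@Tm.val ℕ stdA (cons a w) t.shift) → _) ↔ _
      rw [Tm.val_shift, Lt_std]
      rfl
    have e3 : ∀ (a : I c) (N : ℕ), (fun j => rep ((cons a v : ℕ → I c) j) N) =
        cons (rep a N) (fun j => rep (v j) N) := by
      intro a N
      funext j
      cases j <;> rfl
    rw [e1]
    constructor
    · intro hs
      by_contra hcon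
      rw [← Ultrafilter.eventually_not] at hcon
      have h3 : ∀ᶠ N in (uf : Filter ℕ), ∃ a < @Tm.val ℕ stdA (fun j => rep (v j) N) t,
          ¬ SatN φ (cons a fun j => rep (v j) N) := by
        filter_upwards [hcon] with N hN
        rw [e2] at hN
        push Not at hN
        exact hN
      classical
      let a : ℕ → ℕ := fun N => if h : ∃ a < @Tm.val ℕ stdA (fun j => rep (v j) N) t,
          ¬ SatN φ (cons a fun j => rep (v j) N) then h.choose else 0
      have ha : ∀ᶠ N in (uf : Filter ℕ), a N < @Tm.val ℕ stdA (fun j => rep (v j) N) t ∧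
          ¬ SatN φ (cons (a N) fun j => rep (v j) N) := by
        filter_upwards [h3] with N hN
        have : a N = hN.choose := dif_pos hN
        rw [this]
        exact hN.choose_spec
      have hmem : Mem c a := (rep_mem (@Tm.val _ (ar hc) v t)).of_le (by
        filter_upwards [ha, rep_val hc v t] with N h1 h2
        rw [h2]; exact h1.1.le)
      have hrep := rep_mk a hmem
      have h4 := hs (mk a hmem) ((lt_iff hc _ _).2 (by
        filter_upwards [hrep, ha, rep_val hc v t] with N h1 h2 h3
        rw [h1, h3]; exact h2.1))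
      rw [ih] at h4
      have h5 : ∀ᶠ N in (uf : Filter ℕ), False := by
        filter_upwards [h4, ha, hrep] with N h4 ha hr
        rw [e3, hr] at h4
        exact ha.2 h4
      exact h5.exists.elim fun _ h => h
    · intro he a hlt
      rw [lt_iff] at hlt
      rw [ih]
      filter_upwards [he, hlt, rep_val hc v t] with N he hlt hv
      rw [e3]
      rw [e2] at he
      exact he _ (by rw [← hv]; exact hlt)

/-! ### Good arrays from good lists -/

theorem sublist_map (C : List ℕ) : ∀ (l : List ℕ) (j : ℕ), l.Pairwise (· < ·) →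
    (∀ i ∈ l, j ≤ i ∧ i < C.length) → (l.map fun i => C.getD i 0).Sublist (C.drop j) := by
  intro l
  induction l with
  | nil => intro j _ _; simp
  | cons i l ih =>
    intro j hl hb
    have hi := hb i (by simp)
    have h1 := ih (i + 1) (List.pairwise_cons.1 hl).2 (fun i' hi' =>
      ⟨(List.pairwise_cons.1 hl).1 i' hi', (hb i' (by simp [hi'])).2⟩)
    have h2 : C.drop i = C.getD i 0 :: C.drop (i + 1) := by
      rw [List.drop_eq_getElem_cons hi.2]
      congr 1
      simp [List.getD_eq_getElem?_getD, hi.2]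
    refine List.Sublist.trans ?_ (List.drop_sublist_drop_left C hi.1)
    rw [h2, List.map_cons]
    exact h1.cons_cons _

end P_CUT

open P_CUT Filter in
/-- Models of Peano arithmetic from good lists. -/
theorem prf_cut (hprE : S_prE) : S_cut := by
  intro U hU W δ hδ hδb hW hδW hgood d hd
  choose C hC using fun N => hgood (d N)
  set c : ℕ → ℕ → ℕ := fun i N => (C N).getD i 0 with hcdef
  have hlen : ∀ N, (C N).length = d N + 1 := fun N => (hC N).1.1
  have hc : Good c := by
    refine ⟨?_, ?_⟩
    · intro i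
      filter_upwards [uf_ge (i + 1)] with N hN
      exact (hC N).1.2.2.1 i (by rw [hlen]; have := hd N; omega)
    · intro φ p i0 hp l l' hl hl' hil hil' hll
      obtain ⟨f, hf, hfe⟩ := hprE φ
      obtain ⟨e, he⟩ := hU (fun n => if f n = 1 then 1 else 0) (by
        rw [← Primrec.nat_iff] at hf ⊢
        exact Primrec.ite (PrimrecRel.comp Primrec.eq hf (Primrec.const 1))
          (Primrec.const 1) (Primrec.const 0))
      have hbd : ∀ L : List ℕ, ∃ m, ∀ i ∈ L, i ≤ m := by
        intro L
        refine ⟨L.sum, fun i hi => List.single_le_sum (by simp) _ hi⟩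
      obtain ⟨m, hm⟩ := hbd l
      obtain ⟨m', hm'⟩ := hbd l'
      filter_upwards [hp, uf_ge (e + 1), uf_ge i0, uf_ge m, uf_ge m'] with N hpN h1 h2 h3 h4
      have hdN := hd N
      have h5 := (hC N).1.2.2.2 e (by omega) i0 (by rw [hlen]; omega) (p N) hpN
        (l.map fun i => c i N) (l'.map fun i => c i N)
        (sublist_map (C N) l (i0 + 1) hl (fun i hi => ⟨hil i hi, by
          rw [hlen]; have := hm i hi; omega⟩))
        (sublist_map (C N) l' (i0 + 1) hl' (fun i hi => ⟨hil' i hi, by
          rw [hlen]; have := hm' i hi; omega⟩))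
        (by simpa using hll)
      rw [he, he] at h5
      rw [← hfe, ← hfe]
      by_cases ha : f (Nat.pair (p N) (Encodable.encode (l.map fun i => c i N))) = 1 <;>
        by_cases hb : f (Nat.pair (p N) (Encodable.encode (l'.map fun i => c i N))) = 1 <;>
        simp [ha, hb] at h5 ⊢
  have hdc : ∀ N, d N < c 0 N := fun N =>
    lt_of_le_of_lt (hW.id_le (d N)) ((hC N).1.2.1 0 (by rw [hlen]; omega))
  have hdm : Mem c d := ⟨0, Eventually.of_forall hdc⟩
  have hdd : ∀ᶠ N in (uf : Filter ℕ), rep (mk d hdm) N = d N := rep_mk d hdm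
  refine ⟨I c, ar hc, isPA hc, mk d hdm, ?_, ?_⟩
  · intro x
    have e0 : ∀ w : I c, @Sat _ (ar hc) δ (cons x (cons w fun _ => (ar hc).zero)) ↔
        ∀ᶠ N in (uf : Filter ℕ), W (rep x N) ≤ rep w N := by
      intro w
      rw [abs hc hδ]
      refine Filter.eventually_congr ?_
      filter_upwards [rep_zero hc] with N hN
      rw [← hδW]
      have : (fun j => rep ((cons x (cons w fun _ => (ar hc).zero) : ℕ → I c) j) N) =
          v2 (rep x N) (rep w N) := by
        funext j
        rcases j with _ | _ | j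
        · rfl
        · rfl
        · exact hN
      rw [this]
    rw [lt_iff, ← Ultrafilter.eventually_not]
    constructor
    · rintro ⟨w, hw⟩
      rw [e0] at hw
      obtain ⟨i, hi⟩ := rep_mem w
      filter_upwards [hw, hi, hdd, uf_ge i] with N h1 h2 h3 h4
      have h5 : c i N < W (d N + 1) := by
        refine (hC N).2 _ ?_
        have hlt : i < (C N).length := by rw [hlen]; have := hd N; omega
        show (C N).getD i 0 ∈ C N
        rw [List.getD_eq_getElem _ _ hlt]
        exact List.getElem_mem hlt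
      have h6 : W (rep x N) < W (d N + 1) := by omega
      have := hW.lt_iff_lt.1 h6
      omega
    · intro h
      have hle : ∀ᶠ N in (uf : Filter ℕ), rep x N ≤ d N := by
        filter_upwards [h, hdd] with N h1 h2
        omega
      have hmem : Mem c (fun N => W (rep x N)) := ⟨0, by
        filter_upwards [hle] with N hN
        exact lt_of_le_of_lt (hW.monotone hN) ((hC N).1.2.1 0 (by rw [hlen]; omega))⟩
      refine ⟨mk _ hmem, ?_⟩
      rw [e0]
      filter_upwards [rep_mk _ hmem] with N hN
      rw [hN]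
  · intro θ hθ hθb hall
    rw [abs hc hθ]
    filter_upwards [hdd] with N hN
    have := hall N
    rw [← hN] at this
    exact this

end Pool.Agent.N636.SF
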