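import Pool.Agent.N636.SF.Std

/-!
# The sentences `state p ≥ j` are `Σ_{N0+p}`
-/

set_option autoImplicit false

namespace Pool.Agent.N636.SF

namespace P_CX

theorem tru (hc : Calc) (b : Bool) (n k : ℕ) {P : Prop} (hP : P) :
    IsDef b n k (fun _ _ _ => P) := by
  have h0 : IsDef b 0 k (fun _ _ _ => P) := by
    refine hc.congr b 0 k _ _ ?_ (hc.eq b k .zero .zero trivial trivial)
    intro M _ _ v
    exact iff_of_true rfl hP
  rcases Nat.eq_zero_or_pos n with rfl | hn
  · exact h0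
  · exact hc.up b b 0 n k _ hn h0

theorem const (hc : Calc) (b : Bool) (n k : ℕ) (P : Prop) :
    IsDef b n k (fun _ _ _ => P) := by
  by_cases hP : P
  · exact tru hc b n k hP
  · have h := hc.not (!b) n k _ (tru hc (!b) n k (P := ¬ P) hP)
    rw [Bool.not_not] at h
    exact hc.congr b n k _ _ (fun M _ _ v => not_not) h

theorem raise (hc : Calc) {b : Bool} {n m k : ℕ} {R : URel} (hnm : n ≤ m)
    (h : IsDef b n k R) : IsDef b m k R := by
  rcases Nat.eq_or_lt_of_le hnm with rfl | hlt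
  · exact h
  · exact hc.up b b n m k R hlt h

/-- A condition on parameters. -/
theorem cond (hc : Calc) (b : Bool) (n k : ℕ) (R : URel) (P : Prop) (h : P → IsDef b n k R) :
    IsDef b n k (fun M _ v => P → R M v) := by
  by_cases hP : P
  · exact hc.congr b n k _ _ (fun M _ _ v => ⟨fun h _ => h, fun h => h hP⟩) (h hP)
  · exact hc.congr b n k _ _ (fun M _ _ v => iff_of_true trivial fun h => absurd h hP)
      (tru hc b n k trivial)

/-- Finite conjunctions. -/
theorem ball (hc : Calc) (b : Bool) (n k : ℕ) (R : ℕ → URel) (P : ℕ → Prop) (N : ℕ)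
    (h : ∀ m ≤ N, P m → IsDef b n k (R m)) :
    IsDef b n k (fun M _ v => ∀ m, m ≤ N → P m → R m M v) := by
  induction N with
  | zero =>
    refine hc.congr b n k _ _ ?_ (cond hc b n k (R 0) (P 0) (h 0 le_rfl))
    intro M _ _ v
    constructor
    · intro h m hm hP
      obtain rfl : m = 0 := by omega
      exact h hP
    · intro h hP
      exact h 0 le_rfl hP
  | succ N ih =>
    refine hc.congr b n k _ _ ?_ (hc.and b n k _ _ (ih fun m hm => h m (by omega))
      (cond hc b n k (R (N + 1)) (P (N + 1)) (h (N + 1) le_rfl)))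
    intro M _ _ v
    constructor
    · rintro ⟨h1, h2⟩ m hm hP
      rcases Nat.eq_or_lt_of_le hm with rfl | hlt
      · exact h2 hP
      · exact h1 m (by omega) hP
    · intro h
      exact ⟨fun m hm hP => h m (by omega) hP, fun hP => h (N + 1) le_rfl hP⟩

/-- Finite disjunctions. -/
theorem fex (hc : Calc) (b : Bool) (n k : ℕ) {ι : Type} (R : ι → URel) (F : Finset ι)
    (h : ∀ s ∈ F, IsDef b n k (R s)) :
    IsDef b n k (fun M _ v => ∃ s ∈ F, R s M v) := by
  classical
  induction F using Finset.induction_on with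
  | empty =>
    refine hc.congr b n k _ _ ?_ (const hc b n k False)
    intro M _ _ v
    simp
  | insert a F ha ih =>
    refine hc.congr b n k _ _ ?_ (hc.or b n k _ _ (h a (Finset.mem_insert_self a F))
      (ih fun s hs => h s (Finset.mem_insert_of_mem hs)))
    intro M _ _ v
    simp [Finset.mem_insert]

/-- `pr` as a term. -/
def prT (a b : Tm) : Tm := .add (.mul (.add a b) (.add a b)) a

theorem prT_bd {a b : Tm} {k : ℕ} (ha : a.Bd k) (hb : b.Bd k) : (prT a b).Bd k :=
  ⟨⟨⟨ha, hb⟩, ⟨ha, hb⟩⟩, ha⟩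

theorem val_prT {M : Type} [Arith M] (a b : Tm) (v : ℕ → M) :
    (prT a b).val v = pr (a.val v) (b.val v) := rfl

/-- The trigger, given the definability of the bound. -/
theorem core (hc : Calc) (hT : S_cxT) (hbit : S_cxBit) {N0 : ℕ} (hN : 1 ≤ N0) (j : ℕ)
    (s : List ℕ) (h : IsDef true (N0 + s.length) 2 (fun _ _ v => BdS N0 (v 1) s (v 0))) :
    IsDef true (N0 + s.length) 2 (fun _ _ v => TgS N0 (v 1) j s (v 0)) := by
  obtain ⟨n, hn⟩ : ∃ n, N0 + s.length = n + 1 := ⟨N0 + s.length - 1, by omega⟩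
  rw [hn] at h ⊢
  -- the truth predicate
  have h1 : IsDef true (n + 1) 3 (fun _ _ v => Tb (n + 1) (v 2) (v 0) []) := by
    have := hc.subst true (n + 1) 2 3 _ (cons (.var 2) (cons (.var 0) fun _ => .zero)) ?_ (hT n)
    · exact this
    · intro i hi
      rcases i with _ | _ | i
      · exact Nat.lt_succ_self 2
      · exact Nat.succ_pos 2
      · omega
  -- the bits
  have h2 : IsDef true 0 3 (fun M _ v => Bit (v 2)
      (pr (Arith.succ Arith.zero) (pr (pr (num M (cdN j s)) (v 1)) (v 0)))) := by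
    have := hc.subst true 0 2 3 _ (cons (.var 2)
      (cons (prT (.succ .zero) (prT (prT (numT (cdN j s)) (.var 1)) (.var 0)))
        fun _ => .zero)) ?_ (hbit true)
    · refine hc.congr true 0 3 _ _ ?_ this
      intro M _ _ v
      show Bit (v 2) (Tm.val v (prT (.succ .zero)
        (prT (prT (numT (cdN j s)) (.var 1)) (.var 0)))) ↔ _
      rw [val_prT, val_prT, val_prT, val_numT]
      rfl
    · intro i hi
      rcases i with _ | _ | i
      · exact Nat.lt_succ_self 2
      · refine prT_bd trivial (prT_bd (prT_bd (numT_bd _ _) ?_) ?_)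
        · show 1 < 3
          omega
        · show 0 < 3
          omega
      · omega
  have h3 : IsDef true 0 3 (fun _ _ v => Lt (v 0) (v 1)) :=
    hc.lt true 3 (.var 0) (.var 1) (by show 0 < 3; omega) (by show 1 < 3; omega)
  have h4 := hc.ex n 2 _ (hc.and true (n + 1) 3 _ _ (raise hc (Nat.zero_le _) h3)
    (hc.and true (n + 1) 3 _ _ (raise hc (Nat.zero_le _) h2) h1))
  refine hc.congr true (n + 1) 2 _ _ ?_ (hc.and true (n + 1) 2 _ _ h h4)
  intro M _ _ v
  unfold TgS Core
  rw [hn]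
  rfl

/-- The bounds. -/
theorem bds (hc : Calc) (hT : S_cxT) (hbit : S_cxBit) {N0 : ℕ} (hN : 1 ≤ N0) (s : List ℕ) :
    ∀ b : Bool, IsDef b (N0 + s.length) 2 (fun _ _ v => BdS N0 (v 1) s (v 0)) := by
  induction s with
  | nil =>
    intro b
    exact hc.congr b _ 2 _ _ (fun M _ _ v => Iff.rfl) (tru hc b (N0 + ([] : List ℕ).length) 2 trivial)
  | cons j s ih =>
    intro b
    have hlen : N0 + (j :: s).length = N0 + s.length + 1 := by
      rw [List.length_cons]; omega
    rw [hlen]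
    obtain ⟨n, hn⟩ : ∃ n, N0 + s.length = n + 1 := ⟨N0 + s.length - 1, by omega⟩
    have h1 : IsDef true (N0 + s.length) 2 (fun _ _ v => TgS N0 (v 1) j s (v 0)) :=
      core hc hT hbit hN j s (ih true)
    -- `¬ TgS k'` with variables k', k, d
    have h2 : IsDef true (N0 + s.length) 3 (fun _ _ v => TgS N0 (v 2) j s (v 0)) := by
      have := hc.subst true (N0 + s.length) 2 3 _ (cons (.var 0) (cons (.var 2) fun _ => .zero))
        ?_ h1
      · exact this
      · intro i hi
        rcases i with _ | _ | i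
        · exact Nat.succ_pos 2
        · exact Nat.lt_succ_self 2
        · omega
    have h3 : IsDef true 0 3 (fun _ _ v => Lt (v 0) (Arith.succ (v 1))) :=
      hc.lt true 3 (.var 0) (.succ (.var 1)) (by show 0 < 3; omega) (by show 1 < 3; omega)
    have h4 : IsDef false (N0 + s.length) 3
        (fun _ _ v => ¬ (Lt (v 0) (Arith.succ (v 1)) ∧ TgS N0 (v 2) j s (v 0))) :=
      hc.not true _ 3 _ (hc.and true _ 3 _ _ (raise hc (Nat.zero_le _) h3) h2)
    rw [hn] at h4
    have h5 := hc.all n 2 _ h4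
    have h6 := cond hc b (N0 + s.length + 1) 2 _ (1 ≤ j)
      (fun _ => hc.up false b (n + 1) (N0 + s.length + 1) 2 _ (by omega) h5)
    have h7 := raise hc (Nat.le_succ _) (ih b)
    refine hc.congr b _ 2 _ _ ?_ (hc.and b _ 2 _ _ h7 h6)
    intro M _ _ v
    show (BdS N0 (v 1) s (v 0) ∧ (1 ≤ j → ∀ a : M, ¬ (Lt a (Arith.succ (v 0)) ∧
        TgS N0 (v 1) j s a))) ↔
      (BdS N0 (v 1) s (v 0) ∧ (1 ≤ j → ∀ k', Lt k' (Arith.succ (v 0)) →
        ¬ Core N0 (v 1) (BdS N0 (v 1) s) j s k'))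
    refine and_congr_right fun _ => imp_congr_right fun _ => forall_congr' fun a => ?_
    rw [not_and]
    rfl

/-- The triggers. -/
theorem tgs (hc : Calc) (hT : S_cxT) (hbit : S_cxBit) {N0 : ℕ} (hN : 1 ≤ N0) (j : ℕ)
    (s : List ℕ) : IsDef true (N0 + s.length) 2 (fun _ _ v => TgS N0 (v 1) j s (v 0)) :=
  core hc hT hbit hN j s (bds hc hT hbit hN s true)

/-- The states. -/
theorem reach (hc : Calc) (hT : S_cxT) (hbit : S_cxBit) {N0 : ℕ} (hN : 1 ≤ N0) (j : ℕ)
    (s : List ℕ) : IsDef true (N0 + s.length) 1 (fun _ _ v => Reach N0 (v 0) j s) := by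
  have h : ∀ j', IsDef true (N0 + s.length) 1 (fun _ _ v => ∃ k, TgS N0 (v 0) j' s k) := by
    intro j'
    obtain ⟨n, hn⟩ : ∃ n, N0 + s.length = n + 1 := ⟨N0 + s.length - 1, by omega⟩
    have h1 := tgs hc hT hbit hN j' s
    rw [hn] at h1 ⊢
    exact hc.ex n 1 _ h1
  refine hc.congr true _ 1 _ _ ?_ (ball hc true (N0 + s.length) 1 _ (fun j' => 1 ≤ j') j
    fun j' _ _ => h j')
  intro M _ _ v
  constructor
  · intro h j' h1 h2
    exact h j' h2 h1
  · intro h j' h2 h1
    exact h j' h1 h2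

theorem Reach.mono {N0 : ℕ} {M : Type} [Arith M] {d : M} {j j' : ℕ} {s : List ℕ}
    (h : Reach N0 d j s) (hj : j' ≤ j) : Reach N0 d j' s :=
  fun i h1 h2 => h i h1 (h2.trans hj)

theorem vec_length (N0 : ℕ) (J : ℕ → ℕ) {M : Type} [Arith M] (d : M) (p : ℕ) :
    (vec N0 d J p).length = p := by
  induction p with
  | zero => rfl
  | succ p ih =>
    rw [vec, List.length_cons, ih]

theorem vec_succ_iff (N0 : ℕ) (J : ℕ → ℕ) {M : Type} [Arith M] (d : M) (p j : ℕ)
    (s : List ℕ) :
    vec N0 d J (p + 1) = j :: s ↔ vec N0 d J p = s ∧ j ≤ J p ∧ (j ≠ 0 → Reach N0 d j s) ∧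
      ∀ m, m ≤ J p → j < m → ¬ Reach N0 d m s := by
  classical
  rw [vec, List.cons.injEq]
  constructor
  · rintro ⟨h1, h2⟩
    rw [h2, Nat.findGreatest_eq_iff] at h1
    exact ⟨h2, h1.1, h1.2.1, fun m hm hj => h1.2.2 hj hm⟩
  · rintro ⟨h2, h1, h3, h4⟩
    refine ⟨?_, h2⟩
    rw [h2, Nat.findGreatest_eq_iff]
    exact ⟨h1, h3, fun m hj hm => h4 m hm hj⟩

theorem vecd (hc : Calc) (hT : S_cxT) (hbit : S_cxBit) {N0 : ℕ} (hN : 1 ≤ N0) (J : ℕ → ℕ)
    (p : ℕ) : ∀ (s : List ℕ) (b : Bool),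
      IsDef b (N0 + p) 1 (fun _ _ v => vec N0 (v 0) J p = s) := by
  induction p with
  | zero =>
    intro s b
    exact hc.congr b _ 1 _ _ (fun M _ _ v => Iff.rfl) (const hc b (N0 + 0) 1 ([] = s))
  | succ p ih =>
    intro s b
    by_cases hs : s.length = p + 1
    · obtain ⟨j, t, rfl⟩ : ∃ j t, s = j :: t := by
        cases s with
        | nil => simp at hs
        | cons j t => exact ⟨j, t, rfl⟩
      have ht : t.length = p := by
        rw [List.length_cons] at hs; omega
      have hR : ∀ (m : ℕ) (b' : Bool),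
          IsDef b' (N0 + (p + 1)) 1 (fun _ _ v => Reach N0 (v 0) m t) := by
        intro m b'
        have := reach hc hT hbit hN m t
        rw [ht] at this
        exact hc.up true b' (N0 + p) (N0 + (p + 1)) 1 _ (by omega) this
      have h1 := raise hc (show N0 + p ≤ N0 + (p + 1) by omega) (ih t b)
      have h2 := const hc b (N0 + (p + 1)) 1 (j ≤ J p)
      have h3 := cond hc b (N0 + (p + 1)) 1 _ (j ≠ 0) (fun _ => hR j b)
      have h4 := ball hc b (N0 + (p + 1)) 1 _ (fun m => j < m) (J p) (fun m _ _ => by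
        have h := hc.not (!b) (N0 + (p + 1)) 1 _ (hR m (!b))
        rw [Bool.not_not] at h
        exact h)
      refine hc.congr b _ 1 _ _ ?_ (hc.and b _ 1 _ _ h1 (hc.and b _ 1 _ _ h2
        (hc.and b _ 1 _ _ h3 h4)))
      intro M _ _ v
      exact (vec_succ_iff N0 J (v 0) p j t).symm
    · refine hc.congr b _ 1 _ _ ?_ (const hc b (N0 + (p + 1)) 1 False)
      intro M _ _ v
      refine iff_of_false id fun h => hs ?_
      rw [← h]
      exact vec_length N0 J (v 0) (p + 1)

/-- There are only finitely many lists of states. -/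
theorem vec_finite (N0 : ℕ) (J : ℕ → ℕ) (p : ℕ) :
    ∃ F : Finset (List ℕ), ∀ (M : Type) [Arith M] (d : M), vec N0 d J p ∈ F := by
  classical
  induction p with
  | zero => exact ⟨{[]}, fun M _ d => Finset.mem_singleton_self _⟩
  | succ p ih =>
    obtain ⟨F, hF⟩ := ih
    refine ⟨Finset.image₂ (fun j s => j :: s) (Finset.range (J p + 1)) F, fun M _ d => ?_⟩
    rw [vec]
    refine Finset.mem_image₂.2 ⟨_, ?_, _, hF M d, rfl⟩
    rw [Finset.mem_range]
    exact Nat.lt_succ_of_le (Nat.findGreatest_le _)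

/-- `j ≤ state p`. -/
theorem le_state_iff (N0 : ℕ) (J : ℕ → ℕ) {M : Type} [Arith M] (d : M) (p j : ℕ) (hj : 1 ≤ j)
    (hJ : j ≤ J p) : j ≤ state N0 d J p ↔ Reach N0 d j (vec N0 d J p) := by
  classical
  unfold state
  constructor
  · intro h
    exact Reach.mono (Nat.findGreatest_of_ne_zero (P := fun j => Reach N0 d j (vec N0 d J p))
      rfl (by omega)) h
  · intro h
    exact Nat.le_findGreatest hJ h

end P_CX

open P_CX

theorem prf_cx (hc : Calc) (hT : S_cxT) (hbit : S_cxBit) : S_cx := by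
  intro D N0 J hN hD hDef p j hj hJ
  obtain ⟨F, hF⟩ := vec_finite N0 J p
  have h1 : IsDef true (N0 + p) 1
      (fun M _ v => ∃ s ∈ F, (vec N0 (v 0) J p = s ∧ Reach N0 (v 0) j s)) := by
    refine fex hc true (N0 + p) 1
      (fun s M _ v => vec N0 (v 0) J p = s ∧ Reach N0 (v 0) j s) F fun s _ => ?_
    by_cases hs : s.length = p
    · have h := reach hc hT hbit hN j s
      rw [hs] at h
      exact hc.and true _ 1 _ _ (vecd hc hT hbit hN J p s true) h
    · refine hc.congr true _ 1 _ _ ?_ (const hc true (N0 + p) 1 False)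
      intro M _ _ v
      refine iff_of_false id fun h => hs ?_
      rw [← h.1]
      exact vec_length N0 J (v 0) p
  have h2 : IsDef true (N0 + p) 1 (fun _ _ v => Sat D v) := raise hc (by omega) hDef
  obtain ⟨n, hn⟩ : ∃ n, N0 + p = n + 1 := ⟨N0 + p - 1, by omega⟩
  have h3 := hc.and true _ 1 _ _ h2 h1
  rw [hn] at h3 ⊢
  obtain ⟨φ, hφ1, hφ2, hφ3⟩ := hc.ex n 0 _ h3
  refine ⟨φ, hφ1, hφ2, ?_⟩
  intro M _ hM d hd v
  rw [hφ3 M hM v, le_state_iff N0 J d p j hj hJ]
  have hsat : ∀ a : M, Sat D (cons a v) ↔ a = d := by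
    intro a
    rw [← hd a]
    refine Sat_congr hD ?_
    intro i hi
    obtain rfl : i = 0 := by omega
    rfl
  constructor
  · rintro ⟨a, ha, s, _, hs1, hs2⟩
    have had : a = d := (hsat a).1 ha
    subst had
    have e : vec N0 a J p = s := hs1
    rw [e]
    exact hs2
  · intro h
    exact ⟨d, (hsat d).2 rfl, _, hF M d, rfl, h⟩

end Pool.Agent.N636.SF
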