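import Pool.Agent.N636.SF.Stm

/-!
# The truth predicates are `Σ_n` and the bits are `Δ_0` (helper591)
-/

set_option autoImplicit false

namespace Pool.Agent.N636.SF

namespace P_CXT

/-- the term for the pairing function -/
def prT (a b : Tm) : Tm := .add (.mul (.add a b) (.add a b)) a

/-- the term for the moduli -/
def mdT (w j : Tm) : Tm := .succ (.mul (.succ j) w)

theorem prT_bd {k : ℕ} {a b : Tm} (ha : a.Bd k) (hb : b.Bd k) : (prT a b).Bd k :=
  ⟨⟨⟨ha, hb⟩, ⟨ha, hb⟩⟩, ha⟩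

theorem mdT_bd {k : ℕ} {w j : Tm} (hw : w.Bd k) (hj : j.Bd k) : (mdT w j).Bd k :=
  ⟨hj, hw⟩

/-- the list of the pairs `(v 1, v 0), (v 3, v 2), ...` -/
def lst {M : Type} : ℕ → (ℕ → M) → List (M × M)
  | 0, _ => []
  | m + 1, v => (v 1, v 0) :: lst m (fun i => v (i + 2))

/-- the term for the bound of the values -/
def BsT : ℕ → ℕ → Tm
  | 0, _ => .zero
  | m + 1, k => .add (BsT m (k + 2)) (.var (k + 1))

theorem BsT_val {M : Type} [Arith M] (m : ℕ) : ∀ (k : ℕ) (v : ℕ → M),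
    (BsT m k).val v = Bs (lst m fun i => v (i + k)) := by
  induction m with
  | zero => intro k v; rfl
  | succ m ih =>
    intro k v
    have h1 : (fun i => v (i + (k + 2))) = fun i => (fun i => v (i + k)) (i + 2) := by
      funext i
      show v (i + (k + 2)) = v (i + 2 + k)
      congr 1
      omega
    show Arith.add ((BsT m (k + 2)).val v) (v (k + 1)) =
      Arith.add (Bs (lst m fun i => (fun i => v (i + k)) (i + 2))) (v (1 + k))
    rw [ih (k + 2) v, h1, add_comm k 1]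

theorem BsT_bd (m : ℕ) : ∀ (k l : ℕ), 2 * m + k ≤ l → (BsT m k).Bd l := by
  induction m with
  | zero => intro k l _; trivial
  | succ m ih =>
    intro k l h
    exact ⟨ih (k + 2) l (by omega), (show k + 1 < l by omega)⟩

theorem ren (hc : Calc) {b : Bool} {n k l : ℕ} {R : URel} (f : ℕ → ℕ) (hf : ∀ i < k, f i < l)
    (h : IsDef b n k R) : IsDef b n l (fun M _ v => R M (fun i => v (f i))) :=
  hc.subst b n k l R (fun i => .var (f i)) hf h

theorem imp (hc : Calc) {b : Bool} {k : ℕ} {R R' : URel} (h : IsDef b 0 k R)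
    (h' : IsDef b 0 k R') : IsDef b 0 k (fun M _ v => R M v → R' M v) := by
  refine hc.congr b 0 k (fun M _ v => ¬ R M v ∨ R' M v) _ ?_
    (hc.or b 0 k _ _ (hc.zero (!b) b k _ (hc.not b 0 k _ h)) h')
  intro M _ _ v
  tauto

theorem bit (hc : Calc) (b : Bool) : IsDef b 0 2 (fun _ _ v => Bit (v 0) (v 1)) := by
  refine hc.bex b 2 (fun M _ v => ∃ w, Lt w (Arith.succ (v 1)) ∧ ∃ q, Lt q (Arith.succ (v 0)) ∧
    pr (v 0) w = v 1 ∧ Arith.mul q (md w (v 2)) = v 0) (.succ (.var 0)) (show 0 < 2 by omega) ?_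
  refine hc.bex b 3 (fun M _ v => ∃ q, Lt q (Arith.succ (v 1)) ∧
    pr (v 1) (v 0) = v 2 ∧ Arith.mul q (md (v 0) (v 3)) = v 1) (.succ (.var 1))
    (show 1 < 3 by omega) ?_
  refine hc.bex b 4 (fun M _ v =>
    pr (v 2) (v 1) = v 3 ∧ Arith.mul (v 0) (md (v 1) (v 4)) = v 2) (.succ (.var 1))
    (show 1 < 4 by omega) ?_
  refine hc.and b 0 5 (fun M _ v => pr (v 2) (v 1) = v 3)
    (fun M _ v => Arith.mul (v 0) (md (v 1) (v 4)) = v 2) ?_ ?_
  · exact hc.eq b 5 (prT (.var 2) (.var 1)) (.var 3)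
      (prT_bd (show 2 < 5 by omega) (show 1 < 5 by omega)) (show 3 < 5 by omega)
  · exact hc.eq b 5 (.mul (.var 0) (mdT (.var 1) (.var 4))) (.var 2)
      ⟨(show 0 < 5 by omega), mdT_bd (show 1 < 5 by omega) (show 4 < 5 by omega)⟩
      (show 2 < 5 by omega)

theorem bet (hc : Calc) (b : Bool) :
    IsDef b 0 4 (fun _ _ v => Bet (v 0) (v 1) (v 2) (v 3)) := by
  refine hc.and b 0 4 (fun M _ v => Lt (v 3) (md (v 1) (v 2)))
    (fun M _ v => ∃ q, Lt q (Arith.succ (v 0)) ∧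
      Arith.add (Arith.mul q (md (v 1) (v 2))) (v 3) = v 0) ?_ ?_
  · exact hc.lt b 4 (.var 3) (mdT (.var 1) (.var 2)) (show 3 < 4 by omega)
      (mdT_bd (show 1 < 4 by omega) (show 2 < 4 by omega))
  · refine hc.bex b 4 (fun M _ v => Arith.add (Arith.mul (v 0) (md (v 2) (v 3))) (v 4) = v 1)
      (.succ (.var 0)) (show 0 < 4 by omega) ?_
    exact hc.eq b 5 (.add (.mul (.var 0) (mdT (.var 2) (.var 3))) (.var 4)) (.var 1)
      ⟨⟨(show 0 < 5 by omega), mdT_bd (show 2 < 5 by omega) (show 3 < 5 by omega)⟩,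
        (show 4 < 5 by omega)⟩ (show 1 < 5 by omega)

/-- renaming for the code of the odd variables -/
def f1 : ℕ → ℕ
  | 0 => 4
  | 1 => 3
  | 2 => 0
  | _ => 2

/-- renaming for the rest of the list -/
def f2 : ℕ → ℕ
  | 0 => 0
  | 1 => 2
  | i + 2 => i + 5

theorem vl (hc : Calc) (b : Bool) (m : ℕ) :
    IsDef b 0 (2 * m + 2) (fun _ _ v => Vl (lst m fun i => v (i + 2)) (v 0) (v 1)) := by
  induction m with
  | zero =>
    exact hc.eq b 2 (.var 1) .zero (show 1 < 2 by omega) trivial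
  | succ m ih =>
    have hk : 2 * (m + 1) + 2 = 2 * m + 4 := by omega
    rw [hk]
    refine hc.or b 0 (2 * m + 4)
      (fun M _ v => ∃ j', Lt j' (Arith.succ (v 0)) ∧ Arith.succ (Arith.add j' j') = v 0 ∧
        Bet (v 3) (v 2) j' (v 1))
      (fun M _ v => ∃ j', Lt j' (Arith.succ (v 0)) ∧ Arith.add j' j' = v 0 ∧
        Vl (lst m fun i => v (i + 4)) j' (v 1)) ?_ ?_
    · refine hc.bex b (2 * m + 4) (fun M _ v => Arith.succ (Arith.add (v 0) (v 0)) = v 1 ∧
        Bet (v 4) (v 3) (v 0) (v 2)) (.succ (.var 0)) (show 0 < 2 * m + 4 by omega) ?_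
      refine hc.and b 0 (2 * m + 5) (fun M _ v => Arith.succ (Arith.add (v 0) (v 0)) = v 1)
        (fun M _ v => Bet (v 4) (v 3) (v 0) (v 2)) ?_ ?_
      · exact hc.eq b (2 * m + 5) (.succ (.add (.var 0) (.var 0))) (.var 1)
          ⟨(show 0 < 2 * m + 5 by omega), (show 0 < 2 * m + 5 by omega)⟩
          (show 1 < 2 * m + 5 by omega)
      · refine ren hc (l := 2 * m + 5) f1 ?_ (bet hc b)
        intro i hi
        have : f1 i < 5 := by
          interval_cases i <;> simp [f1]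
        omega
    · refine hc.bex b (2 * m + 4) (fun M _ v => Arith.add (v 0) (v 0) = v 1 ∧
        Vl (lst m fun i => v (i + 5)) (v 0) (v 2)) (.succ (.var 0))
        (show 0 < 2 * m + 4 by omega) ?_
      refine hc.and b 0 (2 * m + 5) (fun M _ v => Arith.add (v 0) (v 0) = v 1)
        (fun M _ v => Vl (lst m fun i => v (i + 5)) (v 0) (v 2)) ?_ ?_
      · exact hc.eq b (2 * m + 5) (.add (.var 0) (.var 0)) (.var 1)
          ⟨(show 0 < 2 * m + 5 by omega), (show 0 < 2 * m + 5 by omega)⟩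
          (show 1 < 2 * m + 5 by omega)
      · refine ren hc (l := 2 * m + 5) f2 ?_ ih
        intro i hi
        match i, hi with
        | 0, _ => simp [f2]
        | 1, _ => simp [f2]
        | i + 2, hi => simp only [f2]; omega

/-- renaming for the values of variables -/
def g (a x : ℕ) : ℕ → ℕ
  | 0 => a
  | 1 => x
  | i + 2 => i + 10

theorem vlg (hc : Calc) (b : Bool) (m a x : ℕ) (ha : a < 10) (hx : x < 10) :
    IsDef b 0 (2 * m + 10) (fun _ _ v => Vl (lst m fun i => v (i + 10)) (v a) (v x)) := by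
  refine ren hc (l := 2 * m + 10) (g a x) ?_ (vl hc b m)
  intro i hi
  match i, hi with
  | 0, _ => simp only [g]; omega
  | 1, _ => simp only [g]; omega
  | i + 2, hi => simp only [g]; omega

/-- a bounded quantifier with the bound `Bs` -/
theorem bexB (hc : Calc) (b : Bool) (m k : ℕ) (R : URel) (h : IsDef b 0 (2 * m + k + 1) R) :
    IsDef b 0 (2 * m + k) (fun M _ v =>
      ∃ a, Lt a (Arith.succ (Bs (lst m fun i => v (i + k)))) ∧ R M (cons a v)) := by
  refine hc.congr b 0 (2 * m + k) _ _ ?_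
    (hc.bex b (2 * m + k) R (.succ (BsT m k)) (BsT_bd m k _ le_rfl) h)
  intro M _ _ v
  show (∃ a, Lt a (Arith.succ ((BsT m k).val v)) ∧ R M (cons a v)) ↔ _
  rw [BsT_val]

theorem atom (hc : Calc) (b : Bool) (m : ℕ) :
    IsDef b 0 (2 * m + 1) (fun _ _ v => AtomL (lst m fun i => v (i + 1)) (v 0)) := by
  -- the innermost part, in the context `xe, xc, xb, xa, e, c, b, a, ty, l, list`
  have h10 : IsDef b 0 (2 * m + 10) (fun M _ v =>
      Vl (lst m fun i => v (i + 10)) (v 7) (v 3) ∧ Vl (lst m fun i => v (i + 10)) (v 6) (v 2) ∧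
      Vl (lst m fun i => v (i + 10)) (v 5) (v 1) ∧ Vl (lst m fun i => v (i + 10)) (v 4) (v 0) ∧
      ((v 8 = Arith.zero ∧ Arith.add (Arith.mul (v 3) (v 2)) (v 1) = v 0) ∨
        (v 8 = Arith.succ Arith.zero ∧ v 3 = Arith.succ Arith.zero))) := by
    refine hc.and b 0 _ _ _ (vlg hc b m 7 3 (by omega) (by omega)) ?_
    refine hc.and b 0 _ _ _ (vlg hc b m 6 2 (by omega) (by omega)) ?_
    refine hc.and b 0 _ _ _ (vlg hc b m 5 1 (by omega) (by omega)) ?_
    refine hc.and b 0 _ _ _ (vlg hc b m 4 0 (by omega) (by omega)) ?_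
    refine hc.or b 0 _ (fun M _ v => v 8 = Arith.zero ∧
      Arith.add (Arith.mul (v 3) (v 2)) (v 1) = v 0)
      (fun M _ v => v 8 = Arith.succ Arith.zero ∧ v 3 = Arith.succ Arith.zero) ?_ ?_
    · refine hc.and b 0 _ (fun M _ v => v 8 = Arith.zero)
        (fun M _ v => Arith.add (Arith.mul (v 3) (v 2)) (v 1) = v 0) ?_ ?_
      · exact hc.eq b _ (.var 8) .zero (show 8 < 2 * m + 10 by omega) trivial
      · exact hc.eq b _ (.add (.mul (.var 3) (.var 2)) (.var 1)) (.var 0)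
          ⟨⟨(show 3 < 2 * m + 10 by omega), (show 2 < 2 * m + 10 by omega)⟩,
            (show 1 < 2 * m + 10 by omega)⟩ (show 0 < 2 * m + 10 by omega)
    · refine hc.and b 0 _ (fun M _ v => v 8 = Arith.succ Arith.zero)
        (fun M _ v => v 3 = Arith.succ Arith.zero) ?_ ?_
      · exact hc.eq b _ (.var 8) (.succ .zero) (show 8 < 2 * m + 10 by omega) trivial
      · exact hc.eq b _ (.var 3) (.succ .zero) (show 3 < 2 * m + 10 by omega) trivial
  have h9 := bexB hc b m 9 _ h10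
  have h8 := bexB hc b m 8 _ h9
  have h7 := bexB hc b m 7 _ h8
  have h6 := bexB hc b m 6 _ h7
  have h6' : IsDef b 0 (2 * m + 6) (fun M _ v =>
      pr (pr (pr (pr (v 4) (v 3)) (v 2)) (v 1)) (v 0) = v 5) :=
    hc.eq b (2 * m + 6) (prT (prT (prT (prT (.var 4) (.var 3)) (.var 2)) (.var 1)) (.var 0))
      (.var 5)
      (prT_bd (prT_bd (prT_bd (prT_bd (show 4 < 2 * m + 6 by omega) (show 3 < 2 * m + 6 by omega))
        (show 2 < 2 * m + 6 by omega)) (show 1 < 2 * m + 6 by omega))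
        (show 0 < 2 * m + 6 by omega)) (show 5 < 2 * m + 6 by omega)
  have h5 := hc.and b 0 _ _ _ h6' h6
  have h4 := hc.bex b (2 * m + 5) _ (.succ (.var 4)) (show 4 < 2 * m + 5 by omega) h5
  have h3 := hc.bex b (2 * m + 4) _ (.succ (.var 3)) (show 3 < 2 * m + 4 by omega) h4
  have h2 := hc.bex b (2 * m + 3) _ (.succ (.var 2)) (show 2 < 2 * m + 3 by omega) h3
  have h1 := hc.bex b (2 * m + 2) _ (.succ (.var 1)) (show 1 < 2 * m + 2 by omega) h2
  exact hc.bex b (2 * m + 1) _ (.succ (.var 0)) (show 0 < 2 * m + 1 by omega) h1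

/-- the index of the bit for the truth table `i`, the clause `c` and the atomic formula `l` -/
theorem bitR (hc : Calc) (b : Bool) (k : ℕ) (d : ℕ) (t : Tm) (hd : d < k) (ht : t.Bd k) :
    IsDef b 0 k (fun _ _ v => Bit (v d) (t.val v)) := by
  refine hc.subst b 0 2 k _ (fun i => match i with | 0 => .var d | _ => t) ?_ (bit hc b)
  intro i hi
  match i, hi with
  | 0, _ => exact hd
  | 1, _ => exact ht

theorem t0 (hc : Calc) (b : Bool) (m : ℕ) :
    IsDef b 0 (2 * m + 2) (fun _ _ v => T0 (v 0) (v 1) (lst m fun i => v (i + 2))) := by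
  refine hc.bex b (2 * m + 2) (fun M _ v => ∀ l, Lt l (v 2) →
    (Bit (v 1) (pr Arith.zero (pr (pr (pr (v 2) (v 0)) l) Arith.zero)) →
      AtomL (lst m fun i => v (i + 3)) l) ∧
    (Bit (v 1) (pr Arith.zero (pr (pr (pr (v 2) (v 0)) l) (Arith.succ Arith.zero))) →
      ¬ AtomL (lst m fun i => v (i + 3)) l)) (.var 1) (show 1 < 2 * m + 2 by omega) ?_
  refine hc.ball b (2 * m + 3) (fun M _ v =>
    (Bit (v 2) (pr Arith.zero (pr (pr (pr (v 3) (v 1)) (v 0)) Arith.zero)) →
      AtomL (lst m fun i => v (i + 4)) (v 0)) ∧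
    (Bit (v 2) (pr Arith.zero (pr (pr (pr (v 3) (v 1)) (v 0)) (Arith.succ Arith.zero))) →
      ¬ AtomL (lst m fun i => v (i + 4)) (v 0))) (.var 2) (show 2 < 2 * m + 3 by omega) ?_
  have hA : IsDef b 0 (2 * m + 4) (fun _ _ v => AtomL (lst m fun i => v (i + 4)) (v 0)) := by
    refine ren hc (l := 2 * m + 4) (fun i => match i with | 0 => 0 | i + 1 => i + 4) ?_
      (atom hc b m)
    intro i hi
    match i, hi with
    | 0, _ => show 0 < _; omega
    | i + 1, hi => show i + 4 < _; omega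
  have e1 : (1 : ℕ) < 2 * m + 4 := by omega
  have e3 : (3 : ℕ) < 2 * m + 4 := by omega
  have e0 : (0 : ℕ) < 2 * m + 4 := by omega
  refine hc.and b 0 (2 * m + 4) (fun M _ v =>
    (Bit (v 2) (pr Arith.zero (pr (pr (pr (v 3) (v 1)) (v 0)) Arith.zero)) →
      AtomL (lst m fun i => v (i + 4)) (v 0))) (fun M _ v =>
    (Bit (v 2) (pr Arith.zero (pr (pr (pr (v 3) (v 1)) (v 0)) (Arith.succ Arith.zero))) →
      ¬ AtomL (lst m fun i => v (i + 4)) (v 0))) ?_ ?_
  · exact imp hc (bitR hc b (2 * m + 4) 2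
      (prT .zero (prT (prT (prT (.var 3) (.var 1)) (.var 0)) .zero)) (by omega)
      (prT_bd trivial (prT_bd (prT_bd (prT_bd e3 e1) e0) trivial))) hA
  · exact imp hc (bitR hc b (2 * m + 4) 2
      (prT .zero (prT (prT (prT (.var 3) (.var 1)) (.var 0)) (.succ .zero))) (by omega)
      (prT_bd trivial (prT_bd (prT_bd (prT_bd e3 e1) e0) trivial)))
      (hc.zero (!b) b _ _ (hc.not b 0 _ _ hA))

/-- renaming for the step -/
def h : ℕ → ℕ
  | 0 => 2
  | 1 => 3
  | 2 => 0
  | 3 => 1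
  | i + 4 => i + 4

theorem tb (hc : Calc) (n : ℕ) : ∀ m : ℕ,
    IsDef true n (2 * m + 2) (fun _ _ v => Tb n (v 0) (v 1) (lst m fun i => v (i + 2))) := by
  induction n with
  | zero => exact fun m => t0 hc true m
  | succ n ih =>
    intro m
    refine hc.ex n (2 * m + 2) (fun M _ v =>
      ∃ w, ¬ Tb n (v 1) (v 2) ((v 0, w) :: lst m fun i => v (i + 3))) ?_
    refine hc.ex n (2 * m + 3) (fun M _ v =>
      ¬ Tb n (v 2) (v 3) ((v 1, v 0) :: lst m fun i => v (i + 4))) ?_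
    refine hc.up false true n (n + 1) (2 * m + 4) _ (Nat.lt_succ_self n) ?_
    refine hc.not true n (2 * m + 4) (fun M _ v =>
      Tb n (v 2) (v 3) ((v 1, v 0) :: lst m fun i => v (i + 4))) ?_
    refine ren hc (l := 2 * m + 4) h ?_ (ih (m + 1))
    intro i hi
    match i, hi with
    | 0, _ => show 2 < _; omega
    | 1, _ => show 3 < _; omega
    | 2, _ => show 0 < _; omega
    | 3, _ => show 1 < _; omega
    | i + 4, hi => show i + 4 < _; omega

end P_CXT

theorem prf_cxBit (hc : Calc) : S_cxBit := fun b => P_CXT.bit hc b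

theorem prf_cxT (hc : Calc) : S_cxT := fun n => P_CXT.tb hc (n + 1) 0

end Pool.Agent.N636.SF
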