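import Pool.Agent.N636.SF.Std

/-!
# Bounded formulas are primitive recursive; a universal function (S_D0, S_prE, S_U)
-/

set_option autoImplicit false

namespace Pool.Agent.N636.SF

namespace P_DU

/-! ### Bounded formulas -/

/-- The value of a term is a primitive recursive function of any parameter on which the assignment
depends in a primitive recursive way. -/
theorem val_prim {α : Type} [Primcodable α] (g : α → ℕ → ℕ) (hg : ∀ i, Primrec fun a => g a i)
    (t : Tm) : Primrec fun a : α => @Tm.val ℕ stdA (g a) t := by
  induction t with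
  | var i => exact hg i
  | zero => exact Primrec.const 0
  | succ t ih => exact Primrec.succ.comp ih
  | add s t ihs iht => exact Primrec.nat_add.comp ihs iht
  | mul s t ihs iht => exact Primrec.nat_mul.comp ihs iht

theorem cons_getD (a : ℕ) (l : List ℕ) :
    cons a (fun i => l.getD i 0) = fun i => (a :: l).getD i 0 := by
  funext i
  cases i with
  | zero => rfl
  | succ i => rfl

end P_DU

open P_DU in
theorem prf_D0 : S_D0 := by
  intro δ hδ
  have hl : ∀ i, Primrec fun l : List ℕ => l.getD i 0 := fun i =>
    (Primrec.list_getD (0 : ℕ)).comp Primrec.id (Primrec.const i)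
  induction hδ with
  | eq s t => exact Primrec.eq.comp (val_prim _ hl s) (val_prim _ hl t)
  | lt s t =>
    refine (Primrec.nat_lt.comp (val_prim _ hl s) (val_prim _ hl t)).of_eq ?_
    intro l
    exact (Lt_std _ _).symm
  | neg _ ih => exact ih.not
  | and _ _ ih1 ih2 => exact ih1.and ih2
  | @ball t φ _ ih =>
    have hR : PrimrecRel fun (a : ℕ) (l : List ℕ) => SatN φ fun i => (a :: l).getD i 0 := by
      have : PrimrecPred fun p : ℕ × List ℕ => SatN φ fun i => (p.1 :: p.2).getD i 0 :=
        ih.comp (Primrec.list_cons.comp Primrec.fst Primrec.snd)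
      exact this
    have h2 := (hR.forall_mem_list).comp
      (Primrec.list_range.comp (val_prim _ hl t)) (Primrec.id (α := List ℕ))
    refine h2.of_eq ?_
    intro l
    let _ := stdA
    show (∀ a ∈ List.range (@Tm.val ℕ stdA (fun i => l.getD i 0) t),
      SatN φ fun i => (a :: l).getD i 0) ↔
      Sat (.all (.imp (.lt (.var 0) t.shift) φ)) (fun i => l.getD i 0)
    simp only [Sat, Sat_imp, List.mem_range]
    refine forall_congr' fun a => ?_
    rw [Tm.val_shift, Lt_std, ← cons_getD]
    rfl

namespace P_DU

/-! ### Bounded truth -/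

theorem asg_cons (a p : ℕ) : cons a (asg p) = asg (Nat.pair a p) := by
  funext i
  cases i with
  | zero => simp [cons, asg]
  | succ i =>
    show asg p i = asg (Nat.pair a p) (i + 1)
    unfold asg
    rw [Function.iterate_succ_apply]
    simp

theorem asg_prim (i : ℕ) : Primrec fun p => asg p i := by
  unfold asg
  have h : Primrec fun p : ℕ => (fun q => (Nat.unpair q).2)^[i] p := by
    induction i with
    | zero => exact Primrec.id
    | succ i ih =>
      simp only [Function.iterate_succ_apply']
      exact Primrec.snd.comp (Primrec.unpair.comp ih)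
  exact Primrec.fst.comp (Primrec.unpair.comp h)

theorem ev_prim (φ : Fm) : PrimrecPred fun q : ℕ × List ℕ => ev φ q.2 (asg q.1) := by
  have hl : ∀ i, Primrec fun q : ℕ × List ℕ => asg q.1 i := fun i => (asg_prim i).comp Primrec.fst
  induction φ with
  | eq s t => 
    refine (Primrec.eq.comp (val_prim _ hl s) (val_prim _ hl t)).of_eq fun q => ?_
    simp only [ev]
  | lt s t =>
    refine (Primrec.nat_lt.comp (val_prim _ hl s) (val_prim _ hl t)).of_eq fun q => ?_
    simp only [ev]
  | neg φ ih =>
    refine ih.not.of_eq fun q => ?_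
    simp only [ev]
  | and φ ψ ih1 ih2 =>
    refine (ih1.and ih2).of_eq fun q => ?_
    simp only [ev]
  | all φ ih =>
    have hR : PrimrecRel fun (a : ℕ) (q : ℕ × List ℕ) => ev φ q.2.tail (asg (Nat.pair a q.1)) := by
      have h1 : Primrec fun r : ℕ × (ℕ × List ℕ) => (Nat.pair r.1 r.2.1, r.2.2.tail) :=
        (Primrec₂.natPair.comp Primrec.fst (Primrec.fst.comp Primrec.snd)).pair
          (Primrec.list_tail.comp (Primrec.snd.comp Primrec.snd))
      exact ih.comp h1
    have h2 := (hR.forall_mem_list).comp
      (Primrec.list_range.comp (Primrec.list_headI.comp (Primrec.snd (α := ℕ) (β := List ℕ))))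
      (Primrec.id (α := ℕ × List ℕ))
    refine h2.of_eq ?_
    rintro ⟨p, z⟩
    cases z with
    | nil => simp [ev]
    | cons b z => simp [ev, asg_cons]

end P_DU

open P_DU in
theorem prf_prE : S_prE := by
  intro φ
  classical
  have h := ev_prim φ
  have hg : Primrec fun q : ℕ × List ℕ => if ev φ q.2 (asg q.1) then 1 else 0 :=
    Primrec.ite h (Primrec.const 1) (Primrec.const 0)
  have hf : Primrec fun n : ℕ =>
      ((Encodable.decode n : Option (ℕ × List ℕ)).map
        fun q => if ev φ q.2 (asg q.1) then 1 else 0).getD 0 :=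
    Primrec.option_getD.comp (Primrec.option_map Primrec.decode (hg.comp Primrec.snd).to₂)
      (Primrec.const 0)
  refine ⟨_, Primrec.nat_iff.1 hf, fun p z => ?_⟩
  have hd : (Encodable.decode (Nat.pair p (Encodable.encode z)) : Option (ℕ × List ℕ)) =
      some (p, z) := Encodable.encodek (α := ℕ × List ℕ) (p, z)
  show ((Encodable.decode (Nat.pair p (Encodable.encode z)) : Option (ℕ × List ℕ)).map
        fun q => if ev φ q.2 (asg q.1) then 1 else 0).getD 0 = 1 ↔ _
  rw [hd]
  by_cases hev : ev φ z (asg p)
  · simp [hev]
  · simp [hev]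

namespace P_DU

/-! ### The universal function -/

open Nat.Partrec (Code)

/-- The operation `rfind'` does not occur. -/
def noRf : Code → Bool
  | .zero => true
  | .succ => true
  | .left => true
  | .right => true
  | .pair a b => noRf a && noRf b
  | .comp a b => noRf a && noRf b
  | .prec a b => noRf a && noRf b
  | .rfind' _ => false

/-- The total function computed by a code without `rfind'`. -/
def pe : Code → ℕ → ℕ
  | .zero => fun _ => 0
  | .succ => Nat.succ
  | .left => fun n => n.unpair.1
  | .right => fun n => n.unpair.2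
  | .pair a b => fun n => Nat.pair (pe a n) (pe b n)
  | .comp a b => fun n => pe a (pe b n)
  | .prec a b => Nat.unpaired fun z n =>
      n.rec (pe a z) fun y IH => pe b (Nat.pair z (Nat.pair y IH))
  | .rfind' _ => fun _ => 0

theorem eval_pe (c : Code) : noRf c = true → ∀ n, c.eval n = Part.some (pe c n) := by
  induction c with
  | zero => intro _ n; rfl
  | succ => intro _ n; rfl
  | left => intro _ n; rfl
  | right => intro _ n; rfl
  | pair a b iha ihb =>
    intro h n
    simp only [noRf, Bool.and_eq_true] at h
    simp only [Nat.Partrec.Code.eval, pe, iha h.1 n, ihb h.2 n, Seq.seq]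
    simp
  | comp a b iha ihb =>
    intro h n
    simp only [noRf, Bool.and_eq_true] at h
    simp only [Nat.Partrec.Code.eval, pe, ihb h.2 n]
    exact (Part.bind_some _ _).trans (iha h.1 _)
  | prec a b iha ihb =>
    intro h n
    simp only [noRf, Bool.and_eq_true] at h
    simp only [Nat.Partrec.Code.eval, pe, Nat.unpaired]
    generalize (Nat.unpair n).1 = z
    generalize (Nat.unpair n).2 = m
    induction m with
    | zero => exact iha h.1 z
    | succ m ih =>
      simp only
      rw [ih]
      show (Part.some _).bind _ = _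
      rw [Part.bind_some, ihb h.2]
  | rfind' c _ => intro h; simp [noRf] at h

theorem noRf_comp : Computable noRf := by
  have h := Nat.Partrec.Code.computable_recOn (α := Code) (σ := Bool) (c := id) Computable.id
    (z := fun _ => true) (Computable.const true) (s := fun _ => true) (Computable.const true)
    (l := fun _ => true) (Computable.const true) (r := fun _ => true) (Computable.const true)
    (pr := fun _ q => q.2.2.1 && q.2.2.2) ?_
    (co := fun _ q => q.2.2.1 && q.2.2.2) ?_
    (pc := fun _ q => q.2.2.1 && q.2.2.2) ?_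
    (rf := fun _ _ => false) ((Computable.const false).to₂)
  · refine h.of_eq fun c => ?_
    induction c with
    | zero => rfl
    | succ => rfl
    | left => rfl
    | right => rfl
    | pair a b iha ihb =>
      simp only [id, noRf] at *
      rw [iha, ihb]
    | comp a b iha ihb =>
      simp only [id, noRf] at *
      rw [iha, ihb]
    | prec a b iha ihb =>
      simp only [id, noRf] at *
      rw [iha, ihb]
    | rfind' c _ => rfl
  all_goals
    have h1 : Primrec fun p : Code × (Code × Code × Bool × Bool) => p.2.2.2.1 && p.2.2.2.2 :=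
      Primrec.and.comp
        (Primrec.fst.comp (Primrec.snd.comp (Primrec.snd.comp Primrec.snd)))
        (Primrec.snd.comp (Primrec.snd.comp (Primrec.snd.comp Primrec.snd)))
    exact h1.to_comp

theorem exists_code {f : ℕ → ℕ} (hf : Nat.Primrec f) : ∃ c : Code, noRf c = true ∧ pe c = f := by
  induction hf with
  | zero => exact ⟨.zero, rfl, rfl⟩
  | succ => exact ⟨.succ, rfl, rfl⟩
  | left => exact ⟨.left, rfl, rfl⟩
  | right => exact ⟨.right, rfl, rfl⟩
  | pair _ _ iha ihb =>
    obtain ⟨a, ha, rfl⟩ := iha
    obtain ⟨b, hb, rfl⟩ := ihb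
    exact ⟨.pair a b, by simp [noRf, ha, hb], rfl⟩
  | comp _ _ iha ihb =>
    obtain ⟨a, ha, rfl⟩ := iha
    obtain ⟨b, hb, rfl⟩ := ihb
    exact ⟨.comp a b, by simp [noRf, ha, hb], rfl⟩
  | prec _ _ iha ihb =>
    obtain ⟨a, ha, rfl⟩ := iha
    obtain ⟨b, hb, rfl⟩ := ihb
    exact ⟨.prec a b, by simp [noRf, ha, hb], rfl⟩

end P_DU

open P_DU in
theorem prf_U : S_U := by
  classical
  refine ⟨fun e n => if noRf (Denumerable.ofNat Nat.Partrec.Code e) = true then
    pe (Denumerable.ofNat Nat.Partrec.Code e) n else 0, ?_, ?_⟩
  · have h1 : Computable fun q : ℕ × ℕ => noRf (Denumerable.ofNat Nat.Partrec.Code q.1) :=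
      noRf_comp.comp ((Computable.ofNat Nat.Partrec.Code).comp Computable.fst)
    have h2 : Partrec fun q : ℕ × ℕ => (Denumerable.ofNat Nat.Partrec.Code q.1).eval q.2 :=
      Nat.Partrec.Code.eval_part.comp
        ((Computable.ofNat Nat.Partrec.Code).comp Computable.fst) Computable.snd
    have h3 : Partrec fun _ : ℕ × ℕ => (Part.some 0 : Part ℕ) := Computable.const 0
    have h4 := Partrec.cond h1 h2 h3
    refine h4.of_eq ?_
    rintro ⟨e, n⟩
    cases hc : noRf (Denumerable.ofNat Nat.Partrec.Code e) with
    | true => simp [hc, eval_pe _ hc]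
    | false => simp [hc]
  · intro f hf
    obtain ⟨c, hc, rfl⟩ := exists_code hf
    refine ⟨Encodable.encode c, fun n => ?_⟩
    simp [hc]

end Pool.Agent.N636.SF
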