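import Pool.Agent.N636.SF.Std

/-!
# Partial recursive functions have `Σ_1` graphs over the standard model
-/

set_option autoImplicit false

namespace Pool.Agent.N636.SF

namespace P_E

attribute [local instance] stdA

/-- The value of a term in the standard structure. -/
def TV (t : Tm) (v : ℕ → ℕ) : ℕ := t.val v

@[simp] lemma TV_var (i : ℕ) (v : ℕ → ℕ) : TV (.var i) v = v i := rfl
@[simp] lemma TV_zero (v : ℕ → ℕ) : TV .zero v = 0 := rfl
@[simp] lemma TV_succ (t : Tm) (v : ℕ → ℕ) : TV (.succ t) v = TV t v + 1 := rfl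
@[simp] lemma TV_add (s t : Tm) (v : ℕ → ℕ) : TV (.add s t) v = TV s v + TV t v := rfl
@[simp] lemma TV_mul (s t : Tm) (v : ℕ → ℕ) : TV (.mul s t) v = TV s v * TV t v := rfl
lemma TV_shift (t : Tm) (a : ℕ) (v : ℕ → ℕ) : TV t.shift (cons a v) = TV t v := Tm.val_shift t a v

/-! ### Substitution in bounded formulas -/

lemma shift_subst (t : Tm) (τ : ℕ → Tm) : t.shift.subst (upS τ) = (t.subst τ).shift := by
  induction t with
  | var i => rfl
  | zero => rfl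
  | succ t ih => simp only [Tm.shift, Tm.subst, ih]
  | add s t ihs iht => simp only [Tm.shift, Tm.subst, ihs, iht]
  | mul s t ihs iht => simp only [Tm.shift, Tm.subst, ihs, iht]

lemma delta0_subst {δ : Fm} (h : Delta0 δ) : ∀ τ : ℕ → Tm, Delta0 (δ.subst τ) := by
  induction h with
  | eq s t => intro τ; exact .eq _ _
  | lt s t => intro τ; exact .lt _ _
  | neg _ ih => intro τ; exact .neg (ih τ)
  | and _ _ ih1 ih2 => intro τ; exact .and (ih1 τ) (ih2 τ)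
  | ball t _ ih =>
    intro τ
    have := Delta0.ball (t.subst τ) (ih (upS τ))
    rw [← shift_subst] at this
    exact this

/-! ### Bounded predicates -/

/-- Predicates given by bounded formulas. -/
def D0 (A : (ℕ → ℕ) → Prop) : Prop := ∃ δ, Delta0 δ ∧ ∀ v, A v ↔ SatN δ v

/-- `Σ_1` predicates. -/
def S1 (A : (ℕ → ℕ) → Prop) : Prop := ∃ δ, Delta0 δ ∧ ∀ v, A v ↔ ∃ w, SatN δ (cons w v)

lemma D0.congr {A B : (ℕ → ℕ) → Prop} (hA : D0 A) (h : ∀ v, B v ↔ A v) : D0 B := by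
  obtain ⟨δ, h1, h2⟩ := hA
  exact ⟨δ, h1, fun v => (h v).trans (h2 v)⟩

lemma S1.congr {A B : (ℕ → ℕ) → Prop} (hA : S1 A) (h : ∀ v, B v ↔ A v) : S1 B := by
  obtain ⟨δ, h1, h2⟩ := hA
  exact ⟨δ, h1, fun v => (h v).trans (h2 v)⟩

lemma D0.eq (s t : Tm) : D0 (fun v => TV s v = TV t v) := ⟨.eq s t, .eq _ _, fun _ => Iff.rfl⟩

lemma D0.lt (s t : Tm) : D0 (fun v => TV s v < TV t v) :=
  ⟨.lt s t, .lt _ _, fun _ => (Lt_std _ _).symm⟩

lemma D0.not {A : (ℕ → ℕ) → Prop} (hA : D0 A) : D0 (fun v => ¬ A v) := by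
  obtain ⟨δ, h1, h2⟩ := hA
  exact ⟨.neg δ, .neg h1, fun v => not_congr (h2 v)⟩

lemma D0.and {A B : (ℕ → ℕ) → Prop} (hA : D0 A) (hB : D0 B) : D0 (fun v => A v ∧ B v) := by
  obtain ⟨δ, h1, h2⟩ := hA
  obtain ⟨ε, g1, g2⟩ := hB
  exact ⟨.and δ ε, .and h1 g1, fun v => and_congr (h2 v) (g2 v)⟩

lemma D0.or {A B : (ℕ → ℕ) → Prop} (hA : D0 A) (hB : D0 B) : D0 (fun v => A v ∨ B v) :=
  (hA.not.and hB.not).not.congr fun v => by tauto

lemma D0.ball (t : Tm) {B : (ℕ → ℕ) → Prop} (hB : D0 B) :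
    D0 (fun v => ∀ a < TV t v, B (cons a v)) := by
  obtain ⟨δ, h1, h2⟩ := hB
  refine ⟨_, .ball t h1, fun v => ?_⟩
  show _ ↔ ∀ a, Sat _ (cons a v)
  refine forall_congr' fun a => ?_
  rw [Sat_imp, h2]
  show _ ↔ (Lt a (TV t.shift (cons a v)) → _)
  rw [TV_shift, Lt_std]
  rfl

lemma D0.bex (t : Tm) {B : (ℕ → ℕ) → Prop} (hB : D0 B) :
    D0 (fun v => ∃ a, a < TV t v ∧ B (cons a v)) :=
  (D0.ball t hB.not).not.congr fun v => by push Not; rfl

lemma D0.sub {A : (ℕ → ℕ) → Prop} (hA : D0 A) (τ : ℕ → Tm) :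
    D0 (fun v => A fun i => TV (τ i) v) := by
  obtain ⟨δ, h1, h2⟩ := hA
  exact ⟨δ.subst τ, delta0_subst h1 τ, fun v => (h2 _).trans (Sat_subst δ τ v).symm⟩

lemma D0.tail {A : (ℕ → ℕ) → Prop} (hA : D0 A) : D0 (fun v => A fun i => v (i + 1)) :=
  hA.sub fun i => .var (i + 1)

/-! ### `Σ_1` predicates -/

lemma S1.mk {A C : (ℕ → ℕ) → Prop} (hC : D0 C) (h : ∀ v, A v ↔ ∃ w, C (cons w v)) : S1 A := by
  obtain ⟨δ, h1, h2⟩ := hC
  exact ⟨δ, h1, fun v => (h v).trans (exists_congr fun w => h2 _)⟩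

lemma S1.sub {A : (ℕ → ℕ) → Prop} (hA : S1 A) (τ : ℕ → Tm) :
    S1 (fun v => A fun i => TV (τ i) v) := by
  obtain ⟨δ, h1, h2⟩ := hA
  refine ⟨δ.subst (upS τ), delta0_subst h1 _, fun v => (h2 _).trans (exists_congr fun w => ?_)⟩
  have := Sat_subst δ (upS τ) (cons w v)
  rw [val_upS] at this
  exact this.symm

lemma S1.of {A : (ℕ → ℕ) → Prop} (hA : D0 A) : S1 A :=
  S1.mk hA.tail fun v => ⟨fun h => ⟨0, h⟩, fun ⟨_, h⟩ => h⟩

/-- the substitution which deletes the variable `2` -/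
def del2 : ℕ → Tm
  | 0 => .var 0
  | 1 => .var 1
  | i + 2 => .var (i + 3)

/-- the substitution which deletes the variable `1` -/
def del1 : ℕ → Tm
  | 0 => .var 0
  | i + 1 => .var (i + 2)

lemma del2_eq (a b : ℕ) (u : ℕ → ℕ) :
    (fun i => TV (del2 i) (cons a (cons b u))) = cons a (cons b fun i => u (i + 1)) := by
  funext i
  match i with
  | 0 => rfl
  | 1 => rfl
  | i + 2 => rfl

lemma del1_eq (a : ℕ) (u : ℕ → ℕ) :
    (fun i => TV (del1 i) (cons a u)) = cons a fun i => u (i + 1) := by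
  funext i
  match i with
  | 0 => rfl
  | i + 1 => rfl

lemma S1.ex {A : (ℕ → ℕ) → Prop} (hA : S1 A) : S1 (fun v => ∃ x, A (cons x v)) := by
  obtain ⟨δ, h1, h2⟩ := hA
  have hδ : D0 (SatN δ) := ⟨δ, h1, fun _ => Iff.rfl⟩
  refine S1.mk (D0.bex (.succ (.var 0)) (D0.bex (.succ (.var 1)) (hδ.sub del2))) fun v => ?_
  constructor
  · rintro ⟨x, hx⟩
    obtain ⟨w, hw⟩ := (h2 _).1 hx
    refine ⟨max x w, x, ?_, w, ?_, ?_⟩
    · show x < max x w + 1
      omega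
    · show w < max x w + 1
      omega
    · rw [del2_eq]
      exact hw
  · rintro ⟨m, x, _, w, _, h⟩
    rw [del2_eq] at h
    exact ⟨x, (h2 _).2 ⟨w, h⟩⟩

lemma S1.and {A B : (ℕ → ℕ) → Prop} (hA : S1 A) (hB : S1 B) : S1 (fun v => A v ∧ B v) := by
  obtain ⟨δ, h1, h2⟩ := hA
  obtain ⟨ε, g1, g2⟩ := hB
  have hδ : D0 (SatN δ) := ⟨δ, h1, fun _ => Iff.rfl⟩
  have hε : D0 (SatN ε) := ⟨ε, g1, fun _ => Iff.rfl⟩
  refine S1.mk ((D0.bex (.succ (.var 0)) (hδ.sub del1)).and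
    (D0.bex (.succ (.var 0)) (hε.sub del1))) fun v => ?_
  constructor
  · rintro ⟨hx, hy⟩
    obtain ⟨w, hw⟩ := (h2 _).1 hx
    obtain ⟨z, hz⟩ := (g2 _).1 hy
    refine ⟨max w z, ⟨w, ?_, ?_⟩, z, ?_, ?_⟩
    · show w < max w z + 1
      omega
    · rw [del1_eq]; exact hw
    · show z < max w z + 1
      omega
    · rw [del1_eq]; exact hz
  · rintro ⟨m, ⟨w, _, hw⟩, z, _, hz⟩
    rw [del1_eq] at hw hz
    exact ⟨(h2 _).2 ⟨w, hw⟩, (g2 _).2 ⟨z, hz⟩⟩

lemma coll (T : ℕ) (B : ℕ → ℕ → Prop) (h : ∀ x < T, ∃ w, B x w) :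
    ∃ m, ∀ x < T, ∃ w, w < m + 1 ∧ B x w := by
  induction T with
  | zero => exact ⟨0, fun x hx => absurd hx (Nat.not_lt_zero x)⟩
  | succ T ih =>
    obtain ⟨m, hm⟩ := ih fun x hx => h x (by omega)
    obtain ⟨w, hw⟩ := h T (by omega)
    refine ⟨max m w, fun x hx => ?_⟩
    rcases Nat.lt_succ_iff_lt_or_eq.mp hx with hx | rfl
    · obtain ⟨z, hz, hz'⟩ := hm x hx
      exact ⟨z, by omega, hz'⟩
    · exact ⟨w, by omega, hw⟩

lemma S1.ball (t : Tm) {A : (ℕ → ℕ) → Prop} (hA : S1 A) :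
    S1 (fun v => ∀ x < TV t v, A (cons x v)) := by
  obtain ⟨δ, h1, h2⟩ := hA
  have hδ : D0 (SatN δ) := ⟨δ, h1, fun _ => Iff.rfl⟩
  refine S1.mk (D0.ball t.shift (D0.bex (.succ (.var 1)) (hδ.sub del2))) fun v => ?_
  constructor
  · intro h
    obtain ⟨m, hm⟩ := coll (TV t v) (fun x w => SatN δ (cons w (cons x v)))
      (fun x hx => (h2 _).1 (h x hx))
    refine ⟨m, fun x hx => ?_⟩
    rw [TV_shift] at hx
    obtain ⟨w, hw, hw'⟩ := hm x hx
    refine ⟨w, hw, ?_⟩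
    rw [del2_eq]
    exact hw'
  · rintro ⟨m, h⟩ x hx
    obtain ⟨w, _, hw⟩ := h x (by rw [TV_shift]; exact hx)
    rw [del2_eq] at hw
    exact (h2 _).2 ⟨w, hw⟩

/-! ### Particular predicates -/

lemma D0.pairEq (a b c : Tm) : D0 (fun v => Nat.pair (TV a v) (TV b v) = TV c v) := by
  refine (((D0.lt a b).and (D0.eq (.add (.mul b b) a) c)).or
    ((D0.lt a b).not.and (D0.eq (.add (.add (.mul a a) a) b) c))).congr fun v => ?_
  simp only [TV_add, TV_mul, Nat.pair]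
  by_cases h : TV a v < TV b v
  · simp [h]
  · simp [h]

lemma mod_iff (u m z : ℕ) (hm : 0 < m) : u % m = z ↔ z < m ∧ ∃ q, q < u + 1 ∧ q * m + z = u := by
  constructor
  · rintro rfl
    exact ⟨Nat.mod_lt _ hm, u / m, Nat.lt_succ_of_le (Nat.div_le_self _ _), Nat.div_add_mod' u m⟩
  · rintro ⟨h, q, _, rfl⟩
    rw [Nat.mul_add_mod', Nat.mod_eq_of_lt h]

lemma D0.beta (u w i z : Tm) :
    D0 (fun v => TV u v % ((TV i v + 1) * TV w v + 1) = TV z v) := by
  have h := (D0.lt z (.succ (.mul (.succ i) w))).and (D0.bex (.succ u)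
    (D0.eq (.add (.mul (.var 0) (Tm.shift (.succ (.mul (.succ i) w)))) z.shift) u.shift))
  refine h.congr fun v => ?_
  rw [mod_iff _ _ _ (Nat.succ_pos _)]
  simp only [TV_succ, TV_mul, TV_add, TV_shift, TV_var, cons]

lemma S1.rel {f : ℕ →. ℕ} (hf : S1 (fun v => v 1 ∈ f (v 0))) (s t : Tm) :
    S1 (fun v => TV t v ∈ f (TV s v)) :=
  hf.sub fun i => match i with
    | 0 => s
    | 1 => t
    | _ + 2 => .zero

lemma rec_iff (f g : ℕ →. ℕ) (a n y : ℕ) :
    y ∈ (Nat.rec (f a) (fun y IH => do let i ← IH; g (Nat.pair a (Nat.pair y i))) n : Part ℕ) ↔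
    ∃ s : ℕ → ℕ, s 0 ∈ f a ∧ (∀ i < n, s (i + 1) ∈ g (Nat.pair a (Nat.pair i (s i)))) ∧ s n = y := by
  induction n generalizing y with
  | zero =>
    constructor
    · intro h
      exact ⟨fun _ => y, h, fun i hi => absurd hi (Nat.not_lt_zero i), rfl⟩
    · rintro ⟨s, h, _, rfl⟩
      exact h
  | succ n ih =>
    constructor
    · intro h
      obtain ⟨z, hz, hy⟩ := Part.mem_bind_iff.1 h
      obtain ⟨s, h0, hs, rfl⟩ := (ih z).1 hz
      refine ⟨fun i => if i ≤ n then s i else y, ?_, ?_, ?_⟩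
      · simpa using h0
      · intro i hi
        rcases Nat.lt_succ_iff_lt_or_eq.mp hi with hi | rfl
        · simpa [hi.le, Nat.succ_le_of_lt hi] using hs i hi
        · simpa using hy
      · simp
    · rintro ⟨s, h0, hs, rfl⟩
      exact Part.mem_bind_iff.2 ⟨s n, (ih _).2 ⟨s, h0, fun i hi => hs i (by omega), rfl⟩,
        hs n (by omega)⟩

lemma code (n : ℕ) (s : ℕ → ℕ) : ∃ u w : ℕ, ∀ i ≤ n, u % ((i + 1) * w + 1) = s i := by
  refine ⟨(Nat.unbeta ((List.range (n + 1)).map s)).unpair.1,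
    (Nat.unbeta ((List.range (n + 1)).map s)).unpair.2, fun i hi => ?_⟩
  have := Nat.beta_unbeta_coe ((List.range (n + 1)).map s) ⟨i, by simp; omega⟩
  unfold Nat.beta at this
  simpa using this

lemma rec_code (f g : ℕ →. ℕ) (a n y : ℕ) :
    y ∈ (Nat.rec (f a) (fun y IH => do let i ← IH; g (Nat.pair a (Nat.pair y i))) n : Part ℕ) ↔
    ∃ u w : ℕ, (∃ z, u % ((0 + 1) * w + 1) = z ∧ z ∈ f a) ∧
      (∀ i < n, ∃ z z' t t', u % ((i + 1) * w + 1) = z ∧ u % ((i + 1 + 1) * w + 1) = z' ∧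
        Nat.pair i z = t ∧ Nat.pair a t = t' ∧ z' ∈ g t') ∧ u % ((n + 1) * w + 1) = y := by
  rw [rec_iff]
  constructor
  · rintro ⟨s, h0, hs, rfl⟩
    obtain ⟨u, w, h⟩ := code n s
    refine ⟨u, w, ⟨_, rfl, ?_⟩, fun i hi => ⟨_, _, _, _, rfl, rfl, rfl, rfl, ?_⟩, h n le_rfl⟩
    · rw [h 0 (Nat.zero_le n)]
      exact h0
    · rw [h i hi.le, h (i + 1) hi]
      exact hs i hi
  · rintro ⟨u, w, ⟨z, rfl, h0⟩, hs, rfl⟩
    refine ⟨fun i => u % ((i + 1) * w + 1), h0, fun i hi => ?_, rfl⟩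
    obtain ⟨_, _, _, _, rfl, rfl, rfl, rfl, h⟩ := hs i hi
    exact h

/-- The graph of a partial recursive function is `Σ_1`. -/
theorem graph {f : ℕ →. ℕ} (hf : Nat.Partrec f) : S1 (fun v => v 1 ∈ f (v 0)) := by
  induction hf with
  | zero =>
    refine (S1.of (D0.eq (.var 1) .zero)).congr fun v => ?_
    exact Part.mem_some_iff
  | succ =>
    refine (S1.of (D0.eq (.var 1) (.succ (.var 0)))).congr fun v => ?_
    exact Part.mem_some_iff
  | left =>
    refine (S1.of (D0.pairEq (.var 2) (.var 0) (.var 1))).ex.congr fun v => ?_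
    constructor
    · intro h
      have h' : v 1 = (v 0).unpair.1 := Part.mem_some_iff.1 h
      refine ⟨(v 0).unpair.2, ?_⟩
      show Nat.pair (v 1) (v 0).unpair.2 = v 0
      rw [h', Nat.pair_unpair]
    · rintro ⟨b, hb⟩
      have hb' : Nat.pair (v 1) b = v 0 := hb
      refine Part.mem_some_iff.2 ?_
      rw [← hb']
      simp
  | right =>
    refine (S1.of (D0.pairEq (.var 0) (.var 2) (.var 1))).ex.congr fun v => ?_
    constructor
    · intro h
      have h' : v 1 = (v 0).unpair.2 := Part.mem_some_iff.1 h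
      refine ⟨(v 0).unpair.1, ?_⟩
      show Nat.pair (v 0).unpair.1 (v 1) = v 0
      rw [h', Nat.pair_unpair]
    · rintro ⟨b, hb⟩
      have hb' : Nat.pair b (v 1) = v 0 := hb
      refine Part.mem_some_iff.2 ?_
      rw [← hb']
      simp
  | @pair f g _ _ ihf ihg =>
    refine ((ihf.rel (.var 2) (.var 1)).and ((ihg.rel (.var 2) (.var 0)).and
      (S1.of (D0.pairEq (.var 1) (.var 0) (.var 3))))).ex.ex.congr fun v => ?_
    show v 1 ∈ (Nat.pair <$> f (v 0) <*> g (v 0) : Part ℕ) ↔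
      ∃ a b, a ∈ f (v 0) ∧ b ∈ g (v 0) ∧ Nat.pair a b = v 1
    simp only [Seq.seq]
    simp
  | @comp f g _ _ ihf ihg =>
    refine ((ihg.rel (.var 1) (.var 0)).and (ihf.rel (.var 0) (.var 2))).ex.congr fun v => ?_
    exact Part.mem_bind_iff
  | @prec f g _ _ ihf ihg =>
    have c1 := S1.of (D0.pairEq (.var 3) (.var 2) (.var 4))
    have c2 := ((S1.of (D0.beta (.var 2) (.var 1) .zero (.var 0))).and
      (ihf.rel (.var 4) (.var 0))).ex
    have c3 := S1.ball (.var 2) ((S1.of (D0.beta (.var 6) (.var 5) (.var 4) (.var 3))).and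
      ((S1.of (D0.beta (.var 6) (.var 5) (.succ (.var 4)) (.var 2))).and
      ((S1.of (D0.pairEq (.var 4) (.var 3) (.var 1))).and
      ((S1.of (D0.pairEq (.var 8) (.var 1) (.var 0))).and
      (ihg.rel (.var 0) (.var 2)))))).ex.ex.ex.ex
    have c4 := S1.of (D0.beta (.var 1) (.var 0) (.var 2) (.var 5))
    refine (c1.and (c2.and (c3.and c4))).ex.ex.ex.ex.congr fun v => ?_
    show v 1 ∈ (Nat.rec (f (v 0).unpair.1) (fun y IH => do
      let i ← IH; g (Nat.pair (v 0).unpair.1 (Nat.pair y i))) (v 0).unpair.2 : Part ℕ) ↔ _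
    rw [rec_code]
    constructor
    · rintro ⟨u, w, h1, h2, h3⟩
      exact ⟨(v 0).unpair.1, (v 0).unpair.2, u, w, Nat.pair_unpair _, h1, h2, h3⟩
    · rintro ⟨a, n, u, w, h0, h1, h2, h3⟩
      have h0' : Nat.pair a n = v 0 := h0
      rw [← h0', Nat.unpair_pair]
      exact ⟨u, w, h1, h2, h3⟩
  | @rfind f _ ihf =>
    have c1 := ((S1.of (D0.pairEq (.var 1) (.var 2) (.var 0))).and (ihf.rel (.var 0) .zero)).ex
    have c2 := S1.ball (.var 1) ((S1.of (D0.pairEq (.var 3) (.var 2) (.var 1))).and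
      ((ihf.rel (.var 1) (.var 0)).and (S1.of (D0.eq (.var 0) .zero).not))).ex.ex
    refine (c1.and c2).congr fun v => ?_
    show v 1 ∈ (Nat.rfind fun n => (fun m => decide (m = 0)) <$> f (Nat.pair (v 0) n)) ↔
      (∃ t, Nat.pair (v 0) (v 1) = t ∧ 0 ∈ f t) ∧
      ∀ m < v 1, ∃ t z, Nat.pair (v 0) m = t ∧ z ∈ f t ∧ ¬ z = 0
    rw [Nat.mem_rfind]
    refine and_congr ?_ ?_
    · simp
    · constructor
      · intro h m hm
        have := h hm
        simp at this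
        obtain ⟨z, hz, hz'⟩ := this
        exact ⟨_, z, rfl, hz, hz'⟩
      · intro h m hm
        obtain ⟨_, z, rfl, hz, hz'⟩ := h m hm
        simp
        exact ⟨z, hz, hz'⟩

/-- the substitution which moves the witness to the end -/
def rot : ℕ → Tm
  | 0 => .var 2
  | 1 => .var 0
  | 2 => .var 1
  | _ + 3 => .zero

end P_E

open P_E in
theorem prf_E : S_E := by
  intro f hf
  obtain ⟨δ, h1, h2⟩ := graph hf
  obtain ⟨k, hk⟩ := δ.exists_bd
  refine ⟨δ.subst rot, delta0_subst h1 _, hk.subst fun i _ => ?_, fun x y => ?_⟩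
  · match i with
    | 0 => exact (by norm_num : 2 < 3)
    | 1 => exact (by norm_num : 0 < 3)
    | 2 => exact (by norm_num : 1 < 3)
    | _ + 3 => trivial
  · have := h2 (cons x (cons y fun _ => 0))
    refine Iff.trans this (exists_congr fun w => ?_)
    have h3 := @Sat_subst ℕ stdA δ rot (v3 x y w)
    refine Iff.trans ?_ h3.symm
    have h4 : (fun i => @Tm.val ℕ stdA (v3 x y w) (rot i)) =
        cons w (cons x (cons y fun _ => 0)) := by
      funext i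
      match i with
      | 0 => rfl
      | 1 => rfl
      | 2 => rfl
      | _ + 3 => rfl
    rw [h4]
    rfl

end Pool.Agent.N636.SF
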