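import Pool.Agent.N636.SF.Std

/-!
# Assembly of part I
-/

set_option autoImplicit false

namespace Pool.Agent.N636.SF

namespace P_FLEX

/-- `x` goes to the variable `1`, the bound variable is `0`. -/
def τ1 : ℕ → Tm
  | 0 => .var 1
  | _ + 1 => .var 0

/-- the successor of `x` -/
def τ2 : ℕ → Tm
  | 0 => .succ (.var 1)
  | _ + 1 => .var 0

/-- the defining formula -/
def DF (δ : Fm) : Fm := .and (δ.subst τ1).ex (.neg (δ.subst τ2).ex)

theorem DF_bd {δ : Fm} (h : δ.Bd 2) : (DF δ).Bd 1 := by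
  have h1 : (δ.subst τ1).Bd 2 := by
    refine h.subst fun i hi => ?_
    cases i with
    | zero => exact (by decide : 1 < 2)
    | succ i => exact (by decide : 0 < 2)
  have h2 : (δ.subst τ2).Bd 2 := by
    refine h.subst fun i hi => ?_
    cases i with
    | zero => exact (by decide : 1 < 2)
    | succ i => exact (by decide : 0 < 2)
  exact ⟨h1, h2⟩

variable {M : Type} [Arith M]

theorem Sat_DF {δ : Fm} (h : δ.Bd 2) (x : M) : Sat (DF δ) (fun _ => x) ↔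
    (∃ w : M, Sat δ (cons x (cons w fun _ => (Arith.zero : M)))) ∧
    ¬ ∃ w : M, Sat δ (cons (Arith.succ x) (cons w fun _ => (Arith.zero : M))) := by
  have e1 : ∀ w : M, Sat (δ.subst τ1) (cons w fun _ => x) ↔
      Sat δ (cons x (cons w fun _ => (Arith.zero : M))) := by
    intro w
    rw [Sat_subst]
    refine Sat_congr h fun i hi => ?_
    rcases i with _ | _ | i
    · rfl
    · rfl
    · omega
  have e2 : ∀ w : M, Sat (δ.subst τ2) (cons w fun _ => x) ↔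
      Sat δ (cons (Arith.succ x) (cons w fun _ => (Arith.zero : M))) := by
    intro w
    rw [Sat_subst]
    refine Sat_congr h fun i hi => ?_
    rcases i with _ | _ | i
    · rfl
    · rfl
    · omega
  unfold DF
  show (Sat (δ.subst τ1).ex (fun _ => x) ∧ ¬ Sat (δ.subst τ2).ex (fun _ => x)) ↔ _
  rw [Sat_ex, Sat_ex]
  simp only [e1, e2]

theorem uq_of_cut (halg : S_alg) (hM : IsPA M) {δ : Fm} (h : δ.Bd 2) {dd : M}
    (hdd : ∀ x : M, (∃ w : M, Sat δ (cons x (cons w fun _ => (Arith.zero : M)))) ↔ ¬ Lt dd x) :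
    Uq (DF δ) dd := by
  obtain ⟨_, _, _, _, h0, hs, ha, hm, hlt, hd, hn, hb⟩ := halg M hM
  intro x
  rw [Sat_DF h, hdd, hdd, not_not, hlt, hlt, hs, not_lt]
  constructor
  · rintro ⟨h1, h2⟩
    obtain ⟨z, rfl⟩ := exists_add_of_le h1
    have h3 : z < 1 := lt_of_add_lt_add_left h2
    rw [hd z h3, add_zero]
  · rintro rfl
    exact ⟨le_rfl, lt_add_one _⟩

/-- the uniqueness of the element -/
def uniq (D : Fm) : Fm :=
  .all (.and (.imp D (.eq (.var 0) (.var 1))) (.imp (.eq (.var 0) (.var 1)) D))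

theorem Sat_uniq {D : Fm} (hD : D.Bd 1) (v : ℕ → M) : Sat (uniq D) v ↔ Uq D (v 0) := by
  unfold uniq Uq
  show (∀ a : M, (Sat (D.imp (.eq (.var 0) (.var 1))) (cons a v) ∧
    Sat (Fm.imp (.eq (.var 0) (.var 1)) D) (cons a v))) ↔ _
  refine forall_congr' fun a => ?_
  rw [Sat_imp, Sat_imp]
  have e1 : Sat D (cons a v) ↔ Sat D (fun _ => a) := Sat_congr hD fun i hi => by
    have : i = 0 := by omega
    subst this
    rfl
  have e2 : Sat (.eq (.var 0) (.var 1)) (cons a v) ↔ a = v 0 := Iff.rfl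
  rw [e1, e2]
  constructor
  · rintro ⟨h1, h2⟩
    exact ⟨h1, h2⟩
  · intro h
    exact ⟨h.1, h.2⟩

/-- `var 0` and the numeral of `l` -/
def τb (l : ℕ) : ℕ → Tm
  | 0 => .var 0
  | _ + 1 => numT l

theorem bits (hc : Calc) (hbit : S_cxBit) (l : ℕ) : ∃ β : Fm, Delta0 β ∧ β.Bd 1 ∧
    ∀ (M : Type) [Arith M], IsPA M → ∀ v : ℕ → M, Sat β v ↔ Bit (v 0) (num M l) := by
  have h1 := hc.subst true 0 2 1 _ (τb l) (by
    intro i hi
    cases i with
    | zero => exact (by decide : 0 < 1)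
    | succ i => exact numT_bd l 1) (hbit true)
  obtain ⟨φ, hφ, hb, hs⟩ := h1
  refine ⟨φ, ?_, hb, ?_⟩
  · cases hφ with
    | delta h => exact h
  · intro M _ hM v
    rw [hs M hM v]
    simp only [τb, val_numT]
    rfl

end P_FLEX

open P_FLEX in
theorem prf_flexD (halg : S_alg) (hcpt : S_cpt) (hc : Calc) (hbit : S_cxBit) (hU : S_U)
    (hW : S_W) (hcut : S_cut) (hpat : S_pat) : S_flexD := by
  obtain ⟨U, hU1, hU2⟩ := hU
  obtain ⟨W, δ, hδ, hδb, hWm, hδW, hgood⟩ := hW U hU1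
  refine ⟨DF δ, DF_bd hδb, fun r => ?_⟩
  choose β hβ0 hβb hβs using fun l => bits hc hbit l
  obtain ⟨Θ, hΘ⟩ : ∃ Θ : Set Fm, ∀ φ, φ ∈ Θ ↔ φ = uniq (DF δ) ∨ ∃ l, (l ∈ r ∧ φ = β l) ∨
      (l ∉ r ∧ φ = .neg (β l)) := ⟨{φ | _}, fun φ => Iff.rfl⟩
  have h1 := hcpt Θ (by
    intro F hF
    have h2 : ∀ φ : Fm, ∃ l, φ ∈ F → (φ = uniq (DF δ) ∨ (l ∈ r ∧ φ = β l) ∨
        (l ∉ r ∧ φ = .neg (β l))) := by
      intro φ
      by_cases hφ : φ ∈ F
      · rcases (hΘ φ).1 (hF hφ) with h | ⟨l, h⟩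
        · exact ⟨0, fun _ => Or.inl h⟩
        · exact ⟨l, fun _ => Or.inr h⟩
      · exact ⟨0, fun h => absurd h hφ⟩
    choose lf hlf using h2
    obtain ⟨L, hL⟩ : ∃ L, ∀ φ ∈ F, lf φ < L :=
      ⟨F.sup lf + 1, fun φ hφ => Nat.lt_succ_of_le (Finset.le_sup hφ)⟩
    choose d hdN hdb using fun N => hpat L r N
    obtain ⟨I, aI, hI, dd, hdd, hθ⟩ := hcut U hU2 W δ hδ hδb hWm hδW hgood d hdN
    have key : ∀ l < L, ∀ N, (SatN (β l) (fun _ => d N) ↔ l ∈ r) := by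
      intro l hl N
      have h3 := @hβs l ℕ stdA isPA_std (fun _ => d N)
      rw [num_std] at h3
      exact h3.trans (hdb N l hl)
    refine ⟨I, aI, hI, fun _ => dd, fun φ hφ => ?_⟩
    have hl := hL φ hφ
    rcases hlf φ hφ with h | ⟨h3, h4⟩ | ⟨h3, h4⟩
    · rw [h, Sat_uniq (DF_bd hδb)]
      exact uq_of_cut halg hI hδb hdd
    · rw [h4]
      exact hθ _ (hβ0 _) (hβb _) fun N => (key _ hl N).2 h3
    · rw [h4]
      exact hθ _ (Delta0.neg (hβ0 _)) (hβb _) fun N h => h3 ((key _ hl N).1 h))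
  obtain ⟨M, aM, hM, v, hv⟩ := h1
  refine ⟨M, aM, hM, v 0, ?_, fun l => ?_⟩
  · exact (Sat_uniq (DF_bd hδb) v).1 (hv _ ((hΘ _).2 (Or.inl rfl)))
  · rw [← hβs l M hM v]
    constructor
    · intro h
      by_contra hl
      exact hv _ ((hΘ _).2 (Or.inr ⟨l, Or.inr ⟨hl, rfl⟩⟩)) h
    · intro h
      exact hv _ ((hΘ _).2 (Or.inr ⟨l, Or.inl ⟨h, rfl⟩⟩))

end Pool.Agent.N636.SF
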