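import Pool.Agent.N636.SF.Stm

/-!
# Every formula is equivalent in PA to a formula in some class `Gam n` (helper368)
-/

set_option autoImplicit false

namespace Pool.Agent.N636.SF
namespace P_GAM

/-- `R` is given in models of PA by a member of `Gam n` with free variables below `k`. -/
def G (n k : ℕ) (R : URel) : Prop :=
  ∃ ψ, Gam n ψ ∧ ψ.Bd k ∧ ∀ (M : Type) [Arith M], IsPA M → ∀ v : ℕ → M, Sat ψ v ↔ R M v

theorem G.congr {n k : ℕ} {R R' : URel} (h : G n k R)
    (hR : ∀ (M : Type) [Arith M], IsPA M → ∀ v : ℕ → M, R M v ↔ R' M v) : G n k R' := by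
  obtain ⟨ψ, h1, h2, h3⟩ := h
  exact ⟨ψ, h1, h2, fun M _ hM v => (h3 M hM v).trans (hR M hM v)⟩

theorem G.up {n k : ℕ} {R : URel} (h : G n k R) : G (n + 1) k R := by
  obtain ⟨ψ, h1, h2, h3⟩ := h
  exact ⟨ψ, h1.up, h2, h3⟩

theorem G.mono {n m k : ℕ} {R : URel} (h : G n k R) (hnm : n ≤ m) : G m k R := by
  induction m, hnm using Nat.le_induction with
  | base => exact h
  | succ m _ ih => exact ih.up

theorem G.not {n k : ℕ} {R : URel} (h : G n k R) : G (n + 1) k (fun M _ v => ¬ R M v) := by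
  obtain ⟨ψ, h1, h2, h3⟩ := h
  refine ⟨.neg ψ, h1.neg, h2, fun M _ hM v => ?_⟩
  simp only [Sat]
  rw [h3 M hM v]

theorem G.and {n k : ℕ} {R R' : URel} (h : G (n + 1) k R) (h' : G (n + 1) k R') :
    G (n + 1) k (fun M _ v => R M v ∧ R' M v) := by
  obtain ⟨ψ, h1, h2, h3⟩ := h
  obtain ⟨ψ', h1', h2', h3'⟩ := h'
  refine ⟨.and ψ ψ', h1.and h1', ⟨h2, h2'⟩, fun M _ hM v => ?_⟩
  simp only [Sat]
  rw [h3 M hM v, h3' M hM v]

theorem G.ex {n k : ℕ} {R : URel} (h : G (n + 1) (k + 1) R) :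
    G (n + 1) k (fun M _ v => ∃ a, R M (cons a v)) := by
  obtain ⟨ψ, h1, h2, h3⟩ := h
  refine ⟨ψ.ex, h1.ex, h2, fun M _ hM v => ?_⟩
  rw [Sat_ex]
  exact exists_congr fun a => h3 M hM (cons a v)

theorem gam_subst {n : ℕ} {φ : Fm} (h : Gam n φ) :
    ∀ τ : ℕ → Tm, (∀ i, ∃ j, τ i = .var j) → Gam n (φ.subst τ) := by
  induction h with
  | atom0 a b c e =>
    intro τ hτ
    obtain ⟨a', ha⟩ := hτ a
    obtain ⟨b', hb⟩ := hτ b
    obtain ⟨c', hc⟩ := hτ c
    obtain ⟨e', he⟩ := hτ e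
    simp only [Fm.subst, Tm.subst, ha, hb, hc, he]
    exact .atom0 a' b' c' e'
  | atom1 a =>
    intro τ hτ
    obtain ⟨a', ha⟩ := hτ a
    simp only [Fm.subst, Tm.subst, ha]
    exact .atom1 a'
  | up _ ih => exact fun τ hτ => (ih τ hτ).up
  | neg _ ih => exact fun τ hτ => (ih τ hτ).neg
  | and _ _ ih1 ih2 => exact fun τ hτ => (ih1 τ hτ).and (ih2 τ hτ)
  | ex _ ih =>
    intro τ hτ
    refine (ih (upS τ) fun i => ?_).ex
    cases i with
    | zero => exact ⟨0, rfl⟩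
    | succ i =>
      obtain ⟨j, hj⟩ := hτ i
      exact ⟨j + 1, by simp only [upS, hj, Tm.shift]⟩

theorem G.rename {n k l : ℕ} {R : URel} (h : G n k R) (σ : ℕ → ℕ) (hσ : ∀ i < k, σ i < l) :
    G n l (fun M _ v => R M fun i => v (σ i)) := by
  obtain ⟨ψ, h1, h2, h3⟩ := h
  refine ⟨ψ.subst fun i => .var (σ i), gam_subst h1 _ fun i => ⟨_, rfl⟩,
    h2.subst hσ, fun M _ hM v => ?_⟩
  rw [Sat_subst]
  exact h3 M hM _

theorem G.atom0 {k a b c e : ℕ} (ha : a < k) (hb : b < k) (hc : c < k) (he : e < k) :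
    G 0 k (fun _ _ v => Arith.add (Arith.mul (v a) (v b)) (v c) = v e) :=
  ⟨_, .atom0 a b c e, ⟨⟨⟨ha, hb⟩, hc⟩, he⟩, fun _ _ _ _ => Iff.rfl⟩

theorem G.atom1 {k a : ℕ} (ha : a < k) :
    G 0 k (fun _ _ v => v a = Arith.succ Arith.zero) :=
  ⟨_, .atom1 a, ⟨ha, trivial⟩, fun _ _ _ _ => Iff.rfl⟩

/-- The atoms with a variable for `0`. -/
theorem G.isZero (halg : S_alg) {k a : ℕ} (ha : a < k) :
    G 0 k (fun _ _ v => v a = Arith.zero) := by
  refine (G.atom0 ha ha ha ha).congr fun M _ hM v => ?_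
  obtain ⟨_, _, _, _, h0, hs, hadd, hmul, hlt, hd, hn, hb⟩ := halg M hM
  rw [hadd, hmul, h0, add_eq_right, mul_self_eq_zero]

/-- The graph of a term. -/
theorem graph (halg : S_alg) (t : Tm) {k : ℕ} (ht : t.Bd k) :
    G 1 (k + 1) (fun _ _ v => t.val (fun i => v (i + 1)) = v 0) := by
  have hr : ∀ s : Tm, G 1 (k + 1) (fun _ _ v => s.val (fun i => v (i + 1)) = v 0) →
      ∀ m : ℕ, G 1 (k + m + 1) (fun _ _ v => s.val (fun i => v (i + m + 1)) = v 0) := by
    intro s hs m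
    refine (hs.rename (l := k + m + 1) (fun i => if i = 0 then 0 else i + m) ?_).congr
      fun M _ hM v => ?_
    · intro i hi
      show (if i = 0 then 0 else i + m) < k + m + 1
      split_ifs <;> omega
    · have : (fun i => v (if i + 1 = 0 then 0 else i + 1 + m)) = fun i => v (i + m + 1) := by
        funext i
        rw [if_neg (by omega)]
        congr 1
        omega
      rw [this]
      exact Iff.rfl
  induction t with
  | var i =>
    have h1 : G 1 (k + 2) (fun _ _ v => v 0 = Arith.zero ∧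
        Arith.add (Arith.mul (v 0) (v 0)) (v (i + 2)) = v 1) :=
      (G.isZero halg (by omega)).up.and
        (G.atom0 (by omega) (by omega) (by have : i < k := ht; omega) (by omega)).up
    refine h1.ex.congr fun M _ hM v => ?_
    obtain ⟨_, _, _, _, h0, hs, hadd, hmul, hlt, hd, hn, hb⟩ := halg M hM
    simp only [cons, Tm.val, hadd, hmul, h0]
    constructor
    · rintro ⟨a, rfl, h⟩
      simpa using h
    · intro h
      exact ⟨0, rfl, by simpa using h⟩
  | zero =>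
    refine (G.isZero halg (k := k + 1) (a := 0) (by omega)).up.congr fun M _ hM v => ?_
    simp only [Tm.val]
    exact eq_comm
  | succ t ih =>
    have h1 : G 1 (k + 1 + 1 + 1) (fun _ _ v => v 0 = Arith.succ Arith.zero ∧
        Arith.add (Arith.mul (v 1) (v 0)) (v 0) = v 2) :=
      (G.atom1 (by omega)).up.and (G.atom0 (by omega) (by omega) (by omega) (by omega)).up
    refine ((hr t (ih ht) 1).and h1.ex).ex.congr fun M _ hM v => ?_
    obtain ⟨_, _, _, _, h0, hs, hadd, hmul, hlt, hd, hn, hb⟩ := halg M hM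
    simp only [cons, Tm.val, hadd, hmul, h0, hs]
    constructor
    · rintro ⟨y, h1, o, rfl, h2⟩
      rw [h1, ← h2]
      ring
    · intro h
      exact ⟨_, rfl, _, rfl, by rw [← h]; ring⟩
  | add s t ihs iht =>
    have h1 : G 1 (k + 1 + 1 + 1 + 1) (fun _ _ v => v 0 = Arith.succ Arith.zero ∧
        Arith.add (Arith.mul (v 2) (v 0)) (v 1) = v 3) :=
      (G.atom1 (by omega)).up.and (G.atom0 (by omega) (by omega) (by omega) (by omega)).up
    refine ((hr s (ihs ht.1) 1).and ((hr t (iht ht.2) 2).and h1.ex).ex).ex.congr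
      fun M _ hM v => ?_
    obtain ⟨_, _, _, _, h0, hs, hadd, hmul, hlt, hd, hn, hb⟩ := halg M hM
    simp only [cons, Tm.val, hadd, hmul, h0, hs]
    constructor
    · rintro ⟨y, h1, z, h1', o, rfl, h2⟩
      rw [h1, h1', ← h2]
      ring
    · intro h
      exact ⟨_, rfl, _, rfl, _, rfl, by rw [← h]; ring⟩
  | mul s t ihs iht =>
    have h1 : G 1 (k + 1 + 1 + 1 + 1) (fun _ _ v => v 0 = Arith.zero ∧
        Arith.add (Arith.mul (v 2) (v 1)) (v 0) = v 3) :=
      (G.isZero halg (by omega)).up.and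
        (G.atom0 (by omega) (by omega) (by omega) (by omega)).up
    refine ((hr s (ihs ht.1) 1).and ((hr t (iht ht.2) 2).and h1.ex).ex).ex.congr
      fun M _ hM v => ?_
    obtain ⟨_, _, _, _, h0, hs, hadd, hmul, hlt, hd, hn, hb⟩ := halg M hM
    simp only [cons, Tm.val, hadd, hmul, h0]
    constructor
    · rintro ⟨y, h1, z, h1', o, rfl, h2⟩
      rw [h1, h1', ← h2]
      ring
    · intro h
      exact ⟨_, rfl, _, rfl, _, rfl, by rw [← h]; ring⟩

theorem gEq (halg : S_alg) {s t : Tm} {k : ℕ} (hs : s.Bd k) (ht : t.Bd k) :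
    G 1 k (fun _ _ v => s.val v = t.val v) := by
  refine ((graph halg s hs).and (graph halg t ht)).ex.congr fun M _ hM v => ?_
  simp only [cons]
  constructor
  · rintro ⟨a, h1, h2⟩
    rw [h1, h2]
  · intro h
    exact ⟨_, rfl, h.symm⟩

theorem gNe (halg : S_alg) {s t : Tm} {k : ℕ} (hs : s.Bd k) (ht : t.Bd k) :
    G 1 k (fun _ _ v => ¬ s.val v = t.val v) := by
  have h0 : G 1 (k + 1 + 1 + 1 + 1) (fun _ _ v => v 0 = Arith.zero ∧
      ¬ Arith.add (Arith.mul (v 3) (v 1)) (v 0) = v 2) :=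
    (G.isZero halg (by omega)).up.and
      (G.atom0 (by omega) (by omega) (by omega) (by omega)).not
  have h1 : G 1 (k + 1 + 1 + 1) (fun _ _ v => v 0 = Arith.succ Arith.zero) :=
    (G.atom1 (by omega)).up
  have h2 : G 1 (k + 1 + 1) (fun _ _ v => t.val (fun i => v (i + 1 + 1)) = v 0) := by
    refine ((graph halg t ht).rename (l := k + 1 + 1) (fun i => if i = 0 then 0 else i + 1)
      ?_).congr fun M _ hM v => ?_
    · intro i hi
      show (if i = 0 then 0 else i + 1) < k + 1 + 1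
      split_ifs <;> omega
    · have : (fun i => v (if i + 1 = 0 then 0 else i + 1 + 1)) = fun i => v (i + 1 + 1) := by
        funext i
        rw [if_neg (by omega)]
      rw [this]
      exact Iff.rfl
  refine ((graph halg s hs).and (h2.and (h1.and h0.ex).ex).ex).ex.congr fun M _ hM v => ?_
  obtain ⟨_, _, _, _, h0, hs, hadd, hmul, hlt, hd, hn, hb⟩ := halg M hM
  simp only [cons, hadd, hmul, h0, hs]
  constructor
  · rintro ⟨x, h1, y, h2, o, rfl, z, rfl, h3⟩
    rw [h1, h2]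
    simpa using h3
  · intro h
    exact ⟨_, rfl, _, rfl, _, rfl, _, rfl, by simpa using h⟩

theorem gAll (halg : S_alg) (φ : Fm) : ∀ k : ℕ, φ.Bd k → ∃ n, G n k (fun _ _ v => Sat φ v) := by
  induction φ with
  | eq s t => exact fun k hk => ⟨1, gEq halg hk.1 hk.2⟩
  | lt s t =>
    intro k hk
    refine ⟨1, (gEq halg (s := .add s.shift (.succ (.var 0))) (t := t.shift) (k := k + 1)
      ⟨hk.1.shift, Nat.succ_pos k⟩ hk.2.shift).ex.congr fun M _ hM v => ?_⟩
    simp only [Sat, Lt, Tm.val, Tm.val_shift, cons]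
  | neg φ ih =>
    intro k hk
    obtain ⟨n, hn⟩ := ih k hk
    exact ⟨n + 1, hn.not⟩
  | and φ ψ ih1 ih2 =>
    intro k hk
    obtain ⟨n, hn⟩ := ih1 k hk.1
    obtain ⟨m, hm⟩ := ih2 k hk.2
    exact ⟨max n m + 1, (hn.mono (by omega)).and (hm.mono (by omega))⟩
  | all φ ih =>
    intro k hk
    obtain ⟨n, hn⟩ := ih (k + 1) hk
    refine ⟨n + 1 + 1, hn.not.ex.not.congr fun M _ hM v => ?_⟩
    simp only [Sat, not_exists, not_not]

end P_GAM

theorem prf_gam1 (halg : S_alg) : S_gam1 := by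
  intro s t k hs ht
  obtain ⟨ψ, h1, h2, h3⟩ := P_GAM.gEq halg hs ht
  obtain ⟨ψ', h1', h2', h3'⟩ := P_GAM.gNe halg hs ht
  exact ⟨⟨ψ, h1, h2, fun M _ hM v => (h3 M hM v).symm⟩,
    ⟨ψ', h1', h2', fun M _ hM v => (h3' M hM v).symm⟩⟩

theorem prf_gamall (halg : S_alg) : S_gamall := by
  intro φ k hk
  obtain ⟨n, ψ, h1, h2, h3⟩ := P_GAM.gAll halg φ k hk
  exact ⟨n, ψ, h1, h2, fun M _ hM v => (h3 M hM v).symm⟩

end Pool.Agent.N636.SF
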