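import Pool.Agent.N636.SF.Std

/-!
# Good lists exist (a finite Ramsey theorem), numbers with given bits
-/

set_option autoImplicit false

namespace Pool.Agent.N636.SF

namespace P_GOOD

/-- The limit of a predicate of lists along an ultrafilter, `r` elements being still free. -/
def Lim (Q : List ℕ → Prop) : ℕ → List ℕ → Prop
  | 0, l => Q l
  | r + 1, l => ∀ᶠ y in (Filter.hyperfilter ℕ : Filter ℕ), Lim Q r (l ++ [y])

theorem ev_iff (P : ℕ → Prop) :
    ∀ᶠ y in (Filter.hyperfilter ℕ : Filter ℕ),
      ((∀ᶠ y in (Filter.hyperfilter ℕ : Filter ℕ), P y) ↔ P y) := by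
  by_cases h : ∀ᶠ y in (Filter.hyperfilter ℕ : Filter ℕ), P y
  · filter_upwards [h] with y hy
    exact ⟨fun _ => hy, fun _ => h⟩
  · have h' : ∀ᶠ y in (Filter.hyperfilter ℕ : Filter ℕ), ¬ P y := by
      rw [← Ultrafilter.eventually_not] at h
      exact h
    filter_upwards [h'] with y hy
    exact ⟨fun h2 => absurd h2 h, fun h2 => absurd h2 hy⟩

theorem lim_ev (Q : List ℕ → Prop) (r : ℕ) (l : List ℕ) :
    ∀ᶠ y in (Filter.hyperfilter ℕ : Filter ℕ), (Lim Q (r + 1) l ↔ Lim Q r (l ++ [y])) :=
  ev_iff fun y => Lim Q r (l ++ [y])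

/-- The invariant of the construction. -/
structure Inv (Q : ℕ → ℕ → List ℕ → Prop) (x s : ℕ) (h : List ℕ) : Prop where
  gt : ∀ a ∈ h, s < a
  growth : ∀ h1 a b h2, h = h1 ++ a :: b :: h2 → (a + 2) * (a + 2) < b
  lim : ∀ e < x, ∀ h1 a h2, h = h1 ++ a :: h2 → ∀ p < a, ∀ z : List ℕ, z.Sublist h2 →
    ∀ r, r + z.length ≤ x + 1 → (Lim (Q e p) (r + z.length) [] ↔ Lim (Q e p) r z)

theorem inv_nil (Q : ℕ → ℕ → List ℕ → Prop) (x s : ℕ) : Inv Q x s [] := by
  refine ⟨by simp, ?_, ?_⟩
  · intro h1 a b h2 h; simp at h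
  · intro e _ h1 a h2 h; simp at h

theorem inv_snoc {Q : ℕ → ℕ → List ℕ → Prop} {x s : ℕ} {h : List ℕ} (H : Inv Q x s h) :
    ∃ y, Inv Q x s (h ++ [y]) := by
  have h1 : ∀ᶠ y in (Filter.hyperfilter ℕ : Filter ℕ), s + (h.sum + 2) * (h.sum + 2) < y :=
    (Filter.eventually_gt_atTop _).filter_mono Nat.hyperfilter_le_atTop
  have h2 : ∀ᶠ y in (Filter.hyperfilter ℕ : Filter ℕ),
      ∀ q ∈ (Finset.range x ×ˢ Finset.range h.sum ×ˢ Finset.range (x + 2) ×ˢ h.sublists.toFinset),
        (Lim (Q q.1 q.2.1) (q.2.2.1 + 1) q.2.2.2 ↔ Lim (Q q.1 q.2.1) q.2.2.1 (q.2.2.2 ++ [y])) := by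
    rw [Filter.eventually_all_finset]
    intro q _
    exact lim_ev _ _ _
  obtain ⟨y, hy1, hy2⟩ := (h1.and h2).exists
  have hle : ∀ a ∈ h, a ≤ h.sum := fun a ha => List.single_le_sum (fun _ _ => Nat.zero_le _) a ha
  refine ⟨y, ?_, ?_, ?_⟩
  · intro a ha
    rcases List.mem_append.1 ha with ha | ha
    · exact H.gt a ha
    · have : a = y := by simpa using ha
      subst this
      have : 0 ≤ (h.sum + 2) * (h.sum + 2) := Nat.zero_le _
      omega
  · intro g1 a b g2 hg
    rcases List.eq_nil_or_concat g2 with rfl | ⟨g2', c, rfl⟩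
    · have hg' : h ++ [y] = (g1 ++ [a]) ++ [b] := by simpa using hg
      have h3 := List.append_inj' hg' rfl
      have hb : y = b := by simpa using h3.2
      have ha : a ∈ h := by rw [h3.1]; simp
      have := hle a ha
      have h4 : (a + 2) * (a + 2) ≤ (h.sum + 2) * (h.sum + 2) := Nat.mul_le_mul (by omega) (by omega)
      subst hb
      omega
    · have hg' : h ++ [y] = (g1 ++ a :: b :: g2') ++ [c] := by simpa using hg
      have h3 := List.append_inj' hg' rfl
      exact H.growth g1 a b g2' h3.1
  · intro e he g1 a g2 hg p hp z hz r hr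
    rcases List.eq_nil_or_concat g2 with rfl | ⟨g2', c, rfl⟩
    · have : z = [] := by simpa using hz
      subst this
      simp
    · have hg' : h ++ [y] = (g1 ++ a :: g2') ++ [c] := by simpa using hg
      have h3 := List.append_inj' hg' rfl
      have hc : y = c := by simpa using h3.2
      subst hc
      have hz' : z.Sublist (g2' ++ [y]) := by simpa using hz
      rw [List.sublist_append_iff] at hz'
      obtain ⟨z1, z2, rfl, hz1, hz2⟩ := hz'
      have hz2' : z2 = [] ∨ z2 = [y] := by
        rcases z2 with _ | ⟨w, z3⟩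
        · exact Or.inl rfl
        · right
          have h5 := hz2.length_le
          have h6 : z3 = [] := by
            rw [List.length_cons, List.length_singleton] at h5
            exact List.eq_nil_of_length_eq_zero (by omega)
          subst h6
          have := hz2.subset (List.mem_singleton.2 rfl : w ∈ [w])
          rw [List.mem_singleton.1 this]
      rcases hz2' with rfl | rfl
      · rw [List.append_nil] at hr ⊢
        exact H.lim e he g1 a g2' h3.1 p hp z1 hz1 r hr
      · have hlen : (z1 ++ [y]).length = z1.length + 1 := by simp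
        rw [hlen] at hr ⊢
        have h7 := H.lim e he g1 a g2' h3.1 p hp z1 hz1 (r + 1) (by omega)
        have h8 : r + (z1.length + 1) = r + 1 + z1.length := by omega
        rw [h8, h7]
        have ha : a ∈ h := by rw [h3.1]; simp
        have hz1' : z1.Sublist h := by
          rw [h3.1]
          exact hz1.trans ((List.sublist_cons_self a g2').trans (List.sublist_append_right _ _))
        have := hle a ha
        exact hy2 (e, p, r, z1) (by
          simp only [Finset.mem_product, Finset.mem_range, List.mem_toFinset, List.mem_sublists]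
          exact ⟨he, by omega, by omega, hz1'⟩)

theorem inv_ex (Q : ℕ → ℕ → List ℕ → Prop) (x s n : ℕ) : ∃ h, h.length = n ∧ Inv Q x s h := by
  induction n with
  | zero => exact ⟨[], rfl, inv_nil Q x s⟩
  | succ n ih =>
    obtain ⟨h, hl, H⟩ := ih
    obtain ⟨y, hy⟩ := inv_snoc H
    exact ⟨h ++ [y], by simp [hl], hy⟩

theorem min_iff {a b : ℕ} (h : 1 ≤ a ↔ 1 ≤ b) : min a 1 = min b 1 := by
  by_cases ha : 1 ≤ a
  · have hb := h.1 ha; omega
  · have hb : ¬ 1 ≤ b := fun hb => ha (h.2 hb)
    omega

end P_GOOD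

open P_GOOD in
/-- Good lists exist. -/
theorem prf_good : S_good := by
  intro U x s
  obtain ⟨cs, hl, H⟩ := inv_ex (fun e p z => 1 ≤ U e (Nat.pair p (Encodable.encode z))) x s (x + 1)
  refine ⟨cs, hl, ?_, ?_, ?_⟩
  · intro i hi
    rw [List.getD_eq_getElem _ _ hi]
    exact H.gt _ (List.getElem_mem hi)
  · intro i hi
    rw [List.getD_eq_getElem _ _ hi, List.getD_eq_getElem _ _ (by omega : i < cs.length)]
    refine H.growth (cs.take i) _ _ (cs.drop (i + 1 + 1)) ?_
    rw [← List.drop_eq_getElem_cons hi, ← List.drop_eq_getElem_cons (by omega : i < cs.length),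
      List.take_append_drop]
  · intro e he i hi p hp z z' hz hz' hzz
    rw [List.getD_eq_getElem _ _ hi] at hp
    have hc : cs = cs.take i ++ cs[i] :: cs.drop (i + 1) := by
      rw [← List.drop_eq_getElem_cons hi, List.take_append_drop]
    have hlen := hz.length_le
    rw [List.length_drop, hl] at hlen
    have h1 := H.lim e he _ _ _ hc p hp z hz 0 (by omega)
    have h2 := H.lim e he _ _ _ hc p hp z' hz' 0 (by omega)
    rw [hzz] at h1
    exact min_iff (h1.symm.trans h2)

/-- Numbers with given bits exist. -/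
theorem prf_pat : S_pat := by
  classical
  intro L r N
  set w : ℕ := L.factorial * (N + 1) with hw
  have hLpos : 0 < L.factorial := Nat.factorial_pos L
  have hwN : N + 1 ≤ w := by rw [hw]; exact Nat.le_mul_of_pos_left _ hLpos
  set u : ℕ := ∏ l ∈ (Finset.range L).filter (fun l => l ∈ r), ((l + 1) * w + 1) with hu
  refine ⟨prN u w, ?_, ?_⟩
  · have h1 : w ≤ (u + w) * (u + w) := by
      have : 1 ≤ u + w := by omega
      calc w ≤ u + w := by omega
        _ = (u + w) * 1 := by ring
        _ ≤ (u + w) * (u + w) := Nat.mul_le_mul_left _ this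
    show N ≤ (u + w) * (u + w) + u
    omega
  · intro l hl
    have hbit : (@Bit ℕ stdA (prN u w) l) ↔ ((l + 1) * w + 1) ∣ u := by
      constructor
      · rintro ⟨u', _, w', _, q, _, hpr, hq⟩
        have h1 : prN u' w' = prN u w := hpr
        obtain ⟨e1, e2⟩ := prN_inj h1
        have h2 : q * ((l + 1) * w' + 1) = u' := hq
        rw [e1, e2] at h2
        exact ⟨q, by rw [← h2]; ring⟩
      · rintro ⟨q, hq⟩
        refine ⟨u, (Lt_std _ _).2 ?_, w, (Lt_std _ _).2 ?_, q, (Lt_std _ _).2 ?_, rfl, ?_⟩
        · show u < Nat.succ ((u + w) * (u + w) + u)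
          have : 0 ≤ (u + w) * (u + w) := Nat.zero_le _
          omega
        · show w < Nat.succ ((u + w) * (u + w) + u)
          have : w ≤ (u + w) * (u + w) := by
            calc w ≤ u + w := by omega
              _ = (u + w) * 1 := by ring
              _ ≤ (u + w) * (u + w) := Nat.mul_le_mul_left _ (by omega)
          omega
        · show q < Nat.succ u
          have : q ≤ u := by
            rw [hq]; exact Nat.le_mul_of_pos_left _ (by omega)
          omega
        · show q * ((l + 1) * w + 1) = u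
          rw [hq]; ring
    rw [hbit]
    constructor
    · intro hdvd
      by_contra hlr
      have hcop : Nat.Coprime ((l + 1) * w + 1) u := by
        rw [hu]
        refine Nat.Coprime.prod_right ?_
        intro j hj
        rw [Finset.mem_filter, Finset.mem_range] at hj
        have hne : j ≠ l := fun h => hlr (h ▸ hj.2)
        have key : ∀ a b : ℕ, a < b → b < L → Nat.Coprime ((a + 1) * w + 1) ((b + 1) * w + 1) := by
          intro a b hab hb
          refine Nat.coprime_mul_succ ?_
          rw [hw]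
          exact Dvd.dvd.mul_right (Nat.dvd_factorial (by omega) (by omega)) _
        rcases Nat.lt_or_gt_of_ne hne with h | h
        · exact (key j l h hl).symm
        · exact key l j h hj.1
      have h1 := Nat.Coprime.eq_one_of_dvd hcop hdvd
      have h2 : 0 < (l + 1) * w := Nat.mul_pos (by omega) (by omega)
      omega
    · intro hlr
      rw [hu]
      exact Finset.dvd_prod_of_mem (fun l => (l + 1) * w + 1)
        (Finset.mem_filter.2 ⟨Finset.mem_range.2 hl, hlr⟩)

end Pool.Agent.N636.SF
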