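import Pool.Agent.N636.SF.Stm

/-!
# Levels of the basic facts (SF/LEV, helper157)
-/

set_option autoImplicit false

namespace Pool.Agent.N636.SF

namespace P_LEV

theorem gam_le {n m : ℕ} {φ : Fm} (h : Gam n φ) (hnm : n ≤ m) : Gam m φ := by
  induction hnm with
  | refl => exact h
  | step _ ih => exact ih.up

/-- every formula is somewhere in the hierarchy -/
theorem def_all (hc : Calc) : ∀ (φ : Fm) (k : ℕ), φ.Bd k → ∃ n, ∀ b, IsDef b n k (fun _ _ v => Sat φ v) := by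
  intro φ
  induction φ with
  | eq s t => exact fun k hk => ⟨0, fun b => hc.eq b k s t hk.1 hk.2⟩
  | lt s t => exact fun k hk => ⟨0, fun b => hc.lt b k s t hk.1 hk.2⟩
  | neg φ ih =>
    intro k hk
    obtain ⟨n, hn⟩ := ih k hk
    refine ⟨n, fun b => ?_⟩
    have h1 := hc.not (!b) n k _ (hn (!b))
    rw [Bool.not_not] at h1
    exact h1
  | and φ ψ ih1 ih2 =>
    intro k hk
    obtain ⟨n, hn⟩ := ih1 k hk.1
    obtain ⟨m, hm⟩ := ih2 k hk.2
    refine ⟨n + m + 1, fun b => ?_⟩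
    exact hc.and b _ k _ _ (hc.up b b n (n + m + 1) k _ (by omega) (hn b))
      (hc.up b b m (n + m + 1) k _ (by omega) (hm b))
  | all φ ih =>
    intro k hk
    obtain ⟨n, hn⟩ := ih (k + 1) hk
    refine ⟨n + 2, fun b => ?_⟩
    have h1 := hc.all n k _ (hc.up false false n (n + 1) (k + 1) _ (by omega) (hn false))
    exact hc.up false b (n + 1) (n + 2) k _ (by omega) h1

/-- existence and uniqueness -/
def uniq (D : Fm) : Fm :=
  Fm.ex (.all (.and ((D.subst fun _ => .var 0).imp (.eq (.var 0) (.var 1)))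
    ((Fm.eq (.var 0) (.var 1)).imp (D.subst fun _ => .var 0))))

theorem uniq_bd {D : Fm} (h : D.Bd 1) : (uniq D).Bd 0 := by
  have h1 : (D.subst fun _ => Tm.var 0).Bd 2 := h.subst fun i _ => (by norm_num : 0 < 2)
  have h2 : (Fm.eq (.var 0) (.var 1)).Bd 2 := ⟨(by norm_num : 0 < 2), (by norm_num : 1 < 2)⟩
  exact ⟨⟨h1, h2⟩, ⟨h2, h1⟩⟩

theorem sat_uniq (D : Fm) {M : Type} [Arith M] (v : ℕ → M) : Sat (uniq D) v ↔ ∃ d : M, Uq D d := by
  unfold uniq Uq
  rw [Sat_ex]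
  refine exists_congr fun d => forall_congr' fun x => ?_
  show Sat _ _ ∧ Sat _ _ ↔ _
  rw [Sat_imp, Sat_imp, Sat_subst]
  exact ⟨fun h => ⟨h.1, h.2⟩, fun h => ⟨h.1, h.2⟩⟩

end P_LEV

open P_LEV in
theorem prf_lev (hc : Calc) (hall : S_gamall) (hbit : S_cxBit) (h1 : S_gam1) : S_lev := by
  intro D hD
  obtain ⟨n1, hn1⟩ := def_all hc D 1 hD
  obtain ⟨n2, ψu, hu1, hu2, hu3⟩ := hall (uniq D) 0 (uniq_bd hD)
  obtain ⟨B, -, hB2, hB3⟩ := hbit true
  obtain ⟨n3, B', hb1, hb2, hb3⟩ := hall B 2 hB2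
  obtain ⟨n4, C', hc1, hc2, hc3⟩ := hall B.neg 2 hB2
  obtain ⟨n5, D', hd1, hd2, hd3⟩ := hall D 1 hD
  refine ⟨n1 + n2 + n3 + n4 + n5 + 2, by omega, ?_, ?_, ?_⟩
  · exact hc.up true true n1 _ 1 _ (by omega) (hn1 true)
  · refine ⟨ψu, gam_le hu1 (by omega), hu2, fun M _ hM v => ?_⟩
    rw [← hu3 M hM v, sat_uniq]
  · intro l b
    obtain ⟨⟨E, he1, he2, he3⟩, -⟩ := h1 (.var 1) (numT l) 2 (by norm_num [Tm.Bd]) (numT_bd l 2)
    have key : ∀ (F : Fm) (n : ℕ), Gam n F → n ≤ n1 + n2 + n3 + n4 + n5 + 2 → F.Bd 2 →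
        ∃ ψ, Gam (n1 + n2 + n3 + n4 + n5 + 2) ψ ∧ ψ.Bd 0 ∧ ∀ (M : Type) [Arith M], IsPA M →
          ∀ d : M, Uq D d → ∀ v : ℕ → M, (Sat ψ v ↔ Sat F (cons d (cons (num M l) v))) := by
      intro F n hF hn hF2
      refine ⟨Fm.ex (Fm.ex (.and D' (.and F E))), ?_, ?_, ?_⟩
      · refine Gam.ex (Gam.ex (Gam.and (gam_le hd1 (by omega)) (Gam.and (gam_le hF hn) (gam_le he1 (by omega)))))
      · exact ⟨hd2.mono (by norm_num), hF2, he2⟩
      · intro M _ hM d hd v
        have hval : ∀ x y : M, Sat (.eq (.var 1) (numT l)) (cons x (cons y v)) ↔ y = num M l := by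
          intro x y
          show (Tm.var 1).val (cons x (cons y v)) = (numT l).val (cons x (cons y v)) ↔ _
          rw [val_numT]
          rfl
        have hDx : ∀ x y : M, Sat D (cons x (cons y v)) ↔ x = d := by
          intro x y
          rw [← hd x]
          refine Sat_congr hD fun i hi => ?_
          obtain rfl : i = 0 := by omega
          rfl
        rw [Sat_ex]
        constructor
        · rintro ⟨y, hy⟩
          rw [Sat_ex] at hy
          obtain ⟨x, hx1, hx2, hx3⟩ := hy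
          rw [← hd3 M hM, hDx] at hx1
          rw [← he3 M hM, hval] at hx3
          rw [← hx1, ← hx3]
          exact hx2
        · intro h
          refine ⟨num M l, ?_⟩
          rw [Sat_ex]
          refine ⟨d, ?_, h, ?_⟩
          · rw [← hd3 M hM, hDx]
          · rw [← he3 M hM, hval]
    cases b with
    | true =>
      obtain ⟨ψ, p1, p2, p3⟩ := key B' n3 hb1 (by omega) hb2
      refine ⟨ψ, p1, p2, fun M _ hM d hd v => ?_⟩
      rw [p3 M hM d hd v, ← hb3 M hM, hB3 M hM]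
      simp [cons]
    | false =>
      obtain ⟨ψ, p1, p2, p3⟩ := key C' n4 hc1 (by omega) hc2
      refine ⟨ψ, p1, p2, fun M _ hM d hd v => ?_⟩
      rw [p3 M hM d hd v, ← hc3 M hM]
      show ¬ Sat B _ ↔ _
      rw [hB3 M hM]
      simp [cons]

end Pool.Agent.N636.SF
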