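import Pool.Agent.N636.SF.Stm1

/-!
# The standard structure
-/

set_option autoImplicit false

namespace Pool.Agent.N636.SF

theorem num_std (n : ℕ) : @num ℕ stdA n = n := by
  induction n with
  | zero => rfl
  | succ n ih => show Nat.succ (@num ℕ stdA n) = n + 1; rw [ih]

theorem Lt_std (x y : ℕ) : @Lt ℕ stdA x y ↔ x < y := by
  show (∃ z : ℕ, x + Nat.succ z = y) ↔ x < y
  constructor
  · rintro ⟨z, hz⟩; omega
  · intro h; exact ⟨y - x - 1, by omega⟩

theorem isPA_std : @IsPA ℕ stdA :=
  letI := stdA
  { succ_ne_zero := fun x => Nat.succ_ne_zero x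
    succ_inj := fun x y h => Nat.succ.inj h
    add_zero := fun x => rfl
    add_succ := fun x y => rfl
    mul_zero := fun x => rfl
    mul_succ := fun x y => rfl
    ind := fun φ v h0 hs a => by
      induction a with
      | zero => exact h0
      | succ a ih => exact hs a ih }

/-- `num` is a homomorphism for addition, in every model of PA. -/
theorem num_add {M : Type} [Arith M] (h : IsPA M) (a b : ℕ) :
    num M (a + b) = Arith.add (num M a) (num M b) := by
  induction b with
  | zero => exact (h.add_zero _).symm
  | succ b ih =>
    show Arith.succ (num M (a + b)) = _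
    rw [ih]; exact (h.add_succ _ _).symm

theorem num_mul {M : Type} [Arith M] (h : IsPA M) (a b : ℕ) :
    num M (a * b) = Arith.mul (num M a) (num M b) := by
  induction b with
  | zero => exact (h.mul_zero _).symm
  | succ b ih =>
    rw [Nat.mul_succ, num_add h, ih]; exact (h.mul_succ _ _).symm

theorem num_pr {M : Type} [Arith M] (h : IsPA M) (a b : ℕ) :
    num M (prN a b) = pr (num M a) (num M b) := by
  unfold prN pr
  rw [num_add h, num_mul h, num_add h]

theorem num_inj {M : Type} [Arith M] (h : IsPA M) {a b : ℕ} (hab : num M a = num M b) :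
    a = b := by
  induction a generalizing b with
  | zero =>
    cases b with
    | zero => rfl
    | succ b => exact absurd hab.symm (h.succ_ne_zero _)
  | succ a ih =>
    cases b with
    | zero => exact absurd hab (h.succ_ne_zero _)
    | succ b => rw [ih (h.succ_inj _ _ hab)]

theorem prN_inj {a b c d : ℕ} (h : prN a b = prN c d) : a = c ∧ b = d := by
  unfold prN at h
  have h1 : a + b = c + d := by
    by_contra hne
    rcases Nat.lt_or_gt_of_ne hne with h2 | h2
    · have : (a + b + 1) * (a + b + 1) ≤ (c + d) * (c + d) := Nat.mul_le_mul h2 h2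
      nlinarith
    · have : (c + d + 1) * (c + d + 1) ≤ (a + b) * (a + b) := Nat.mul_le_mul h2 h2
      nlinarith
  rw [h1] at h
  omega

end Pool.Agent.N636.SF
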