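import Pool.Agent.N636.SF.Stm
import Pool.Agent.N636.SF.Std

/-!
# Existence of the generic sequence (helper618)
-/

set_option autoImplicit false

namespace Pool.Agent.N636.SF

namespace P_SEQ

theorem ext_refl (p : Cond) : Ext p p := ⟨le_rfl, fun _ _ => Iff.rfl⟩

theorem ext_trans {p q r : Cond} (h : Ext p q) (h' : Ext q r) : Ext p r :=
  ⟨h.1.trans h'.1, fun φ hφ => (h.2 φ hφ).trans (h'.2 φ (hφ.mono h.1))⟩

theorem ext_le {p q : Cond} (h : Ext p q) (n : ℕ) : Le n p q :=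
  ⟨h.1, fun φ _ hφ hs => (h.2 φ hφ).1 hs⟩

theorem le_trans' {n : ℕ} {p q r : Cond} (h : Le n p q) (h' : Le n q r) : Le n p r :=
  ⟨h.1.trans h'.1, fun φ hg hφ hs => h'.2 φ hg (hφ.mono h.1) (h.2 φ hg hφ hs)⟩

theorem sat_sent {M : Type} [Arith M] {φ : Fm} (hφ : φ.Bd 0) (v w : ℕ → M) :
    Sat φ v ↔ Sat φ w := Sat_congr hφ (fun i hi => absurd hi (Nat.not_lt_zero i))

theorem ext_sent {p q : Cond} (h : Ext p q) {φ : Fm} (hφ : φ.Bd 0) :
    Sat φ (fun _ => (Arith.zero : p.M)) ↔ Sat φ (fun _ => (Arith.zero : q.M)) :=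
  (sat_sent hφ _ p.a).trans ((h.2 φ (hφ.mono (Nat.zero_le _))).trans (sat_sent hφ _ _))

section side

variable {N0 : ℕ} {J : ℕ → ℕ} {Gd : (M : Type) → [Arith M] → Prop}
  {st : (M : Type) → [Arith M] → ℕ → ℕ} {stF : ℕ → ℕ → Fm}

theorem st_le_of_sent (hS : Side N0 J Gd st stF) {M M' : Type} [Arith M] [Arith M'] (hM : Gd M)
    (hM' : Gd M') (h : ∀ φ : Fm, φ.Bd 0 → (Sat φ (fun _ => (Arith.zero : M)) →
      Sat φ (fun _ => (Arith.zero : M')))) (m : ℕ) : st M m ≤ st M' m := by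
  rcases Nat.eq_zero_or_pos (st M m) with h0 | h0
  · rw [h0]; exact Nat.zero_le _
  · have h1 : st M m ≤ J m := hS.le M m
    have h2 := (hS.stF m (st M m) h0 h1 M hM (fun _ => (Arith.zero : M))).2 le_rfl
    have h3 := h _ (hS.sig m (st M m) h0 h1).2 h2
    exact (hS.stF m (st M m) h0 h1 M' hM' (fun _ => (Arith.zero : M'))).1 h3

theorem st_eq_of_sent (hS : Side N0 J Gd st stF) {M M' : Type} [Arith M] [Arith M'] (hM : Gd M)
    (hM' : Gd M') (h : ∀ φ : Fm, φ.Bd 0 → (Sat φ (fun _ => (Arith.zero : M)) ↔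
      Sat φ (fun _ => (Arith.zero : M')))) (m : ℕ) : st M m = st M' m :=
  le_antisymm (st_le_of_sent hS hM hM' (fun φ hφ => (h φ hφ).1) m)
    (st_le_of_sent hS hM' hM (fun φ hφ => (h φ hφ).2) m)

theorem gd_ext (hS : Side N0 J Gd st stF) {p q : Cond} (h : Ext p q) (hp : Gd p.M) : Gd q.M :=
  hS.pres p.M q.M hp q.pa (fun _ _ hφ hs => (ext_sent h hφ).1 hs)

theorem st_ext (hS : Side N0 J Gd st stF) {p q : Cond} (h : Ext p q) (hp : Gd p.M) (m : ℕ) :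
    st p.M m = st q.M m :=
  st_eq_of_sent hS hp (gd_ext hS h hp) (fun _ hφ => ext_sent h hφ) m

end side

theorem dec_ext {p q : Cond} (h : Ext p q) {z : ℕ} {b : Prop} (hd : Dec p z b) : Dec q z b := by
  rcases hd with ⟨s, t, hz, hs, ht, hb⟩ | hd
  · exact Or.inl ⟨s, t, hz, hs.mono h.1, ht.mono h.1, hb.trans (h.2 (.eq s t) ⟨hs, ht⟩)⟩
  · exact Or.inr hd

theorem forces_ext {C : BC} {p q : Cond} (h : Ext p q) (hf : Forces C p) : Forces C q := by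
  cases C with
  | op P =>
    obtain ⟨l, hP, hl⟩ := hf
    exact ⟨l, hP, fun z hz => dec_ext h (hl z hz)⟩
  | ex c =>
    obtain ⟨i, hi⟩ := hf
    exact ⟨i, fun r hr => hi r (ext_trans h hr)⟩

theorem done_ext {N0 : ℕ} {J : ℕ → ℕ} {stF : ℕ → ℕ → Fm} {cd : ℕ → ℕ → ℕ → ℕ → BC} {f : ℕ → ℕ}
    {p j : ℕ} {q q' : Cond} (h : Ext q q') (hd : Done N0 J stF cd f p j q) :
    Done N0 J stF cd f p j q' := by
  obtain ⟨⟨c, hc⟩, h2⟩ := hd
  refine ⟨⟨c, fun i hi => ?_⟩, ?_⟩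
  · obtain ⟨⟨s, hs⟩, hp1, hp2⟩ := hc i hi
    exact ⟨⟨s, forces_ext h hs⟩, fun l h1 hl => forces_ext h (hp1 l h1 hl), forces_ext h hp2⟩
  · rcases h2 with h2 | h2
    · exact Or.inl h2
    · exact Or.inr (fun r hr => h2 r (ext_trans h hr))

/-- nesting of successors -/
def dp : Tm → ℕ
  | .succ t => dp t + 1
  | _ => 0

theorem dp_numT (n : ℕ) : dp (numT n) = n := by
  induction n with
  | zero => rfl
  | succ n ih => show dp (numT n) + 1 = n + 1; rw [ih]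

/-- the depth of the number in `x ≠ n` -/
def dpF : Fm → ℕ
  | .neg (.eq _ t) => dp t
  | _ => 0

/-- the first condition -/
theorem exists_start (hcpt : S_cpt) {N0 : ℕ} {J : ℕ → ℕ} {Gd : (M : Type) → [Arith M] → Prop}
    {st : (M : Type) → [Arith M] → ℕ → ℕ} {stF : ℕ → ℕ → Fm} (hS : Side N0 J Gd st stF) :
    ∃ q : Cond, Gd q.M ∧ (∀ m ≥ 1, st q.M m = 0) ∧ 1 ≤ q.k ∧
      ∀ n, ¬ Sat (.eq (.var 0) (numT n)) q.a := by
  obtain ⟨M0, ar0, hG0, hst0⟩ := hS.start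
  have pa0 := hS.pa M0 hG0
  obtain ⟨M, ar, pa, v, hv⟩ := hcpt ({φ | φ.Bd 0 ∧ Sat φ (fun _ => (Arith.zero : M0))} ∪
      {φ | ∃ n, φ = .neg (.eq (.var 0) (numT n))}) (by
    intro F hF
    refine ⟨M0, ar0, pa0, fun _ => num M0 (F.sup dpF + 1), fun φ hφ => ?_⟩
    rcases hF hφ with ⟨h1, h2⟩ | ⟨n, hn⟩
    · exact (sat_sent h1 _ _).1 h2
    · have hle : n ≤ F.sup dpF := by
        have := Finset.le_sup (f := dpF) hφ
        rw [hn] at this
        have h3 : dpF (.neg (.eq (.var 0) (numT n))) = n := dp_numT n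
        rwa [h3] at this
      rw [hn]
      intro hsat
      have h4 : num M0 (F.sup dpF + 1) = num M0 n := by
        have h5 : (Tm.var 0).val (fun _ => num M0 (F.sup dpF + 1)) =
          (numT n).val (fun _ => num M0 (F.sup dpF + 1)) := hsat
        rw [val_numT] at h5
        exact h5
      have := num_inj pa0 h4
      omega)
  have hs : ∀ φ : Fm, φ.Bd 0 → (Sat φ (fun _ => (Arith.zero : M0)) ↔
      Sat φ (fun _ => (Arith.zero : M))) := by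
    intro φ hφ
    constructor
    · intro h
      exact (sat_sent hφ _ _).1 (hv φ (Or.inl ⟨hφ, h⟩))
    · intro h
      by_contra hn
      have h6 : Sat (.neg φ) v := hv (.neg φ) (Or.inl ⟨hφ, hn⟩)
      exact h6 ((sat_sent hφ _ _).1 h)
  have hG : Gd M := hS.pres M0 M hG0 pa (fun φ _ hφ h => (hs φ hφ).1 h)
  refine ⟨⟨M, ar, pa, v, 1, fun i hi j hj _ => by omega⟩, hG, ?_, le_rfl, ?_⟩
  · intro m hm
    have := st_eq_of_sent hS hG0 hG hs m
    rw [hst0 m hm] at this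
    exact this.symm
  · intro n hn
    exact hv (.neg (.eq (.var 0) (numT n))) (Or.inr ⟨n, rfl⟩) hn

/-- the invariant -/
def Inv (Gd : (M : Type) → [Arith M] → Prop) (st : (M : Type) → [Arith M] → ℕ → ℕ) (t : ℕ)
    (q : Cond) : Prop := Gd q.M ∧ (∀ m ≥ t + 1, st q.M m = 0) ∧ t + 1 ≤ q.k

/-- the step -/
def Rel (N0 : ℕ) (J : ℕ → ℕ) (st : (M : Type) → [Arith M] → ℕ → ℕ) (stF : ℕ → ℕ → Fm)
    (cd : ℕ → ℕ → ℕ → ℕ → BC) (f : ℕ → ℕ → ℕ) (tk : ℕ → BC) (hk : ℕ → Fm) (t : ℕ)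
    (q q' : Cond) : Prop :=
  Le (N0 + t + 1) q q' ∧ (∀ m < t + 1, st q'.M m = st q.M m) ∧
  Done N0 J stF cd (f t) (t + 1) (st q'.M (t + 1)) q' ∧
  (Forces (tk t) q' ∨ ∀ r, Ext q' r → ¬ Forces (tk t) r) ∧
  ((hk t).Bd (q.k + 1) → Sat (hk t).ex q'.a →
    ∃ i < q'.k, Sat ((hk t).subst (cons (.var i) Tm.var)) q'.a)

theorem exists_step (hattack : S_attack) (hwit : S_wit) {N0 : ℕ} {J : ℕ → ℕ}
    {Gd : (M : Type) → [Arith M] → Prop}
    {st : (M : Type) → [Arith M] → ℕ → ℕ} {stF : ℕ → ℕ → Fm} {cd : ℕ → ℕ → ℕ → ℕ → BC}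
    (hN : 1 ≤ N0) (hS : Side N0 J Gd st stF) (hcd : ∀ n e s y, Lev (n + 1) (cd n e s y))
    (f : ℕ → ℕ → ℕ) (tk : ℕ → BC) (hk : ℕ → Fm) (t : ℕ) (q : Cond) (hq : Inv Gd st t q) :
    ∃ q', Inv Gd st (t + 1) q' ∧ Rel N0 J st stF cd f tk hk t q q' := by
  obtain ⟨hG, hst, hkk⟩ := hq
  obtain ⟨r1, hG1, hst1, hlow1, hle1, hdone1⟩ := hattack N0 J Gd st stF cd hN hS hcd (f t) (t + 1)
    (by omega) q hG hst
  -- decide
  obtain ⟨r2, he2, hdec2⟩ : ∃ r2, Ext r1 r2 ∧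
      (Forces (tk t) r2 ∨ ∀ r, Ext r2 r → ¬ Forces (tk t) r) := by
    by_cases h : ∃ q', Ext r1 q' ∧ Forces (tk t) q'
    · obtain ⟨q', h1, h2⟩ := h
      exact ⟨q', h1, Or.inl h2⟩
    · exact ⟨r1, ext_refl r1, Or.inr (fun r hr hf => h ⟨r, hr, hf⟩)⟩
  obtain ⟨r3, he3, hk3⟩ := hwit.2 r2
  obtain ⟨r4, he4, hw4⟩ : ∃ r4, Ext r3 r4 ∧ ((hk t).Bd (q.k + 1) → Sat (hk t).ex r4.a →
      ∃ i < r4.k, Sat ((hk t).subst (cons (.var i) Tm.var)) r4.a) := by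
    have hkq : q.k ≤ r3.k := (hle1.1.trans he2.1).trans he3.1
    by_cases hb : (hk t).Bd (q.k + 1)
    · have hb3 : (hk t).Bd (r3.k + 1) := hb.mono (by omega)
      by_cases hs : Sat (hk t).ex r3.a
      · obtain ⟨b, hb'⟩ := (Sat_ex _ _).1 hs
        obtain ⟨r4, he4, i, hi, hw⟩ := hwit.1 r3 b
        exact ⟨r4, he4, fun _ _ => ⟨i, hi, (hw (hk t) hb3).1 hb'⟩⟩
      · exact ⟨r3, ext_refl r3, fun _ h => absurd h hs⟩
    · exact ⟨r3, ext_refl r3, fun h => absurd h hb⟩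
  have he14 : Ext r1 r4 := ext_trans (ext_trans he2 he3) he4
  have he24 : Ext r2 r4 := ext_trans he3 he4
  have hst4 : ∀ m, st r1.M m = st r4.M m := fun m => st_ext hS he14 hG1 m
  refine ⟨r4, ⟨gd_ext hS he14 hG1, ?_, ?_⟩, ?_, ?_, ?_, ?_, hw4⟩
  · intro m hm
    rw [← hst4 m]
    exact hst1 m hm
  · have h1 := hle1.1
    have h2 := he2.1
    have h4 := he4.1
    omega
  · exact le_trans' hle1 (ext_le he14 _)
  · intro m hm
    rw [← hst4 m]
    exact hlow1 m hm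
  · rw [← hst4 (t + 1)]
    exact done_ext he14 hdone1
  · rcases hdec2 with h | h
    · exact Or.inl (forces_ext he24 h)
    · exact Or.inr (fun r hr => h r (ext_trans he24 hr))

end P_SEQ

open P_SEQ in
/-- Existence of generic sequences. -/
theorem prf_seq (hattack : S_attack) (hwit : S_wit) (hcpt : S_cpt) : S_seq := by
  intro N0 J Gd st stF cd hN hS hcd f tk hk
  obtain ⟨q0, hG0, hst0, hk0, hns⟩ := exists_start hcpt hS
  have key : ∀ (t : ℕ) (q : {q : Cond // Inv Gd st t q}),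
      ∃ q' : {q : Cond // Inv Gd st (t + 1) q}, Rel N0 J st stF cd f tk hk t q.1 q'.1 := by
    intro t q
    obtain ⟨q', h1, h2⟩ := exists_step hattack hwit hN hS hcd f tk hk t q.1 q.2
    exact ⟨⟨q', h1⟩, h2⟩
  choose F hF using key
  let s : (t : ℕ) → {q : Cond // Inv Gd st t q} := fun t =>
    Nat.rec (motive := fun t => {q : Cond // Inv Gd st t q}) ⟨q0, hG0, hst0, hk0⟩
      (fun t q => F t q) t
  have hs0 : (s 0).1 = q0 := rfl
  have hss : ∀ t, Rel N0 J st stF cd f tk hk t (s t).1 (s (t + 1)).1 := fun t => hF t (s t)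
  refine ⟨fun t => (s t).1, ⟨fun t => (s t).2.1, fun t => (hss t).1, ?_, fun t => (hss t).2.2.1,
    fun t => (hss t).2.2.2.1, fun t => (hss t).2.2.2.2, fun t => (s t).2.2.2, ?_⟩⟩
  · intro t m hm
    induction m, hm using Nat.le_induction with
    | base => rfl
    | succ m hm ih =>
      rw [← ih]
      exact (hss m).2.1 (t + 1) (by omega)
  · exact hns

end Pool.Agent.N636.SF
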