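import Pool.Agent.N636.SF.Stm

/-!
# Summary of part II
-/

set_option autoImplicit false

namespace Pool.Agent.N636.SF

namespace P_SIDE

theorem Gam.mono {n p : ℕ} {φ : Fm} (h : Gam n φ) : Gam (n + p) φ := by
  induction p with
  | zero => exact h
  | succ p ih => exact Gam.up ih

theorem uq_unique {D : Fm} {M : Type} [Arith M] {d d' : M} (h : Uq D d) (h' : Uq D d') : d = d' :=
  (h' d).1 ((h d).2 rfl)

theorem sat_closed {φ : Fm} (hφ : φ.Bd 0) {M : Type} [Arith M] (v w : ℕ → M) : Sat φ v ↔ Sat φ w :=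
  Sat_congr hφ fun i hi => absurd hi (Nat.not_lt_zero i)

theorem state_le (N0 : ℕ) {M : Type} [Arith M] (d : M) (J : ℕ → ℕ) (p : ℕ) : state N0 d J p ≤ J p := by
  classical
  unfold state
  exact Nat.findGreatest_le _

theorem vec_succ (N0 : ℕ) {M : Type} [Arith M] (d : M) (J : ℕ → ℕ) (p : ℕ) :
    vec N0 d J (p + 1) = state N0 d J p :: vec N0 d J p := rfl

theorem state_of_vec (N0 : ℕ) {M M' : Type} [Arith M] [Arith M'] (d : M) (d' : M') (J : ℕ → ℕ) (p : ℕ)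
    (h : vec N0 d' J p = vec N0 d J p) : ∀ m < p, state N0 d' J m = state N0 d J m := by
  induction p with
  | zero => intro m hm; exact absurd hm (Nat.not_lt_zero m)
  | succ p ih =>
    rw [vec_succ, vec_succ] at h
    have h1 := (List.cons.inj h)
    intro m hm
    rcases Nat.lt_succ_iff_lt_or_eq.1 hm with h2 | h2
    · exact ih h1.2 m h2
    · rw [h2]; exact h1.1

open Classical in
/-- The state of the level `p` in `M`. -/
noncomputable def stD (D : Fm) (N0 : ℕ) (J : ℕ → ℕ) (M : Type) [Arith M] (p : ℕ) : ℕ :=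
  if h : ∃ d : M, Uq D d then state N0 h.choose J p else 0

theorem stD_eq {D : Fm} {N0 : ℕ} {J : ℕ → ℕ} {M : Type} [Arith M] {d : M} (h : Uq D d) (p : ℕ) :
    stD D N0 J M p = state N0 d J p := by
  have h1 : ∃ d : M, Uq D d := ⟨d, h⟩
  unfold stD
  rw [dif_pos h1, uq_unique h1.choose_spec h]

theorem stD_le (D : Fm) (N0 : ℕ) (J : ℕ → ℕ) (M : Type) [Arith M] (p : ℕ) : stD D N0 J M p ≤ J p := by
  unfold stD
  split_ifs with h
  · exact state_le _ _ _ _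
  · exact Nat.zero_le _

/-- The good models. -/
def GdD (D : Fm) (N0 : ℕ) (J : ℕ → ℕ) (M : Type) [Arith M] : Prop := IsPA M ∧ ∃ d : M, Base D N0 J d

/-- The property of the sentences of `S_cx`. -/
def CxP (D : Fm) (N0 : ℕ) (J : ℕ → ℕ) (p j : ℕ) (φ : Fm) : Prop :=
  Hier true (N0 + p) φ ∧ φ.Bd 0 ∧ ∀ (M : Type) [Arith M], IsPA M → ∀ d : M, Uq D d →
    ∀ v : ℕ → M, (Sat φ v ↔ j ≤ state N0 d J p)

/-- The property of the sentences of `S_lev`. -/
def LevP (D : Fm) (N0 : ℕ) : Prop :=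
  (∃ ψ, Gam N0 ψ ∧ ψ.Bd 0 ∧ ∀ (M : Type) [Arith M], IsPA M → ∀ v : ℕ → M,
    (Sat ψ v ↔ ∃ d : M, Uq D d)) ∧
  ∀ (l : ℕ) (b : Bool), ∃ ψ, Gam N0 ψ ∧ ψ.Bd 0 ∧ ∀ (M : Type) [Arith M], IsPA M →
    ∀ d : M, Uq D d → ∀ v : ℕ → M, (Sat ψ v ↔ (Bit d (num M l) ↔ b = true))

theorem pres {D : Fm} {N0 : ℕ} {J : ℕ → ℕ} (hlev : LevP D N0) (M M' : Type) [Arith M] [Arith M']
    (hG : GdD D N0 J M) (hPA : IsPA M')
    (h : ∀ φ, Gam N0 φ → φ.Bd 0 → Sat φ (fun _ => (Arith.zero : M)) →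
      Sat φ (fun _ => (Arith.zero : M'))) : GdD D N0 J M' := by
  classical
  obtain ⟨⟨ψ, hψ1, hψ2, hψ3⟩, hb⟩ := hlev
  obtain ⟨hM, d, hd, hbits⟩ := hG
  have h1 : Sat ψ (fun _ => (Arith.zero : M)) := (hψ3 M hM _).2 ⟨d, hd⟩
  obtain ⟨d', hd'⟩ := (hψ3 M' hPA _).1 (h ψ hψ1 hψ2 h1)
  refine ⟨hPA, d', hd', fun l => ?_⟩
  obtain ⟨χ, hχ1, hχ2, hχ3⟩ := hb l (decide (l ∈ rset D N0 J))
  have h2 : Sat χ (fun _ => (Arith.zero : M)) := by
    rw [hχ3 M hM d hd, hbits l, decide_eq_true_iff]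
  have h3 := (hχ3 M' hPA d' hd' _).1 (h χ hχ1 hχ2 h2)
  rw [h3, decide_eq_true_iff]

/-- The use of compactness. -/
theorem key {D : Fm} {N0 : ℕ} {J : ℕ → ℕ} (hcpt : S_cpt) (hlev : LevP D N0)
    (stF : ℕ → ℕ → Fm) (hstF : ∀ p j : ℕ, 1 ≤ j → j ≤ J p → CxP D N0 J p j (stF p j))
    (M : Type) [Arith M] (hG : GdD D N0 J M) (p : ℕ) (τ : ℕ → ℕ) (hτ : ∀ m, τ m ≤ J m)
    (H : ∀ (F : Finset Fm), (∀ φ ∈ F, Gam (N0 + p) φ ∧ φ.Bd 0 ∧ Sat φ (fun _ => (Arith.zero : M))) →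
      ∀ N : ℕ, ∃ (M' : Type) (_ : Arith M'), IsPA M' ∧ ∃ d' : M', Uq D d' ∧
        (∀ φ ∈ F, Sat φ (fun _ => (Arith.zero : M'))) ∧ ∀ m < N, state N0 d' J m = τ m) :
    ∃ (M' : Type) (_ : Arith M'), GdD D N0 J M' ∧
      (∀ φ, Gam (N0 + p) φ → φ.Bd 0 → Sat φ (fun _ => (Arith.zero : M)) →
        Sat φ (fun _ => (Arith.zero : M'))) ∧ ∀ m, stD D N0 J M' m = τ m := by
  classical
  obtain ⟨C1, hC1⟩ : ∃ C1 : Fm → Prop, C1 = fun φ => Gam (N0 + p) φ ∧ φ.Bd 0 ∧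
    Sat φ (fun _ => (Arith.zero : M)) := ⟨_, rfl⟩
  obtain ⟨sg, hsg⟩ : ∃ sg : ℕ → ℕ → Fm, sg = fun m j => if j ≤ τ m then stF m j else .neg (stF m j) :=
    ⟨_, rfl⟩
  obtain ⟨Θ, hΘ⟩ : ∃ Θ : Set Fm, Θ = {φ | C1 φ ∨ ∃ m j, 1 ≤ j ∧ j ≤ J m ∧ φ = sg m j} := ⟨_, rfl⟩
  have hc := hcpt Θ ?_
  · obtain ⟨M', hA, hPA, v, hv⟩ := hc
    have hcl : ∀ φ, Gam (N0 + p) φ → φ.Bd 0 → Sat φ (fun _ => (Arith.zero : M)) →
        Sat φ (fun _ => (Arith.zero : M')) := by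
      intro φ h1 h2 h3
      have h4 : φ ∈ Θ := by
        rw [hΘ]
        left
        rw [hC1]
        exact ⟨h1, h2, h3⟩
      exact (sat_closed h2 _ _).1 (hv φ h4)
    have hG' : GdD D N0 J M' := pres hlev M M' hG hPA fun φ h1 h2 h3 => hcl φ (Gam.mono h1) h2 h3
    refine ⟨M', hA, hG', hcl, fun m => ?_⟩
    obtain ⟨-, d', hd', -⟩ := hG'
    rw [stD_eq hd']
    have key : ∀ j, 1 ≤ j → j ≤ J m → (j ≤ τ m ↔ j ≤ state N0 d' J m) := by
      intro j h1 h2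
      have h3 : sg m j ∈ Θ := by
        rw [hΘ]
        exact Or.inr ⟨m, j, h1, h2, rfl⟩
      have h4 := hv _ h3
      rw [hsg] at h4
      simp only at h4
      have h5 := (hstF m j h1 h2).2.2 M' hPA d' hd' v
      rw [← h5]
      split_ifs at h4 with h6
      · exact ⟨fun _ => h4, fun _ => h6⟩
      · exact ⟨fun h => absurd h h6, fun h => absurd h h4⟩
    apply le_antisymm
    · rcases Nat.eq_zero_or_pos (state N0 d' J m) with h0 | h0
      · rw [h0]; exact Nat.zero_le _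
      · exact (key _ h0 (state_le _ _ _ _)).2 le_rfl
    · rcases Nat.eq_zero_or_pos (τ m) with h0 | h0
      · rw [h0]; exact Nat.zero_le _
      · exact (key _ h0 (hτ m)).1 le_rfl
  · intro F hF
    have h1 : ∀ φ : Fm, ∃ N : ℕ, φ ∈ Θ → (C1 φ ∨ ∃ m j, m < N ∧ 1 ≤ j ∧ j ≤ J m ∧ φ = sg m j) := by
      intro φ
      by_cases h : φ ∈ Θ
      · have h' := h
        rw [hΘ] at h'
        rcases h' with h2 | ⟨m, j, h2, h3, h4⟩
        · exact ⟨0, fun _ => Or.inl h2⟩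
        · exact ⟨m + 1, fun _ => Or.inr ⟨m, j, Nat.lt_succ_self m, h2, h3, h4⟩⟩
      · exact ⟨0, fun h2 => absurd h2 h⟩
    choose Nf hNf using h1
    obtain ⟨M', hA, hPA, d', hd', hsat, hst⟩ := H (F.filter C1) (fun φ hφ => by
      have := (Finset.mem_filter.1 hφ).2
      rw [hC1] at this
      exact this) (F.sup Nf)
    refine ⟨M', hA, hPA, fun _ => Arith.zero, fun φ hφ => ?_⟩
    rcases hNf φ (hF hφ) with h2 | ⟨m, j, hm, h2, h3, h4⟩
    · exact hsat φ (Finset.mem_filter.2 ⟨hφ, h2⟩)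
    · have hm' : m < F.sup Nf := lt_of_lt_of_le hm (Finset.le_sup hφ)
      have h5 := (hstF m j h2 h3).2.2 M' hPA d' hd' (fun _ => Arith.zero)
      rw [hst m hm'] at h5
      rw [h4, hsg]
      simp only
      split_ifs with h6
      · exact h5.2 h6
      · intro h7
        exact h6 (h5.1 h7)

end P_SIDE

open P_SIDE in
theorem prf_side (halg : S_alg) (hcpt : S_cpt) (hflex : S_flexD) (hlev : S_lev) (hcx : S_cx)
    (hB : S_B) (hStart : S_Start) : S_side := by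
  classical
  have _ := halg
  obtain ⟨D, hD1, hflex⟩ := hflex
  obtain ⟨N0, hN0, hDef, hL⟩ := hlev D hD1
  refine ⟨N0, hN0, fun J hJ => ?_⟩
  have h1 : ∀ p j : ℕ, ∃ φ : Fm, 1 ≤ j → j ≤ J p → CxP D N0 J p j φ := by
    intro p j
    by_cases h : 1 ≤ j ∧ j ≤ J p
    · obtain ⟨φ, hφ⟩ := hcx D N0 J hN0 hD1 hDef p j h.1 h.2
      exact ⟨φ, fun _ _ => hφ⟩
    · exact ⟨.eq .zero .zero, fun h2 h3 => absurd ⟨h2, h3⟩ h⟩
  choose stF hstF using h1
  refine ⟨GdD D N0 J, stD D N0 J, stF, ?_⟩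
  refine
    { pa := fun M _ h => h.1
      sig := fun p j h2 h3 => ⟨(hstF p j h2 h3).1, (hstF p j h2 h3).2.1⟩
      stF := fun p j h2 h3 M _ hG v => ?_
      le := fun M _ p => stD_le D N0 J M p
      pres := fun M M' _ _ hG hPA h => pres hL M M' hG hPA h
      start := ?_
      step := fun p hp M _ hG hlt h0 => ?_ }
  · obtain ⟨hPA, d, hd, -⟩ := hG
    rw [stD_eq hd]
    exact (hstF p j h2 h3).2.2 M hPA d hd v
  · obtain ⟨M, hA, hPA, d, hd, hbits⟩ := hflex (rset D N0 J)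
    obtain ⟨M', hA', hG', -, hst⟩ := key hcpt hL stF hstF M ⟨hPA, d, hd, hbits⟩ 0
      (fun m => if m = 0 then 1 else 0) (fun m => by
        split_ifs with h
        · rw [h, hJ]
        · exact Nat.zero_le _) (fun F hF N => by
        obtain ⟨M', hA', hPA', d', hd', hs, h0, h2⟩ := hStart D N0 J M hN0 hJ hPA d ⟨hd, hbits⟩ F hF N
        refine ⟨M', hA', hPA', d', hd', hs, fun m hm => ?_⟩
        split_ifs with h
        · rw [h]; exact h0
        · exact h2 m (Nat.pos_of_ne_zero h) hm)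
    refine ⟨M', hA', hG', fun p hp => ?_⟩
    rw [hst]
    rw [if_neg (by omega)]
  · obtain ⟨hPA, d, hd, hbits⟩ := hG
    have hstd : ∀ m, stD D N0 J M m = state N0 d J m := fun m => stD_eq hd m
    obtain ⟨M', hA', hG', hcl, hst⟩ := key hcpt hL stF hstF M ⟨hPA, d, hd, hbits⟩ p
      (fun m => if m < p then state N0 d J m else if m = p then state N0 d J p + 1 else 0) (fun m => by
        split_ifs with h h'
        · exact state_le _ _ _ _
        · rw [h', ← hstd p]; exact hlt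
        · exact Nat.zero_le _) (fun F hF N => by
        obtain ⟨M', hA', hPA', d', hd', hs, hvec, h2, h3⟩ := hB D N0 J M hN0 hPA d ⟨hd, hbits⟩ p
          (by rw [← hstd p]; exact hlt) (fun m hm => by rw [← hstd m]; exact h0 m hm) F hF N
        refine ⟨M', hA', hPA', d', hd', hs, fun m hm => ?_⟩
        split_ifs with h h'
        · exact state_of_vec N0 d d' J p hvec m h
        · rw [h']; exact h2
        · exact h3 m (by omega) hm)
    refine ⟨M', hA', hG', hcl, fun m hm => ?_, ?_, fun m hm => ?_⟩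
    · rw [hst, hstd]
      rw [if_pos hm]
    · rw [hst, hstd]
      rw [if_neg (lt_irrefl p), if_pos rfl]
    · rw [hst]
      rw [if_neg (by omega), if_neg (by omega)]

end Pool.Agent.N636.SF
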