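import Pool.Agent.N636.SF.Stm

/-!
# Back and forth (S_T2) and moving conditions (S_move)

Both from compactness (`S_cpt`) and the fact that inequations are in `Gam 1` (`S_gam1`).
-/

set_option autoImplicit false

namespace Pool.Agent.N636.SF

namespace P_T2

theorem Gam_le {n m : ℕ} {φ : Fm} (h : Gam n φ) (hnm : n ≤ m) : Gam m φ := by
  induction hnm with
  | refl => exact h
  | step _ ih => exact Gam.up ih

/-- The classes `Gam n` are closed under substitution of variables. -/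
theorem Gam_subst {n : ℕ} {φ : Fm} (h : Gam n φ) :
    ∀ f : ℕ → ℕ, Gam n (φ.subst fun i => .var (f i)) := by
  induction h with
  | atom0 a b c e => intro f; exact Gam.atom0 _ _ _ _
  | atom1 a => intro f; exact Gam.atom1 _
  | up _ ih => intro f; exact Gam.up (ih f)
  | neg _ ih => intro f; exact Gam.neg (ih f)
  | and _ _ ih1 ih2 => intro f; exact Gam.and (ih1 f) (ih2 f)
  | @ex n φ _ ih =>
    intro f
    have h2 : upS (fun i => Tm.var (f i)) =
        fun i => Tm.var ((fun j => match j with | 0 => 0 | j + 1 => f j + 1) i) := by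
      funext i
      cases i with
      | zero => rfl
      | succ i => rfl
    have h3 : (Fm.ex φ).subst (fun i => .var (f i)) =
        Fm.ex (φ.subst (upS fun i => .var (f i))) := rfl
    rw [h3, h2]
    exact Gam.ex (ih _)

/-- Existential closure of the variables `≥ k`. -/
theorem closure {n : ℕ} (hn : 1 ≤ n) (k r : ℕ) : ∀ θ : Fm, Gam n θ → θ.Bd (k + r) →
    ∃ θ' : Fm, Gam n θ' ∧ θ'.Bd k ∧ ∀ (M : Type) [Arith M] (v : ℕ → M),
      Sat θ' v ↔ ∃ y : ℕ → M, Sat θ (fun j => if j < k then v j else y j) := by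
  induction r with
  | zero =>
    intro θ hθ hb
    refine ⟨θ, hθ, hb, fun M _ v => ?_⟩
    constructor
    · intro h
      exact ⟨v, (Sat_congr hb (fun i hi => by simp)).1 h⟩
    · rintro ⟨y, h⟩
      exact (Sat_congr hb (fun i hi => by
        have : i < k := hi
        simp [this])).1 h
  | succ r ih =>
    intro θ hθ hb
    obtain ⟨m, rfl⟩ : ∃ m, n = m + 1 := ⟨n - 1, by omega⟩
    have hg1 : Gam (m + 1)
        (Fm.ex (θ.subst fun j => .var ((fun j => if j < k + r then j + 1 else 0) j))) :=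
      Gam.ex (Gam_subst hθ _)
    have hb1 : (Fm.ex (θ.subst fun j => .var ((fun j => if j < k + r then j + 1 else 0) j))).Bd
        (k + r) := by
      have : (θ.subst fun j => .var ((fun j => if j < k + r then j + 1 else 0) j)).Bd
          (k + r + 1) := by
        refine Fm.Bd.subst (k := k + (r + 1)) hb fun i hi => ?_
        show (if i < k + r then i + 1 else 0) < k + r + 1
        split_ifs <;> omega
      exact this
    obtain ⟨θ', h1, h2, h3⟩ := ih _ hg1 hb1
    refine ⟨θ', h1, h2, fun M _ v => ?_⟩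
    rw [h3]
    constructor
    · rintro ⟨y, hy⟩
      rw [Sat_ex] at hy
      obtain ⟨a, ha⟩ := hy
      rw [Sat_subst] at ha
      refine ⟨fun j => if j < k + r then y j else a, ?_⟩
      refine (Sat_congr hb fun i hi => ?_).1 ha
      show cons a (fun j => if j < k then v j else y j) (if i < k + r then i + 1 else 0) = _
      by_cases h4 : i < k + r
      · simp only [h4, if_true]
        rfl
      · have h5 : ¬ i < k := by omega
        simp only [h4, h5, if_false]
        rfl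
    · rintro ⟨y, hy⟩
      refine ⟨y, ?_⟩
      rw [Sat_ex]
      refine ⟨y (k + r), ?_⟩
      rw [Sat_subst]
      refine (Sat_congr hb fun i hi => ?_).1 hy
      show _ = cons (y (k + r)) (fun j => if j < k then v j else y j)
        (if i < k + r then i + 1 else 0)
      by_cases h4 : i < k + r
      · simp only [h4, if_true]
        rfl
      · have h5 : ¬ i < k := by omega
        have h6 : i = k + r := by omega
        simp only [h4, h5, if_false]
        rw [h6]
        rfl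

/-- Finite conjunctions. -/
theorem conj {n : ℕ} (hn : 1 ≤ n) (k : ℕ) (F : Finset Fm) :
    (∀ φ ∈ F, Gam n φ ∧ φ.Bd k) → ∃ θ : Fm, Gam n θ ∧ θ.Bd k ∧
      ∀ (M : Type) [Arith M] (v : ℕ → M), Sat θ v ↔ ∀ φ ∈ F, Sat φ v := by
  classical
  obtain ⟨m, rfl⟩ : ∃ m, n = m + 1 := ⟨n - 1, by omega⟩
  induction F using Finset.induction_on with
  | empty =>
    intro _
    refine ⟨Fm.ex (.eq (.var 0) (.succ .zero)), Gam_le (Gam.ex (Gam.up (Gam.atom1 0))) hn, ?_, ?_⟩
    · exact ⟨Nat.succ_pos k, trivial⟩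
    · intro M _ v
      rw [Sat_ex]
      constructor
      · intro _ φ hφ
        simp at hφ
      · intro _
        exact ⟨Arith.succ Arith.zero, rfl⟩
  | insert φ F _ ih =>
    intro hF
    obtain ⟨θ, h1, h2, h3⟩ := ih fun ψ hψ => hF ψ (Finset.mem_insert_of_mem hψ)
    obtain ⟨h4, h5⟩ := hF φ (Finset.mem_insert_self _ _)
    refine ⟨.and φ θ, Gam.and h4 h1, ⟨h5, h2⟩, fun M _ v => ?_⟩
    show Sat φ v ∧ Sat θ v ↔ _
    rw [h3, Finset.forall_mem_insert]

end P_T2

open P_T2 in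
theorem prf_T2 (hcpt : S_cpt) (h1 : S_gam1) : S_T2 := by
  classical
  intro n p q q' hn hle hext
  have hpk : p.k ≤ q'.k := hle.1.trans hext.1
  obtain ⟨M, hM, hPA, v, hv⟩ := hcpt
    ({φ | φ.Bd p.k ∧ Sat φ p.a} ∪ {φ | Gam n φ ∧ φ.Bd q'.k ∧ Sat φ q'.a}) (by
      intro F hF
      obtain ⟨θ, ht1, ht2, ht3⟩ := conj hn q'.k
        (F.filter fun φ => Gam n φ ∧ φ.Bd q'.k ∧ Sat φ q'.a)
        (fun φ hφ => ⟨(Finset.mem_filter.1 hφ).2.1, (Finset.mem_filter.1 hφ).2.2.1⟩)
      obtain ⟨r, hr⟩ := Nat.exists_eq_add_of_le hpk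
      obtain ⟨θ', hs1, hs2, hs3⟩ := closure hn p.k r θ ht1 (hr ▸ ht2)
      have hq' : Sat θ' q'.a := by
        rw [hs3]
        refine ⟨q'.a, ?_⟩
        have : Sat θ q'.a := (ht3 _ _).2 fun φ hφ => (Finset.mem_filter.1 hφ).2.2.2
        exact (Sat_congr ht2 fun i _ => by simp).1 this
      have hq : Sat θ' q.a := (hext.2 θ' (hs2.mono hle.1)).2 hq'
      have hp : Sat θ' p.a := by
        by_contra hcon
        exact hle.2 (.neg θ') (Gam.neg hs1) hs2 hcon hq
      obtain ⟨y, hy⟩ := (hs3 _ _).1 hp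
      refine ⟨p.M, p.ar, p.pa, fun j => if j < p.k then p.a j else y j, fun φ hφ => ?_⟩
      rcases hF hφ with h | h
      · exact (Sat_congr h.1 fun i hi => by simp [hi]).1 h.2
      · exact (ht3 _ _).1 hy φ (Finset.mem_filter.2 ⟨hφ, h⟩))
  refine ⟨⟨M, hM, hPA, v, q'.k, ?_⟩, ⟨hpk, ?_⟩, ⟨le_rfl, ?_⟩⟩
  · intro i hi j hj hij
    by_contra hne
    obtain ⟨ψ, hg, hb, hiff⟩ := (h1 (.var i) (.var j) q'.k hi hj).2
    have h2 : Sat ψ q'.a := (hiff _ q'.pa _).1 fun h => hne (q'.inj i hi j hj h)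
    exact (hiff M hPA v).2 (hv ψ (Or.inr ⟨Gam_le hg hn, hb, h2⟩)) hij
  · intro φ hφ
    constructor
    · intro h
      exact hv φ (Or.inl ⟨hφ, h⟩)
    · intro h
      by_contra hcon
      exact hv (.neg φ) (Or.inl ⟨hφ, hcon⟩) h
  · intro φ hg hb hs
    exact hv φ (Or.inr ⟨hg, hb, hs⟩)

open P_T2 in
theorem prf_move (hcpt : S_cpt) (h1 : S_gam1) : S_move := by
  classical
  intro n p M' _ hn hPA' hM'
  obtain ⟨M, hM, hPA, v, hv⟩ := hcpt
    ({φ | Gam n φ ∧ φ.Bd p.k ∧ Sat φ p.a} ∪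
      {φ | φ.Bd 0 ∧ Sat φ (fun _ => (Arith.zero : M'))}) (by
      intro F hF
      obtain ⟨θ, ht1, ht2, ht3⟩ := conj hn p.k
        (F.filter fun φ => Gam n φ ∧ φ.Bd p.k ∧ Sat φ p.a)
        (fun φ hφ => ⟨(Finset.mem_filter.1 hφ).2.1, (Finset.mem_filter.1 hφ).2.2.1⟩)
      obtain ⟨θ', hs1, hs2, hs3⟩ := closure hn 0 p.k θ ht1 (by rwa [Nat.zero_add])
      have hp : Sat θ' (fun _ => (Arith.zero : p.M)) := by
        rw [hs3]
        refine ⟨p.a, ?_⟩
        have : Sat θ p.a := (ht3 _ _).2 fun φ hφ => (Finset.mem_filter.1 hφ).2.2.2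
        exact (Sat_congr ht2 fun i _ => by simp).1 this
      obtain ⟨y, hy⟩ := (hs3 _ _).1 (hM' θ' hs1 hs2 hp)
      refine ⟨M', inferInstance, hPA',
        fun j => if j < 0 then (fun _ : ℕ => (Arith.zero : M')) j else y j, fun φ hφ => ?_⟩
      rcases hF hφ with h | h
      · exact (ht3 _ _).1 hy φ (Finset.mem_filter.2 ⟨hφ, h⟩)
      · exact (Sat_congr h.1 fun i hi => absurd hi (Nat.not_lt_zero i)).1 h.2)
  refine ⟨⟨M, hM, hPA, v, p.k, ?_⟩, rfl, ⟨le_rfl, ?_⟩, ?_⟩
  · intro i hi j hj hij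
    by_contra hne
    obtain ⟨ψ, hg, hb, hiff⟩ := (h1 (.var i) (.var j) p.k hi hj).2
    have h2 : Sat ψ p.a := (hiff _ p.pa _).1 fun h => hne (p.inj i hi j hj h)
    exact (hiff M hPA v).2 (hv ψ (Or.inl ⟨Gam_le hg hn, hb, h2⟩)) hij
  · intro φ hg hb hs
    exact hv φ (Or.inl ⟨hg, hb, hs⟩)
  · intro φ hφ
    have h0 : Sat φ (fun _ => (Arith.zero : M)) ↔ Sat φ v :=
      Sat_congr hφ fun i hi => absurd hi (Nat.not_lt_zero i)
    show Sat φ (fun _ => (Arith.zero : M)) ↔ _
    rw [h0]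
    constructor
    · intro h
      by_contra hcon
      exact hv (.neg φ) (Or.inr ⟨hφ, hcon⟩) h
    · intro h
      exact hv φ (Or.inr ⟨hφ, h⟩)

end Pool.Agent.N636.SF
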