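import Pool.Agent.N636.SF.Std

/-!
# Truth tables for the classes `Gam n`
-/

set_option autoImplicit false

namespace Pool.Agent.N636.SF

namespace P_U1

/-- the number of an atomic formula -/
def cd5 (t a b c e : ℕ) : ℕ := prN (prN (prN (prN t a) b) c) e

theorem cd5_inj {t a b c e t' a' b' c' e' : ℕ} (h : cd5 t a b c e = cd5 t' a' b' c' e') :
    t = t' ∧ a = a' ∧ b = b' ∧ c = c' ∧ e = e' := by
  obtain ⟨h1, h5⟩ := prN_inj h
  obtain ⟨h1, h4⟩ := prN_inj h1
  obtain ⟨h1, h3⟩ := prN_inj h1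
  obtain ⟨h1, h2⟩ := prN_inj h1
  exact ⟨h1, h2, h3, h4, h5⟩

/-- local properties of sets of numbers -/
def Loc (P : (ℕ → Prop) → Prop) : Prop :=
  ∃ N, ∀ u u' : ℕ → Prop, (∀ l < N, (u l ↔ u' l)) → (P u ↔ P u')

theorem exists_PT {P : (ℕ → Prop) → Prop} (hP : Loc P) :
    ∃ i, ∀ (M : Type) [Arith M] (x : ℕ → M), P (atomX x) ↔ PT i x := by
  classical
  obtain ⟨N, hN⟩ := hP
  obtain ⟨F, hF⟩ : ∃ F : List (List ℕ),
    F = (List.range N).sublists.filter (fun S => decide (P fun l => l ∈ S)) := ⟨_, rfl⟩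
  have hFm : ∀ S, S ∈ F ↔ S.Sublist (List.range N) ∧ P fun l => l ∈ S := by
    intro S
    rw [hF, List.mem_filter, List.mem_sublists, decide_eq_true_iff]
  obtain ⟨k, hk⟩ : ∃ k, k = max N F.length := ⟨_, rfl⟩
  refine ⟨Encodable.encode (k, N, F), fun M _ x => ?_⟩
  have h1 : k ≤ Encodable.encode (k, N, F) := Nat.left_le_pair _ _
  have hk1 : N ≤ k := by rw [hk]; exact le_max_left _ _
  have hk2 : F.length ≤ k := by rw [hk]; exact le_max_right _ _
  have h2 : tt (Encodable.encode (k, N, F)) = (N, F) := by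
    unfold tt
    rw [Encodable.encodek]
    exact if_pos ⟨hk1.trans h1, hk2.trans h1⟩
  unfold PT
  rw [h2]
  constructor
  · intro h
    have h3 : ∀ l < N, (l ∈ (List.range N).filter (fun l => decide (atomX x l)) ↔
        atomX x l) := by
      intro l hl
      rw [List.mem_filter, List.mem_range, decide_eq_true_iff]
      exact ⟨fun h => h.2, fun h => ⟨hl, h⟩⟩
    refine ⟨(List.range N).filter (fun l => decide (atomX x l)), ?_, h3⟩
    exact (hFm _).2 ⟨List.filter_sublist, (hN _ _ h3).2 h⟩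
  · rintro ⟨S, hS, hSx⟩
    exact (hN _ _ hSx).1 ((hFm S).1 hS).2

theorem PT_loc (i : ℕ) : ∃ P : (ℕ → Prop) → Prop, Loc P ∧
    ∀ (M : Type) [Arith M] (x : ℕ → M), PT i x ↔ P (atomX x) := by
  refine ⟨fun u => ∃ S ∈ (tt i).2, ∀ l < (tt i).1, (l ∈ S ↔ u l), ⟨(tt i).1, ?_⟩,
    fun M _ x => Iff.rfl⟩
  intro u u' h
  constructor
  · rintro ⟨S, hS, hS'⟩
    exact ⟨S, hS, fun l hl => (hS' l hl).trans (h l hl)⟩
  · rintro ⟨S, hS, hS'⟩
    exact ⟨S, hS, fun l hl => (hS' l hl).trans (h l hl).symm⟩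

theorem Loc.subst {P : (ℕ → Prop) → Prop} (hP : Loc P) {q : ℕ → (ℕ → Prop) → Prop}
    (hq : ∀ l, Loc (q l)) : Loc fun u => P fun l => q l u := by
  obtain ⟨N, hN⟩ := hP
  choose m hm using hq
  refine ⟨(Finset.range N).sup m, fun u u' h => hN _ _ fun l hl => ?_⟩
  refine hm l u u' fun l' hl' => h l' (hl'.trans_le ?_)
  exact Finset.le_sup (Finset.mem_range.2 hl)

/-- the substitution of variables in the atomic formulas -/
theorem loc_ren (g : ℕ → ℕ) (l : ℕ) :
    Loc fun u => ∃ t a b c e, cd5 t a b c e = l ∧ u (cd5 t (g a) (g b) (g c) (g e)) := by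
  by_cases h : ∃ t a b c e, cd5 t a b c e = l
  · obtain ⟨t, a, b, c, e, rfl⟩ := h
    refine ⟨cd5 t (g a) (g b) (g c) (g e) + 1, fun u u' h => ?_⟩
    have h1 : ∀ u : ℕ → Prop, (∃ t' a' b' c' e', cd5 t' a' b' c' e' = cd5 t a b c e ∧
        u (cd5 t' (g a') (g b') (g c') (g e'))) ↔ u (cd5 t (g a) (g b) (g c) (g e)) := by
      intro u
      constructor
      · rintro ⟨t', a', b', c', e', h1, h2⟩
        obtain ⟨rfl, rfl, rfl, rfl, rfl⟩ := cd5_inj h1
        exact h2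
      · intro h2
        exact ⟨t, a, b, c, e, rfl, h2⟩
    show (∃ t' a' b' c' e', cd5 t' a' b' c' e' = cd5 t a b c e ∧
        u (cd5 t' (g a') (g b') (g c') (g e'))) ↔ (∃ t' a' b' c' e',
          cd5 t' a' b' c' e' = cd5 t a b c e ∧ u' (cd5 t' (g a') (g b') (g c') (g e')))
    rw [h1, h1]
    exact h _ (Nat.lt_succ_self _)
  · refine ⟨0, fun u u' _ => ?_⟩
    constructor
    · rintro ⟨t, a, b, c, e, h1, -⟩
      exact absurd ⟨t, a, b, c, e, h1⟩ h
    · rintro ⟨t, a, b, c, e, h1, -⟩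
      exact absurd ⟨t, a, b, c, e, h1⟩ h

theorem atomX_ren {M : Type} [Arith M] (x : ℕ → M) (g : ℕ → ℕ) (l : ℕ) :
    atomX (x ∘ g) l ↔ ∃ t a b c e, cd5 t a b c e = l ∧
      atomX x (cd5 t (g a) (g b) (g c) (g e)) := by
  constructor
  · rintro ⟨t, a, b, c, e, h1, h2⟩
    exact ⟨t, a, b, c, e, h1, t, g a, g b, g c, g e, rfl, h2⟩
  · rintro ⟨t, a, b, c, e, h1, t', a', b', c', e', h2, h3⟩
    obtain ⟨rfl, rfl, rfl, rfl, rfl⟩ := cd5_inj h2
    exact ⟨t', a, b, c, e, h1, h3⟩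

/-- the relation is given by a formula with `n` blocks -/
def IsV (n : ℕ) (R : URel) : Prop :=
  ∃ i, ∀ (M : Type) [Arith M] (x : ℕ → M), R M x ↔ Vb n i x

theorem isV0 {R : URel} : IsV 0 R ↔ ∃ P : (ℕ → Prop) → Prop, Loc P ∧
    ∀ (M : Type) [Arith M] (x : ℕ → M), R M x ↔ P (atomX x) := by
  constructor
  · rintro ⟨i, hi⟩
    obtain ⟨P, hP, h⟩ := PT_loc i
    exact ⟨P, hP, fun M _ x => (hi M x).trans (h M x)⟩
  · rintro ⟨P, hP, h⟩
    obtain ⟨i, hi⟩ := exists_PT hP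
    exact ⟨i, fun M _ x => (h M x).trans (hi M x)⟩

theorem isV_succ {n : ℕ} {R : URel} : IsV (n + 1) R ↔ ∃ R' : URel, IsV n R' ∧
    ∀ (M : Type) [Arith M] (x : ℕ → M), R M x ↔ ∃ y : ℕ → M, ¬ R' M (mrg x y) := by
  constructor
  · rintro ⟨i, hi⟩
    exact ⟨fun M _ x => Vb n i x, ⟨i, fun M _ x => Iff.rfl⟩, hi⟩
  · rintro ⟨R', ⟨i, hi⟩, h⟩
    refine ⟨i, fun M _ x => (h M x).trans ?_⟩
    exact exists_congr fun y => not_congr (hi M _)

theorem IsV.congr {n : ℕ} {R R' : URel} (h : IsV n R)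
    (hR : ∀ (M : Type) [Arith M] (x : ℕ → M), R' M x ↔ R M x) : IsV n R' := by
  obtain ⟨i, hi⟩ := h
  exact ⟨i, fun M _ x => (hR M x).trans (hi M x)⟩

/-- renaming of variables in a merged sequence -/
def g1 (g : ℕ → ℕ) : ℕ → ℕ := fun j => if j % 2 = 0 then 2 * g (j / 2) else j

theorem mrg_even {M : Type} (x y : ℕ → M) (j : ℕ) : mrg x y (2 * j) = x j := by
  unfold mrg
  rw [if_pos (by omega)]
  congr 1
  omega

theorem mrg_odd {M : Type} (x y : ℕ → M) (j : ℕ) : mrg x y (2 * j + 1) = y j := by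
  unfold mrg
  rw [if_neg (by omega)]
  congr 1
  omega

theorem seq_ext {M : Type} {x y : ℕ → M} (h0 : ∀ j, x (2 * j) = y (2 * j))
    (h1 : ∀ j, x (2 * j + 1) = y (2 * j + 1)) : x = y := by
  funext j
  rcases Nat.even_or_odd' j with ⟨k, rfl | rfl⟩
  · exact h0 k
  · exact h1 k

theorem mrg_ren {M : Type} (x y : ℕ → M) (g : ℕ → ℕ) :
    mrg (x ∘ g) y = (mrg x y) ∘ (g1 g) := by
  apply seq_ext
  · intro j
    rw [mrg_even, Function.comp_apply, Function.comp_apply]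
    have : g1 g (2 * j) = 2 * g j := by
      unfold g1
      rw [if_pos (by omega)]
      congr 2
      omega
    rw [this, mrg_even]
  · intro j
    rw [mrg_odd, Function.comp_apply]
    have : g1 g (2 * j + 1) = 2 * j + 1 := by
      unfold g1
      rw [if_neg (by omega)]
    rw [this, mrg_odd]

theorem IsV.ren {n : ℕ} : ∀ {R : URel}, IsV n R → ∀ g : ℕ → ℕ,
    IsV n (fun M _ x => R M (x ∘ g)) := by
  induction n with
  | zero =>
    intro R h g
    obtain ⟨P, hP, h⟩ := isV0.1 h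
    refine isV0.2 ⟨_, hP.subst (loc_ren g), fun M _ x => ?_⟩
    rw [h M (x ∘ g)]
    have : atomX (x ∘ g) = fun l => ∃ t a b c e, cd5 t a b c e = l ∧
      atomX x (cd5 t (g a) (g b) (g c) (g e)) := by
      funext l
      exact propext (atomX_ren x g l)
    rw [this]
  | succ n ih =>
    intro R h g
    obtain ⟨R', hR', h⟩ := isV_succ.1 h
    refine isV_succ.2 ⟨_, ih hR' (g1 g), fun M _ x => ?_⟩
    rw [h M (x ∘ g)]
    refine exists_congr fun y => ?_
    rw [mrg_ren]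

theorem IsV.andor {n : ℕ} : ∀ {R R' : URel}, IsV n R → IsV n R' →
    IsV n (fun M _ x => R M x ∧ R' M x) ∧ IsV n (fun M _ x => R M x ∨ R' M x) := by
  induction n with
  | zero =>
    intro R R' h h'
    obtain ⟨P, ⟨N, hN⟩, h⟩ := isV0.1 h
    obtain ⟨P', ⟨N', hN'⟩, h'⟩ := isV0.1 h'
    constructor
    · refine isV0.2 ⟨fun u => P u ∧ P' u, ⟨max N N', fun u u' hu => ?_⟩, fun M _ x => ?_⟩
      · exact and_congr (hN u u' fun l hl => hu l (hl.trans_le (le_max_left _ _)))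
          (hN' u u' fun l hl => hu l (hl.trans_le (le_max_right _ _)))
      · exact and_congr (h M x) (h' M x)
    · refine isV0.2 ⟨fun u => P u ∨ P' u, ⟨max N N', fun u u' hu => ?_⟩, fun M _ x => ?_⟩
      · exact or_congr (hN u u' fun l hl => hu l (hl.trans_le (le_max_left _ _)))
          (hN' u u' fun l hl => hu l (hl.trans_le (le_max_right _ _)))
      · exact or_congr (h M x) (h' M x)
  | succ n ih =>
    intro R R' h h'
    obtain ⟨B, hB, h⟩ := isV_succ.1 h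
    obtain ⟨B', hB', h'⟩ := isV_succ.1 h'
    constructor
    · obtain ⟨ge, hge⟩ : ∃ g : ℕ → ℕ, g = fun j => if j % 2 = 0 then j else 2 * j - 1 := ⟨_, rfl⟩
      obtain ⟨go, hgo⟩ : ∃ g : ℕ → ℕ, g = fun j => if j % 2 = 0 then j else 2 * j + 1 := ⟨_, rfl⟩
      refine isV_succ.2 ⟨_, (ih (hB.ren ge) (hB'.ren go)).2, fun M _ x => ?_⟩
      have e1 : ∀ z : ℕ → M, (mrg x z) ∘ ge = mrg x (fun j => z (2 * j)) := by
        intro z
        apply seq_ext
        · intro j
          rw [mrg_even, Function.comp_apply, hge]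
          simp only
          rw [if_pos (by omega), mrg_even]
        · intro j
          rw [mrg_odd, Function.comp_apply, hge]
          simp only
          rw [if_neg (by omega), show 2 * (2 * j + 1) - 1 = 2 * (2 * j) + 1 by omega, mrg_odd]
      have e2 : ∀ z : ℕ → M, (mrg x z) ∘ go = mrg x (fun j => z (2 * j + 1)) := by
        intro z
        apply seq_ext
        · intro j
          rw [mrg_even, Function.comp_apply, hgo]
          simp only
          rw [if_pos (by omega), mrg_even]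
        · intro j
          rw [mrg_odd, Function.comp_apply, hgo]
          simp only
          rw [if_neg (by omega), mrg_odd]
      show R M x ∧ R' M x ↔ ∃ z : ℕ → M, ¬ (B M ((mrg x z) ∘ ge) ∨ B' M ((mrg x z) ∘ go))
      rw [h M x, h' M x]
      constructor
      · rintro ⟨⟨y, hy⟩, ⟨y', hy'⟩⟩
        refine ⟨mrg y y', ?_⟩
        rw [e1, e2, not_or]
        have f1 : (fun j => mrg y y' (2 * j)) = y := funext fun j => mrg_even y y' j
        have f2 : (fun j => mrg y y' (2 * j + 1)) = y' := funext fun j => mrg_odd y y' j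
        rw [f1, f2]
        exact ⟨hy, hy'⟩
      · rintro ⟨z, hz⟩
        rw [e1, e2, not_or] at hz
        exact ⟨⟨_, hz.1⟩, ⟨_, hz.2⟩⟩
    · refine isV_succ.2 ⟨_, (ih hB hB').1, fun M _ x => ?_⟩
      show R M x ∨ R' M x ↔ ∃ z : ℕ → M, ¬ (B M (mrg x z) ∧ B' M (mrg x z))
      rw [h M x, h' M x, ← exists_or]
      exact exists_congr fun y => not_and_or.symm

theorem IsV.not {n : ℕ} {R : URel} (h : IsV n R) : IsV (n + 1) (fun M _ x => ¬ R M x) := by
  refine isV_succ.2 ⟨_, h.ren (fun j => 2 * j), fun M _ x => ?_⟩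
  have e : ∀ y : ℕ → M, (mrg x y) ∘ (fun j => 2 * j) = x := fun y =>
    funext fun j => mrg_even x y j
  show ¬ R M x ↔ ∃ y : ℕ → M, ¬ R M ((mrg x y) ∘ (fun j => 2 * j))
  simp only [e]
  exact ⟨fun h => ⟨x, h⟩, fun ⟨_, h⟩ => h⟩

theorem IsV.not0 {R : URel} (h : IsV 0 R) : IsV 0 (fun M _ x => ¬ R M x) := by
  obtain ⟨P, ⟨N, hN⟩, h⟩ := isV0.1 h
  exact isV0.2 ⟨fun u => ¬ P u, ⟨N, fun u u' hu => not_congr (hN u u' hu)⟩,
    fun M _ x => not_congr (h M x)⟩

theorem IsV.up {n : ℕ} : ∀ {R : URel}, IsV n R → IsV (n + 1) R := by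
  induction n with
  | zero =>
    intro R h
    exact (h.not0.not).congr fun M _ x => not_not.symm
  | succ n ih =>
    intro R h
    obtain ⟨B, hB, h⟩ := isV_succ.1 h
    exact isV_succ.2 ⟨B, ih hB, h⟩

theorem IsV.ex {n : ℕ} {R : URel} (h : IsV (n + 1) R) :
    IsV (n + 1) (fun M _ v => ∃ a : M, R M (cons a v)) := by
  obtain ⟨B, hB, h⟩ := isV_succ.1 h
  obtain ⟨g, hg⟩ : ∃ g : ℕ → ℕ, g = fun j => if j = 0 then 1 else if j % 2 = 0 then j - 2
    else j + 2 := ⟨_, rfl⟩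
  refine isV_succ.2 ⟨_, hB.ren g, fun M _ v => ?_⟩
  have e : ∀ z : ℕ → M, (mrg v z) ∘ g = mrg (cons (z 0) v) (fun j => z (j + 1)) := by
    intro z
    apply seq_ext
    · intro j
      rw [mrg_even, Function.comp_apply, hg]
      cases j with
      | zero =>
        show mrg v z (2 * 0 + 1) = z 0
        exact mrg_odd v z 0
      | succ j =>
        simp only
        rw [if_neg (by omega), if_pos (by omega), show 2 * (j + 1) - 2 = 2 * j by omega, mrg_even]
        rfl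
    · intro j
      rw [mrg_odd, Function.comp_apply, hg]
      simp only
      rw [if_neg (by omega), if_neg (by omega), show 2 * j + 1 + 2 = 2 * (j + 1) + 1 by omega,
        mrg_odd]
  show (∃ a : M, R M (cons a v)) ↔ ∃ z : ℕ → M, ¬ B M ((mrg v z) ∘ g)
  constructor
  · rintro ⟨a, ha⟩
    obtain ⟨y, hy⟩ := (h M _).1 ha
    refine ⟨cons a y, ?_⟩
    rw [e]
    exact hy
  · rintro ⟨z, hz⟩
    rw [e] at hz
    exact ⟨z 0, (h M _).2 ⟨_, hz⟩⟩

theorem isV_atom (l : ℕ) : IsV 0 (fun _ _ x => atomX x l) :=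
  isV0.2 ⟨fun u => u l, ⟨l + 1, fun _ _ h => h l (Nat.lt_succ_self l)⟩, fun _ _ _ => Iff.rfl⟩

theorem isV_gam {n : ℕ} {φ : Fm} (h : Gam n φ) : IsV n (fun _ _ v => Sat φ v) := by
  induction h with
  | atom0 a b c e =>
    refine (isV_atom (cd5 0 a b c e)).congr fun M _ x => ?_
    show Arith.add (Arith.mul (x a) (x b)) (x c) = x e ↔ _
    constructor
    · intro h
      exact ⟨0, a, b, c, e, rfl, Or.inl ⟨rfl, h⟩⟩
    · rintro ⟨t, a', b', c', e', h1, h2⟩
      obtain ⟨rfl, rfl, rfl, rfl, rfl⟩ := cd5_inj h1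
      rcases h2 with h2 | h2
      · exact h2.2
      · exact absurd h2.1 (by omega)
  | atom1 a =>
    refine (isV_atom (cd5 1 a 0 0 0)).congr fun M _ x => ?_
    show x a = Arith.succ Arith.zero ↔ _
    constructor
    · intro h
      exact ⟨1, a, 0, 0, 0, rfl, Or.inr ⟨rfl, h⟩⟩
    · rintro ⟨t, a', b', c', e', h1, h2⟩
      obtain ⟨rfl, rfl, rfl, rfl, rfl⟩ := cd5_inj h1
      rcases h2 with h2 | h2
      · exact absurd h2.1 (by omega)
      · exact h2.2
  | up _ ih => exact ih.up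
  | neg _ ih => exact ih.not
  | and _ _ ih ih' => exact (ih.andor ih').1
  | ex _ ih =>
    refine ih.ex.congr fun M _ v => ?_
    show ¬ (∀ a : M, ¬ Sat _ (cons a v)) ↔ ∃ a : M, Sat _ (cons a v)
    exact not_forall_not

end P_U1

/-- The members of `Gam n` are given by truth tables. -/
theorem prf_U1 : S_U1 := fun _ _ h => P_U1.isV_gam h

end Pool.Agent.N636.SF
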