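import Pool.Agent.N636.SF.Std

/-!
# Correctness of the truth predicates
-/

set_option autoImplicit false

namespace Pool.Agent.N636.SF

namespace P_U2

section order

variable {M : Type} [Arith M]

lemma std_of_lt (halg : S_alg) (hM : IsPA M) {x : M} {n : ℕ} (h : Lt x (num M n)) :
    ∃ m < n, x = num M m := by
  obtain ⟨_, _, _, _, h0, hs, ha, hm, hlt, hd, hn, hb⟩ := halg M hM
  rw [hlt, hn] at h
  obtain ⟨m, hm1, hm2⟩ := hb x n h
  exact ⟨m, hm1, by rw [hm2, hn]⟩

lemma num_lt (hM : IsPA M) {m n : ℕ} (h : m < n) : Lt (num M m) (num M n) := by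
  refine ⟨num M (n - m - 1), ?_⟩
  have e : n = m + ((n - m - 1) + 1) := by omega
  conv_rhs => rw [e]
  rw [num_add hM]
  rfl

lemma bet_le (halg : S_alg) (hM : IsPA M) {u w j z : M} (h : Bet u w j z) :
    Lt z (Arith.succ u) := by
  obtain ⟨_, _, _, _, h0, hs, ha, hm, hlt, hd, hn, hb⟩ := halg M hM
  obtain ⟨_, q, _, hq⟩ := h
  rw [ha] at hq
  rw [hlt, hs, ← hq]
  exact lt_of_le_of_lt le_add_self (lt_add_one _)

lemma lt_left (halg : S_alg) (hM : IsPA M) {x a b : M} (h : Lt x (Arith.succ a)) :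
    Lt x (Arith.succ (Arith.add a b)) := by
  obtain ⟨_, _, _, _, h0, hs, ha, hm, hlt, hd, hn, hb⟩ := halg M hM
  rw [hlt, hs] at h ⊢
  rw [ha]
  refine lt_of_lt_of_le h ?_
  gcongr
  exact le_self_add

lemma lt_right (halg : S_alg) (hM : IsPA M) {x a b : M} (h : Lt x (Arith.succ b)) :
    Lt x (Arith.succ (Arith.add a b)) := by
  obtain ⟨_, _, _, _, h0, hs, ha, hm, hlt, hd, hn, hb⟩ := halg M hM
  rw [hlt, hs] at h ⊢
  rw [ha]
  refine lt_of_lt_of_le h ?_
  gcongr
  exact le_add_self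

end order

section decode

variable {M : Type} [Arith M]

/-- the sequence given by a code -/
noncomputable def dec1 (hB : ∀ u w j : M, ∃! z, Bet u w j z) (u w : M) (j : ℕ) : M :=
  (hB u w (num M j)).choose

lemma dec1_iff (hB : ∀ u w j : M, ∃! z, Bet u w j z) (u w : M) (j : ℕ) (z : M) :
    Bet u w (num M j) z ↔ z = dec1 hB u w j := by
  have h := (hB u w (num M j)).choose_spec
  constructor
  · intro hz
    exact h.2 z hz
  · rintro rfl
    exact h.1

/-- the assignment given by a list of codes -/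
noncomputable def dec (hB : ∀ u w j : M, ∃! z, Bet u w j z) : List (M × M) → ℕ → M
  | [] => fun _ => Arith.zero
  | p :: s => mrg (dec hB s) (dec1 hB p.1 p.2)

lemma num_double (hM : IsPA M) (k : ℕ) : Arith.add (num M k) (num M k) = num M (k + k) :=
  (num_add hM k k).symm

lemma Vl_iff (halg : S_alg) (hM : IsPA M) (hB : ∀ u w j : M, ∃! z, Bet u w j z)
    (s : List (M × M)) : ∀ (j : ℕ) (z : M), Vl s (num M j) z ↔ z = dec hB s j := by
  induction s with
  | nil =>
    intro j z
    exact Iff.rfl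
  | cons p s ih =>
    intro j z
    have e : dec hB (p :: s) j = if j % 2 = 0 then dec hB s (j / 2) else dec1 hB p.1 p.2 (j / 2) :=
      rfl
    rw [e]
    constructor
    · rintro (⟨j', h1, h2, h3⟩ | ⟨j', h1, h2, h3⟩)
      · obtain ⟨k, hk, rfl⟩ := std_of_lt halg hM (n := j + 1) h1
        rw [num_double hM] at h2
        have h4 : k + k + 1 = j := num_inj hM (M := M) h2
        rw [dec1_iff hB] at h3
        have h5 : j % 2 ≠ 0 := by omega
        have h6 : j / 2 = k := by omega
        rw [if_neg h5, h6]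
        exact h3
      · obtain ⟨k, hk, rfl⟩ := std_of_lt halg hM (n := j + 1) h1
        rw [num_double hM] at h2
        have h4 : k + k = j := num_inj hM (M := M) h2
        rw [ih] at h3
        have h5 : j % 2 = 0 := by omega
        have h6 : j / 2 = k := by omega
        rw [if_pos h5, h6]
        exact h3
    · intro hz
      by_cases h5 : j % 2 = 0
      · rw [if_pos h5] at hz
        refine Or.inr ⟨num M (j / 2), num_lt hM (n := j + 1) (by omega), ?_, (ih _ _).2 hz⟩
        rw [num_double hM]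
        congr 1
        omega
      · rw [if_neg h5] at hz
        refine Or.inl ⟨num M (j / 2), num_lt hM (n := j + 1) (by omega), ?_,
          (dec1_iff hB _ _ _ _).2 hz⟩
        rw [num_double hM]
        show num M (j / 2 + j / 2 + 1) = num M j
        congr 1
        omega

lemma dec_lt (halg : S_alg) (hM : IsPA M) (hB : ∀ u w j : M, ∃! z, Bet u w j z)
    (s : List (M × M)) : ∀ j : ℕ, Lt (dec hB s j) (Arith.succ (Bs s)) := by
  induction s with
  | nil =>
    intro j
    show Lt (Arith.zero : M) (Arith.succ Arith.zero)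
    exact num_lt hM (M := M) (m := 0) (n := 1) one_pos
  | cons p s ih =>
    intro j
    have e : dec hB (p :: s) j = if j % 2 = 0 then dec hB s (j / 2) else dec1 hB p.1 p.2 (j / 2) :=
      rfl
    rw [e]
    show Lt _ (Arith.succ (Arith.add (Bs s) p.1))
    split_ifs
    · exact lt_left halg hM (ih _)
    · exact lt_right halg hM (bet_le halg hM ((dec1_iff hB _ _ _ _).2 rfl))

lemma prN_le (a b : ℕ) : a ≤ prN a b ∧ b ≤ prN a b := by
  unfold prN
  have h : a + b ≤ (a + b) * (a + b) := Nat.le_mul_self _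
  omega

lemma AtomL_iff (halg : S_alg) (hM : IsPA M) (hB : ∀ u w j : M, ∃! z, Bet u w j z)
    (s : List (M × M)) (l : ℕ) : AtomL s (num M l) ↔ atomX (dec hB s) l := by
  constructor
  · rintro ⟨ty, h1, a, h2, b, h3, c, h4, e, h5, h6, xa, _, xb, _, xc, _, xe, _, v1, v2, v3, v4, h7⟩
    obtain ⟨ty', _, rfl⟩ := std_of_lt halg hM (n := l + 1) h1
    obtain ⟨a', _, rfl⟩ := std_of_lt halg hM (n := l + 1) h2
    obtain ⟨b', _, rfl⟩ := std_of_lt halg hM (n := l + 1) h3
    obtain ⟨c', _, rfl⟩ := std_of_lt halg hM (n := l + 1) h4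
    obtain ⟨e', _, rfl⟩ := std_of_lt halg hM (n := l + 1) h5
    rw [← num_pr hM, ← num_pr hM, ← num_pr hM, ← num_pr hM] at h6
    rw [Vl_iff halg hM hB] at v1 v2 v3 v4
    subst v1 v2 v3 v4
    refine ⟨ty', a', b', c', e', num_inj hM h6, ?_⟩
    rcases h7 with ⟨h8, h9⟩ | ⟨h8, h9⟩
    · exact Or.inl ⟨num_inj hM (b := 0) h8, h9⟩
    · exact Or.inr ⟨num_inj hM (b := 1) h8, h9⟩
  · rintro ⟨ty, a, b, c, e, h6, h7⟩
    have k1 := prN_le (prN (prN (prN ty a) b) c) e
    have k2 := prN_le (prN (prN ty a) b) c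
    have k3 := prN_le (prN ty a) b
    have k4 := prN_le ty a
    rw [h6] at k1
    refine ⟨num M ty, num_lt hM (n := l + 1) (by omega), num M a, num_lt hM (n := l + 1) (by omega),
      num M b, num_lt hM (n := l + 1) (by omega), num M c, num_lt hM (n := l + 1) (by omega),
      num M e, num_lt hM (n := l + 1) (by omega), ?_,
      dec hB s a, dec_lt halg hM hB s a, dec hB s b, dec_lt halg hM hB s b,
      dec hB s c, dec_lt halg hM hB s c, dec hB s e, dec_lt halg hM hB s e,
      (Vl_iff halg hM hB s _ _).2 rfl, (Vl_iff halg hM hB s _ _).2 rfl,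
      (Vl_iff halg hM hB s _ _).2 rfl, (Vl_iff halg hM hB s _ _).2 rfl, ?_⟩
    · rw [← num_pr hM, ← num_pr hM, ← num_pr hM, ← num_pr hM, h6]
    · rcases h7 with ⟨h8, h9⟩ | ⟨h8, h9⟩
      · exact Or.inl ⟨by rw [h8]; rfl, h9⟩
      · exact Or.inr ⟨by rw [h8]; rfl, h9⟩

lemma tt_le (i : ℕ) : (tt i).1 ≤ i ∧ (tt i).2.length ≤ i := by
  unfold tt
  split
  · split_ifs with h
    · exact h
    · exact ⟨Nat.zero_le _, Nat.zero_le _⟩
  · exact ⟨Nat.zero_le _, Nat.zero_le _⟩

lemma T0_iff (halg : S_alg) (hM : IsPA M) (hB : ∀ u w j : M, ∃! z, Bet u w j z) (d : M)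
    (hd : ∀ i c l b : ℕ, Bit d (num M (prN 0 (prN (prN (prN i c) l) b))) ↔ TabP i c l b)
    (i : ℕ) (s : List (M × M)) : T0 d (num M i) s ↔ PT i (dec hB s) := by
  have hbit : ∀ c l b : ℕ, Bit d (pr Arith.zero (pr (pr (pr (num M i) (num M c)) (num M l))
      (num M b))) ↔ TabP i c l b := by
    intro c l b
    rw [← hd, num_pr hM, num_pr hM, num_pr hM, num_pr hM]
    rfl
  have h0 : ∀ c l : ℕ, Bit d (pr Arith.zero (pr (pr (pr (num M i) (num M c)) (num M l))
      Arith.zero)) ↔ TabP i c l 0 := fun c l => hbit c l 0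
  have h1 : ∀ c l : ℕ, Bit d (pr Arith.zero (pr (pr (pr (num M i) (num M c)) (num M l))
      (Arith.succ Arith.zero))) ↔ TabP i c l 1 := fun c l => hbit c l 1
  have htt := tt_le i
  constructor
  · rintro ⟨c, hc, hl⟩
    obtain ⟨c', hc', rfl⟩ := std_of_lt halg hM hc
    rcases hF : (tt i).2[c']? with _ | S
    · exfalso
      have h2 := hl (num M 0) (num_lt hM (by omega))
      rw [h0, h1] at h2
      exact h2.2 (Or.inr ⟨hF, rfl, Or.inr rfl⟩) (h2.1 (Or.inr ⟨hF, rfl, Or.inl rfl⟩))
    · refine ⟨S, List.mem_of_getElem? hF, fun l hlN => ?_⟩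
      have h2 := hl (num M l) (num_lt hM (by omega))
      rw [h0, h1, AtomL_iff halg hM hB] at h2
      constructor
      · intro hlS
        exact h2.1 (Or.inl ⟨S, hF, hlN, Or.inl ⟨rfl, hlS⟩⟩)
      · intro ha
        by_contra hlS
        exact h2.2 (Or.inl ⟨S, hF, hlN, Or.inr ⟨rfl, hlS⟩⟩) ha
  · rintro ⟨S, hS, hl⟩
    obtain ⟨c', hc', hF⟩ := List.getElem_of_mem hS
    have hF' : (tt i).2[c']? = some S := by
      rw [List.getElem?_eq_getElem hc', hF]
    refine ⟨num M c', num_lt hM (by omega), fun l hlt => ?_⟩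
    obtain ⟨l', hl', rfl⟩ := std_of_lt halg hM hlt
    rw [h0, h1, AtomL_iff halg hM hB]
    constructor
    · rintro (⟨S', hS', hlN, hh⟩ | ⟨hn, _⟩)
      · rw [hF'] at hS'
        obtain rfl := Option.some.inj hS'
        rcases hh with ⟨_, hh⟩ | ⟨hh, _⟩
        · exact (hl l' hlN).1 hh
        · exact absurd hh (by norm_num)
      · rw [hF'] at hn
        exact absurd hn (by simp)
    · rintro (⟨S', hS', hlN, hh⟩ | ⟨hn, _⟩)
      · rw [hF'] at hS'
        obtain rfl := Option.some.inj hS'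
        rcases hh with ⟨hh, _⟩ | ⟨_, hh⟩
        · exact absurd hh (by norm_num)
        · exact fun ha => hh ((hl l' hlN).2 ha)
      · rw [hF'] at hn
        exact absurd hn (by simp)

end decode

section local_

variable {M : Type} [Arith M]

lemma atomX_congr {x x' : ℕ → M} {N l : ℕ} (h : ∀ j < N, x j = x' j) (hl : l < N) :
    atomX x l → atomX x' l := by
  rintro ⟨ty, a, b, c, e, h6, h7⟩
  have k1 := prN_le (prN (prN (prN ty a) b) c) e
  have k2 := prN_le (prN (prN ty a) b) c
  have k3 := prN_le (prN ty a) b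
  have k4 := prN_le ty a
  rw [h6] at k1
  refine ⟨ty, a, b, c, e, h6, ?_⟩
  rw [← h a (by omega), ← h b (by omega), ← h c (by omega), ← h e (by omega)]
  exact h7

lemma Vb_congr (i n : ℕ) : ∀ x x' : ℕ → M, (∀ j < (tt i).1, x j = x' j) →
    (Vb n i x ↔ Vb n i x') := by
  induction n with
  | zero =>
    intro x x' h
    have hat : ∀ l < (tt i).1, (atomX x l ↔ atomX x' l) := fun l hl =>
      ⟨atomX_congr h hl, atomX_congr (fun j hj => (h j hj).symm) hl⟩
    constructor
    · rintro ⟨S, hS, hl⟩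
      exact ⟨S, hS, fun l hlN => (hl l hlN).trans (hat l hlN)⟩
    · rintro ⟨S, hS, hl⟩
      exact ⟨S, hS, fun l hlN => (hl l hlN).trans (hat l hlN).symm⟩
  | succ n ih =>
    intro x x' h
    refine exists_congr fun y => not_congr (ih _ _ fun j hj => ?_)
    unfold mrg
    split_ifs
    · exact h _ (by omega)
    · rfl

end local_

lemma Tb_iff (halg : S_alg) {M : Type} [Arith M] (hM : IsPA M)
    (hB : ∀ u w j : M, ∃! z, Bet u w j z)
    (hC : ∀ (N : ℕ) (y : ℕ → M), ∃ u w : M, ∀ j < N, Bet u w (num M j) (y j)) (d : M)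
    (hd : ∀ i c l b : ℕ, Bit d (num M (prN 0 (prN (prN (prN i c) l) b))) ↔ TabP i c l b)
    (i n : ℕ) : ∀ s : List (M × M), Tb n d (num M i) s ↔ Vb n i (dec hB s) := by
  induction n with
  | zero => exact fun s => T0_iff halg hM hB d hd i s
  | succ n ih =>
    intro s
    constructor
    · rintro ⟨u, w, h⟩
      rw [ih] at h
      exact ⟨dec1 hB u w, h⟩
    · rintro ⟨y, h⟩
      obtain ⟨u, w, huw⟩ := hC (tt i).1 y
      refine ⟨u, w, ?_⟩
      rw [ih]
      intro h2
      apply h
      refine (Vb_congr i n _ _ fun j hj => ?_).1 h2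
      show mrg (dec hB s) (dec1 hB u w) j = mrg (dec hB s) y j
      unfold mrg
      split_ifs
      · rfl
      · exact ((dec1_iff hB u w (j / 2) (y (j / 2))).1 (huw (j / 2) (by omega))).symm

end P_U2

open P_U2 in
theorem prf_U2 (halg : S_alg) (hb : S_beta) : S_U2 := by
  intro M _ hM d hd n i
  obtain ⟨hB, hC⟩ := hb M hM
  exact Tb_iff halg hM hB hC d hd i n []

end Pool.Agent.N636.SF
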