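import Pool.Agent.N636.SF.Stm1
import Pool.Agent.N636.SF.Std

/-!
# The function `W` from the recursion theorem (helper99, task SF/W)
-/

set_option autoImplicit false

namespace Pool.Agent.N636.SF

namespace P_W

open Encodable

/-! ### bounded quantifiers over computable predicates -/

theorem ball_comp {α : Type*} [Primcodable α] {f : α → ℕ} {p : α → ℕ → Bool}
    (hf : Computable f) (hp : Computable₂ p) :
    Computable fun a => decide (∀ i < f a, p a i = true) := by
  have h : Computable fun a => (Nat.rec true (fun y IH => IH && p a y) (f a) : Bool) := by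
    refine Computable.nat_rec (h := fun a (q : ℕ × Bool) => q.2 && p a q.1) hf
      (Computable.const true) ?_
    exact (Primrec.and.to_comp).comp (Computable.snd.comp Computable.snd)
      (hp.comp Computable.fst (Computable.fst.comp Computable.snd))
  refine h.of_eq fun a => ?_
  generalize f a = n
  induction n with
  | zero => simp
  | succ n ih =>
    simp only
    rw [ih, Bool.eq_iff_iff]
    simp only [Bool.and_eq_true, decide_eq_true_eq]
    constructor
    · rintro ⟨h1, h2⟩ i hi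
      rcases Nat.lt_succ_iff_lt_or_eq.1 hi with h3 | rfl
      · exact h1 i h3
      · exact h2
    · exact fun h1 => ⟨fun i hi => h1 i (by omega), h1 n (by omega)⟩

theorem bex_comp {α : Type*} [Primcodable α] {f : α → ℕ} {p : α → ℕ → Bool}
    (hf : Computable f) (hp : Computable₂ p) :
    Computable fun a => decide (∃ i < f a, p a i = true) := by
  have h1 : Computable₂ fun (a : α) (i : ℕ) => !(p a i) := Primrec.not.to_comp.comp hp
  refine (Primrec.not.to_comp.comp (ball_comp hf h1)).of_eq fun a => ?_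
  rw [Bool.eq_iff_iff]
  simp

/-! ### good lists form a computable predicate -/

theorem sub_primrec : Primrec (List.sublists' : List ℕ → List (List ℕ)) := by
  have h : Primrec fun l : List ℕ =>
      List.foldr (fun (b : ℕ) (s : List (List ℕ)) => s ++ s.map (List.cons b)) [[]] l := by
    refine Primrec.list_foldr (h := fun (_ : List ℕ) (q : ℕ × List (List ℕ)) =>
      q.2 ++ q.2.map (List.cons q.1)) Primrec.id (Primrec.const [[]]) ?_
    refine Primrec.list_append.comp (Primrec.snd.comp Primrec.snd) ?_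
    refine Primrec.list_map (Primrec.snd.comp Primrec.snd) ?_
    exact Primrec.list_cons.comp (Primrec.fst.comp (Primrec.snd.comp Primrec.fst)) Primrec.snd
  refine h.of_eq fun l => ?_
  induction l with
  | nil => rfl
  | cons a l ih => rw [List.foldr_cons, ih, List.sublists'_cons]

/-- the sublist with a given number -/
def zz (q : (List ℕ × ℕ) × ℕ) : List ℕ := (List.sublists' (q.1.1.drop (q.1.2 + 1))).getD q.2 []

theorem zz_primrec : Primrec zz := by
  unfold zz
  refine (Primrec.list_getD ([] : List ℕ)).comp (sub_primrec.comp (Primrec.list_drop.comp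
    (Primrec.succ.comp (Primrec.snd.comp Primrec.fst)) (Primrec.fst.comp Primrec.fst))) Primrec.snd

abbrev A : Type := (ℕ × ℕ) × List ℕ

def M1 (a : A) (i : ℕ) : Bool := decide (a.1.2 < a.2.getD i 0)

def M2 (a : A) (i : ℕ) : Bool := !(decide (i + 1 < a.2.length)) ||
  decide ((a.2.getD i 0 + 2) * (a.2.getD i 0 + 2) < a.2.getD (i + 1) 0)

def M3 (U : ℕ → ℕ → ℕ) (q : (((A × ℕ) × ℕ) × ℕ) × ℕ) (k' : ℕ) : Bool :=
  !(decide ((zz ((q.1.1.1.1.2, q.1.1.2), q.2)).length =
    (zz ((q.1.1.1.1.2, q.1.1.2), k')).length)) ||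
  decide (min (U q.1.1.1.2 (Nat.pair q.1.2 (encode (zz ((q.1.1.1.1.2, q.1.1.2), q.2))))) 1 =
    min (U q.1.1.1.2 (Nat.pair q.1.2 (encode (zz ((q.1.1.1.1.2, q.1.1.2), k'))))) 1)

theorem M1_comp : Computable₂ M1 := by
  refine Primrec.to_comp ?_
  exact Primrec.nat_lt.decide.comp (Primrec.snd.comp (Primrec.fst.comp Primrec.fst))
    ((Primrec.list_getD 0).comp (Primrec.snd.comp Primrec.fst) Primrec.snd)

theorem M2_comp : Computable₂ M2 := by
  refine Primrec.to_comp ?_
  have h1 : Primrec fun p : A × ℕ => p.1.2.getD p.2 0 :=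
    (Primrec.list_getD 0).comp (Primrec.snd.comp Primrec.fst) Primrec.snd
  have h2 : Primrec fun p : A × ℕ => p.1.2.getD (p.2 + 1) 0 :=
    (Primrec.list_getD 0).comp (Primrec.snd.comp Primrec.fst) (Primrec.succ.comp Primrec.snd)
  have h3 : Primrec fun p : A × ℕ => p.1.2.getD p.2 0 + 2 :=
    Primrec.nat_add.comp h1 (Primrec.const 2)
  refine Primrec.or.comp (Primrec.not.comp (Primrec.nat_lt.decide.comp
    (Primrec.succ.comp Primrec.snd) (Primrec.list_length.comp (Primrec.snd.comp Primrec.fst)))) ?_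
  exact Primrec.nat_lt.decide.comp (Primrec.nat_mul.comp h3 h3) h2

theorem M3_comp {U : ℕ → ℕ → ℕ} (hU : Computable₂ U) : Computable₂ (M3 U) := by
  have hi : Primrec fun p : ((((A × ℕ) × ℕ) × ℕ) × ℕ) × ℕ => (p.1.1.1.1.1.2, p.1.1.1.2) :=
    Primrec.pair (Primrec.snd.comp (Primrec.fst.comp (Primrec.fst.comp (Primrec.fst.comp
      (Primrec.fst.comp Primrec.fst))))) (Primrec.snd.comp (Primrec.fst.comp (Primrec.fst.comp
        Primrec.fst)))
  have hz : Primrec fun p : ((((A × ℕ) × ℕ) × ℕ) × ℕ) × ℕ =>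
      zz ((p.1.1.1.1.1.2, p.1.1.1.2), p.1.2) :=
    zz_primrec.comp (Primrec.pair hi (Primrec.snd.comp Primrec.fst))
  have hz' : Primrec fun p : ((((A × ℕ) × ℕ) × ℕ) × ℕ) × ℕ =>
      zz ((p.1.1.1.1.1.2, p.1.1.1.2), p.2) :=
    zz_primrec.comp (Primrec.pair hi Primrec.snd)
  have hp : Primrec fun p : ((((A × ℕ) × ℕ) × ℕ) × ℕ) × ℕ => p.1.1.2 :=
    Primrec.snd.comp (Primrec.fst.comp Primrec.fst)
  have he : Primrec fun p : ((((A × ℕ) × ℕ) × ℕ) × ℕ) × ℕ => p.1.1.1.1.2 :=
    Primrec.snd.comp (Primrec.fst.comp (Primrec.fst.comp (Primrec.fst.comp Primrec.fst)))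
  have hU1 : Computable fun p : ((((A × ℕ) × ℕ) × ℕ) × ℕ) × ℕ =>
      min (U p.1.1.1.1.2 (Nat.pair p.1.1.2 (encode (zz ((p.1.1.1.1.1.2, p.1.1.1.2), p.1.2))))) 1 :=
    Primrec.nat_min.to_comp.comp (hU.comp he.to_comp
      (Primrec₂.natPair.comp hp (Primrec.encode.comp hz)).to_comp) (Computable.const 1)
  have hU2 : Computable fun p : ((((A × ℕ) × ℕ) × ℕ) × ℕ) × ℕ =>
      min (U p.1.1.1.1.2 (Nat.pair p.1.1.2 (encode (zz ((p.1.1.1.1.1.2, p.1.1.1.2), p.2))))) 1 :=
    Primrec.nat_min.to_comp.comp (hU.comp he.to_comp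
      (Primrec₂.natPair.comp hp (Primrec.encode.comp hz')).to_comp) (Computable.const 1)
  exact Primrec.or.to_comp.comp
    (Primrec.not.comp (Primrec.eq.decide.comp (Primrec.list_length.comp hz)
      (Primrec.list_length.comp hz'))).to_comp
    ((Primrec.eq (α := ℕ)).decide.to_comp.comp hU1 hU2)

/-- good lists, as a function -/
def gB (U : ℕ → ℕ → ℕ) (a : A) : Bool :=
  (decide (a.2.length = a.1.1 + 1) && decide (∀ i < a.2.length, M1 a i = true)) &&
  (decide (∀ i < a.2.length, M2 a i = true) &&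
  decide (∀ e < a.1.1, decide (∀ i < a.2.length, decide (∀ p < a.2.getD i 0,
    decide (∀ k < (List.sublists' (a.2.drop (i + 1))).length,
      decide (∀ k' < (List.sublists' (a.2.drop (i + 1))).length,
        M3 U ((((a, e), i), p), k) k' = true) = true) = true) = true) = true))

theorem gB_comp {U : ℕ → ℕ → ℕ} (hU : Computable₂ U) : Computable (gB U) := by
  have hlen : Computable fun a : A => a.2.length :=
    (Primrec.list_length.comp Primrec.snd).to_comp
  have h1 : Computable fun a : A => decide (a.2.length = a.1.1 + 1) :=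
    (Primrec.eq.decide.comp (Primrec.list_length.comp Primrec.snd)
      (Primrec.succ.comp (Primrec.fst.comp Primrec.fst))).to_comp
  have hl3 : Computable fun q : (((A × ℕ) × ℕ) × ℕ) =>
      (List.sublists' (q.1.1.1.2.drop (q.1.2 + 1))).length :=
    (Primrec.list_length.comp (sub_primrec.comp (Primrec.list_drop.comp
      (Primrec.succ.comp (Primrec.snd.comp Primrec.fst))
      (Primrec.snd.comp (Primrec.fst.comp (Primrec.fst.comp Primrec.fst)))))).to_comp
  have hl4 : Computable fun q : (((A × ℕ) × ℕ) × ℕ) × ℕ =>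
      (List.sublists' (q.1.1.1.1.2.drop (q.1.1.2 + 1))).length := hl3.comp Computable.fst
  have s1 : Computable₂ fun (q : (((A × ℕ) × ℕ) × ℕ)) (k : ℕ) =>
      decide (∀ k' < (List.sublists' (q.1.1.1.2.drop (q.1.2 + 1))).length,
        M3 U (q, k) k' = true) := ball_comp hl4 (M3_comp hU)
  have s2 : Computable₂ fun (q : (A × ℕ) × ℕ) (p : ℕ) =>
      decide (∀ k < (List.sublists' (q.1.1.2.drop (q.2 + 1))).length,
        decide (∀ k' < (List.sublists' (q.1.1.2.drop (q.2 + 1))).length,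
          M3 U ((q, p), k) k' = true) = true) := ball_comp hl3 s1
  have hg : Computable fun q : (A × ℕ) × ℕ => q.1.1.2.getD q.2 0 :=
    ((Primrec.list_getD 0).comp (Primrec.snd.comp (Primrec.fst.comp Primrec.fst))
      Primrec.snd).to_comp
  have s3 : Computable₂ fun (q : A × ℕ) (i : ℕ) =>
      decide (∀ p < q.1.2.getD i 0,
        decide (∀ k < (List.sublists' (q.1.2.drop (i + 1))).length,
          decide (∀ k' < (List.sublists' (q.1.2.drop (i + 1))).length,
            M3 U (((q, i), p), k) k' = true) = true) = true) := ball_comp hg s2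
  have s4 : Computable₂ fun (a : A) (e : ℕ) => decide (∀ i < a.2.length,
      decide (∀ p < a.2.getD i 0,
        decide (∀ k < (List.sublists' (a.2.drop (i + 1))).length,
          decide (∀ k' < (List.sublists' (a.2.drop (i + 1))).length,
            M3 U ((((a, e), i), p), k) k' = true) = true) = true) = true) :=
    ball_comp (hlen.comp Computable.fst) s3
  exact Primrec.and.to_comp.comp
    (Primrec.and.to_comp.comp h1 (ball_comp hlen M1_comp))
    (Primrec.and.to_comp.comp (ball_comp hlen M2_comp)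
      (ball_comp (Computable.fst.comp Computable.fst) s4))

theorem gB_iff (U : ℕ → ℕ → ℕ) (x s : ℕ) (c : List ℕ) :
    gB U ((x, s), c) = true ↔ GoodL U x s c := by
  unfold gB GoodL
  simp only [Bool.and_eq_true, decide_eq_true_eq, M1, M2, M3, Bool.or_eq_true, Bool.not_eq_true',
    decide_eq_false_iff_not, and_assoc]
  refine and_congr Iff.rfl (and_congr Iff.rfl (and_congr ?_ ?_))
  · constructor
    · intro h i hi
      exact (h i (by omega)).resolve_left (fun h => h hi)
    · intro h i _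
      by_cases hi : i + 1 < c.length
      · exact Or.inr (h i hi)
      · exact Or.inl hi
  · refine forall₂_congr fun e he => forall₂_congr fun i hi => forall₂_congr fun p hp => ?_
    constructor
    · intro h z z' hz hz' hl
      rw [← List.mem_sublists', List.mem_iff_getElem] at hz hz'
      obtain ⟨k, hk, rfl⟩ := hz
      obtain ⟨k', hk', rfl⟩ := hz'
      have h1 := h k hk k' hk'
      simp only [zz] at h1
      rw [List.getD_eq_getElem _ _ hk, List.getD_eq_getElem _ _ hk'] at h1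
      exact h1.resolve_left (fun h => h hl)
    · intro h k hk k' hk'
      simp only [zz]
      rw [List.getD_eq_getElem _ _ hk, List.getD_eq_getElem _ _ hk']
      by_cases hl : (List.sublists' (c.drop (i + 1)))[k].length =
          (List.sublists' (c.drop (i + 1)))[k'].length
      · exact Or.inr (h _ _ (List.mem_sublists'.1 (List.getElem_mem hk))
          (List.mem_sublists'.1 (List.getElem_mem hk')) hl)
      · exact Or.inl hl

/-- the search for a good list -/
def GS (U : ℕ → ℕ → ℕ) (q : ℕ × ℕ) : Part ℕ :=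
  Nat.rfind fun n => Part.some (gB U (q, Denumerable.ofNat (List ℕ) n))

theorem GS_partrec {U : ℕ → ℕ → ℕ} (hU : Computable₂ U) : Partrec (GS U) := by
  refine Partrec.rfind ?_
  exact ((gB_comp hU).comp (Computable.pair Computable.fst
    ((Computable.ofNat (List ℕ)).comp Computable.snd))).partrec

theorem GS_dom (hgood : S_good) (U : ℕ → ℕ → ℕ) (x s : ℕ) : (GS U (x, s)).Dom := by
  rw [GS, Nat.rfind_dom]
  obtain ⟨c, hc⟩ := hgood U x s
  refine ⟨encode c, ?_, fun _ => trivial⟩
  rw [Denumerable.ofNat_encode, Part.mem_some_iff]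
  exact ((gB_iff U x s c).2 hc).symm

theorem GS_mem {U : ℕ → ℕ → ℕ} {x s n : ℕ} (h : n ∈ GS U (x, s)) :
    GoodL U x s (Denumerable.ofNat (List ℕ) n) := by
  have h1 := (Nat.mem_rfind.1 h).1
  rw [Part.mem_some_iff] at h1
  exact (gB_iff U x s _).1 h1.symm

theorem mem_lt_encode (l : List ℕ) : ∀ a ∈ l, a < encode l := by
  induction l with
  | nil => intro a ha; simp at ha
  | cons b l ih =>
    intro a ha
    rw [Encodable.encode_list_cons]
    rcases List.mem_cons.1 ha with rfl | ha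
    · exact Nat.lt_succ_of_le (Nat.left_le_pair _ _)
    · exact Nat.lt_succ_of_le ((ih a ha).le.trans (Nat.right_le_pair _ _))

/-! ### the universal function and the bounded search -/

/-- the universal function -/
def uf (z : ℕ) : Part ℕ :=
  (Denumerable.ofNat Nat.Partrec.Code z.unpair.1).eval z.unpair.2

theorem uf_partrec : Nat.Partrec uf := by
  rw [← Partrec.nat_iff]
  exact Nat.Partrec.Code.eval_part.comp
    ((Computable.ofNat Nat.Partrec.Code).comp (Computable.fst.comp Computable.unpair))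
    (Computable.snd.comp Computable.unpair)

open Classical in
/-- the value and the witness are bounded by `w` -/
noncomputable def bB (δ : Fm) (q : ℕ × ℕ) : Bool :=
  decide (∃ y < q.2 + 1, decide (∃ a < q.2 + 1, decide (SatN δ (v3 q.1 y a)) = true) = true)

theorem bB_iff (δ : Fm) (z w : ℕ) :
    bB δ (z, w) = true ↔ ∃ y ≤ w, ∃ a ≤ w, SatN δ (v3 z y a) := by
  simp only [bB, decide_eq_true_eq, Nat.lt_succ_iff]

theorem bB_comp (hD0 : S_D0) {δ : Fm} (hδ : Delta0 δ) : Computable (bB δ) := by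
  classical
  have h0 := hD0 δ hδ
  have h1 : PrimrecPred fun q : ((ℕ × ℕ) × ℕ) × ℕ => SatN δ (v3 q.1.1.1 q.1.2 q.2) := by
    have h2 := h0.comp (f := fun q : ((ℕ × ℕ) × ℕ) × ℕ => [q.1.1.1, q.1.2, q.2])
      (Primrec.list_cons.comp (Primrec.fst.comp (Primrec.fst.comp Primrec.fst))
        (Primrec.list_cons.comp (Primrec.snd.comp Primrec.fst)
          (Primrec.list_cons.comp Primrec.snd (Primrec.const []))))
    refine h2.of_eq fun q => ?_
    have : (fun i => [q.1.1.1, q.1.2, q.2].getD i 0) = v3 q.1.1.1 q.1.2 q.2 := by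
      funext i
      rcases i with _ | _ | _ | i
      · rfl
      · rfl
      · rfl
      · simp [v3, cons]
    rw [this]
  have hs : Computable fun q : ℕ × ℕ => q.2 + 1 := (Primrec.succ.comp Primrec.snd).to_comp
  have h3 : Computable₂ fun (q : (ℕ × ℕ) × ℕ) (a : ℕ) => decide (SatN δ (v3 q.1.1 q.2 a)) :=
    h1.decide.to_comp
  have h4 : Computable₂ fun (q : ℕ × ℕ) (y : ℕ) =>
      decide (∃ a < q.2 + 1, decide (SatN δ (v3 q.1 y a)) = true) :=
    bex_comp (hs.comp Computable.fst) h3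
  exact bex_comp hs h4

/-- the search for the bound -/
noncomputable def WF (δ : Fm) (z : ℕ) : Part ℕ := Nat.rfind fun w => Part.some (bB δ (z, w))

theorem WF_partrec (hD0 : S_D0) {δ : Fm} (hδ : Delta0 δ) : Partrec (WF δ) :=
  Partrec.rfind ((bB_comp hD0 hδ).partrec)

theorem WF_mem {δ : Fm} {z w : ℕ} (h : w ∈ WF δ z) (w' : ℕ) :
    w ≤ w' ↔ ∃ y ≤ w', ∃ a ≤ w', SatN δ (v3 z y a) := by
  obtain ⟨h1, h2⟩ := Nat.mem_rfind.1 h
  rw [Part.mem_some_iff] at h1
  obtain ⟨y, hy, a, ha, h3⟩ := (bB_iff δ z w).1 h1.symm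
  constructor
  · intro hw
    exact ⟨y, hy.trans hw, a, ha.trans hw, h3⟩
  · intro h4
    by_contra hcon
    push Not at hcon
    have h5 := h2 hcon
    rw [Part.mem_some_iff, eq_comm] at h5
    have h6 := (bB_iff δ z w').2 h4
    rw [h5] at h6
    exact Bool.noConfusion h6

theorem WF_dom {δ : Fm} {z : ℕ} (h : ∃ y a, SatN δ (v3 z y a)) : (WF δ z).Dom := by
  rw [WF, Nat.rfind_dom]
  obtain ⟨y, a, h1⟩ := h
  refine ⟨max y a, ?_, fun _ => trivial⟩
  rw [Part.mem_some_iff]
  exact ((bB_iff δ z _).2 ⟨y, le_max_left _ _, a, le_max_right _ _, h1⟩).symm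

/-! ### formulas -/

/-- disjunction -/
def orF (φ ψ : Fm) : Fm := .neg (.and (.neg φ) (.neg ψ))

/-- bounded existential quantifier -/
def bexF (t : Tm) (φ : Fm) : Fm := .neg (.all (.imp (.lt (.var 0) t.shift) (.neg φ)))

theorem subst_shift (t : Tm) (τ : ℕ → Tm) : t.shift.subst (upS τ) = (t.subst τ).shift := by
  induction t with
  | var i => rfl
  | zero => rfl
  | succ t ih => simp only [Tm.shift, Tm.subst]; rw [ih]
  | add s t ihs iht => simp only [Tm.shift, Tm.subst]; rw [ihs, iht]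
  | mul s t ihs iht => simp only [Tm.shift, Tm.subst]; rw [ihs, iht]

theorem delta_subst {φ : Fm} (h : Delta0 φ) : ∀ τ : ℕ → Tm, Delta0 (φ.subst τ) := by
  induction h with
  | eq s t => intro τ; exact Delta0.eq _ _
  | lt s t => intro τ; exact Delta0.lt _ _
  | neg _ ih => intro τ; exact Delta0.neg (ih τ)
  | and _ _ ih1 ih2 => intro τ; exact Delta0.and (ih1 τ) (ih2 τ)
  | @ball t φ _ ih =>
    intro τ
    have h1 : (Fm.all (.imp (.lt (.var 0) t.shift) φ)).subst τ =
        .all (.imp (.lt (.var 0) (t.subst τ).shift) (φ.subst (upS τ))) := by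
      rw [← subst_shift]
      rfl
    rw [h1]
    exact Delta0.ball _ (ih _)

theorem delta_or {φ ψ : Fm} (h1 : Delta0 φ) (h2 : Delta0 ψ) : Delta0 (orF φ ψ) :=
  Delta0.neg (Delta0.and (Delta0.neg h1) (Delta0.neg h2))

theorem delta_bex {φ : Fm} (t : Tm) (h : Delta0 φ) : Delta0 (bexF t φ) :=
  Delta0.neg (Delta0.ball t (Delta0.neg h))

theorem satN_or (φ ψ : Fm) (v : ℕ → ℕ) : SatN (orF φ ψ) v ↔ SatN φ v ∨ SatN ψ v := by
  change ¬ (¬ SatN φ v ∧ ¬ SatN ψ v) ↔ _
  tauto

theorem satN_and (φ ψ : Fm) (v : ℕ → ℕ) : SatN (.and φ ψ) v ↔ SatN φ v ∧ SatN ψ v := Iff.rfl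

theorem satN_neg (φ : Fm) (v : ℕ → ℕ) : SatN (.neg φ) v ↔ ¬ SatN φ v := Iff.rfl

theorem satN_lt (s t : Tm) (v : ℕ → ℕ) :
    SatN (.lt s t) v ↔ @Tm.val ℕ stdA v s < @Tm.val ℕ stdA v t := Lt_std _ _

theorem satN_bex (t : Tm) (φ : Fm) (v : ℕ → ℕ) :
    SatN (bexF t φ) v ↔ ∃ a < @Tm.val ℕ stdA v t, SatN φ (cons a v) := by
  have h1 : SatN (bexF t φ) v ↔ ¬ ∀ a : ℕ, ¬ (SatN (.lt (.var 0) t.shift) (cons a v) ∧
      ¬ ¬ SatN φ (cons a v)) := Iff.rfl
  rw [h1]
  simp only [not_not, not_forall, satN_lt]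
  refine exists_congr fun a => ?_
  rw [@Tm.val_shift ℕ stdA t a v]
  rfl

theorem satN_subst (φ : Fm) (τ : ℕ → Tm) (v : ℕ → ℕ) :
    SatN (φ.subst τ) v ↔ SatN φ fun i => @Tm.val ℕ stdA v (τ i) :=
  @Sat_subst ℕ stdA φ τ v

theorem satN_congr {φ : Fm} {k : ℕ} (hφ : φ.Bd k) {v w : ℕ → ℕ} (h : ∀ i < k, v i = w i) :
    SatN φ v ↔ SatN φ w := @Sat_congr ℕ stdA φ k hφ v w h

theorem val_numT_std (n : ℕ) (v : ℕ → ℕ) : @Tm.val ℕ stdA v (numT n) = n := by
  rw [@val_numT ℕ stdA, num_std]

/-- the substitution -/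
def tau (t : Tm) : ℕ → Tm
  | 0 => t
  | 1 => .var 1
  | _ => .var 0

/-- the graph of `W` -/
def dW (δ : Fm) (C : ℕ) : Fm :=
  bexF (.succ (.var 1)) (bexF (.succ (.var 2))
    (orF (.and (.lt (numT C) (.var 2)) (δ.subst (tau (.add (.mul (.var 2) (.var 2)) (numT C)))))
      (.and (.neg (.lt (numT C) (.var 2)))
        (δ.subst (tau (.add (numT (C * C + C)) (.var 2)))))))

theorem dW_delta {δ : Fm} (hδ : Delta0 δ) (C : ℕ) : Delta0 (dW δ C) :=
  delta_bex _ (delta_bex _ (delta_or (Delta0.and (Delta0.lt _ _) (delta_subst hδ _))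
    (Delta0.and (Delta0.neg (Delta0.lt _ _)) (delta_subst hδ _))))

theorem tau_bd {t : Tm} (ht : t.Bd 4) : ∀ i < 3, (tau t i).Bd 4 := by
  intro i hi
  rcases i with _ | _ | i
  · exact ht
  · exact (show 1 < 4 by omega)
  · exact (show 0 < 4 by omega)

theorem dW_bd {δ : Fm} (hδ : δ.Bd 3) (C : ℕ) : (dW δ C).Bd 2 := by
  have hv : ∀ i < 4, (Tm.var i).Bd 4 := fun i hi => hi
  have h2 : (Tm.var 2).Bd 4 := hv 2 (by omega)
  have h3 : (δ.subst (tau (.add (.mul (.var 2) (.var 2)) (numT C)))).Bd 4 :=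
    hδ.subst (tau_bd ⟨⟨h2, h2⟩, numT_bd C 4⟩)
  have h4 : (δ.subst (tau (.add (numT (C * C + C)) (.var 2)))).Bd 4 :=
    hδ.subst (tau_bd ⟨numT_bd _ 4, h2⟩)
  have h5 : (Fm.lt (numT C) (.var 2)).Bd 4 := ⟨numT_bd C 4, h2⟩
  have h0 : (Tm.var 0).Bd 4 := hv 0 (by omega)
  have h03 : (Tm.var 0).Bd 3 := (show 0 < 3 by omega)
  refine ⟨⟨h03, (show (Tm.var 1).Bd 2 from (show 1 < 2 by omega)).shift⟩, ⟨h0, ?_⟩, ?_⟩
  · exact (show (Tm.var 2).Bd 3 from (show 2 < 3 by omega)).shift
  · exact ⟨⟨h5, h3⟩, ⟨h5, h4⟩⟩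

theorem dW_sat {δ : Fm} (hδ : δ.Bd 3) (C x w : ℕ) :
    SatN (dW δ C) (v2 x w) ↔ ∃ y ≤ w, ∃ a ≤ w, SatN δ (v3 (Nat.pair C x) y a) := by
  unfold dW
  rw [satN_bex]
  have e1 : @Tm.val ℕ stdA (v2 x w) (.succ (.var 1)) = w + 1 := rfl
  rw [e1]
  refine exists_congr fun y => and_congr Nat.lt_succ_iff ?_
  rw [satN_bex]
  have e2 : @Tm.val ℕ stdA (cons y (v2 x w)) (.succ (.var 2)) = w + 1 := rfl
  rw [e2]
  refine exists_congr fun a => and_congr Nat.lt_succ_iff ?_
  rw [satN_or, satN_and, satN_and, satN_neg, satN_lt, val_numT_std, satN_subst, satN_subst]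
  have e3 : @Tm.val ℕ stdA (cons a (cons y (v2 x w))) (.var 2) = x := rfl
  rw [e3]
  have e4 : SatN δ (fun i => @Tm.val ℕ stdA (cons a (cons y (v2 x w)))
      (tau (.add (.mul (.var 2) (.var 2)) (numT C)) i)) ↔ SatN δ (v3 (x * x + C) y a) := by
    apply satN_congr hδ
    intro i hi
    rcases i with _ | _ | _ | i
    · change (x * x + @Tm.val ℕ stdA (cons a (cons y (v2 x w))) (numT C) : ℕ) = x * x + C
      rw [val_numT_std]
    · rfl
    · rfl
    · omega
  have e5 : SatN δ (fun i => @Tm.val ℕ stdA (cons a (cons y (v2 x w)))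
      (tau (.add (numT (C * C + C)) (.var 2)) i)) ↔ SatN δ (v3 (C * C + C + x) y a) := by
    apply satN_congr hδ
    intro i hi
    rcases i with _ | _ | _ | i
    · change (@Tm.val ℕ stdA (cons a (cons y (v2 x w))) (numT (C * C + C)) + x : ℕ) =
        C * C + C + x
      rw [val_numT_std]
    · rfl
    · rfl
    · omega
  rw [e4, e5]
  unfold Nat.pair
  split_ifs with h
  · simp [h]
  · simp [h]

end P_W

open P_W Encodable in
/-- A function with a bounded graph and good lists between consecutive values. -/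
theorem prf_W (hE : S_E) (hD0 : S_D0) (hgood : S_good) : S_W := by
  intro U hU
  obtain ⟨δ, hδ, hδ3, hδu⟩ := hE uf uf_partrec
  -- the recursion theorem
  have hpart : Partrec₂ fun (c : Nat.Partrec.Code) (n : ℕ) =>
      (Nat.casesOn n (Part.some 0) (fun x => (WF δ (Nat.pair (encode c) x)).bind fun w =>
        GS U (x, w)) : Part ℕ) := by
    refine Partrec.nat_casesOn_right (f := fun q : Nat.Partrec.Code × ℕ => q.2)
      (g := fun _ => 0) (h := fun q x => (WF δ (Nat.pair (encode q.1) x)).bind fun w =>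
        GS U (x, w)) Computable.snd (Computable.const 0) ?_
    refine Partrec.bind ((WF_partrec hD0 hδ).comp ?_) ?_
    · exact Primrec₂.natPair.to_comp.comp (Computable.encode.comp (Computable.fst.comp
        Computable.fst)) Computable.snd
    · exact (GS_partrec hU).comp (Computable.pair (Computable.snd.comp Computable.fst)
        Computable.snd)
  obtain ⟨c, hc⟩ := Nat.Partrec.Code.fixed_point₂ hpart
  set C := encode c with hC
  have hc0 : c.eval 0 = Part.some 0 := congrFun hc 0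
  have hcs : ∀ x, c.eval (x + 1) = (WF δ (Nat.pair C x)).bind fun w => GS U (x, w) := by
    intro x; exact congrFun hc (x + 1)
  have huf : ∀ x, uf (Nat.pair C x) = c.eval x := by
    intro x
    unfold uf
    rw [Nat.unpair_pair, hC, Denumerable.ofNat_encode]
  have hWdom : ∀ x, (c.eval x).Dom → (WF δ (Nat.pair C x)).Dom := by
    intro x hx
    apply WF_dom
    have h1 : (c.eval x).get hx ∈ uf (Nat.pair C x) := by
      rw [huf]; exact Part.get_mem hx
    obtain ⟨w, hw⟩ := (hδu _ _).1 h1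
    exact ⟨_, w, hw⟩
  have hdom : ∀ x, (c.eval x).Dom := by
    intro x
    induction x with
    | zero => rw [hc0]; trivial
    | succ x ih =>
      rw [hcs]
      exact ⟨hWdom x ih, GS_dom hgood U x _⟩
  set W : ℕ → ℕ := fun x => (WF δ (Nat.pair C x)).get (hWdom x (hdom x)) with hWdef
  have hWm : ∀ x, W x ∈ WF δ (Nat.pair C x) := fun x => Part.get_mem _
  have hWle : ∀ x w, W x ≤ w ↔ ∃ y ≤ w, ∃ a ≤ w, SatN δ (v3 (Nat.pair C x) y a) :=
    fun x w => WF_mem (hWm x) w
  -- the values are bounded by `W`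
  have hval : ∀ x y, y ∈ c.eval x → y ≤ W x := by
    intro x y hy
    obtain ⟨y', hy', a, ha, h1⟩ := (hWle x (W x)).1 le_rfl
    have h2 : y' ∈ uf (Nat.pair C x) := (hδu _ _).2 ⟨a, h1⟩
    rw [huf] at h2
    rw [Part.mem_unique hy h2]
    exact hy'
  have hlist : ∀ x, ∃ c', GoodL U x (W x) c' ∧ ∀ a ∈ c', a < W (x + 1) := by
    intro x
    obtain ⟨g, hg⟩ := Part.dom_iff_mem.1 (GS_dom hgood U x (W x))
    have h1 : g ∈ c.eval (x + 1) := by
      rw [hcs]
      exact Part.mem_bind (hWm x) hg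
    have h2 := hval _ _ h1
    refine ⟨Denumerable.ofNat (List ℕ) g, GS_mem hg, fun a ha => ?_⟩
    have h3 := mem_lt_encode _ a ha
    rw [Denumerable.encode_ofNat] at h3
    omega
  refine ⟨W, dW δ C, dW_delta hδ C, dW_bd hδ3 C, ?_, ?_, hlist⟩
  · apply strictMono_nat_of_lt_succ
    intro x
    obtain ⟨l, hl, hl2⟩ := hlist x
    have h1 : 0 < l.length := by rw [hl.1]; omega
    have h2 := hl.2.1 0 h1
    have h3 : l.getD 0 0 ∈ l := by
      rw [List.getD_eq_getElem _ _ h1]
      exact List.getElem_mem h1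
    exact h2.trans (hl2 _ h3)
  · intro x w
    rw [dW_sat hδ3, hWle]

end Pool.Agent.N636.SF
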