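import Pool.Agent.N636.SF.Stm
import Pool.Agent.N636.SF.Std

/-!
# Adding elements to conditions, preservation of forcing, values and changes
(helper833 for the project SF of helper636)
-/

set_option autoImplicit false

namespace Pool.Agent.N636.SF

namespace P_WIT

theorem ext_refl (p : Cond) : Ext p p := ⟨le_rfl, fun _ _ => Iff.rfl⟩

theorem cons_val {M : Type} [Arith M] (i : ℕ) (v : ℕ → M) :
    (fun j => ((cons (Tm.var i) Tm.var : ℕ → Tm) j).val v) = cons (v i) v := by
  funext j
  cases j with
  | zero => rfl
  | succ j => rfl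

/-- one new element is added -/
def add (p : Cond) (b : p.M) (hb : ∀ j < p.k, p.a j ≠ b) : Cond where
  M := p.M
  ar := p.ar
  pa := p.pa
  a := Function.update p.a p.k b
  k := p.k + 1
  inj := by
    intro i hi j hj h
    by_cases h1 : i = p.k
    · by_cases h2 : j = p.k
      · rw [h1, h2]
      · rw [h1, Function.update_self, Function.update_of_ne h2] at h
        exact absurd h.symm (hb j (by omega))
    · by_cases h2 : j = p.k
      · rw [h2, Function.update_self, Function.update_of_ne h1] at h
        exact absurd h (hb i (by omega))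
      · rw [Function.update_of_ne h1, Function.update_of_ne h2] at h
        exact p.inj i (by omega) j (by omega) h

theorem ext_add (p : Cond) (b : p.M) (hb : ∀ j < p.k, p.a j ≠ b) : Ext p (add p b hb) := by
  refine ⟨Nat.le_succ _, fun φ hφ => ?_⟩
  show Sat φ p.a ↔ Sat φ (Function.update p.a p.k b)
  exact Sat_congr hφ fun i hi => (Function.update_of_ne (by omega) _ _).symm

theorem gam_mono {n m : ℕ} (h : n ≤ m) {φ : Fm} (hφ : Gam n φ) : Gam m φ := by
  induction h with
  | refl => exact hφ
  | step _ ih => exact Gam.up ih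

theorem dec_mono (h1 : S_gam1) {n : ℕ} {p q : Cond} (h : Le (n + 1) p q) {z : ℕ} {b : Prop}
    (hd : Dec p z b) : Dec q z b := by
  rcases hd with ⟨s, t, hz, hs, ht, hb⟩ | hd
  · refine Or.inl ⟨s, t, hz, hs.mono h.1, ht.mono h.1, ?_⟩
    rw [hb]
    obtain ⟨⟨ψ, hψ, hψb, he⟩, ⟨χ, hχ, hχb, hne⟩⟩ := h1 s t p.k hs ht
    constructor
    · intro h2
      have h3 := (he p.M p.pa p.a).1 h2
      have h4 := h.2 ψ (gam_mono (by omega) hψ) hψb h3
      exact (he q.M q.pa q.a).2 h4
    · intro h2
      by_contra h3
      have h4 : Sat (Fm.neg (.eq s t)) p.a := h3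
      have h5 := h.2 χ (gam_mono (by omega) hχ) hχb ((hne p.M p.pa p.a).1 h4)
      exact ((hne q.M q.pa q.a).2 h5) h2
  · exact Or.inr hd

end P_WIT

open P_WIT

theorem prf_wit : S_wit := by
  constructor
  · intro p b
    by_cases hb : ∃ j < p.k, p.a j = b
    · obtain ⟨j, hj, hjb⟩ := hb
      refine ⟨p, ext_refl p, j, hj, fun φ _ => ?_⟩
      rw [Sat_subst, cons_val, hjb]
    · have hb' : ∀ j < p.k, p.a j ≠ b := fun j hj h => hb ⟨j, hj, h⟩
      refine ⟨add p b hb', ext_add p b hb', p.k, Nat.lt_succ_self _, fun φ hφ => ?_⟩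
      rw [Sat_subst, cons_val]
      show Sat φ (cons b p.a) ↔
        Sat φ (cons (Function.update p.a p.k b p.k) (Function.update p.a p.k b))
      rw [Function.update_self]
      have hh : ∀ i < p.k, p.a i = Function.update p.a p.k b i := fun i hi =>
        (Function.update_of_ne (by omega) _ _).symm
      exact Sat_congr hφ (cons_congr hh b)
  · intro p
    have hinf : Infinite p.M :=
      Infinite.of_injective (num p.M) fun a b h => num_inj p.pa h
    classical
    obtain ⟨b, hb⟩ := Infinite.exists_notMem_finset ((Finset.range p.k).image p.a)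
    have hb' : ∀ j < p.k, p.a j ≠ b := by
      intro j hj h
      exact hb (Finset.mem_image.2 ⟨j, Finset.mem_range.2 hj, h⟩)
    exact ⟨add p b hb', ext_add p b hb', rfl⟩

theorem prf_pres (hT2 : S_T2) (h1 : S_gam1) : S_pres := by
  intro n C hC
  induction hC with
  | op n P =>
    intro p q h hf
    obtain ⟨l, hl, hd⟩ := hf
    exact ⟨l, hl, fun z hz => dec_mono h1 h (hd z hz)⟩
  | @ex n c _ ih =>
    intro p q h hf
    obtain ⟨i, hi⟩ := hf
    refine ⟨i, fun q' hq' hfq => ?_⟩
    obtain ⟨p', hp', hle⟩ := hT2 (n + 1) p q q' (by omega) h hq'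
    exact hi p' hp' (ih i q' p' hle hfq)

theorem prf_changes : S_changes := by
  classical
  intro t m c hinj hex
  have hcard : ((Finset.range (m + 1)).image c).card = m + 1 := by
    rw [Finset.card_image_of_injOn, Finset.card_range]
    intro i hi j hj h
    rw [Finset.mem_coe, Finset.mem_range] at hi hj
    exact hinj i (by omega) j (by omega) h
  have hm : m ≤ (((Finset.range (m + 1)).image c).erase (t 0)).card := by
    have := Finset.pred_card_le_card_erase (s := (Finset.range (m + 1)).image c) (a := t 0)
    omega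
  have hsub : ((((Finset.range (m + 1)).image c).erase (t 0) : Finset ℕ) : Set ℕ) ⊆
      (fun s => t (s + 1)) '' changes t := by
    intro v hv
    rw [Finset.mem_coe, Finset.mem_erase, Finset.mem_image] at hv
    obtain ⟨hv0, i, hi, rfl⟩ := hv
    rw [Finset.mem_range] at hi
    have hs := hex i (by omega)
    have h1 := Nat.find_spec hs
    have h2 : Nat.find hs ≠ 0 := by
      intro h
      rw [h] at h1
      exact hv0 h1.symm
    obtain ⟨s, hs'⟩ := Nat.exists_eq_succ_of_ne_zero h2
    have h3 : t (s + 1) = c i := by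
      have : Nat.find hs = s + 1 := hs'
      rw [← this]
      exact h1
    refine ⟨s, ?_, h3⟩
    show t (s + 1) ≠ t s
    rw [h3]
    intro h
    exact Nat.find_min hs (m := s) (by omega) h.symm
  calc (m : ℕ∞) ≤ ((((Finset.range (m + 1)).image c).erase (t 0)).card : ℕ∞) := by
        exact_mod_cast hm
    _ = ((((Finset.range (m + 1)).image c).erase (t 0) : Finset ℕ) : Set ℕ).encard :=
        (Set.encard_coe_eq_coe_finsetCard _).symm
    _ ≤ ((fun s => t (s + 1)) '' changes t).encard := Set.encard_le_encard hsub
    _ ≤ (changes t).encard := Set.encard_image_le _ _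

end Pool.Agent.N636.SF
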