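import Pool.Agent.N636.SF.Asm
import Pool.Agent.N636.SF.P_ALG
import Pool.Agent.N636.SF.P_CPT
import Pool.Agent.N636.SF.P_BETA
import Pool.Agent.N636.SF.P_GAM
import Pool.Agent.N636.SF.P_U1
import Pool.Agent.N636.SF.P_U2
import Pool.Agent.N636.SF.P_CALC
import Pool.Agent.N636.SF.P_CXT
import Pool.Agent.N636.SF.P_A
import Pool.Agent.N636.SF.P_B
import Pool.Agent.N636.SF.P_LEV
import Pool.Agent.N636.SF.P_CX
import Pool.Agent.N636.SF.P_BS
import Pool.Agent.N636.SF.P_T2
import Pool.Agent.N636.SF.P_WIT
import Pool.Agent.N636.SF.P_HENKIN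
import Pool.Agent.N636.SF.P_ATTACK
import Pool.Agent.N636.SF.P_SEQ
import Pool.Agent.N636.SF.P_E
import Pool.Agent.N636.SF.P_DU
import Pool.Agent.N636.SF.P_GOOD
import Pool.Agent.N636.SF.P_W
import Pool.Agent.N636.SF.P_CUT
import Pool.Agent.N636.SF.P_FLEX
import Pool.Agent.N636.SF.P_SIDE

/-!
# The main theorem
-/

set_option autoImplicit false

namespace Pool.Agent.N636.SF

theorem main : Main := by
  -- part 0
  have halg := prf_alg
  have hcpt := prf_cpt
  have hbeta := prf_beta halg
  have hgam1 := prf_gam1 halg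
  have hgamall := prf_gamall halg
  have hU1 := prf_U1
  have hU2 := prf_U2 halg hbeta
  have hcalc := prf_calc
  have hcxBit := prf_cxBit hcalc
  have hcxT := prf_cxT hcalc
  -- part I
  have hE := prf_E
  have hD0 := prf_D0
  have hU := prf_U
  have hprE := prf_prE
  have hgood := prf_good
  have hpat := prf_pat
  have hW := prf_W hE hD0 hgood
  have hcut := prf_cut hprE
  have hflex := prf_flexD halg hcpt hcalc hcxBit hU hW hcut hpat
  -- part II
  have hlev := prf_lev hcalc hgamall hcxBit hgam1
  have hcx := prf_cx hcalc hcxT hcxBit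
  have hA := prf_A halg hU2
  have hB := prf_B halg hU1 hU2 hA
  have hStart := prf_Start halg hU1 hU2 hA
  have hside := prf_side halg hcpt hflex hlev hcx hB hStart
  -- part III
  have hbs := prf_bs
  have hT2 := prf_T2 hcpt hgam1
  have hmove := prf_move hcpt hgam1
  have hwit := prf_wit
  have hpres := prf_pres hT2 hgam1
  have hch := prf_changes
  have hhenkin := prf_henkin
  have hattack := prf_attack hmove hpres hgam1
  have hseq := prf_seq hattack hwit hcpt
  have hfin := P_FIN.prf_fin hgamall hgam1 hT2 hpres hhenkin hch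
  exact P_ASM.main_of hside hbs hseq hfin

end Pool.Agent.N636.SF
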