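import Pool.Agent.N636.SF.Fin

/-!
# The main theorem from its parts
-/

set_option autoImplicit false

namespace Pool.Agent.N636.SF
namespace P_ASM

open Classical in
/-- The list of all (computable) functions. -/
noncomputable def flist (t n : ℕ) : ℕ :=
  if h : (Nat.Partrec.Code.eval (Denumerable.ofNat Nat.Partrec.Code t) n).Dom then
    (Nat.Partrec.Code.eval (Denumerable.ofNat Nat.Partrec.Code t) n).get h else 0

theorem flist_spec (g : ℕ → ℕ) (hg : Computable g) : ∃ t, flist t = g := by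
  have h1 : Nat.Partrec (g : ℕ →. ℕ) := Partrec.nat_iff.1 hg
  obtain ⟨c, hc⟩ := Nat.Partrec.Code.exists_code.1 h1
  refine ⟨Encodable.encode c, ?_⟩
  funext n
  unfold flist
  rw [Denumerable.ofNat_encode, hc]
  simp

/-- A list of all the elements of an encodable type, each one being repeated infinitely often. -/
noncomputable def rep {α : Type} [Encodable α] [Inhabited α] (t : ℕ) : α :=
  (Encodable.decode t.unpair.1).getD default

theorem rep_spec {α : Type} [Encodable α] [Inhabited α] (x : α) (t₀ : ℕ) :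
    ∃ t ≥ t₀, rep t = x := by
  refine ⟨Nat.pair (Encodable.encode x) t₀, Nat.right_le_pair _ _, ?_⟩
  unfold rep
  rw [Nat.unpair_pair, Encodable.encodek]
  rfl

instance : Nonempty Fm := ⟨.eq .zero .zero⟩

theorem main_of (hside : S_side) (hbs : S_bs) (hseq : S_seq) (hfin : S_fin) : Main := by
  intro g
  obtain ⟨N0, hN0, h⟩ := hside
  let J : ℕ → ℕ := fun p => if p = 0 then 1 else g (N0 + p) + 1
  obtain ⟨Gd, st, stF, hS⟩ := h J (if_pos rfl)
  choose cd hlev hcd using hbs
  let tk : ℕ → BC := fun t =>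
    let x := (rep t : ℕ × ℕ × ℕ × ℕ × List ℕ)
    (cd x.1 x.2.1 x.2.2.1 x.2.2.2.1).sub x.2.2.2.2
  let hk : ℕ → Fm := fun t => Function.invFun Fm.code t.unpair.1
  obtain ⟨q, hq⟩ := hseq N0 J Gd st stF cd hN0 hS hlev flist tk hk
  obtain ⟨A, hA, hns, hA2⟩ := hfin N0 J Gd st stF cd hN0 hS hlev hcd flist tk hk q hq
    (fun n e s y l t₀ => by
      obtain ⟨t, ht, htx⟩ := rep_spec ((n, e, s, y, l) : ℕ × ℕ × ℕ × ℕ × List ℕ) t₀
      exact ⟨t, ht, by simp only [tk, htx]⟩)
    (fun φ t₀ => ⟨Nat.pair φ.code t₀, Nat.right_le_pair _ _, by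
      simp only [hk, Nat.unpair_pair]
      exact Function.leftInverse_invFun Fm.code_injective φ⟩)
    flist_spec
  refine ⟨A, hA, hns, fun t ht => ?_⟩
  obtain ⟨p, hp, hJ⟩ := hA2 t ht
  refine ⟨N0 + p, by omega, ?_⟩
  have h1 : J p = g (N0 + p) + 1 := if_neg (by omega)
  rw [h1] at hJ
  refine lt_of_lt_of_le ?_ hJ
  exact_mod_cast Nat.lt_succ_self (g (N0 + p))

end P_ASM
end Pool.Agent.N636.SF
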