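import Pool.Agent.N636.SF.Defs

/-!
# Basic facts about terms and formulas: congruence, substitution
-/

set_option autoImplicit false

namespace Pool.Agent.N636.SF

variable {M : Type} [Arith M]

theorem Tm.val_congr {t : Tm} {k : ℕ} (ht : t.Bd k) {v w : ℕ → M} (h : ∀ i < k, v i = w i) :
    t.val v = t.val w := by
  induction t with
  | var i => exact h i ht
  | zero => rfl
  | succ t ih => simp only [Tm.val]; rw [ih ht]
  | add s t ihs iht => simp only [Tm.val]; rw [ihs ht.1, iht ht.2]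
  | mul s t ihs iht => simp only [Tm.val]; rw [ihs ht.1, iht ht.2]

omit [Arith M] in
theorem cons_congr {k : ℕ} {v w : ℕ → M} (h : ∀ i < k, v i = w i) (a : M) :
    ∀ i < k + 1, cons a v i = cons a w i := by
  intro i hi
  cases i with
  | zero => rfl
  | succ i => exact h i (by omega)

/-- Satisfaction only depends on the values of the free variables. -/
theorem Sat_congr {φ : Fm} {k : ℕ} (hφ : φ.Bd k) {v w : ℕ → M} (h : ∀ i < k, v i = w i) :
    Sat φ v ↔ Sat φ w := by
  induction φ generalizing k v w with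
  | eq s t => simp only [Sat]; rw [Tm.val_congr hφ.1 h, Tm.val_congr hφ.2 h]
  | lt s t => simp only [Sat]; rw [Tm.val_congr hφ.1 h, Tm.val_congr hφ.2 h]
  | neg φ ih => simp only [Sat]; rw [ih hφ h]
  | and φ ψ ih1 ih2 => simp only [Sat]; rw [ih1 hφ.1 h, ih2 hφ.2 h]
  | all φ ih => simp only [Sat]; exact forall_congr' fun a => ih hφ (cons_congr h a)

theorem Tm.Bd.mono {t : Tm} {k l : ℕ} (h : t.Bd k) (hkl : k ≤ l) : t.Bd l := by
  induction t with
  | var i => exact lt_of_lt_of_le h hkl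
  | zero => trivial
  | succ t ih => exact ih h
  | add s t ihs iht => exact ⟨ihs h.1, iht h.2⟩
  | mul s t ihs iht => exact ⟨ihs h.1, iht h.2⟩

theorem Fm.Bd.mono {φ : Fm} {k l : ℕ} (h : φ.Bd k) (hkl : k ≤ l) : φ.Bd l := by
  induction φ generalizing k l with
  | eq s t => exact ⟨h.1.mono hkl, h.2.mono hkl⟩
  | lt s t => exact ⟨h.1.mono hkl, h.2.mono hkl⟩
  | neg φ ih => exact ih h hkl
  | and φ ψ ih1 ih2 => exact ⟨ih1 h.1 hkl, ih2 h.2 hkl⟩
  | all φ ih => exact ih (k := k + 1) (l := l + 1) h (by omega)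

theorem Tm.exists_bd (t : Tm) : ∃ k, t.Bd k := by
  induction t with
  | var i => exact ⟨i + 1, Nat.lt_succ_self i⟩
  | zero => exact ⟨0, trivial⟩
  | succ t ih => exact ih
  | add s t ihs iht =>
    obtain ⟨k, hk⟩ := ihs; obtain ⟨l, hl⟩ := iht
    exact ⟨max k l, hk.mono (le_max_left _ _), hl.mono (le_max_right _ _)⟩
  | mul s t ihs iht =>
    obtain ⟨k, hk⟩ := ihs; obtain ⟨l, hl⟩ := iht
    exact ⟨max k l, hk.mono (le_max_left _ _), hl.mono (le_max_right _ _)⟩

theorem Fm.exists_bd (φ : Fm) : ∃ k, φ.Bd k := by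
  induction φ with
  | eq s t =>
    obtain ⟨k, hk⟩ := s.exists_bd; obtain ⟨l, hl⟩ := t.exists_bd
    exact ⟨max k l, hk.mono (le_max_left _ _), hl.mono (le_max_right _ _)⟩
  | lt s t =>
    obtain ⟨k, hk⟩ := s.exists_bd; obtain ⟨l, hl⟩ := t.exists_bd
    exact ⟨max k l, hk.mono (le_max_left _ _), hl.mono (le_max_right _ _)⟩
  | neg φ ih => exact ih
  | and φ ψ ih1 ih2 =>
    obtain ⟨k, hk⟩ := ih1; obtain ⟨l, hl⟩ := ih2
    exact ⟨max k l, hk.mono (le_max_left _ _), hl.mono (le_max_right _ _)⟩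
  | all φ ih =>
    obtain ⟨k, hk⟩ := ih
    exact ⟨k, Fm.Bd.mono (φ := φ) hk (by omega)⟩

theorem Tm.val_shift (t : Tm) (a : M) (v : ℕ → M) : t.shift.val (cons a v) = t.val v := by
  induction t with
  | var i => rfl
  | zero => rfl
  | succ t ih => simp only [Tm.shift, Tm.val]; rw [ih]
  | add s t ihs iht => simp only [Tm.shift, Tm.val]; rw [ihs, iht]
  | mul s t ihs iht => simp only [Tm.shift, Tm.val]; rw [ihs, iht]

theorem Tm.Bd.shift {t : Tm} {k : ℕ} (h : t.Bd k) : t.shift.Bd (k + 1) := by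
  induction t with
  | var i => exact Nat.succ_lt_succ h
  | zero => trivial
  | succ t ih => exact ih h
  | add s t ihs iht => exact ⟨ihs h.1, iht h.2⟩
  | mul s t ihs iht => exact ⟨ihs h.1, iht h.2⟩

/-! ### Substitution -/

/-- Substitution under a quantifier. -/
def upS (τ : ℕ → Tm) : ℕ → Tm
  | 0 => .var 0
  | i + 1 => (τ i).shift

/-- Substitution in a term. -/
def Tm.subst (τ : ℕ → Tm) : Tm → Tm
  | .var i => τ i
  | .zero => .zero
  | .succ t => .succ (t.subst τ)
  | .add s t => .add (s.subst τ) (t.subst τ)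
  | .mul s t => .mul (s.subst τ) (t.subst τ)

/-- Substitution of the terms `τ i` for the free variables `i`. -/
def Fm.subst : Fm → (ℕ → Tm) → Fm
  | .eq s t, τ => .eq (s.subst τ) (t.subst τ)
  | .lt s t, τ => .lt (s.subst τ) (t.subst τ)
  | .neg φ, τ => .neg (φ.subst τ)
  | .and φ ψ, τ => .and (φ.subst τ) (ψ.subst τ)
  | .all φ, τ => .all (φ.subst (upS τ))

theorem Tm.val_subst (t : Tm) (τ : ℕ → Tm) (v : ℕ → M) :
    (t.subst τ).val v = t.val fun i => (τ i).val v := by
  induction t with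
  | var i => rfl
  | zero => rfl
  | succ t ih => simp only [Tm.subst, Tm.val]; rw [ih]
  | add s t ihs iht => simp only [Tm.subst, Tm.val]; rw [ihs, iht]
  | mul s t ihs iht => simp only [Tm.subst, Tm.val]; rw [ihs, iht]

theorem val_upS (τ : ℕ → Tm) (a : M) (v : ℕ → M) :
    (fun i => (upS τ i).val (cons a v)) = cons a fun i => (τ i).val v := by
  funext i
  cases i with
  | zero => rfl
  | succ i => exact Tm.val_shift (τ i) a v

theorem Sat_subst (φ : Fm) (τ : ℕ → Tm) (v : ℕ → M) :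
    Sat (φ.subst τ) v ↔ Sat φ fun i => (τ i).val v := by
  induction φ generalizing τ v with
  | eq s t => simp only [Fm.subst, Sat]; rw [Tm.val_subst, Tm.val_subst]
  | lt s t => simp only [Fm.subst, Sat]; rw [Tm.val_subst, Tm.val_subst]
  | neg φ ih => simp only [Fm.subst, Sat]; rw [ih]
  | and φ ψ ih1 ih2 => simp only [Fm.subst, Sat]; rw [ih1, ih2]
  | all φ ih =>
    simp only [Fm.subst, Sat]
    refine forall_congr' fun a => ?_
    rw [ih, val_upS]

theorem Tm.Bd.subst {t : Tm} {k l : ℕ} (h : t.Bd k) {τ : ℕ → Tm} (hτ : ∀ i < k, (τ i).Bd l) :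
    (t.subst τ).Bd l := by
  induction t with
  | var i => exact hτ i h
  | zero => trivial
  | succ t ih => exact ih h
  | add s t ihs iht => exact ⟨ihs h.1, iht h.2⟩
  | mul s t ihs iht => exact ⟨ihs h.1, iht h.2⟩

theorem upS_bd {k l : ℕ} {τ : ℕ → Tm} (hτ : ∀ i < k, (τ i).Bd l) :
    ∀ i < k + 1, (upS τ i).Bd (l + 1) := by
  intro i hi
  cases i with
  | zero => exact Nat.succ_pos l
  | succ i => exact (hτ i (by omega)).shift

theorem Fm.Bd.subst {φ : Fm} {k l : ℕ} (h : φ.Bd k) {τ : ℕ → Tm} (hτ : ∀ i < k, (τ i).Bd l) :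
    (φ.subst τ).Bd l := by
  induction φ generalizing k l τ with
  | eq s t => exact ⟨h.1.subst hτ, h.2.subst hτ⟩
  | lt s t => exact ⟨h.1.subst hτ, h.2.subst hτ⟩
  | neg φ ih => exact ih h hτ
  | and φ ψ ih1 ih2 => exact ⟨ih1 h.1 hτ, ih2 h.2 hτ⟩
  | all φ ih => exact ih (k := k + 1) (l := l + 1) h (upS_bd hτ)

@[simp] theorem Sat_ex (φ : Fm) (v : ℕ → M) : Sat φ.ex v ↔ ∃ a, Sat φ (cons a v) := by
  simp only [Fm.ex, Sat, not_forall, not_not]

@[simp] theorem Sat_imp (φ ψ : Fm) (v : ℕ → M) : Sat (φ.imp ψ) v ↔ (Sat φ v → Sat ψ v) := by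
  simp only [Fm.imp, Sat]; tauto

/-- The numeral of `n` as a term. -/
def numT : ℕ → Tm
  | 0 => .zero
  | n + 1 => .succ (numT n)

@[simp] theorem val_numT (n : ℕ) (v : ℕ → M) : (numT n).val v = num M n := by
  induction n with
  | zero => rfl
  | succ n ih => simp only [numT, Tm.val, num]; rw [ih]

theorem numT_bd (n k : ℕ) : (numT n).Bd k := by
  induction n with
  | zero => trivial
  | succ n ih => exact ih

theorem Tm.code_injective_aux : ∀ s t : Tm, s.code = t.code → s = t := by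
  intro s
  induction s with
  | var i => intro t h; cases t <;> simp [Tm.code] at h ⊢; exact h
  | zero => intro t h; cases t <;> simp [Tm.code] at h ⊢
  | succ s ih => intro t h; cases t <;> simp [Tm.code] at h ⊢; exact ih _ h
  | add s1 s2 ih1 ih2 =>
    intro t h; cases t <;> simp [Tm.code] at h ⊢; exact ⟨ih1 _ h.1, ih2 _ h.2⟩
  | mul s1 s2 ih1 ih2 =>
    intro t h; cases t <;> simp [Tm.code] at h ⊢; exact ⟨ih1 _ h.1, ih2 _ h.2⟩

theorem Tm.code_injective : Function.Injective Tm.code := fun s t => Tm.code_injective_aux s t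

theorem Fm.code_injective_aux : ∀ φ ψ : Fm, φ.code = ψ.code → φ = ψ := by
  intro φ
  induction φ with
  | eq s t =>
    intro ψ h; cases ψ <;> simp [Fm.code] at h ⊢
    exact ⟨Tm.code_injective h.1, Tm.code_injective h.2⟩
  | lt s t =>
    intro ψ h; cases ψ <;> simp [Fm.code] at h ⊢
    exact ⟨Tm.code_injective h.1, Tm.code_injective h.2⟩
  | neg φ ih => intro ψ h; cases ψ <;> simp [Fm.code] at h ⊢; exact ih _ h
  | and φ1 φ2 ih1 ih2 =>
    intro ψ h; cases ψ <;> simp [Fm.code] at h ⊢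
    exact ⟨ih1 _ h.1, ih2 _ h.2⟩
  | all φ ih => intro ψ h; cases ψ <;> simp [Fm.code] at h ⊢; exact ih _ h

theorem Fm.code_injective : Function.Injective Fm.code := fun φ ψ => Fm.code_injective_aux φ ψ

end Pool.Agent.N636.SF
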