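import Mathlib

/-!
# Definitions: arithmetic, the arithmetical hierarchy, oracle computations, Solovay families

The language of arithmetic `(0, S, +, ·)`, first-order formulas (`s < t` being an abbreviation of
`∃ z, s + S z = t`), models of Peano arithmetic, `Σ_n` formulas, atomic diagrams, a numbering of the
partial functions computable in an oracle, the Turing jump, and Solovay families.
-/

set_option autoImplicit false

namespace Pool.Agent.N636.SF

/-! ### Structures, terms and formulas -/

/-- Structures for the language `(0, S, +, ·)`. -/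
class Arith (M : Type) where
  zero : M
  succ : M → M
  add : M → M → M
  mul : M → M → M

/-- Terms; `var i` is the `i`-th variable. -/
inductive Tm : Type
  | var (i : ℕ)
  | zero
  | succ (t : Tm)
  | add (s t : Tm)
  | mul (s t : Tm)
  deriving DecidableEq

/-- Formulas, with de Bruijn indices: `all φ` quantifies the variable `0` of `φ`, and the variable
`i` of `all φ` is the variable `i + 1` of `φ`. The formula `lt s t` is to be read as an abbreviation
of `∃ z, s + S z = t`. -/
inductive Fm : Type
  | eq (s t : Tm)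
  | lt (s t : Tm)
  | neg (φ : Fm)
  | and (φ ψ : Fm)
  | all (φ : Fm)
  deriving DecidableEq

/-- The assignment `a, v 0, v 1, ...`. -/
def cons {M : Type} (a : M) (v : ℕ → M) : ℕ → M
  | 0 => a
  | i + 1 => v i

section semantics
variable {M : Type} [Arith M]

/-- The value of a term. -/
def Tm.val (v : ℕ → M) : Tm → M
  | .var i => v i
  | .zero => Arith.zero
  | .succ t => Arith.succ (t.val v)
  | .add s t => Arith.add (s.val v) (t.val v)
  | .mul s t => Arith.mul (s.val v) (t.val v)

/-- The order. -/
def Lt (x y : M) : Prop := ∃ z : M, Arith.add x (Arith.succ z) = y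

/-- Satisfaction. -/
def Sat : Fm → (ℕ → M) → Prop
  | .eq s t, v => s.val v = t.val v
  | .lt s t, v => Lt (s.val v) (t.val v)
  | .neg φ, v => ¬ Sat φ v
  | .and φ ψ, v => Sat φ v ∧ Sat ψ v
  | .all φ, v => ∀ a : M, Sat φ (cons a v)

end semantics

/-- The models of Peano arithmetic. -/
structure IsPA (M : Type) [Arith M] : Prop where
  succ_ne_zero : ∀ x : M, Arith.succ x ≠ Arith.zero
  succ_inj : ∀ x y : M, Arith.succ x = Arith.succ y → x = y
  add_zero : ∀ x : M, Arith.add x Arith.zero = x
  add_succ : ∀ x y : M, Arith.add x (Arith.succ y) = Arith.succ (Arith.add x y)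
  mul_zero : ∀ x : M, Arith.mul x Arith.zero = Arith.zero
  mul_succ : ∀ x y : M, Arith.mul x (Arith.succ y) = Arith.add (Arith.mul x y) x
  ind : ∀ (φ : Fm) (v : ℕ → M), Sat φ (cons Arith.zero v) →
    (∀ a, Sat φ (cons a v) → Sat φ (cons (Arith.succ a) v)) → ∀ a, Sat φ (cons a v)

/-- The value of the numeral of `n`. -/
def num (M : Type) [Arith M] : ℕ → M
  | 0 => Arith.zero
  | n + 1 => Arith.succ (num M n)

/-! ### Syntactic notions -/

/-- All variables of the term are below `k`. -/
def Tm.Bd (k : ℕ) : Tm → Prop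
  | .var i => i < k
  | .zero => True
  | .succ t => t.Bd k
  | .add s t => s.Bd k ∧ t.Bd k
  | .mul s t => s.Bd k ∧ t.Bd k

/-- All free variables of the formula are below `k`. -/
def Fm.Bd : Fm → ℕ → Prop
  | .eq s t, k => s.Bd k ∧ t.Bd k
  | .lt s t, k => s.Bd k ∧ t.Bd k
  | .neg φ, k => φ.Bd k
  | .and φ ψ, k => φ.Bd k ∧ ψ.Bd k
  | .all φ, k => φ.Bd (k + 1)

/-- Raise all the variables of a term by one. -/
def Tm.shift : Tm → Tm
  | .var i => .var (i + 1)
  | .zero => .zero
  | .succ t => .succ t.shift
  | .add s t => .add s.shift t.shift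
  | .mul s t => .mul s.shift t.shift

/-- Implication. -/
def Fm.imp (φ ψ : Fm) : Fm := .neg (.and φ (.neg ψ))

/-- Existential quantifier. -/
def Fm.ex (φ : Fm) : Fm := .neg (.all (.neg φ))

/-- Bounded formulas: they are built with connectives and bounded quantifiers `∀ x < t`. -/
inductive Delta0 : Fm → Prop
  | eq (s t : Tm) : Delta0 (.eq s t)
  | lt (s t : Tm) : Delta0 (.lt s t)
  | neg {φ : Fm} : Delta0 φ → Delta0 (.neg φ)
  | and {φ ψ : Fm} : Delta0 φ → Delta0 ψ → Delta0 (.and φ ψ)
  | ball (t : Tm) {φ : Fm} : Delta0 φ → Delta0 (.all (.imp (.lt (.var 0) t.shift) φ))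

/-- The arithmetical hierarchy: `Hier true n` is the class of `Σ_n` formulas and `Hier false n` the
class of `Π_n` formulas (`n` alternating blocks of quantifiers in front of a bounded formula). -/
inductive Hier : Bool → ℕ → Fm → Prop
  | delta {b : Bool} {φ : Fm} : Delta0 φ → Hier b 0 φ
  | up {b : Bool} {n : ℕ} {φ : Fm} : Hier (!b) n φ → Hier b (n + 1) φ
  | ex {n : ℕ} {φ : Fm} : Hier true (n + 1) φ → Hier true (n + 1) φ.ex
  | all {n : ℕ} {φ : Fm} : Hier false (n + 1) φ → Hier false (n + 1) φ.all

/-- Goedel numbers of terms. -/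
def Tm.code : Tm → ℕ
  | .var i => Nat.pair 0 i
  | .zero => Nat.pair 1 0
  | .succ t => Nat.pair 2 t.code
  | .add s t => Nat.pair 3 (Nat.pair s.code t.code)
  | .mul s t => Nat.pair 4 (Nat.pair s.code t.code)

/-- Goedel numbers of formulas. -/
def Fm.code : Fm → ℕ
  | .eq s t => Nat.pair 0 (Nat.pair s.code t.code)
  | .lt s t => Nat.pair 1 (Nat.pair s.code t.code)
  | .neg φ => Nat.pair 2 φ.code
  | .and φ ψ => Nat.pair 3 (Nat.pair φ.code ψ.code)
  | .all φ => Nat.pair 4 φ.code

/-! ### Oracle computations -/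

open Classical in
/-- The code of the initial segment of length `s` of (the characteristic function of) `X`. -/
noncomputable def seg (X : Set ℕ) (s : ℕ) : ℕ :=
  Encodable.encode ((List.range s).map fun i => decide (i ∈ X))

/-- The value given by the `u`-th attempt, `u = ⟨s, m⟩`, to compute `n ↦ y` from `X` with the `e`-th
program: the program is run for `s` steps with the first `m` values of `X` and `n` as its input. -/
noncomputable def attempt (X : Set ℕ) (e n u : ℕ) : Option ℕ :=
  Nat.Partrec.Code.evaln u.unpair.1 (Denumerable.ofNat Nat.Partrec.Code e)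
    (Nat.pair (seg X u.unpair.2) n)

/-- `Phi X e n y` says that the `e`-th oracle computation with oracle `X` and input `n` gives the
value `y`: it is the value given by the first successful attempt. -/
def Phi (X : Set ℕ) (e n y : ℕ) : Prop :=
  ∃ u, attempt X e n u = some y ∧ ∀ u' < u, attempt X e n u' = none

/-- The Turing jump. -/
def jump (X : Set ℕ) : Set ℕ := {e | ∃ y, Phi X e e y}

/-- `e` is an index of `Y` as a set computable in `X`. -/
def IsIndex (X : Set ℕ) (e : ℕ) (Y : Set ℕ) : Prop :=
  ∀ n, (n ∈ Y → Phi X e n 1) ∧ (n ∉ Y → Phi X e n 0)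

/-! ### Models with universe `ℕ` -/

/-- The atomic diagram of a structure with universe `ℕ`, the variable `i` being used as the name of
the element `i`. -/
def diag (A : Arith ℕ) : Set ℕ :=
  {z | ∃ s t : Tm, z = Nat.pair s.code t.code ∧ s.val (fun i => i) = t.val (fun i => i)}

/-- The set `T_n` of (the Goedel numbers of) the `Σ_n` sentences which are true in `A`. -/
def Tn (A : Arith ℕ) (n : ℕ) : Set ℕ :=
  {z | ∃ φ : Fm, Hier true n φ ∧ φ.Bd 0 ∧ Sat φ (fun _ : ℕ => (0 : ℕ)) ∧ z = φ.code}

/-- `t` is a Solovay family for the theory of `A` relative to `A` (`t 0` plays no role). -/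
structure SolovayFamily (A : Arith ℕ) (t : ℕ → ℕ → ℕ) : Prop where
  /-- `t n` is computable in the `(n-1)`-st jump of the diagram, uniformly in `n` -/
  unif : ∃ f : ℕ → ℕ, Computable f ∧ ∀ n ≥ 1, ∀ s, Phi (jump^[n - 1] (diag A)) (f n) s (t n s)
  /-- the limit of `t n` exists and is an index of `T_n` -/
  lim : ∀ n ≥ 1, ∃ e s₀, (∀ s ≥ s₀, t n s = e) ∧ IsIndex (diag A) e (Tn A n)
  /-- each `t n s` is an index of a subset of `T_n` -/
  sub : ∀ n ≥ 1, ∀ s, ∃ Y ⊆ Tn A n, IsIndex (diag A) (t n s) Y

/-- The set of the stages at which a function changes its value. -/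
def changes (t : ℕ → ℕ) : Set ℕ := {s | t (s + 1) ≠ t s}

/-- The statement: there is a nonstandard model of Peano arithmetic for which every Solovay
family has a member `t n` which changes its value more than `g n` times. -/
def Main : Prop :=
  ∀ g : ℕ → ℕ, ∃ A : Arith ℕ, IsPA ℕ ∧ (∃ x : ℕ, ∀ n, num ℕ n ≠ x) ∧
    ∀ t, SolovayFamily A t → ∃ n ≥ 1, (g n : ℕ∞) < (changes (t n)).encard

end Pool.Agent.N636.SF
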