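import Pool.Agent.N636.SF.Std

/-!
# The model given by a generic sequence
-/

set_option autoImplicit false

namespace Pool.Agent.N636.SF
namespace P_FIN

open Filter

theorem Gam_mono {m n : ℕ} (h : m ≤ n) {φ : Fm} (hφ : Gam m φ) : Gam n φ := by
  induction h with
  | refl => exact hφ
  | step _ ih => exact .up ih

theorem Gam_rename {n : ℕ} {φ : Fm} (h : Gam n φ) :
    ∀ τ : ℕ → Tm, (∀ i, ∃ j, τ i = .var j) → Gam n (φ.subst τ) := by
  induction h with
  | atom0 a b c e =>
    intro τ hτ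
    obtain ⟨a', ha⟩ := hτ a
    obtain ⟨b', hb⟩ := hτ b
    obtain ⟨c', hc⟩ := hτ c
    obtain ⟨e', he⟩ := hτ e
    simp only [Fm.subst, Tm.subst, ha, hb, hc, he]
    exact .atom0 ..
  | atom1 a =>
    intro τ hτ
    obtain ⟨a', ha⟩ := hτ a
    simp only [Fm.subst, Tm.subst, ha]
    exact .atom1 ..
  | up _ ih => intro τ hτ; exact .up (ih τ hτ)
  | neg _ ih => intro τ hτ; exact .neg (ih τ hτ)
  | and _ _ ih1 ih2 => intro τ hτ; exact .and (ih1 τ hτ) (ih2 τ hτ)
  | ex _ ih =>
    intro τ hτ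
    refine .ex (ih (upS τ) ?_)
    intro i
    cases i with
    | zero => exact ⟨0, rfl⟩
    | succ i =>
      obtain ⟨j, hj⟩ := hτ i
      exact ⟨j + 1, by simp only [upS, hj, Tm.shift]⟩

theorem InGam_mono {m n k : ℕ} (h : m ≤ n) {φ : Fm} (hφ : InGam m k φ) : InGam n k φ := by
  obtain ⟨ψ, h1, h2, h3⟩ := hφ
  exact ⟨ψ, Gam_mono h h1, h2, h3⟩

theorem InGam_neg {n k : ℕ} {φ : Fm} (hφ : InGam n k φ) : InGam (n + 1) k (.neg φ) := by
  obtain ⟨ψ, h1, h2, h3⟩ := hφ
  exact ⟨.neg ψ, .neg h1, h2, fun M _ hM v => not_congr (h3 M hM v)⟩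

theorem Le_refl (n : ℕ) (p : Cond) : Le n p p := ⟨le_rfl, fun _ _ _ h => h⟩

theorem Le_mono {m n : ℕ} (h : m ≤ n) {p q : Cond} (hpq : Le n p q) : Le m p q :=
  ⟨hpq.1, fun φ hφ hb hs => hpq.2 φ (Gam_mono h hφ) hb hs⟩

theorem Le_trans {n : ℕ} {p q r : Cond} (hpq : Le n p q) (hqr : Le n q r) : Le n p r :=
  ⟨hpq.1.trans hqr.1, fun φ hφ hb hs => hqr.2 φ hφ (hb.mono hpq.1) (hpq.2 φ hφ hb hs)⟩

theorem Le_InGam {n k : ℕ} {p q : Cond} (h : Le n p q) {φ : Fm} (hφ : InGam n k φ) (hk : k ≤ p.k)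
    (hs : Sat φ p.a) : Sat φ q.a := by
  obtain ⟨ψ, h1, h2, h3⟩ := hφ
  exact (h3 q.M q.pa q.a).2 (h.2 ψ h1 (h2.mono hk) ((h3 p.M p.pa p.a).1 hs))

theorem Dec_unique {p : Cond} {z : ℕ} {b b' : Prop} (h : Dec p z b) (h' : Dec p z b') :
    b ↔ b' := by
  rcases h with ⟨s, t, hz, _, _, hb⟩ | ⟨hz, hb⟩
  · rcases h' with ⟨s', t', hz', _, _, hb'⟩ | ⟨hz', hb'⟩
    · have := hz.symm.trans hz'
      rw [Nat.pair_eq_pair] at this
      have e1 := Tm.code_injective this.1
      have e2 := Tm.code_injective this.2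
      subst e1; subst e2
      exact hb.trans hb'.symm
    · exact absurd ⟨s, t, hz⟩ hz'
  · rcases h' with ⟨s', t', hz', _, _, hb'⟩ | ⟨hz', hb'⟩
    · exact absurd ⟨s', t', hz'⟩ hz
    · exact iff_of_false hb hb'

theorem Phi_unique {X : Set ℕ} {e n y y' : ℕ} (h : Phi X e n y) (h' : Phi X e n y') : y = y' := by
  obtain ⟨u, h1, h2⟩ := h
  obtain ⟨u', h1', h2'⟩ := h'
  rcases lt_trichotomy u u' with hu | hu | hu
  · rw [h2' u hu] at h1; cases h1
  · subst hu; rw [h1] at h1'; exact Option.some.inj h1'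
  · rw [h2 u' hu] at h1'; cases h1'

theorem val_cons_var {M : Type} [Arith M] (i : ℕ) (v : ℕ → M) :
    (fun j => (cons (Tm.var i) Tm.var j).val v) = cons (v i) v := by
  funext j
  cases j <;> rfl

section seq
variable {N0 : ℕ} {J : ℕ → ℕ} {Gd : (M : Type) → [Arith M] → Prop}
  {st : (M : Type) → [Arith M] → ℕ → ℕ} {stF : ℕ → ℕ → Fm} {cd : ℕ → ℕ → ℕ → ℕ → BC}
  {f : ℕ → ℕ → ℕ} {tk : ℕ → BC} {hk : ℕ → Fm} {q : ℕ → Cond}

theorem le_seq (hq : GenSeq N0 J Gd st stF cd f tk hk q) {t t' : ℕ} (h : t ≤ t') :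
    Le (N0 + t + 1) (q t) (q t') := by
  induction h with
  | refl => exact Le_refl _ _
  | @step t'' h ih =>
    have h' : t ≤ t'' := h
    exact Le_trans ih (Le_mono (by omega) (hq.le t''))

theorem k_seq (hq : GenSeq N0 J Gd st stF cd f tk hk q) (k : ℕ) : ∀ t ≥ k, k ≤ (q t).k := by
  intro t ht
  have := hq.grow t
  omega

/-- The truth predicate of the model. -/
def Tr (q : ℕ → Cond) (φ : Fm) : Prop := ∀ᶠ t in atTop, Sat φ (q t).a

theorem Tr_of_InGam (hq : GenSeq N0 J Gd st stF cd f tk hk q) {n k t : ℕ} {φ : Fm}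
    (hφ : InGam n k φ) (hn : n ≤ N0 + t + 1) (hk : k ≤ (q t).k) (hs : Sat φ (q t).a) :
    Tr q φ := by
  filter_upwards [eventually_ge_atTop t] with t' ht'
  exact Le_InGam (Le_mono hn (le_seq hq ht')) hφ hk hs

theorem Tr_complete (hgamall : S_gamall) (hq : GenSeq N0 J Gd st stF cd f tk hk q) (φ : Fm) :
    Tr q φ ∨ Tr q (.neg φ) := by
  obtain ⟨k, hk⟩ := φ.exists_bd
  obtain ⟨n, hn⟩ := hgamall φ k hk
  let t := max n k
  have h1 : n ≤ t := le_max_left _ _
  have h2 : k ≤ (q t).k := k_seq hq k t (le_max_right _ _)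
  by_cases h : Sat φ (q t).a
  · exact .inl (Tr_of_InGam hq hn (by omega) h2 h)
  · exact .inr (Tr_of_InGam hq (InGam_neg hn) (by omega) h2 h)

theorem Tr_neg (hgamall : S_gamall) (hq : GenSeq N0 J Gd st stF cd f tk hk q) (φ : Fm) :
    Tr q (.neg φ) ↔ ¬ Tr q φ := by
  constructor
  · intro h h'
    obtain ⟨t, h1, h2⟩ := (h.and h').exists
    exact h1 h2
  · intro h
    exact (Tr_complete hgamall hq φ).resolve_left h

theorem Tr_and (φ ψ : Fm) : Tr q (.and φ ψ) ↔ Tr q φ ∧ Tr q ψ := eventually_and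

theorem Tr_all (hgamall : S_gamall) (hq : GenSeq N0 J Gd st stF cd f tk hk q)
    (hhk : ∀ φ t₀, ∃ t ≥ t₀, hk t = φ) (φ : Fm) :
    Tr q (.all φ) ↔ ∀ i, Tr q (φ.subst (cons (.var i) Tm.var)) := by
  constructor
  · intro h i
    filter_upwards [h] with t ht
    rw [Sat_subst, val_cons_var]
    exact ht _
  · intro h
    by_contra hne
    have hneg : Tr q (.neg (.all φ)) := (Tr_neg hgamall hq _).2 hne
    obtain ⟨k, hk0⟩ := (Fm.neg φ).exists_bd
    have hk1 : (Fm.neg φ).Bd (k + 1) := hk0.mono (by omega)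
    obtain ⟨n, ψ, hψ1, hψ2, hψ3⟩ := hgamall (.neg φ) (k + 1) hk1
    obtain ⟨t0, ht0⟩ := eventually_atTop.1 hneg
    obtain ⟨t, ht, htk⟩ := hhk (.neg φ) (max t0 (max n k))
    have hn : n ≤ t := by
      have := le_max_right t0 (max n k); have := le_max_left n k; omega
    have hkt : k ≤ t := by
      have := le_max_right t0 (max n k); have := le_max_right n k; omega
    have ht0' : t0 ≤ t := by
      have := le_max_left t0 (max n k); omega
    have hbd : (hk t).Bd ((q t).k + 1) := by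
      rw [htk]; exact hk1.mono (by have := k_seq hq k t hkt; omega)
    have hsat : Sat (hk t).ex (q (t + 1)).a := by
      rw [htk, Sat_ex]
      have := ht0 (t + 1) (by omega)
      simp only [Sat, not_forall] at this
      obtain ⟨a, ha⟩ := this
      exact ⟨a, ha⟩
    obtain ⟨i, hi, hw⟩ := hq.wit t hbd hsat
    rw [htk] at hw
    have hw' : Sat (ψ.subst (cons (.var i) Tm.var)) (q (t + 1)).a := by
      rw [Sat_subst] at hw ⊢
      exact (hψ3 _ (q (t + 1)).pa _).1 hw
    have hgam : Gam n (ψ.subst (cons (.var i) Tm.var)) := by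
      refine Gam_rename hψ1 _ ?_
      intro j
      cases j with
      | zero => exact ⟨i, rfl⟩
      | succ j => exact ⟨j, rfl⟩
    have hgbd : (ψ.subst (cons (.var i) Tm.var)).Bd (q (t + 1)).k := by
      refine hψ2.subst ?_
      intro j hj
      cases j with
      | zero => exact hi
      | succ j =>
        show j < (q (t + 1)).k
        have := hq.grow (t + 1)
        omega
    have hbad : Tr q (.neg (φ.subst (cons (.var i) Tm.var))) := by
      filter_upwards [eventually_ge_atTop (t + 1)] with t' ht'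
      have := (Le_mono (m := n) (by omega) (le_seq hq ht')).2 _ hgam hgbd hw'
      rw [Sat_subst] at this
      have := (hψ3 _ (q t').pa _).2 this
      show ¬ Sat _ _
      rw [Sat_subst]
      exact this
    exact (Tr_neg hgamall hq _).1 hbad (h i)

theorem Tr_sep (hq : GenSeq N0 J Gd st stF cd f tk hk q) (i j : ℕ) (hij : i ≠ j) :
    ¬ Tr q (.eq (.var i) (.var j)) := by
  intro h
  obtain ⟨t, h1, h2⟩ := (h.and (eventually_ge_atTop (i + j))).exists
  have := hq.grow t
  exact hij ((q t).inj i (by omega) j (by omega) h1)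

/-- Forced statements are preserved. -/
theorem pers (hpres : S_pres) (hq : GenSeq N0 J Gd st stF cd f tk hk q) {m t t' : ℕ} {C : BC}
    (hC : Lev m C) (hm : m ≤ N0 + t + 1) (h : t ≤ t') (hf : Forces C (q t)) : Forces C (q t') :=
  hpres m C hC _ _ (Le_mono hm (le_seq hq h)) hf

theorem Dec_ev (hgamall : S_gamall) (hq : GenSeq N0 J Gd st stF cd f tk hk q) (X : Set ℕ)
    (hX : ∀ z, z ∈ X ↔ ∃ s t : Tm, z = Nat.pair s.code t.code ∧ Tr q (.eq s t)) (z : ℕ) :
    ∀ᶠ t in atTop, Dec (q t) z (z ∈ X) := by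
  by_cases hz : ∃ s t : Tm, z = Nat.pair s.code t.code
  · obtain ⟨s, t, hz⟩ := hz
    obtain ⟨k, hk⟩ := s.exists_bd
    obtain ⟨l, hl⟩ := t.exists_bd
    have hXz : z ∈ X ↔ Tr q (.eq s t) := by
      rw [hX]
      constructor
      · rintro ⟨s', t', hz', h⟩
        have := hz.symm.trans hz'
        rw [Nat.pair_eq_pair] at this
        have e1 := Tm.code_injective this.1
        have e2 := Tm.code_injective this.2
        subst e1; subst e2
        exact h
      · intro h; exact ⟨s, t, hz, h⟩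
    have key : ∀ᶠ t' in atTop, (z ∈ X ↔ Sat (.eq s t) (q t').a) := by
      rcases Tr_complete hgamall hq (.eq s t) with h | h
      · filter_upwards [h] with t' ht'
        exact iff_of_true (hXz.2 h) ht'
      · filter_upwards [h] with t' ht'
        exact iff_of_false (fun hz' => (Tr_neg hgamall hq _).1 h (hXz.1 hz')) ht'
    filter_upwards [key, eventually_ge_atTop k, eventually_ge_atTop l] with t' h1 h2 h3
    exact .inl ⟨s, t, hz, hk.mono (k_seq hq k t' h2), hl.mono (k_seq hq l t' h3), h1⟩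
  · refine Eventually.of_forall fun t => .inr ⟨hz, ?_⟩
    intro h
    obtain ⟨s, t, h, _⟩ := (hX z).1 h
    exact hz ⟨s, t, h⟩

theorem Dec_pers (h1 : S_gam1) {n : ℕ} (hn : 1 ≤ n) {p q : Cond} (h : Le n p q) {z : ℕ} {b : Prop}
    (hd : Dec p z b) : Dec q z b := by
  rcases hd with ⟨s, t, hz, hs, ht, hb⟩ | hd
  · refine .inl ⟨s, t, hz, hs.mono h.1, ht.mono h.1, ?_⟩
    have h' := Le_mono hn h
    obtain ⟨g1, g2⟩ := h1 s t p.k hs ht
    rw [hb]
    constructor
    · intro hh; exact Le_InGam h' g1 le_rfl hh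
    · intro hh
      by_contra hne
      exact (Le_InGam h' g2 le_rfl (φ := .neg (.eq s t)) hne) hh
  · exact .inr hd

/-- Truth equals forcing. -/
theorem truth (hgamall : S_gamall) (h1 : S_gam1) (hT2 : S_T2) (hpres : S_pres) (hN : 1 ≤ N0)
    (hq : GenSeq N0 J Gd st stF cd f tk hk q) (X : Set ℕ)
    (hX : ∀ z, z ∈ X ↔ ∃ s t : Tm, z = Nat.pair s.code t.code ∧ Tr q (.eq s t))
    {m : ℕ} {C : BC} (hC : Lev m C) :
    (∀ l t₀, ∃ t ≥ t₀, tk t = C.sub l) → (C.holds X ↔ ∀ᶠ t in atTop, Forces C (q t)) := by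
  induction hC with
  | op n P =>
    intro _
    have hd := Dec_ev hgamall hq X hX
    constructor
    · rintro ⟨l, hl, h⟩
      have : ∀ᶠ t in atTop, ∀ z ∈ Set.Iio l.length, Dec (q t) z (z ∈ X) :=
        (Set.finite_Iio l.length).eventually_all.2 fun z _ => hd z
      filter_upwards [this] with t ht
      refine ⟨l, hl, fun z hz => ?_⟩
      rw [h z hz]
      exact ht z hz
    · intro h
      obtain ⟨t0, ht0⟩ := eventually_atTop.1 h
      obtain ⟨l, hl, h⟩ := ht0 t0 le_rfl
      refine ⟨l, hl, fun z hz => ?_⟩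
      obtain ⟨t, h2, h3⟩ := ((hd z).and (eventually_ge_atTop t0)).exists
      exact Dec_unique (Dec_pers h1 (by omega) (le_seq hq h3) (h z hz)) h2
  | @ex n c hc ih =>
    intro htk
    have ih' : ∀ i, (c i).holds X ↔ ∀ᶠ t in atTop, Forces (c i) (q t) := fun i =>
      ih i fun l t₀ => htk (i :: l) t₀
    have hC : Lev (n + 2) (.ex c) := .ex hc
    show (∃ i, ¬ (c i).holds X) ↔ _
    constructor
    · rintro ⟨i, hi⟩
      obtain ⟨t, ht, htk'⟩ := htk [i] (n + 2)
      have htk'' : tk t = c i := by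
        rw [htk']
        show (c i).sub [] = c i
        cases c i <;> rfl
      rcases hq.dec t with hd | hd
      · exfalso
        refine hi ((ih' i).2 ?_)
        filter_upwards [eventually_ge_atTop (t + 1)] with t' ht'
        rw [htk''] at hd
        exact pers hpres hq (hc i) (by omega) ht' hd
      · filter_upwards [eventually_ge_atTop (t + 1)] with t' ht'
        rw [htk''] at hd
        exact pers hpres hq hC (by omega) ht' ⟨i, hd⟩
    · intro h
      obtain ⟨t, h2, h3⟩ := (h.and (eventually_ge_atTop (n + 2))).exists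
      obtain ⟨i, hi⟩ := h2
      refine ⟨i, fun hh => ?_⟩
      obtain ⟨t', h4, h5⟩ := (((ih' i).1 hh).and (eventually_ge_atTop t)).exists
      obtain ⟨p', h6, h7⟩ := hT2 (n + 1) (q t) (q t') (q t') (by omega)
        (Le_mono (by omega) (le_seq hq h5)) ⟨le_rfl, fun _ _ => Iff.rfl⟩
      exact hi p' h6 (hpres _ _ (hc i) _ _ h7 h4)

end seq

theorem prf_fin (hgamall : S_gamall) (h1 : S_gam1) (hT2 : S_T2) (hpres : S_pres)
    (hhenkin : S_henkin) (hch : S_changes) : S_fin := by
  intro N0 J Gd st stF cd hN0 hside hlev hcd f tk hk q hq htk hhk hf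
  obtain ⟨A, hPA, hSat⟩ := hhenkin (Tr q) (Tr_neg hgamall hq) (fun φ ψ => Tr_and φ ψ)
    (Tr_all hgamall hq hhk)
    (fun φ h => Eventually.of_forall fun t => h _ (q t).pa _)
    (Tr_sep hq)
  have hId : ∀ φ : Fm, Sat φ (fun i : ℕ => i) ↔ Tr q φ := by
    intro φ
    rw [hSat]
    unfold Tr
    refine eventually_congr (Eventually.of_forall fun t => ?_)
    rw [Sat_subst]
    exact Iff.rfl
  have hClosed : ∀ φ : Fm, φ.Bd 0 → (Sat φ (fun _ : ℕ => (0 : ℕ)) ↔ Tr q φ) := by
    intro φ hφ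
    rw [← hId]
    exact Sat_congr hφ fun i hi => absurd hi (Nat.not_lt_zero i)
  refine ⟨A, hPA, ⟨0, ?_⟩, ?_⟩
  · intro n hn
    have h2 : Sat (.eq (.var 0) (numT n)) (fun i : ℕ => i) := by
      show (0 : ℕ) = (numT n).val _
      rw [val_numT]; exact hn.symm
    rw [hId] at h2
    obtain ⟨t, ht⟩ := Eventually.exists h2
    have h3 := hq.nonstd n
    have h4 := (h1 (.var 0) (numT n) 1 Nat.one_pos (numT_bd n 1)).2
    have h5 : Sat (.neg (.eq (.var 0) (numT n))) (q t).a :=
      Le_InGam (Le_mono (by omega) (le_seq hq (Nat.zero_le t))) h4 (hq.grow 0) h3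
    exact h5 ht
  · intro t hsol
    have hX : ∀ z, z ∈ diag A ↔ ∃ s t : Tm, z = Nat.pair s.code t.code ∧ Tr q (.eq s t) := by
      intro z
      constructor
      · rintro ⟨s, t, hz, h⟩
        exact ⟨s, t, hz, (hId (.eq s t)).1 h⟩
      · rintro ⟨s, t, hz, h⟩
        exact ⟨s, t, hz, (hId (.eq s t)).2 h⟩
    have hTruth : ∀ n e s y, Phi (jump^[n] (diag A)) e s y ↔
        ∀ᶠ t in atTop, Forces (cd n e s y) (q t) := by
      intro n e s y
      rw [← hcd]
      exact truth hgamall h1 hT2 hpres hN0 hq (diag A) hX (hlev n e s y) fun l t₀ =>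
        htk n e s y l t₀
    obtain ⟨g, hg, hgphi⟩ := hsol.unif
    obtain ⟨t0, ht0⟩ := hf g hg
    set p := t0 + 1 with hp
    refine ⟨p, by omega, ?_⟩
    set n := N0 + p with hn
    have hn1 : 1 ≤ n := by omega
    set j := st (q p).M p with hj
    have hjJ : j ≤ J p := hside.le _ _
    obtain ⟨⟨c, hc⟩, hd⟩ := hq.done t0
    rw [ht0, ← hp, ← hj, ← hn] at hc hd
    -- forced at `q p` implies true
    have hForced : ∀ n' e s y, n' + 1 ≤ n → Forces (cd n' e s y) (q p) →
        Phi (jump^[n'] (diag A)) e s y := by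
      intro n' e s y hn' hfo
      rw [hTruth]
      filter_upwards [eventually_ge_atTop p] with t' ht'
      exact pers hpres hq (hlev n' e s y) (by omega) ht' hfo
    -- the truth of the state sentences
    have hState : ∀ l, 1 ≤ l → l ≤ J p → (Tr q (stF p l) ↔ l ≤ j) := by
      intro l h1l hlJ
      have hst : ∀ t' ≥ p, (Sat (stF p l) (q t').a ↔ l ≤ j) := by
        intro t' ht'
        rw [hside.stF p l h1l hlJ _ (hq.gd t')]
        have := hq.stay t0 t' (by omega)
        rw [← hp] at this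
        rw [this]
      constructor
      · intro h
        obtain ⟨t', h2, h3⟩ := (h.and (eventually_ge_atTop p)).exists
        exact (hst t' h3).1 h2
      · intro h
        filter_upwards [eventually_ge_atTop p] with t' ht'
        exact (hst t' ht').2 h
    have hTn : ∀ l, 1 ≤ l → l ≤ J p → ((stF p l).code ∈ Tn A n ↔ l ≤ j) := by
      intro l h1l hlJ
      rw [← hState l h1l hlJ, ← hClosed _ (hside.sig p l h1l hlJ).2]
      constructor
      · rintro ⟨φ, _, _, h, hc⟩
        rw [Fm.code_injective hc]; exact h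
      · intro h
        exact ⟨_, (hside.sig p l h1l hlJ).1, (hside.sig p l h1l hlJ).2, h, rfl⟩
    obtain ⟨e, s0, he, hidx⟩ := hsol.lim n hn1
    have hte : t n s0 = e := he s0 le_rfl
    have hePhi : Phi (jump^[n - 1] (diag A)) (g n) s0 e := by
      have := hgphi n hn1 s0
      rwa [hte] at this
    have he1 : ∀ l, 1 ≤ l → l ≤ j → Phi (diag A) e (stF p l).code 1 := fun l h1l hl =>
      (hidx _).1 ((hTn l h1l (hl.trans hjJ)).2 hl)
    -- the state is final
    have hjeq : j = J p := by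
      rcases hd with hd | hd
      · exact hd
      · by_contra hne
        have hlt : j + 1 ≤ J p := by omega
        have he0 : Phi (diag A) e (stF p (j + 1)).code 0 :=
          (hidx _).2 fun h => absurd ((hTn (j + 1) (by omega) hlt).1 h) (by omega)
        have e1 : ∀ᶠ t' in atTop, ∀ l ∈ Set.Icc 1 j, Forces (cd 0 e (stF p l).code 1) (q t') :=
          (Set.finite_Icc 1 j).eventually_all.2 fun l hl => (hTruth 0 _ _ _).1 (he1 l hl.1 hl.2)
        have e2 := (hTruth 0 _ _ _).1 he0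
        have e3 := (hTruth (n - 1) _ _ _).1 hePhi
        obtain ⟨t', ⟨⟨h2, h3⟩, h4⟩, h5⟩ := (((e1.and e2).and e3).and
          (eventually_ge_atTop p)).exists
        obtain ⟨p', h6, h7⟩ := hT2 n (q p) (q t') (q t') hn1
          (Le_mono (by omega) (le_seq hq h5)) ⟨le_rfl, fun _ _ => Iff.rfl⟩
        refine hd p' h6 s0 e ⟨?_, ?_, ?_⟩
        · exact hpres (n - 1 + 1) _ (hlev _ _ _ _) _ _ (Le_mono (by omega) h7) h4
        · intro l h1l hl
          exact hpres 1 _ (hlev _ _ _ _) _ _ (Le_mono hn1 h7) (h2 l ⟨h1l, hl⟩)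
        · exact hpres 1 _ (hlev _ _ _ _) _ _ (Le_mono hn1 h7) h3
    -- the values
    have hvals : ∀ i < J p, (∃ s, t n s = c i) ∧
        (∀ l, 1 ≤ l → l ≤ i → Phi (diag A) (c i) (stF p l).code 1) ∧
        Phi (diag A) (c i) (stF p (i + 1)).code 0 := by
      intro i hi
      obtain ⟨⟨s, hs⟩, hp1, hp2⟩ := hc i (by omega)
      refine ⟨⟨s, ?_⟩, fun l h1l hl => ?_, ?_⟩
      · exact Phi_unique (hgphi n hn1 s) (hForced (n - 1) _ _ _ (by omega) hs)
      · exact hForced 0 _ _ _ (by omega) (hp1 l h1l hl)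
      · exact hForced 0 _ _ _ (by omega) hp2
    refine hch (t n) (J p) (fun i => if i < J p then c i else e) ?_ ?_
    · have key : ∀ i i', i < i' → i' ≤ J p →
          (if i < J p then c i else e) ≠ (if i' < J p then c i' else e) := by
        intro i i' hii hi' heq
        rw [if_pos (by omega : i < J p)] at heq
        have hz := (hvals i (by omega)).2.2
        have ho : Phi (diag A) (if i' < J p then c i' else e) (stF p (i + 1)).code 1 := by
          split_ifs with h
          · exact (hvals i' h).2.1 _ (by omega) (by omega)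
          · exact he1 _ (by omega) (by omega)
        rw [← heq] at ho
        exact absurd (Phi_unique hz ho) (by norm_num)
      intro i hi i' hi' heq
      rcases lt_trichotomy i i' with h | h | h
      · exact absurd heq (key i i' h hi')
      · exact h
      · exact absurd heq.symm (key i' i h hi)
    · intro i hi
      by_cases h : i < J p
      · obtain ⟨s, hs⟩ := (hvals i h).1
        exact ⟨s, by simp only [if_pos h]; exact hs⟩
      · exact ⟨s0, by simp only [if_neg h]; exact hte⟩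

end P_FIN
end Pool.Agent.N636.SF
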