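import Pool.Agent.N636.SF.Stm

/-!
# Henkin's construction
-/

set_option autoImplicit false

namespace Pool.Agent.N636.SF

namespace P_HENKIN

/-- valid in all models of PA -/
def Val (φ : Fm) : Prop := ∀ (M : Type) [Arith M], IsPA M → ∀ v : ℕ → M, Sat φ v

section
variable {Tr : Fm → Prop}

structure Hyp (Tr : Fm → Prop) : Prop where
  neg : ∀ φ, Tr (.neg φ) ↔ ¬ Tr φ
  and : ∀ φ ψ, Tr (.and φ ψ) ↔ Tr φ ∧ Tr ψ
  all : ∀ φ, Tr (.all φ) ↔ ∀ i, Tr (φ.subst (cons (.var i) Tm.var))
  val : ∀ φ, Val φ → Tr φ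
  sep : ∀ i j, i ≠ j → ¬ Tr (.eq (.var i) (.var j))

variable (h : Hyp Tr)

include h

theorem imp (φ ψ : Fm) : Tr (φ.imp ψ) ↔ (Tr φ → Tr ψ) := by
  unfold Fm.imp
  rw [h.neg, h.and, h.neg]
  tauto

theorem mpv {φ ψ : Fm} (hv : ∀ (M : Type) [Arith M], IsPA M → ∀ v : ℕ → M, Sat φ v → Sat ψ v)
    (hφ : Tr φ) : Tr ψ := by
  refine (imp h φ ψ).1 (h.val _ ?_) hφ
  intro M _ hM v
  rw [Sat_imp]
  exact hv M hM v

theorem eqv {φ ψ : Fm} (hv : ∀ (M : Type) [Arith M], IsPA M → ∀ v : ℕ → M, Sat φ v ↔ Sat ψ v) :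
    Tr φ ↔ Tr ψ :=
  ⟨mpv h fun M _ hM v => (hv M hM v).1, mpv h fun M _ hM v => (hv M hM v).2⟩

theorem ex (φ : Fm) : Tr φ.ex ↔ ∃ i, Tr (φ.subst (cons (.var i) Tm.var)) := by
  unfold Fm.ex
  rw [h.neg, h.all, not_forall]
  refine exists_congr fun i => ?_
  rw [show (Fm.neg φ).subst (cons (.var i) Tm.var) = .neg (φ.subst (cons (.var i) Tm.var)) from rfl,
    h.neg, not_not]

omit h in
theorem cons_val {M : Type} [Arith M] (t : Tm) (w : ℕ → M) :
    (fun j => (cons t Tm.var j).val w) = cons (t.val w) w := by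
  funext j
  cases j with
  | zero => rfl
  | succ j => rfl

theorem exists_name (t : Tm) : ∃ i, Tr (.eq t (.var i)) := by
  have h1 : Tr (Fm.ex (.eq t.shift (.var 0))) := by
    apply h.val
    intro M _ _ v
    rw [Sat_ex]
    refine ⟨t.val v, ?_⟩
    simp only [Sat, Tm.val_shift]
    rfl
  obtain ⟨i, hi⟩ := (ex h _).1 h1
  refine ⟨i, (eqv h ?_).1 hi⟩
  intro M _ _ v
  rw [Sat_subst, cons_val]
  simp only [Sat, Tm.val_shift]
  rfl

/-- the name of the value of a term -/
noncomputable def nm (t : Tm) : ℕ := (exists_name h t).choose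

theorem nm_spec (t : Tm) : Tr (.eq t (.var (nm h t))) := (exists_name h t).choose_spec

theorem tr_eq {s t : Tm} : Tr (.eq s t) ↔ nm h s = nm h t := by
  constructor
  · intro h1
    by_contra hne
    apply h.sep _ _ hne
    refine mpv h (φ := .and (.eq s t) (.and (.eq s (.var (nm h s))) (.eq t (.var (nm h t))))) ?_
      ((h.and _ _).2 ⟨h1, (h.and _ _).2 ⟨nm_spec h s, nm_spec h t⟩⟩)
    rintro M _ _ v ⟨h1, h2, h3⟩
    simp only [Sat] at h1 h2 h3 ⊢
    rw [← h2, ← h3, h1]
  · intro h1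
    refine mpv h (φ := .and (.eq s (.var (nm h s))) (.eq t (.var (nm h t)))) ?_
      ((h.and _ _).2 ⟨nm_spec h s, nm_spec h t⟩)
    rintro M _ _ v ⟨h2, h3⟩
    simp only [Sat] at h2 h3 ⊢
    rw [h2, h3, h1]

/-- valid equations given equations -/
theorem nm_eq {s t : Tm} (hv : Val (.eq s t)) : nm h s = nm h t := (tr_eq h).1 (h.val _ hv)

theorem nm_var (i : ℕ) : nm h (.var i) = i := by
  by_contra hne
  exact h.sep _ _ (Ne.symm hne) (nm_spec h (.var i))

theorem nm_nm (t : Tm) : nm h (.var (nm h t)) = nm h t := nm_var h _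

theorem nm_succ {s t : Tm} (h1 : nm h s = nm h t) : nm h (.succ s) = nm h (.succ t) := by
  rw [← tr_eq] at h1 ⊢
  refine mpv h ?_ h1
  intro M _ _ v h2
  simp only [Sat, Tm.val] at h2 ⊢
  rw [h2]

theorem nm_add {s t s' t' : Tm} (h1 : nm h s = nm h s') (h2 : nm h t = nm h t') :
    nm h (.add s t) = nm h (.add s' t') := by
  rw [← tr_eq] at h1 h2 ⊢
  refine mpv h ?_ ((h.and _ _).2 ⟨h1, h2⟩)
  rintro M _ _ v ⟨h3, h4⟩
  simp only [Sat, Tm.val] at h3 h4 ⊢
  rw [h3, h4]

theorem nm_mul {s t s' t' : Tm} (h1 : nm h s = nm h s') (h2 : nm h t = nm h t') :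
    nm h (.mul s t) = nm h (.mul s' t') := by
  rw [← tr_eq] at h1 h2 ⊢
  refine mpv h ?_ ((h.and _ _).2 ⟨h1, h2⟩)
  rintro M _ _ v ⟨h3, h4⟩
  simp only [Sat, Tm.val] at h3 h4 ⊢
  rw [h3, h4]

/-- the Henkin model -/
@[reducible] noncomputable def model : Arith ℕ where
  zero := nm h .zero
  succ i := nm h (.succ (.var i))
  add i j := nm h (.add (.var i) (.var j))
  mul i j := nm h (.mul (.var i) (.var j))

theorem val_eq (t : Tm) (v : ℕ → ℕ) :
    @Tm.val ℕ (model h) v t = nm h (t.subst fun j => .var (v j)) := by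
  induction t with
  | var i => exact (nm_var h (v i)).symm
  | zero => rfl
  | succ t ih =>
    change nm h (.succ (.var (@Tm.val ℕ (model h) v t))) = _
    rw [ih]
    exact nm_succ h (nm_nm h _)
  | add s t ihs iht =>
    change nm h (.add (.var (@Tm.val ℕ (model h) v s)) (.var (@Tm.val ℕ (model h) v t))) = _
    rw [ihs, iht]
    exact nm_add h (nm_nm h _) (nm_nm h _)
  | mul s t ihs iht =>
    change nm h (.mul (.var (@Tm.val ℕ (model h) v s)) (.var (@Tm.val ℕ (model h) v t))) = _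
    rw [ihs, iht]
    exact nm_mul h (nm_nm h _) (nm_nm h _)

theorem sat_iff (φ : Fm) (v : ℕ → ℕ) :
    @Sat ℕ (model h) φ v ↔ Tr (φ.subst fun j => .var (v j)) := by
  induction φ generalizing v with
  | eq s t =>
    change @Tm.val ℕ (model h) v s = @Tm.val ℕ (model h) v t ↔ Tr (.eq _ _)
    rw [val_eq, val_eq, tr_eq h]
  | lt s t =>
    change (∃ z : ℕ, nm h (.add (.var (@Tm.val ℕ (model h) v s)) (.var (nm h (.succ (.var z))))) =
      @Tm.val ℕ (model h) v t) ↔ Tr (.lt (s.subst fun j => .var (v j)) (t.subst fun j => .var (v j)))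
    rw [val_eq, val_eq]
    generalize s.subst (fun j => .var (v j)) = s'
    generalize t.subst (fun j => .var (v j)) = t'
    have h1 : Tr (.lt s' t') ↔ Tr (Fm.ex (.eq (.add s'.shift (.succ (.var 0))) t'.shift)) := by
      apply eqv h
      intro M _ _ w
      rw [Sat_ex]
      simp only [Sat, Lt, Tm.val, Tm.val_shift]
      rfl
    rw [h1, ex h]
    refine exists_congr fun z => ?_
    have h2 : Tr ((Fm.eq (.add s'.shift (.succ (.var 0))) t'.shift).subst (cons (.var z) Tm.var)) ↔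
        Tr (.eq (.add s' (.succ (.var z))) t') := by
      apply eqv h
      intro M _ _ w
      rw [Sat_subst, cons_val]
      simp only [Sat, Tm.val, Tm.val_shift]
      rfl
    rw [h2, tr_eq h]
    rw [nm_add h (nm_nm h s') (nm_nm h (.succ (.var z)))]
  | neg φ ih =>
    change ¬ (@Sat ℕ (model h) φ v) ↔ Tr (.neg _)
    rw [ih, h.neg]
  | and φ ψ ih1 ih2 =>
    change (@Sat ℕ (model h) φ v ∧ @Sat ℕ (model h) ψ v) ↔ Tr (.and _ _)
    rw [ih1, ih2, h.and]
  | all φ ih =>
    change (∀ a : ℕ, @Sat ℕ (model h) φ (cons a v)) ↔ Tr (.all _)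
    rw [h.all]
    refine forall_congr' fun i => ?_
    rw [ih]
    apply eqv h
    intro M _ _ w
    rw [Sat_subst, Sat_subst, Sat_subst, cons_val, val_upS]
    have : (fun j => (Tm.var (cons i v j)).val w) =
        cons ((Tm.var i).val w) fun j => (Tm.var (v j)).val w := by
      funext j
      cases j with
      | zero => rfl
      | succ j => rfl
    rw [this]

theorem valid {φ : Fm} (hφ : Val φ) (v : ℕ → ℕ) : @Sat ℕ (model h) φ v := by
  rw [sat_iff]
  apply h.val
  intro M _ hM w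
  rw [Sat_subst]
  exact hφ M hM _

theorem isPA : @IsPA ℕ (model h) := by
  letI := model h
  refine ⟨?_, ?_, ?_, ?_, ?_, ?_, ?_⟩
  · intro x
    exact valid h (φ := .neg (.eq (.succ (.var 0)) .zero))
      (fun M _ hM v => hM.succ_ne_zero (v 0)) (fun _ => x)
  · intro x y
    have := valid h (φ := .imp (.eq (.succ (.var 0)) (.succ (.var 1))) (.eq (.var 0) (.var 1)))
      (fun M _ hM v => by
        rw [Sat_imp]
        exact hM.succ_inj (v 0) (v 1)) (cons x fun _ => y)
    rw [Sat_imp] at this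
    exact this
  · intro x
    exact valid h (φ := .eq (.add (.var 0) .zero) (.var 0))
      (fun M _ hM v => hM.add_zero (v 0)) (fun _ => x)
  · intro x y
    exact valid h (φ := .eq (.add (.var 0) (.succ (.var 1))) (.succ (.add (.var 0) (.var 1))))
      (fun M _ hM v => hM.add_succ (v 0) (v 1)) (cons x fun _ => y)
  · intro x
    exact valid h (φ := .eq (.mul (.var 0) .zero) .zero)
      (fun M _ hM v => hM.mul_zero (v 0)) (fun _ => x)
  · intro x y
    exact valid h (φ := .eq (.mul (.var 0) (.succ (.var 1))) (.add (.mul (.var 0) (.var 1)) (.var 0)))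
      (fun M _ hM v => hM.mul_succ (v 0) (v 1)) (cons x fun _ => y)
  · intro φ v
    have key : ∀ (M : Type) [Arith M] (w : ℕ → M),
        (Sat (.imp (φ.subst (cons .zero Tm.var)) (.imp (.all (.imp φ
          (φ.subst (cons (.succ (.var 0)) fun i => .var (i + 1))))) (.all φ))) w ↔
        (Sat φ (cons Arith.zero w) → (∀ a, Sat φ (cons a w) → Sat φ (cons (Arith.succ a) w)) →
          ∀ a, Sat φ (cons a w))) := by
      intro M _ w
      rw [Sat_imp, Sat_imp, Sat_subst, cons_val]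
      have h1 : ∀ a : M, (fun j => (cons (Tm.succ (.var 0)) (fun i => .var (i + 1)) j).val
          (cons a w)) = cons (Arith.succ a) w := by
        intro a
        funext j
        cases j with
        | zero => rfl
        | succ j => rfl
      have h2 : Sat (.all (.imp φ (φ.subst (cons (.succ (.var 0)) fun i => .var (i + 1))))) w ↔
          ∀ a, Sat φ (cons a w) → Sat φ (cons (Arith.succ a) w) := by
        change (∀ a, Sat (.imp _ _) _) ↔ _
        refine forall_congr' fun a => ?_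
        rw [Sat_imp, Sat_subst, h1]
      rw [h2]
      rfl
    have := valid h (φ := .imp (φ.subst (cons .zero Tm.var)) (.imp (.all (.imp φ
      (φ.subst (cons (.succ (.var 0)) fun i => .var (i + 1))))) (.all φ)))
      (fun M _ hM w => by
        rw [key]
        exact hM.ind φ w) v
    rw [key] at this
    exact this

end

end P_HENKIN

theorem prf_henkin : S_henkin := by
  intro Tr h1 h2 h3 h4 h5
  have h : P_HENKIN.Hyp Tr := ⟨h1, h2, h3, h4, h5⟩
  exact ⟨P_HENKIN.model h, P_HENKIN.isPA h, P_HENKIN.sat_iff h⟩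

end Pool.Agent.N636.SF
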