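import Mathlib
import Pool.Agent.N636.SF.Defs
import Pool.Agent.Helper583.TCJ2

/-!
# The oracle computations `Phi` are the partial functions recursive in `X` in the sense of Mathlib
(helper833 for the project SF of helper636)
-/

set_option autoImplicit false

namespace Pool.Agent.N636.SF

namespace P_SANITY

open Encodable Classical
open Pool.Agent.Helper583.TC.J2

/-- the characteristic function -/
noncomputable def chi (X : Set ℕ) (n : ℕ) : ℕ := if n ∈ X then 1 else 0

theorem pre_len (g : ℕ → ℕ) (k : ℕ) : (NF.pre g k).length = k := NF.length_pre g k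

theorem seg_eq (X : Set ℕ) (m k : ℕ) (hmk : m ≤ k) :
    encode ((List.range m).map fun i => decide (((NF.pre (chi X) k).getD i 0) = 1)) = seg X m := by
  unfold seg
  congr 1
  refine List.map_congr_left fun i hi => ?_
  rw [List.mem_range] at hi
  have h1 : (NF.pre (chi X) k).getD i 0 = chi X i := by
    unfold NF.pre
    rw [List.getD_eq_getElem?_getD, List.getElem?_map, List.getElem?_range (by omega)]
    rfl
  rw [h1]
  unfold chi
  by_cases hX : i ∈ X
  · simp [hX]
  · simp [hX]

/-- the attempt as a function of the values of the oracle -/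
def G (c : Nat.Partrec.Code) (l : List ℕ) (n : ℕ) : Option ℕ :=
  Nat.Partrec.Code.evaln l.length.unpair.1 c
    (Nat.pair (encode ((List.range l.length.unpair.2).map fun i => decide (l.getD i 0 = 1))) n)

theorem G_prim (c : Nat.Partrec.Code) : Primrec₂ (G c) := by
  unfold G
  have h1 : Primrec fun p : List ℕ × ℕ => p.1.length := Primrec.list_length.comp Primrec.fst
  have h2 : Primrec fun p : List ℕ × ℕ => p.1.length.unpair := Primrec.unpair.comp h1
  have h3 : Primrec fun p : List ℕ × ℕ =>
      (List.range p.1.length.unpair.2).map fun i => decide (p.1.getD i 0 = 1) := by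
    refine Primrec.list_map (Primrec.list_range.comp (Primrec.snd.comp h2)) ?_
    have h4 : Primrec fun q : (List ℕ × ℕ) × ℕ => q.1.1.getD q.2 0 :=
      (Primrec.list_getD 0).comp (Primrec.fst.comp Primrec.fst) Primrec.snd
    exact (Primrec.eq.comp h4 (Primrec.const 1)).decide
  exact Nat.Partrec.Code.primrec_evaln.comp (Primrec.pair (Primrec.pair (Primrec.fst.comp h2)
    (Primrec.const c)) (Primrec₂.natPair.comp (Primrec.encode.comp h3) Primrec.snd))

theorem G_pre (X : Set ℕ) (e u n : ℕ) :
    G (Denumerable.ofNat Nat.Partrec.Code e) (NF.pre (chi X) u) n = attempt X e n u := by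
  unfold G attempt
  rw [pre_len, seg_eq X _ _ (Nat.unpair_right_le u)]

theorem phi_iff_rfindOpt (X : Set ℕ) (e n y : ℕ) :
    Phi X e n y ↔ y ∈ Nat.rfindOpt (fun u => attempt X e n u) := by
  unfold Nat.rfindOpt
  rw [Part.mem_bind_iff]
  constructor
  · rintro ⟨u, hu, hlt⟩
    refine ⟨u, ?_, ?_⟩
    · rw [Nat.mem_rfind]
      refine ⟨?_, fun {m} hm => ?_⟩
      · simp [hu]
      · simp [hlt m hm]
    · simp [hu]
  · rintro ⟨u, hu, hy⟩
    rw [Nat.mem_rfind] at hu
    refine ⟨u, ?_, fun m hm => ?_⟩
    · simpa using hy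
    · have := hu.2 hm
      simpa using this

theorem forward (X : Set ℕ) (F : ℕ →. ℕ) (e : ℕ) (he : ∀ n y, Phi X e n y ↔ y ∈ F n) :
    Nat.RecursiveIn {((chi X : ℕ → ℕ) : ℕ →. ℕ)} F := by
  have h1 := NF.recIn_of_stepped (chi X) (G_prim (Denumerable.ofNat Nat.Partrec.Code e))
  have h2 : (fun n => Nat.rfindOpt fun k =>
      G (Denumerable.ofNat Nat.Partrec.Code e) (NF.pre (chi X) k) n) = F := by
    funext n
    apply Part.ext
    intro y
    simp only [G_pre]
    rw [← phi_iff_rfindOpt, he]
  rw [h2] at h1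
  exact RecursiveIn.iff_nat.1 h1

theorem backward (X : Set ℕ) (F : ℕ →. ℕ) (h : Nat.RecursiveIn {((chi X : ℕ → ℕ) : ℕ →. ℕ)} F) :
    ∃ e, ∀ n y, Phi X e n y ↔ y ∈ F n := by
  obtain ⟨K, hK, -, hs⟩ := NF.normal_form (chi X) F h
  -- the code
  let φ : ℕ → Option ℕ := fun p => (decode (α := List Bool) p.unpair.1).bind fun σ =>
    K (σ.map fun b => b.toNat) p.unpair.2
  have hφ : Primrec φ := by
    refine Primrec.option_bind (Primrec.decode.comp (Primrec.fst.comp Primrec.unpair)) ?_
    refine hK.comp ?_ (Primrec.snd.comp (Primrec.unpair.comp Primrec.fst))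
    refine Primrec.list_map Primrec.snd ?_
    exact (Primrec.dom_finite Bool.toNat).comp Primrec.snd
  have hp : Nat.Partrec fun p => (φ p : Part ℕ) :=
    Partrec.nat_iff.1 hφ.to_comp.ofOption
  obtain ⟨c, hc⟩ := Nat.Partrec.Code.exists_code.1 hp
  have hmap : ∀ m, ((List.range m).map fun i => decide (i ∈ X)).map (fun b => b.toNat) =
      NF.pre (chi X) m := by
    intro m
    unfold NF.pre
    rw [List.map_map]
    refine List.map_congr_left fun i _ => ?_
    unfold chi
    by_cases hX : i ∈ X
    · simp [hX]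
    · simp [hX]
  have hφs : ∀ m n, φ (Nat.pair (seg X m) n) = K (NF.pre (chi X) m) n := by
    intro m n
    simp only [φ, Nat.unpair_pair]
    unfold seg
    rw [encodek, Option.bind_some, hmap]
  refine ⟨encode c, ?_⟩
  have hatt : ∀ n u, attempt X (encode c) n u =
      Nat.Partrec.Code.evaln u.unpair.1 c (Nat.pair (seg X u.unpair.2) n) := by
    intro n u
    unfold attempt
    rw [Denumerable.ofNat_encode]
  have hev : ∀ n y, (∃ u, attempt X (encode c) n u = some y) ↔ y ∈ F n := by
    intro n y
    rw [hs]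
    constructor
    · rintro ⟨u, hu⟩
      rw [hatt] at hu
      have h1 := Nat.Partrec.Code.evaln_sound hu
      rw [hc] at h1
      refine ⟨u.unpair.2, ?_⟩
      rw [← hφs]
      simpa using h1
    · rintro ⟨m, hm⟩
      rw [← hφs] at hm
      have h1 : y ∈ Nat.Partrec.Code.eval c (Nat.pair (seg X m) n) := by
        rw [hc]
        simp [hm]
      obtain ⟨k, hk⟩ := Nat.Partrec.Code.evaln_complete.1 h1
      refine ⟨Nat.pair k m, ?_⟩
      rw [hatt, Nat.unpair_pair]
      exact hk
  intro n y
  constructor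
  · rintro ⟨u, hu, -⟩
    exact (hev n y).1 ⟨u, hu⟩
  · intro hy
    obtain ⟨u, hu⟩ := (hev n y).2 hy
    have hex : ∃ u, attempt X (encode c) n u ≠ none := ⟨u, by rw [hu]; simp⟩
    have h1 := Nat.find_spec hex
    obtain ⟨y', hy'⟩ := Option.ne_none_iff_exists'.1 h1
    have h2 := (hev n y').1 ⟨_, hy'⟩
    have h3 : y' = y := Part.mem_unique h2 hy
    refine ⟨Nat.find hex, by rw [hy', h3], fun u' hu' => ?_⟩
    have := Nat.find_min hex hu'
    rwa [ne_eq, not_not] at this

theorem oracle_eq (X : Set ℕ) [DecidablePred (· ∈ X)] :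
    ((fun n => Part.some (if n ∈ X then 1 else 0)) : ℕ →. ℕ) = ((chi X : ℕ → ℕ) : ℕ →. ℕ) := by
  funext n
  unfold chi
  show Part.some _ = Part.some _
  congr

end P_SANITY

open P_SANITY

/-- **`Phi` is a numbering of the partial functions recursive in `X`** in the sense of Mathlib. -/
theorem phi_iff_recursiveIn (X : Set ℕ) [DecidablePred (· ∈ X)] (F : ℕ →. ℕ) :
    (∃ e, ∀ n y, Phi X e n y ↔ y ∈ F n) ↔
      RecursiveIn {fun n => Part.some (if n ∈ X then 1 else 0)} F := by
  rw [RecursiveIn.iff_nat, oracle_eq]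
  exact ⟨fun ⟨e, he⟩ => forward X F e he, backward X F⟩

/-- The case of total functions. -/
theorem phi_iff_computableIn (X : Set ℕ) [DecidablePred (· ∈ X)] (f : ℕ → ℕ) :
    (∃ e, ∀ n, Phi X e n (f n)) ↔
      RecursiveIn {fun n => Part.some (if n ∈ X then 1 else 0)} (f : ℕ →. ℕ) := by
  rw [← phi_iff_recursiveIn]
  refine exists_congr fun e => ?_
  constructor
  · intro h n y
    constructor
    · intro hy
      have h1 := (phi_iff_rfindOpt X e n y).1 hy
      have h2 := (phi_iff_rfindOpt X e n (f n)).1 (h n)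
      rw [Part.mem_unique h1 h2]
      exact Part.mem_some _
    · intro hy
      have : y = f n := Part.mem_some_iff.1 hy
      rw [this]
      exact h n
  · intro h n
    exact (h n (f n)).2 (Part.mem_some _)

end Pool.Agent.N636.SF
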