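import Pool.Agent.N636.SF.Stm

/-!
# Statements of the parts of part I, as propositions
-/

set_option autoImplicit false

namespace Pool.Agent.N636.SF

/-- The standard structure. -/
@[reducible] def stdA : Arith ℕ := ⟨0, Nat.succ, fun x y => x + y, fun x y => x * y⟩

/-- Satisfaction in the standard structure. -/
def SatN (φ : Fm) (v : ℕ → ℕ) : Prop := @Sat ℕ stdA φ v

/-- The assignment `x, y, 0, 0, ...`. -/
def v2 (x y : ℕ) : ℕ → ℕ := cons x (cons y fun _ => 0)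

/-- The assignment `x, y, w, 0, 0, ...`. -/
def v3 (x y w : ℕ) : ℕ → ℕ := cons x (cons y (cons w fun _ => 0))

/-- Partial recursive functions have `Σ_1` graphs. -/
def S_E : Prop := ∀ f : ℕ →. ℕ, Nat.Partrec f →
  ∃ δ : Fm, Delta0 δ ∧ δ.Bd 3 ∧ ∀ x y, y ∈ f x ↔ ∃ w, SatN δ (v3 x y w)

/-- Bounded formulas define primitive recursive predicates. -/
def S_D0 : Prop := ∀ δ : Fm, Delta0 δ → PrimrecPred fun l : List ℕ => SatN δ fun i => l.getD i 0

/-- A computable enumeration of (at least) the primitive recursive functions. -/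
def S_U : Prop := ∃ U : ℕ → ℕ → ℕ, Computable₂ U ∧
  ∀ f : ℕ → ℕ, Nat.Primrec f → ∃ e, ∀ n, U e n = f n

/-- `c` is a fast growing list above `s`, of length `x + 1`, of diagonal indiscernibles for the
first `x` functions (considered as predicates: the values are capped at `1`). -/
def GoodL (U : ℕ → ℕ → ℕ) (x s : ℕ) (c : List ℕ) : Prop :=
  c.length = x + 1 ∧ (∀ i < c.length, s < c.getD i 0) ∧
  (∀ i, i + 1 < c.length → (c.getD i 0 + 2) * (c.getD i 0 + 2) < c.getD (i + 1) 0) ∧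
  ∀ e < x, ∀ i < c.length, ∀ p < c.getD i 0, ∀ z z' : List ℕ,
    z.Sublist (c.drop (i + 1)) → z'.Sublist (c.drop (i + 1)) → z.length = z'.length →
    min (U e (Nat.pair p (Encodable.encode z))) 1 =
      min (U e (Nat.pair p (Encodable.encode z'))) 1

/-- Good lists exist (Ramsey's theorem). -/
def S_good : Prop := ∀ (U : ℕ → ℕ → ℕ) (x s : ℕ), ∃ c, GoodL U x s c

/-- A function with a bounded graph and good lists between consecutive values. -/
def S_W : Prop := ∀ U : ℕ → ℕ → ℕ, Computable₂ U → ∃ (W : ℕ → ℕ) (δ : Fm),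
  Delta0 δ ∧ δ.Bd 2 ∧ StrictMono W ∧ (∀ x w, SatN δ (v2 x w) ↔ W x ≤ w) ∧
  ∀ x, ∃ c, GoodL U x (W x) c ∧ ∀ a ∈ c, a < W (x + 1)

/-- Truth in the standard structure with the quantifiers bounded by the members of a list. -/
def ev : Fm → List ℕ → (ℕ → ℕ) → Prop
  | .eq s t, _, v => @Tm.val ℕ stdA v s = @Tm.val ℕ stdA v t
  | .lt s t, _, v => @Tm.val ℕ stdA v s < @Tm.val ℕ stdA v t
  | .neg φ, z, v => ¬ ev φ z v
  | .and φ ψ, z, v => ev φ z v ∧ ev ψ z v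
  | .all _, [], _ => True
  | .all φ, b :: z, v => ∀ a < b, ev φ z (cons a v)

/-- The assignment coded by a number. -/
def asg (p i : ℕ) : ℕ := (Nat.unpair ((fun q => (Nat.unpair q).2)^[i] p)).1

/-- Bounded truth is primitive recursive. -/
def S_prE : Prop := ∀ φ : Fm, ∃ f : ℕ → ℕ, Nat.Primrec f ∧
  ∀ (p : ℕ) (z : List ℕ), f (Nat.pair p (Encodable.encode z)) = 1 ↔ ev φ z (asg p)

/-- Models of PA from good lists. -/
def S_cut : Prop := ∀ U : ℕ → ℕ → ℕ, (∀ f : ℕ → ℕ, Nat.Primrec f → ∃ e, ∀ n, U e n = f n) →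
  ∀ (W : ℕ → ℕ) (δ : Fm), Delta0 δ → δ.Bd 2 → StrictMono W →
  (∀ x w, SatN δ (v2 x w) ↔ W x ≤ w) →
  (∀ x, ∃ c, GoodL U x (W x) c ∧ ∀ a ∈ c, a < W (x + 1)) →
  ∀ d : ℕ → ℕ, (∀ N, N ≤ d N) → ∃ (I : Type) (_ : Arith I), IsPA I ∧ ∃ dd : I,
    (∀ x : I, (∃ w : I, Sat δ (cons x (cons w fun _ => (Arith.zero : I)))) ↔ ¬ Lt dd x) ∧
    ∀ θ : Fm, Delta0 θ → θ.Bd 1 → (∀ N, SatN θ fun _ => d N) → Sat θ fun _ => dd

/-- Numbers with given bits. -/
def S_pat : Prop := ∀ (L : ℕ) (r : Set ℕ) (N : ℕ), ∃ d ≥ N, ∀ l < L, (@Bit ℕ stdA d l ↔ l ∈ r)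

end Pool.Agent.N636.SF
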